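import Mathlib

/-!
# The Mazur-Tate elements of an elliptic curve over `ℚ`

Definitions for the rank part of the refined conjecture of Mazur and Tate.
-/

set_option autoImplicit false

namespace Pool.Agent.MT136

open CongruenceSubgroup UpperHalfPlane MeasureTheory

/-- The trace of Frobenius `a_p = p - #{affine points of the reduction mod p}` of an integral
Weierstrass equation. For a minimal equation this is the `p`-th coefficient of the `L`-function
also at the bad primes. -/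
noncomputable def traceFrob (W : WeierstrassCurve ℤ) (p : ℕ) : ℤ :=
  (p : ℤ) - (Nat.card {P : ZMod p × ZMod p // P.2 ^ 2 + (W.a₁ : ZMod p) * P.1 * P.2 +
    (W.a₃ : ZMod p) * P.2 = P.1 ^ 3 + (W.a₂ : ZMod p) * P.1 ^ 2 + (W.a₄ : ZMod p) * P.1 +
    (W.a₆ : ZMod p)} : ℤ)

/-- The `n`-th Fourier coefficient of a cusp form of weight two for `Γ₀(N)`. -/
noncomputable def coeffOf {N : ℕ} (f : CuspForm (Gamma0 N) 2) (n : ℕ) : ℂ :=
  (qExpansion 1 f).coeff n

/-- `f` is the newform of level `N` attached to the elliptic curve with minimal equation `W` and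
conductor `N`: it is normalised, and it is an eigenform of all Hecke operators `T_p` (`U_p` if
`p ∣ N`), with eigenvalue the trace of Frobenius `a_p` of `W`. -/
structure IsNewformOf (W : WeierstrassCurve ℤ) (N : ℕ) (f : CuspForm (Gamma0 N) 2) : Prop where
  coeff_one : coeffOf f 1 = 1
  hecke : ∀ p : ℕ, p.Prime → ∀ n : ℕ, coeffOf f (p * n) =
    (traceFrob W p : ℂ) * coeffOf f n -
      (if p ∣ N then 0 else if p ∣ n then (p : ℂ) * coeffOf f (n / p) else 0)

/-- The integral `λ(r) = 2πi ∫_{i∞}^r f(z) dz = 2π ∫_0^∞ f(r + it) dt`, for `r` rational. -/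
noncomputable def lam {N : ℕ} (f : CuspForm (Gamma0 N) 2) (r : ℚ) : ℂ :=
  2 * Real.pi * ∫ t in Set.Ioi (0 : ℝ), f (ofComplex ((r : ℂ) + t * Complex.I))

/-- The polynomial `4x³ + b₂x² + 2b₄x + b₆ = (2y + a₁x + a₃)²` of a Weierstrass equation. -/
noncomputable def psi (W : WeierstrassCurve ℤ) (x : ℝ) : ℝ :=
  4 * x ^ 3 + (W.b₂ : ℝ) * x ^ 2 + 2 * (W.b₄ : ℝ) * x + (W.b₆ : ℝ)

/-- The real period `Ω⁺`, the integral of the Néron differential `dx / (2y + a₁x + a₃)` of a
minimal equation over `E(ℝ)`. -/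
noncomputable def realPeriod (W : WeierstrassCurve ℤ) : ℝ :=
  ∫ x in {x : ℝ | 0 < psi W x}, 2 / √(psi W x)

/-- The symbol `[r]⁺ = (λ(r) + λ(-r)) / (2Ω⁺)`. -/
noncomputable def symbol (W : WeierstrassCurve ℤ) {N : ℕ} (f : CuspForm (Gamma0 N) 2) (r : ℚ) :
    ℂ :=
  (lam f r + lam f (-r)) / (2 * (realPeriod W : ℂ))

/-- The augmentation ideal `I_S` of the group ring `R[G_S]`, `G_S = (ℤ/S)ˣ`. -/
noncomputable def augIdeal (R : Subring ℚ) (S : ℕ) : Ideal (MonoidAlgebra R (ZMod S)ˣ) :=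
  RingHom.ker (MonoidAlgebra.lift R R (ZMod S)ˣ 1 : MonoidAlgebra R (ZMod S)ˣ →ₐ[R] R)

/-- The prime `p` is a prime of split multiplicative reduction of a Weierstrass equation which is
minimal at `p`: the reduction is nodal, and the tangent directions at the node are rational over
the field with `p` elements. -/
def IsSplitAt (W : WeierstrassCurve ℤ) (p : ℕ) : Prop :=
  (p : ℤ) ∣ W.Δ ∧ ¬ (p : ℤ) ∣ W.c₄ ∧
    ∃ t : ZMod p, (W.c₄ : ZMod p) * t ^ 2 + ((W.a₁ * W.c₄ : ℤ) : ZMod p) * t =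
      ((54 * W.b₆ - 3 * W.b₂ * W.b₄ + W.a₂ * W.c₄ : ℤ) : ZMod p)

open Classical in
/-- The number `sp(S)` of primes dividing `S` of split multiplicative reduction. -/
noncomputable def sp (W : WeierstrassCurve ℤ) (S : ℕ) : ℕ :=
  (S.primeFactors.filter (IsSplitAt W)).card

/-- A Weierstrass equation over `ℤ` is (globally) minimal if no integral equation of an
isomorphic curve over `ℚ` has smaller discriminant. -/
def IsGlobalMinimal (W : WeierstrassCurve ℤ) : Prop :=
  W.Δ ≠ 0 ∧ ∀ (C : WeierstrassCurve.VariableChange ℚ) (W' : WeierstrassCurve ℤ),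
    W'.map (Int.castRingHom ℚ) = C • W.map (Int.castRingHom ℚ) → |W.Δ| ≤ |W'.Δ|

/-- All Mazur-Tate elements `θ_S = ∑ [a/S]⁺ σ_a` have coefficients in the subring `R`. -/
def HasCoeffsIn (W : WeierstrassCurve ℤ) {N : ℕ} (f : CuspForm (Gamma0 N) 2) (R : Subring ℚ) :
    Prop :=
  ∀ S : ℕ, 0 < S → ∀ a : (ZMod S)ˣ, ∃ c ∈ R, symbol W f ((a.val.val : ℚ) / S) = (c : ℂ)

/-- The element `θ` of `R[G_S]` is the Mazur-Tate element `θ_S`. -/
def IsTheta (W : WeierstrassCurve ℤ) {N : ℕ} (f : CuspForm (Gamma0 N) 2) (R : Subring ℚ) (S : ℕ)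
    (θ : MonoidAlgebra R (ZMod S)ˣ) : Prop :=
  ∀ a : (ZMod S)ˣ, (((θ.coeff a : R) : ℚ) : ℂ) = symbol W f ((a.val.val : ℚ) / S)

/-- The rank part of the Mazur-Tate conjecture for the elliptic curve with minimal equation `W`
and attached newform `f`: for every subring `R` of `ℚ` such that all `θ_S` have coefficients in
`R`, and for every `S`, the element `θ_S` lies in the power `r_E + sp(S)` of the augmentation
ideal, where `r_E` is the rank of `E(ℚ)`. -/
def RankPart (W : WeierstrassCurve ℤ) {N : ℕ} (f : CuspForm (Gamma0 N) 2) : Prop :=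
  ∀ R : Subring ℚ, HasCoeffsIn W f R → ∀ S : ℕ, 0 < S →
    ∀ θ : MonoidAlgebra R (ZMod S)ˣ, IsTheta W f R S θ →
      ∀ r : ℕ, (r : Cardinal) ≤ Module.rank ℤ (W.map (Int.castRingHom ℚ)).toAffine.Point →
        θ ∈ augIdeal R S ^ (r + sp W S)

/-- The curve `y² = x³ + x² + 16x + 16` of conductor `136`. -/
def E136 : WeierstrassCurve ℤ := ⟨0, 1, 0, 16, 16⟩

end Pool.Agent.MT136
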