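import Mathlib
import Pool.Agent.MT136.Defs

/-!
# Arithmetic of the curve `y² = x³ + x² + 16x + 16`

It has positive rank, split multiplicative reduction at `17`, and the equation is minimal.
-/

set_option autoImplicit false

namespace Pool.Agent.MT136

open WeierstrassCurve

/-! ### Split multiplicative reduction -/

private theorem e136_Δ : E136.Δ = -295936 := by
  simp only [E136, WeierstrassCurve.Δ, WeierstrassCurve.b₂, WeierstrassCurve.b₄,
    WeierstrassCurve.b₆, WeierstrassCurve.b₈]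
  norm_num

private theorem e136_c₄ : E136.c₄ = -752 := by
  simp only [E136, WeierstrassCurve.c₄, WeierstrassCurve.b₂, WeierstrassCurve.b₄]
  norm_num

private theorem e136_b₂ : E136.b₂ = 4 := by
  simp only [E136, WeierstrassCurve.b₂]
  norm_num

private theorem e136_b₄ : E136.b₄ = 32 := by
  simp only [E136, WeierstrassCurve.b₄]
  norm_num

private theorem e136_b₆ : E136.b₆ = 64 := by
  simp only [E136, WeierstrassCurve.b₆]
  norm_num

theorem split17 : IsSplitAt E136 17 := by
  refine ⟨?_, ?_, 7, ?_⟩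
  · rw [e136_Δ]; norm_num
  · rw [e136_c₄]; norm_num
  · rw [e136_c₄, e136_b₂, e136_b₄, e136_b₆]
    have h1 : E136.a₁ = 0 := rfl
    have h2 : E136.a₂ = 1 := rfl
    rw [h1, h2]
    decide +kernel

/-! ### Minimality -/

theorem minimal136 : IsGlobalMinimal E136 := by
  refine ⟨by rw [e136_Δ]; norm_num, fun C W' h => ?_⟩
  have h1 : ((W'.Δ : ℤ) : ℚ) = ((C.u⁻¹ : ℚˣ) : ℚ) ^ 12 * ((E136.Δ : ℤ) : ℚ) := by
    have h2 := congrArg WeierstrassCurve.Δ h
    rw [WeierstrassCurve.variableChange_Δ, WeierstrassCurve.map_Δ, WeierstrassCurve.map_Δ] at h2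
    exact h2
  have hx0 : ((C.u⁻¹ : ℚˣ) : ℚ) ≠ 0 := (C.u⁻¹).ne_zero
  generalize ((C.u⁻¹ : ℚˣ) : ℚ) = x at h1 hx0
  rw [e136_Δ] at h1 ⊢
  generalize W'.Δ = n at h1
  -- `x = a / b`
  have hb : (x.den : ℤ) ∣ 1 := by
    have h2 : x.num ^ 12 * 295936 = -n * (x.den : ℤ) ^ 12 := by
      have h3 : x = (x.num : ℚ) / (x.den : ℚ) := (Rat.num_div_den x).symm
      have hd : (x.den : ℚ) ≠ 0 := by exact_mod_cast x.den_ne_zero
      rw [h3] at h1
      field_simp at h1
      have h4 : ((n : ℚ)) * (x.den : ℚ) ^ 12 = (x.num : ℚ) ^ 12 * (-295936) := by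
        push_cast at h1
        linarith
      have h5 : n * (x.den : ℤ) ^ 12 = x.num ^ 12 * (-295936) := by exact_mod_cast h4
      linarith
    have hcop : IsCoprime ((x.den : ℤ) ^ 12) (x.num ^ 12) := by
      apply IsCoprime.pow
      rw [Int.isCoprime_iff_gcd_eq_one]
      have := x.reduced
      rw [Nat.Coprime] at this
      rw [Int.gcd_comm]
      simpa [Int.gcd] using this
    have h6 : (x.den : ℤ) ^ 12 ∣ 295936 := by
      apply hcop.dvd_of_dvd_mul_left
      exact ⟨-n, by rw [h2]; ring⟩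
    have h7 : (x.den) ^ 12 ∣ 295936 := by exact_mod_cast h6
    have h8 : x.den < 3 := by
      by_contra hc
      push Not at hc
      have h9 : 3 ^ 12 ≤ x.den ^ 12 := Nat.pow_le_pow_left hc 12
      have h10 := Nat.le_of_dvd (by norm_num) h7
      norm_num at h9
      omega
    have h9 : x.den ≠ 0 := x.den_ne_zero
    have h10 : x.den = 1 ∨ x.den = 2 := by omega
    rcases h10 with h10 | h10
    · rw [h10]; norm_num
    · rw [h10] at h7
      norm_num at h7
  have hden : x.den = 1 := by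
    have := Int.eq_one_of_dvd_one (by positivity) hb
    exact_mod_cast this
  have hx : x = (x.num : ℚ) := by
    conv_lhs => rw [← Rat.num_div_den x, hden]
    simp
  have hnum : x.num ≠ 0 := by
    intro h0
    exact hx0 (Rat.num_eq_zero.1 h0)
  rw [hx] at h1
  have h11 : n = x.num ^ 12 * (-295936) := by exact_mod_cast h1
  rw [h11, abs_mul]
  have h12 : (1 : ℤ) ≤ |x.num ^ 12| := Int.one_le_abs (pow_ne_zero _ hnum)
  have h13 : |(-295936 : ℤ)| = 295936 := by norm_num
  rw [h13]
  linarith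

/-! ### A point of infinite order -/

/-- The curve over `ℚ`. -/
private abbrev EQ : WeierstrassCurve.Affine ℚ := (E136.map (Int.castRingHom ℚ)).toAffine

private theorem EQ_a₁ : EQ.a₁ = 0 := by
  show ((0 : ℤ) : ℚ) = 0
  norm_num

private theorem EQ_a₂ : EQ.a₂ = 1 := by
  show ((1 : ℤ) : ℚ) = 1
  norm_num

private theorem EQ_a₃ : EQ.a₃ = 0 := by
  show ((0 : ℤ) : ℚ) = 0
  norm_num

private theorem EQ_a₄ : EQ.a₄ = 16 := by
  show ((16 : ℤ) : ℚ) = 16
  norm_num

private theorem EQ_a₆ : EQ.a₆ = 16 := by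
  show ((16 : ℤ) : ℚ) = 16
  norm_num

/-- The denominator of `x` is exactly divisible by `2 ^ m`. -/
private def Ex (m : ℕ) (x : ℚ) : Prop :=
  ∃ A B : ℤ, Odd A ∧ Odd B ∧ x * (2 ^ m * (B : ℚ)) = A

private theorem Ex.unique {m n : ℕ} {x : ℚ} (hm : Ex m x) (hn : Ex n x) : m = n := by
  obtain ⟨A, B, hA, hB, h⟩ := hm
  obtain ⟨A', B', hA', hB', h'⟩ := hn
  have key : A' * (2 ^ m * B) = A * (2 ^ n * B') := by
    have : (A' : ℚ) * (2 ^ m * B) = A * (2 ^ n * B') := by
      rw [← h, ← h']; ring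
    exact_mod_cast this
  -- compare the exponents of two
  rcases lt_trichotomy m n with hlt | heq | hgt
  · exfalso
    obtain ⟨k, rfl⟩ := Nat.exists_eq_add_of_lt hlt
    have h2 : A' * B = 2 * (A * 2 ^ k * B') := by
      have h3 : (2 : ℤ) ^ m * (A' * B) = 2 ^ m * (2 * (A * 2 ^ k * B')) := by
        calc (2 : ℤ) ^ m * (A' * B) = A' * (2 ^ m * B) := by ring
          _ = A * (2 ^ (m + k + 1) * B') := key
          _ = 2 ^ m * (2 * (A * 2 ^ k * B')) := by ring
      exact mul_left_cancel₀ (pow_ne_zero _ (by norm_num)) h3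
    have h4 : Odd (A' * B) := hA'.mul hB
    rw [h2] at h4
    exact (Int.not_odd_iff_even.2 (even_two_mul _)) h4
  · exact heq
  · exfalso
    obtain ⟨k, rfl⟩ := Nat.exists_eq_add_of_lt hgt
    have h2 : A * B' = 2 * (A' * 2 ^ k * B) := by
      have h3 : (2 : ℤ) ^ n * (A * B') = 2 ^ n * (2 * (A' * 2 ^ k * B)) := by
        calc (2 : ℤ) ^ n * (A * B') = A * (2 ^ n * B') := by ring
          _ = A' * (2 ^ (n + k + 1) * B) := key.symm
          _ = 2 ^ n * (2 * (A' * 2 ^ k * B)) := by ring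
      exact mul_left_cancel₀ (pow_ne_zero _ (by norm_num)) h3
    have h4 : Odd (A * B') := hA.mul hB'
    rw [h2] at h4
    exact (Int.not_odd_iff_even.2 (even_two_mul _)) h4

/-- Doubling. -/
private theorem double_x (x y : ℚ) (h : EQ.Nonsingular x y) (m : ℕ) (hm : 1 ≤ m) (hx : Ex m x) :
    ∃ (x' y' : ℚ) (h' : EQ.Nonsingular x' y'),
      Affine.Point.some x y h + Affine.Point.some x y h = Affine.Point.some x' y' h' ∧
        Ex (m + 2) x' := by
  obtain ⟨A, B, hA, hB, hAB⟩ := hx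
  obtain ⟨k, rfl⟩ := Nat.exists_eq_add_of_le' hm
  have heq : y ^ 2 = x ^ 3 + x ^ 2 + 16 * x + 16 := by
    have h1 := h.1
    rw [Affine.equation_iff, EQ_a₁, EQ_a₂, EQ_a₃, EQ_a₄, EQ_a₆] at h1
    linarith
  -- the denominator
  set d : ℤ := 2 ^ (k + 1) * B with hd
  have hB0 : B ≠ 0 := by rintro rfl; exact absurd hB (by decide)
  have hd0 : d ≠ 0 := mul_ne_zero (pow_ne_zero _ (by norm_num)) hB0
  have hd0' : (d : ℚ) ≠ 0 := by exact_mod_cast hd0
  have hxd : x = A / d := by
    rw [eq_div_iff hd0', hd]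
    push_cast
    exact hAB
  have hdeven : Even d := by
    rw [hd, pow_succ]
    exact ((even_two.mul_left (2 ^ k)).mul_right B)
  -- the odd number in the denominator of the double
  set e : ℤ := A ^ 3 + A ^ 2 * d + 16 * A * d ^ 2 + 16 * d ^ 3 with he
  have heodd : Odd e := by
    have h1 : Odd (A ^ 3) := hA.pow
    have h2 : Even (A ^ 2 * d) := hdeven.mul_left _
    have h3 : Even (16 * A * d ^ 2) := ((by decide : Even (16 : ℤ)).mul_right A).mul_right _
    have h4 : Even (16 * d ^ 3) := (by decide : Even (16 : ℤ)).mul_right _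
    rw [he]
    exact ((h1.add_even h2).add_even h3).add_even h4
  have he0 : (e : ℚ) ≠ 0 := by
    intro h0
    have : e = 0 := by exact_mod_cast h0
    rw [this] at heodd
    exact absurd heodd (by decide)
  have hpoly : x ^ 3 + x ^ 2 + 16 * x + 16 = e / (d : ℚ) ^ 3 := by
    rw [hxd, he]
    push_cast
    field_simp
  have hy0 : y ≠ 0 := by
    rintro rfl
    rw [hpoly] at heq
    have : (e : ℚ) / (d : ℚ) ^ 3 ≠ 0 := div_ne_zero he0 (pow_ne_zero _ hd0')
    apply this
    rw [← heq]; norm_num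
  have hneg : y ≠ EQ.negY x y := by
    rw [Affine.negY, EQ_a₁, EQ_a₃]
    intro h0
    apply hy0
    linarith
  refine ⟨_, _, _, Affine.Point.add_self_of_Y_ne hneg, ?_⟩
  rw [Affine.slope_of_Y_ne rfl hneg, Affine.addX, Affine.negY, EQ_a₁, EQ_a₂, EQ_a₃, EQ_a₄]
  refine ⟨A ^ 4 - 32 * A ^ 2 * d ^ 2 - 128 * A * d ^ 3 + 192 * d ^ 4, B * e, ?_, hB.mul heodd, ?_⟩
  · have h1 : Odd (A ^ 4) := hA.pow
    have h2 : Even (32 * A ^ 2 * d ^ 2) := ((by decide : Even (32 : ℤ)).mul_right _).mul_right _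
    have h3 : Even (128 * A * d ^ 3) := ((by decide : Even (128 : ℤ)).mul_right _).mul_right _
    have h4 : Even (192 * d ^ 4) := (by decide : Even (192 : ℤ)).mul_right _
    exact ((h1.sub_even h2).sub_even h3).add_even h4
  · have hs : ((3 * x ^ 2 + 2 * 1 * x + 16 - 0 * y) / (y - (-y - 0 * x - 0))) ^ 2 =
        (3 * x ^ 2 + 2 * x + 16) ^ 2 / (4 * (x ^ 3 + x ^ 2 + 16 * x + 16)) := by
      rw [← heq, div_pow]
      congr 1 <;> ring
    have h2 : (2 : ℚ) ^ (k + 1 + 2) * ((B * e : ℤ) : ℚ) = 4 * d * e := by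
      rw [hd]; push_cast; ring
    rw [h2, hs, hpoly]
    rw [hxd]
    have h3 : (e : ℚ) = A ^ 3 + A ^ 2 * d + 16 * A * d ^ 2 + 16 * d ^ 3 := by
      rw [he]; push_cast; ring
    push_cast
    field_simp
    rw [h3]
    ring

/-- A point of infinite order. -/
private theorem nonsing0 : EQ.Nonsingular (-399 / 400) (1649 / 8000) := by
  rw [Affine.nonsingular_iff, Affine.equation_iff, EQ_a₁, EQ_a₂, EQ_a₃, EQ_a₄, EQ_a₆]
  refine ⟨by norm_num, Or.inr ?_⟩
  norm_num

private theorem multiples (k : ℕ) : ∃ (x y : ℚ) (h : EQ.Nonsingular x y),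
    (2 ^ k) • (Affine.Point.some (-399 / 400) (1649 / 8000) nonsing0 : EQ.Point) =
      Affine.Point.some x y h ∧ Ex (4 + 2 * k) x := by
  induction k with
  | zero =>
    refine ⟨_, _, nonsing0, by simp, -399, 25, by decide, by decide, by norm_num⟩
  | succ k ih =>
    obtain ⟨x, y, h, h1, h2⟩ := ih
    obtain ⟨x', y', h', h3, h4⟩ := double_x x y h (4 + 2 * k) (by omega) h2
    refine ⟨x', y', h', ?_, ?_⟩
    · rw [pow_succ, mul_comm (2 ^ k) 2, mul_smul, two_nsmul, h1]
      exact h3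
    · have : 4 + 2 * (k + 1) = 4 + 2 * k + 2 := by ring
      rw [this]
      exact h4

private theorem not_finite_order :
    ¬ IsOfFinAddOrder (Affine.Point.some (-399 / 400) (1649 / 8000) nonsing0 : EQ.Point) := by
  intro hfin
  rw [← finite_multiples] at hfin
  set Q : EQ.Point := Affine.Point.some (-399 / 400) (1649 / 8000) nonsing0 with hQ
  have hinj : Function.Injective fun k : ℕ => (2 ^ k) • Q := by
    intro k l hkl
    obtain ⟨x, y, h, h1, h2⟩ := multiples k
    obtain ⟨x', y', h', h3, h4⟩ := multiples l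
    have h5 : Affine.Point.some x y h = Affine.Point.some x' y' h' := by
      rw [← h1, ← h3]; exact hkl
    have h6 : x = x' := by
      injection h5
    rw [h6] at h2
    have := h2.unique h4
    omega
  have hinf : (Set.range fun k : ℕ => (2 ^ k) • Q).Infinite := Set.infinite_range_of_injective hinj
  apply hinf
  apply hfin.subset
  rintro _ ⟨k, rfl⟩
  exact ⟨2 ^ k, rfl⟩

theorem rank_pos : (1 : Cardinal) ≤
    Module.rank ℤ (E136.map (Int.castRingHom ℚ)).toAffine.Point := by
  set Q : EQ.Point := Affine.Point.some (-399 / 400) (1649 / 8000) nonsing0 with hQ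
  have hli : LinearIndependent ℤ (fun _ : Unit => Q) := by
    rw [Fintype.linearIndependent_iff]
    intro g hg i
    rw [Fintype.sum_unique] at hg
    by_contra hne
    apply not_finite_order
    rw [← hQ, isOfFinAddOrder_iff_zsmul_eq_zero]
    exact ⟨g default, hne, hg⟩
  have h := hli.cardinal_le_rank
  simpa using h

end Pool.Agent.MT136
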