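import Mathlib
import Pool.Agent.MT136.Defs

/-!
# Auxiliary functions for the curve of conductor 136
-/

set_option autoImplicit false

namespace Pool.Agent.MT136

open CongruenceSubgroup UpperHalfPlane

/-- `d E₂(dτ)`. -/
noncomputable def E2d (d : ℕ) (τ : ℍ) : ℂ := d * EisensteinSeries.E2 (ofComplex ((d : ℂ) * τ))

/-- First Eisenstein series. -/
noncomputable def al (τ : ℍ) : ℂ := (E2d 2 τ - E2d 4 τ + E2d 34 τ - E2d 68 τ) / 12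

/-- Second Eisenstein series. -/
noncomputable def be (τ : ℍ) : ℂ := (E2d 2 τ + E2d 4 τ - E2d 34 τ - E2d 68 τ) / 48

/-- Third Eisenstein series. -/
noncomputable def ga (τ : ℍ) : ℂ := (E2d 2 τ - E2d 4 τ - E2d 34 τ + E2d 68 τ) / 16

/-- `σ₁(n/d)`, zero if `d` does not divide `n`. -/
def sg (n d : ℕ) : ℤ := if d ∣ n then (ArithmeticFunction.sigma 1 (n / d) : ℤ) else 0

/-- Coefficients of `al`. -/
def alc (n : ℕ) : ℤ := if n = 0 then -3 else -4 * sg n 2 + 8 * sg n 4 - 68 * sg n 34 + 136 * sg n 68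

/-- Coefficients of `be`. -/
def bec (n : ℕ) : ℤ := if n = 0 then -2 else -sg n 2 - 2 * sg n 4 + 17 * sg n 34 + 34 * sg n 68

/-- Coefficients of `ga`. -/
def gac (n : ℕ) : ℤ := if n = 0 then 2 else -3 * sg n 2 + 6 * sg n 4 + 51 * sg n 34 - 102 * sg n 68

/-- The numerator of the modular function `x`. -/
noncomputable def hh (f : ℍ → ℂ) (τ : ℍ) : ℂ :=
  -102 * f τ ^ 2 + 12 * al τ ^ 2 + 126 * ga τ ^ 2

/-- The denominator of the modular function `x`. -/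
noncomputable def gg (f : ℍ → ℂ) (τ : ℍ) : ℂ :=
  476 * f τ ^ 2 + 8 * al τ ^ 2 - 17 * be τ ^ 2 - ga τ ^ 2

/-- The first Fourier coefficients of the newform of level `136`. -/
def tbl : List ℤ := 
  [0, 1, 0, -2, 0, -2, 0, -2, 0, 1, 0, -6, 0, 2, 0, 4, 0, 1, 0, 0, 0, 4, 0, 6, 0, -1, 0, 4, 0,
    -10, 0, 2, 0, 12, 0, 4, 0, 6, 0, -4, 0, -6, 0, -8, 0, -2, 0, 0, 0, -3, 0, -2, 0, -10, 0, 12,
    0, 0, 0, -8, 0, 14, 0, -2, 0, -4, 0, 4, 0, -12, 0, 2, 0, -14, 0, 2, 0, 12, 0, -10, 0, -11, 0,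
    8, 0, -2, 0, 20, 0, -10, 0, -4, 0, -4, 0, 0, 0, 2, 0, -6, 0, 10, 0, 8, 0, -8, 0, -18, 0, 6,
    0, -12, 0, 10, 0, -12, 0, 2, 0, -2, 0, 25, 0, 12, 0, 12, 0, 4, 0, 16, 0, 14, 0, 0, 0, -8, 0,
    6, 0, 14, 0, 0, 0, -12, 0, 20, 0, 6, 0, -10, 0, -12, 0, 1, 0, -4, 0, -2, 0, 20, 0, -12, 0,
    -22, 0, -24, 0, -6, 0, -9, 0, 0, 0, 6, 0, 2, 0, 16, 0, 8, 0, -2, 0, -28, 0, -12, 0, -6, 0,
    -8, 0, 0, 0, -6, 0, 8, 0, -10, 0, -14, 0, -8, 0, 20, 0, 12, 0, 6, 0, 0, 0, -6, 0, -4, 0, 16,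
    0, -4, 0, 28, 0, 2, 0, -12, 0, -1, 0, 2, 0, -14, 0, -24, 0, 10, 0, 0, 0, 20, 0, -8, 0, -22,
    0, 10, 0, 6, 0, 0, 0, -16, 0, 20, 0, -36, 0, 4, 0, 6, 0, -12, 0, -10, 0, 12, 0, 20, 0, 20, 0,
    14, 0, -8, 0, 8, 0, 6, 0, 22, 0, 2, 0, 10, 0, -22, 0, 0, 0, 12, 0, 1, 0, -4, 0, 6, 0, 16, 0,
    -24, 0, 12, 0, 16, 0, -20, 0, -28, 0, 12, 0, -16, 0, -30, 0, -6, 0, 4, 0, 22, 0, 60, 0, 36,
    0, 0, 0, -2, 0, -12, 0, 0, 0, 8, 0, 6, 0, -8, 0, 2, 0, -20, 0, -12, 0, 20, 0, 24, 0, -6, 0,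
    -34, 0, 8, 0, 18, 0, -4, 0, 4, 0, 12, 0, -19]

/-- The Fourier coefficients of `f` are the integers `A n`, with known first values. -/
structure Data (f : CuspForm (Gamma0 136) 2) (A : ℕ → ℤ) : Prop where
  coeff : ∀ n, coeffOf f n = (A n : ℂ)
  zero : A 0 = 0
  bound : ∀ n, |A n| ≤ (n : ℤ) ^ 2
  table : ∀ n < 362, A n = tbl.getD n 0

/-- The primitive `∑ aₙ/n qⁿ` of `f`. -/
noncomputable def prim (f : CuspForm (Gamma0 136) 2) (τ : ℍ) : ℂ :=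
  ∑' n : ℕ, coeffOf f n / n * Complex.exp (2 * Real.pi * Complex.I * n * τ)

/-- The action of an integral matrix `(a, b; c, d)` on `ℂ` -/
noncomputable def mob (a b c d : ℤ) (z : ℂ) : ℂ := (a * z + b) / (c * z + d)

/-- The elliptic fixed point `6/17 + i/(17√8)`. -/
noncomputable def tauW : ℍ := ⟨6 / 17 + (1 / (17 * √8) : ℝ) * Complex.I, by

  simp⟩

end Pool.Agent.MT136
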