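import Mathlib
import Pool.Agent.MT136.Defs
import Pool.Agent.MT136.Core

/-!
# The bracket `Dh g - h Dg` of two modular forms of the same weight
-/

set_option autoImplicit false

namespace Pool.Agent.MT136

open CongruenceSubgroup UpperHalfPlane Filter Topology
open scoped Manifold MatrixGroups ModularForm

namespace BracketAux

open Derivative

/-- Cauchy estimate: the derivative of a holomorphic function bounded at `i∞` is bounded there. -/
theorem D_bdd {F : ℍ → ℂ} (hF : MDiff F) (hb : IsBoundedAtImInfty F) :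
    IsBoundedAtImInfty (Derivative.normalizedDerivOfComplex F) := by
  rw [isBoundedAtImInfty_iff] at hb ⊢
  obtain ⟨M, A, hM⟩ := hb
  refine ⟨‖(2 * Real.pi * Complex.I : ℂ)⁻¹‖ * (M / 1), max A 0 + 2, fun z hz => ?_⟩
  have hz1 : A + 1 < z.im := by linarith [le_max_left A 0]
  have hz2 : 1 < z.im := by linarith [le_max_right A 0]
  have hmem : ∀ w ∈ Metric.closedBall (z : ℂ) 1, A < w.im ∧ 0 < w.im := by
    intro w hw
    have h1 : |(w - z).im| ≤ 1 := (Complex.abs_im_le_norm _).trans (by
      simpa [dist_eq_norm] using hw)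
    rw [Complex.sub_im, abs_le] at h1
    have : (z : ℂ).im = z.im := rfl
    constructor <;> linarith [h1.1]
  have hdiff : DifferentiableOn ℂ (F ∘ ofComplex) {w : ℂ | 0 < w.im} :=
    UpperHalfPlane.mdifferentiable_iff.mp hF
  have hd : DiffContOnCl ℂ (F ∘ ofComplex) (Metric.ball (z : ℂ) 1) := by
    apply DifferentiableOn.diffContOnCl
    refine hdiff.mono ?_
    intro w hw
    exact (hmem w (Metric.closure_ball_subset_closedBall hw)).2
  have hC : ∀ w ∈ Metric.sphere (z : ℂ) 1, ‖(F ∘ ofComplex) w‖ ≤ M := by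
    intro w hw
    have h1 := hmem w (Metric.sphere_subset_closedBall hw)
    rw [Function.comp_apply, ofComplex_apply_of_im_pos h1.2]
    exact hM _ h1.1.le
  have := Complex.norm_deriv_le_of_forall_mem_sphere_norm_le one_pos hd hC
  rw [Derivative.normalizedDerivOfComplex, norm_mul]
  gcongr

/-- The bracket of two functions. -/
noncomputable def br (F G : ℍ → ℂ) : ℍ → ℂ :=
  Derivative.normalizedDerivOfComplex F * G - F * Derivative.normalizedDerivOfComplex G

theorem br_slash {k : ℤ} {F G : ℍ → ℂ} (hF : MDiff F) (hG : MDiff G) (γ : SL(2, ℤ)) :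
    (br F G) ∣[2 * k + 2] γ = br (F ∣[k] γ) (G ∣[k] γ) := by
  have h1 := Derivative.normalizedDerivOfComplex_SL_slash (k := k) hF (γ := γ)
  have h2 := Derivative.normalizedDerivOfComplex_SL_slash (k := k) hG (γ := γ)
  have e1 : (Derivative.normalizedDerivOfComplex F * G) ∣[2 * k + 2] γ =
      (Derivative.normalizedDerivOfComplex F ∣[k + 2] γ) * (G ∣[k] γ) := by
    rw [← ModularForm.mul_slash_SL2]
    congr 1
    ring
  have e2 : (F * Derivative.normalizedDerivOfComplex G) ∣[2 * k + 2] γ =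
      (F ∣[k] γ) * (Derivative.normalizedDerivOfComplex G ∣[k + 2] γ) := by
    rw [← ModularForm.mul_slash_SL2]
    congr 1
    ring
  rw [br, sub_eq_add_neg, SlashAction.add_slash, SlashAction.neg_slash, e1, e2, br, h1, h2]
  ext z
  simp only [Pi.add_apply, Pi.neg_apply, Pi.mul_apply, Pi.sub_apply]
  ring

theorem br_mdiff {F G : ℍ → ℂ} (hF : MDiff F) (hG : MDiff G) : MDiff (br F G) :=
  ((Derivative.normalizedDerivOfComplex_mdifferentiable hF).mul hG).sub
    (hF.mul (Derivative.normalizedDerivOfComplex_mdifferentiable hG))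

theorem br_bdd {F G : ℍ → ℂ} (hF : MDiff F) (hG : MDiff G) (hF' : IsBoundedAtImInfty F)
    (hG' : IsBoundedAtImInfty G) : IsBoundedAtImInfty (br F G) := by
  have := ((D_bdd hF hF').mul hG').sub (hF'.mul (D_bdd hG hG'))
  simpa [IsBoundedAtImInfty, BoundedAtFilter, br] using! this


theorem slash_mdiff {k : ℤ} {F : ℍ → ℂ} (hF : MDiff F) (γ : SL(2, ℤ)) : MDiff (F ∣[k] γ) := by
  rw [ModularForm.SL_slash]
  exact hF.slash k _

theorem one_mem_period (N : ℕ) :
    (1 : ℝ) ∈ ((Gamma0 N : Subgroup (GL (Fin 2) ℝ))).strictPeriods := by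
  rw [strictPeriods_Gamma0]
  exact AddSubgroup.mem_zmultiples 1

theorem br_modular {N : ℕ} [NeZero N] (k : ℤ) (M₁ M₂ : ModularForm (Gamma0 N) k) :
    ∃ M : ModularForm (Gamma0 N) (2 * k + 2), ⇑M = br M₁ M₂ := by
  have h1 := ModularFormClass.holo M₁
  have h2 := ModularFormClass.holo M₂
  refine ⟨{ toFun := br M₁ M₂
            slash_action_eq' := ?_
            holo' := br_mdiff h1 h2
            bdd_at_cusps' := ?_ }, rfl⟩
  · rintro _ ⟨γ, hγ, rfl⟩
    have e := br_slash (k := k) h1 h2 γ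
    have e1 : (⇑M₁ ∣[k] γ) = M₁ := SlashInvariantFormClass.slash_action_eq M₁ _ ⟨γ, hγ, rfl⟩
    have e2 : (⇑M₂ ∣[k] γ) = M₂ := SlashInvariantFormClass.slash_action_eq M₂ _ ⟨γ, hγ, rfl⟩
    rw [e1, e2] at e
    exact e
  · intro c hc
    rw [Subgroup.IsArithmetic.isCusp_iff_isCusp_SL2Z] at hc
    rw [OnePoint.isBoundedAt_iff_forall_SL2Z hc]
    intro γ _
    rw [br_slash (k := k) h1 h2 γ]
    exact br_bdd (slash_mdiff h1 γ) (slash_mdiff h2 γ) (ModularFormClass.bdd_at_infty_slash M₁ γ)
      (ModularFormClass.bdd_at_infty_slash M₂ γ)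

/-- `q`-expansion of the derivative. -/
theorem hasSum_D {F : ℍ → ℂ} (hper : Function.Periodic (F ∘ ofComplex) (1 : ℝ)) (hF : MDiff F)
    (hb : IsBoundedAtImInfty F) (τ : ℍ) :
    HasSum (fun m : ℕ => ((m : ℂ) * (qExpansion 1 F).coeff m) • Function.Periodic.qParam 1 τ ^ m)
      (Derivative.normalizedDerivOfComplex F τ) := by
  set q : ℂ := Function.Periodic.qParam 1 τ with hq
  have hq1 : ‖q‖ < 1 := Function.Periodic.norm_qParam_lt_one one_pos τ.im_pos
  set Φ : ℂ → ℂ := cuspFunction 1 F with hΦ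
  have hd : DifferentiableOn ℂ Φ (Metric.ball 0 1) :=
    differentiableOn_cuspFunction_ball one_pos hper hF hb
  have hq0 : q ∈ Metric.ball (0 : ℂ) 1 := by simpa using hq1
  have hcomp : F ∘ ofComplex = Φ ∘ (Function.Periodic.qParam 1) := by
    funext w
    exact (Function.Periodic.eq_cuspFunction one_ne_zero hper w).symm
  have hΦ' : HasDerivAt Φ (deriv Φ q) q :=
    (hd.differentiableAt (Metric.isOpen_ball.mem_nhds hq0)).hasDerivAt
  have hqd : HasDerivAt (Function.Periodic.qParam 1) (2 * Real.pi * Complex.I * q) (τ : ℂ) := by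
    have h1 : HasDerivAt (fun z : ℂ => 2 * Real.pi * Complex.I * z / ((1 : ℝ) : ℂ))
        (2 * Real.pi * Complex.I) (τ : ℂ) := by
      have := ((hasDerivAt_id (τ : ℂ)).const_mul (2 * Real.pi * Complex.I)).div_const ((1 : ℝ) : ℂ)
      simpa using this
    have h2 := h1.cexp
    have h3 : (Function.Periodic.qParam 1) =
        fun z : ℂ => Complex.exp (2 * Real.pi * Complex.I * z / ((1 : ℝ) : ℂ)) := rfl
    rw [h3, hq, mul_comm (2 * (Real.pi : ℂ) * Complex.I) (Function.Periodic.qParam 1 τ)]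
    exact h2
  have hder : deriv (F ∘ ofComplex) (τ : ℂ) = deriv Φ q * (2 * Real.pi * Complex.I * q) := by
    rw [hcomp]
    exact (HasDerivAt.comp (τ : ℂ) hΦ' hqd).deriv
  have hval : Derivative.normalizedDerivOfComplex F τ = q * deriv Φ q := by
    rw [Derivative.normalizedDerivOfComplex, hder]
    have : (2 * Real.pi * Complex.I : ℂ) ≠ 0 := Complex.two_pi_I_ne_zero
    field_simp
  have hd' : DifferentiableOn ℂ (deriv Φ) (Metric.ball 0 1) := hd.deriv Metric.isOpen_ball
  have hs := Complex.hasSum_taylorSeries_on_ball hd' hq0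
  have hs' := hs.mul_left q
  rw [← hval] at hs'
  rw [← hasSum_nat_add_iff' 1]
  simp only [Finset.range_one, Finset.sum_singleton, Nat.cast_zero, zero_mul, zero_smul, sub_zero]
  have hfun : (fun m : ℕ => (((m + 1 : ℕ) : ℂ) * (qExpansion 1 F).coeff (m + 1)) • q ^ (m + 1)) =
      fun i : ℕ => q * (((i.factorial : ℂ))⁻¹ • (q - 0) ^ i • iteratedDeriv i (deriv Φ) 0) := by
    funext m
    rw [qExpansion_coeff, ← iteratedDeriv_succ']
    simp only [smul_eq_mul, sub_zero, Nat.factorial_succ, Nat.cast_mul, Nat.cast_add, Nat.cast_one,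
      pow_succ]
    have h1 : (m : ℂ) + 1 ≠ 0 := by exact_mod_cast Nat.succ_ne_zero m
    have h2 : (m.factorial : ℂ) ≠ 0 := by exact_mod_cast m.factorial_ne_zero
    field_simp
    try ring
  rw [hfun]
  exact hs'

/-- The cusp function of a nice function is analytic at `0` (for `D F`). -/
theorem D_periodic {F : ℍ → ℂ} (hper : Function.Periodic (F ∘ ofComplex) (1 : ℝ)) :
    Function.Periodic (Derivative.normalizedDerivOfComplex F ∘ ofComplex) (1 : ℝ) := by
  intro w
  have hF : ∀ x : ℂ, deriv (F ∘ ofComplex) (x + ((1 : ℝ) : ℂ)) = deriv (F ∘ ofComplex) x := by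
    intro x
    rw [← deriv_comp_add_const]
    congr 1
    funext y
    exact hper y
  by_cases hw : 0 < w.im
  · have hw' : 0 < (w + ((1 : ℝ) : ℂ)).im := by simp [hw]
    simp only [Function.comp_apply, Derivative.normalizedDerivOfComplex]
    rw [ofComplex_apply_of_im_pos hw, ofComplex_apply_of_im_pos hw']
    congr 1
    exact hF w
  · have hw' : (w + ((1 : ℝ) : ℂ)).im ≤ 0 := by simpa using hw
    simp only [Function.comp_apply]
    rw [ofComplex_apply_of_im_nonpos hw', ofComplex_apply_of_im_nonpos (not_lt.mp hw)]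

theorem D_coeff {F : ℍ → ℂ} (hper : Function.Periodic (F ∘ ofComplex) (1 : ℝ)) (hF : MDiff F)
    (hb : IsBoundedAtImInfty F) (n : ℕ) :
    (qExpansion 1 (Derivative.normalizedDerivOfComplex F)).coeff n =
      (n : ℂ) * (qExpansion 1 F).coeff n := by
  let : FunLike (ℍ → ℂ) ℍ ℂ := ⟨id, fun _ _ h => h⟩
  exact (qExpansion_coeff_unique (F := ℍ → ℂ) (c := fun m => (m : ℂ) * (qExpansion 1 F).coeff m)
    (Derivative.normalizedDerivOfComplex F) one_pos
    (analyticAt_cuspFunction_zero one_pos (D_periodic hper)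
      (Derivative.normalizedDerivOfComplex_mdifferentiable hF) (D_bdd hF hb))
    (fun τ => hasSum_D hper hF hb τ) n).symm

theorem mul_analytic {F G : ℍ → ℂ} (h1 : AnalyticAt ℂ (cuspFunction 1 F) 0)
    (h2 : AnalyticAt ℂ (cuspFunction 1 G) 0) : AnalyticAt ℂ (cuspFunction 1 (F * G)) 0 := by
  rw [cuspFunction_mul h1.continuousAt h2.continuousAt]
  exact h1.mul h2

theorem br_coeff {F G : ℍ → ℂ} (hper : Function.Periodic (F ∘ ofComplex) (1 : ℝ)) (hF : MDiff F)
    (hb : IsBoundedAtImInfty F) (hper' : Function.Periodic (G ∘ ofComplex) (1 : ℝ)) (hG : MDiff G)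
    (hb' : IsBoundedAtImInfty G) (n : ℕ) :
    (qExpansion 1 (br F G)).coeff n =
      ∑ i ∈ Finset.range (n + 1), ((i : ℂ) - (n - i : ℕ)) *
        ((qExpansion 1 F).coeff i * (qExpansion 1 G).coeff (n - i)) := by
  have aF := analyticAt_cuspFunction_zero one_pos hper hF hb
  have aG := analyticAt_cuspFunction_zero one_pos hper' hG hb'
  have aDF := analyticAt_cuspFunction_zero one_pos (D_periodic hper)
      (Derivative.normalizedDerivOfComplex_mdifferentiable hF) (D_bdd hF hb)
  have aDG := analyticAt_cuspFunction_zero one_pos (D_periodic hper')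
      (Derivative.normalizedDerivOfComplex_mdifferentiable hG) (D_bdd hG hb')
  rw [br, qExpansion_sub (mul_analytic aDF aG) (mul_analytic aF aDG), qExpansion_mul aDF aG,
    qExpansion_mul aF aDG, map_sub, PowerSeries.coeff_mul, PowerSeries.coeff_mul,
    ← Finset.sum_sub_distrib, Finset.Nat.sum_antidiagonal_eq_sum_range_succ_mk]
  refine Finset.sum_congr rfl fun i _ => ?_
  simp only
  rw [D_coeff hper hF hb, D_coeff hper' hG hb']
  ring

end BracketAux

/-- The bracket of two modular forms of weight `k` is a modular form of weight `2k+2`, with the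
expected `q`-expansion. -/
theorem bracket_modular (k : ℤ) (M₁ M₂ : ModularForm (Gamma0 136) k) :
    (∃ M : ModularForm (Gamma0 136) (2 * k + 2), ⇑M =
      fun τ => Derivative.normalizedDerivOfComplex M₁ τ * M₂ τ -
        M₁ τ * Derivative.normalizedDerivOfComplex M₂ τ) ∧
    ∀ n, (qExpansion 1 (fun τ => Derivative.normalizedDerivOfComplex M₁ τ * M₂ τ -
        M₁ τ * Derivative.normalizedDerivOfComplex M₂ τ)).coeff n =
      ∑ i ∈ Finset.range (n + 1), ((i : ℂ) - (n - i : ℕ)) *
        ((qExpansion 1 M₁).coeff i * (qExpansion 1 M₂).coeff (n - i)) := by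
  refine ⟨BracketAux.br_modular k M₁ M₂, fun n => ?_⟩
  exact BracketAux.br_coeff
    (SlashInvariantFormClass.periodic_comp_ofComplex M₁ (BracketAux.one_mem_period 136))
    (ModularFormClass.holo M₁) (ModularFormClass.bdd_at_infty M₁)
    (SlashInvariantFormClass.periodic_comp_ofComplex M₂ (BracketAux.one_mem_period 136))
    (ModularFormClass.holo M₂) (ModularFormClass.bdd_at_infty M₂) n

end Pool.Agent.MT136
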