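import Mathlib
import Pool.Agent.MT136.Defs
import Pool.Agent.MT136.Core

/-!
# The Fourier coefficients of the newform of level 136

They are computed from the Hecke relations and from the traces of Frobenius, which are computed
with Euler's criterion.
-/

set_option autoImplicit false

namespace Pool.Agent.MT136

open CongruenceSubgroup UpperHalfPlane

namespace Coeff

/-- The cubic polynomial. -/
def fN (x : ℕ) : ℕ := x ^ 3 + x ^ 2 + 16 * x + 16

/-- The number of square roots of `v` modulo an odd prime `p`. -/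
def rootsN (p v : ℕ) : ℕ := if v % p = 0 then 1 else if (v % p) ^ (p / 2) % p = 1 then 2 else 0

/-- The number of points with `x < n`. -/
def cnt (p : ℕ) : ℕ → ℕ
  | 0 => 0
  | n + 1 => cnt p n + rootsN p (fN n)

theorem cnt_le (p n : ℕ) : cnt p n ≤ 2 * n := by
  induction n with
  | zero => exact le_rfl
  | succ n ih =>
    have : rootsN p (fN n) ≤ 2 := by
      unfold rootsN
      split_ifs <;> omega
    rw [cnt]
    omega

theorem cnt_eq_sum (p n : ℕ) : cnt p n = ∑ x ∈ Finset.range n, rootsN p (fN x) := by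
  induction n with
  | zero => rfl
  | succ n ih => rw [cnt, Finset.sum_range_succ, ih]

theorem card_roots (p : ℕ) [hp : Fact p.Prime] (hp2 : p ≠ 2) (v : ℕ) :
    Fintype.card {y : ZMod p // y ^ 2 = (v : ZMod p)} = rootsN p v := by
  classical
  have hchar : ringChar (ZMod p) ≠ 2 := by rwa [ZMod.ringChar_zmod_n]
  have h1 := quadraticChar_card_sqrts hchar (v : ZMod p)
  have h2 : ({x : ZMod p | x ^ 2 = (v : ZMod p)} : Set (ZMod p)).toFinset.card =
      Fintype.card {y : ZMod p // y ^ 2 = (v : ZMod p)} := by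
    rw [Set.toFinset_card]
    rfl
  rw [h2] at h1
  have h3 : ((v : ZMod p) = 0) ↔ v % p = 0 := by
    rw [ZMod.natCast_eq_zero_iff, Nat.dvd_iff_mod_eq_zero]
  unfold rootsN
  by_cases hv : v % p = 0
  · rw [if_pos hv]
    rw [h3.2 hv, quadraticChar_zero] at h1
    rw [h3.2 hv]
    omega
  · rw [if_neg hv]
    have hv0 : (v : ZMod p) ≠ 0 := fun h => hv (h3.1 h)
    rw [quadraticChar_eq_pow_of_char_ne_two hchar hv0, ZMod.card] at h1
    have h4 : ((v : ZMod p) ^ (p / 2) = 1) ↔ (v % p) ^ (p / 2) % p = 1 := by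
      have hp1 : 1 % p = 1 := Nat.mod_eq_of_lt hp.1.one_lt
      have h5 : ((v : ZMod p) ^ (p / 2) = 1) ↔
          ((((v % p) ^ (p / 2) : ℕ) : ZMod p) = ((1 : ℕ) : ZMod p)) := by
        push_cast
        rw [ZMod.natCast_mod]
      rw [h5, ZMod.natCast_eq_natCast_iff', hp1]
    by_cases h6 : (v % p) ^ (p / 2) % p = 1
    · rw [if_pos h6]
      rw [if_pos (h4.2 h6)] at h1
      omega
    · rw [if_neg h6]
      rw [if_neg (fun h => h6 (h4.1 h))] at h1
      omega

theorem traceFrob_odd (p : ℕ) (hp : p.Prime) (hp2 : p ≠ 2) :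
    traceFrob E136 p = (p : ℤ) - (cnt p p : ℤ) := by
  classical
  have : Fact p.Prime := ⟨hp⟩
  have e1 : Nat.card {P : ZMod p × ZMod p // P.2 ^ 2 + (E136.a₁ : ZMod p) * P.1 * P.2 +
    (E136.a₃ : ZMod p) * P.2 = P.1 ^ 3 + (E136.a₂ : ZMod p) * P.1 ^ 2 +
    (E136.a₄ : ZMod p) * P.1 + (E136.a₆ : ZMod p)} = cnt p p := by
    have e2 : {P : ZMod p × ZMod p // P.2 ^ 2 + (E136.a₁ : ZMod p) * P.1 * P.2 +
      (E136.a₃ : ZMod p) * P.2 = P.1 ^ 3 + (E136.a₂ : ZMod p) * P.1 ^ 2 +
      (E136.a₄ : ZMod p) * P.1 + (E136.a₆ : ZMod p)} ≃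
      Σ x : ZMod p, {y : ZMod p // y ^ 2 = x ^ 3 + x ^ 2 + 16 * x + 16} :=
      (Equiv.subtypeEquivRight fun P => by simp [E136]).trans
        (Equiv.subtypeProdEquivSigmaSubtype fun x y : ZMod p =>
          y ^ 2 = x ^ 3 + x ^ 2 + 16 * x + 16)
    rw [Nat.card_congr e2, Nat.card_eq_fintype_card, Fintype.card_sigma, cnt_eq_sum]
    symm
    refine Finset.sum_nbij (fun n : ℕ => (n : ZMod p)) (fun _ _ => Finset.mem_univ _) ?_ ?_ ?_
    · intro a ha b hb hab
      have ha' := Finset.mem_range.1 (Finset.mem_coe.1 ha)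
      have hb' := Finset.mem_range.1 (Finset.mem_coe.1 hb)
      have h1 := (ZMod.natCast_eq_natCast_iff' a b p).1 hab
      rwa [Nat.mod_eq_of_lt ha', Nat.mod_eq_of_lt hb'] at h1
    · intro x _
      exact ⟨x.val, Finset.mem_coe.2 (Finset.mem_range.2 (ZMod.val_lt x)), ZMod.natCast_zmod_val x⟩
    · intro n _
      rw [← card_roots p hp2 (fN n)]
      refine Fintype.card_congr (Equiv.subtypeEquivRight fun y => ?_)
      rw [fN]
      push_cast
      rfl
  rw [traceFrob, e1]

theorem traceFrob_two : traceFrob E136 2 = 0 := by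
  have e1 : Nat.card {P : ZMod 2 × ZMod 2 // P.2 ^ 2 + (E136.a₁ : ZMod 2) * P.1 * P.2 +
    (E136.a₃ : ZMod 2) * P.2 = P.1 ^ 3 + (E136.a₂ : ZMod 2) * P.1 ^ 2 +
    (E136.a₄ : ZMod 2) * P.1 + (E136.a₆ : ZMod 2)} = 2 := by
    have e2 : {P : ZMod 2 × ZMod 2 // P.2 ^ 2 + (E136.a₁ : ZMod 2) * P.1 * P.2 +
      (E136.a₃ : ZMod 2) * P.2 = P.1 ^ 3 + (E136.a₂ : ZMod 2) * P.1 ^ 2 +
      (E136.a₄ : ZMod 2) * P.1 + (E136.a₆ : ZMod 2)} ≃
      {P : ZMod 2 × ZMod 2 // P.2 ^ 2 = P.1 ^ 3 + P.1 ^ 2 + 16 * P.1 + 16} :=
      Equiv.subtypeEquivRight fun P => by simp [E136]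
    rw [Nat.card_congr e2, Nat.card_eq_fintype_card]
    decide
  rw [traceFrob, e1]
  rfl

theorem abs_traceFrob_le (p : ℕ) (hp : p.Prime) : |traceFrob E136 p| ≤ p := by
  by_cases h2 : p = 2
  · subst h2
    rw [traceFrob_two]
    simp
  · rw [traceFrob_odd p hp h2, abs_le]
    have := cnt_le p p
    constructor <;> omega

/-- The check of the table at the odd primes. -/
theorem chk_prime : ∀ p : ℕ, p < 362 → p % 2 = 1 → 3 ≤ p →
    (∀ q ∈ [3, 5, 7, 11, 13, 17, 19], p % q = 0 → p = q) →
    (p : ℤ) - (cnt p p : ℤ) = tbl.getD p 0 := by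
  decide +kernel

/-- The check of the table at the composite numbers. -/
theorem chk_rec : ∀ p ∈ [2, 3, 5, 7, 11, 13, 17, 19], ∀ m : ℕ, m < 181 → p * m < 362 →
    tbl.getD (p * m) 0 = tbl.getD p 0 * tbl.getD m 0 -
      (if 136 % p = 0 then 0 else if m % p = 0 then (p : ℤ) * tbl.getD (m / p) 0 else 0) := by
  decide +kernel

theorem traceFrob_tbl (p : ℕ) (hp : p.Prime) (hp2 : p < 362) :
    traceFrob E136 p = tbl.getD p 0 := by
  by_cases h2 : p = 2
  · subst h2
    rw [traceFrob_two]
    rfl
  · rw [traceFrob_odd p hp h2]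
    refine chk_prime p hp2 (hp.eq_two_or_odd.resolve_left h2) ?_ ?_
    · have := hp.two_le
      omega
    · intro q hq hpq
      have h3 : q ∣ p := Nat.dvd_of_mod_eq_zero hpq
      rcases (Nat.dvd_prime hp).1 h3 with h4 | h4
      · subst h4
        exact absurd hq (by decide)
      · exact h4.symm

section

variable (f : CuspForm (Gamma0 136) 2) (hf : IsNewformOf E136 136 f)

include hf

theorem coeff_zero : coeffOf f 0 = 0 := by
  have h1 := hf.hecke 3 Nat.prime_three 0
  rw [traceFrob_tbl 3 Nat.prime_three (by norm_num)] at h1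
  have h2 : tbl.getD 3 0 = -2 := by decide
  rw [h2, mul_zero, if_neg (by decide), if_pos (dvd_zero 3)] at h1
  norm_num at h1
  have h3 : (6 : ℂ) * coeffOf f 0 = 0 := by linear_combination h1
  exact (mul_eq_zero.1 h3).resolve_left (by norm_num)

theorem exists_int (n : ℕ) : ∃ z : ℤ, coeffOf f n = (z : ℂ) ∧ |z| ≤ (n : ℤ) ^ 2 := by
  induction n using Nat.strong_induction_on with
  | _ n ih =>
    rcases Nat.lt_or_ge n 2 with h2 | h2
    · interval_cases n
      · exact ⟨0, by rw [coeff_zero f hf]; simp, by simp⟩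
      · exact ⟨1, by rw [hf.coeff_one]; simp, by simp⟩
    · have hp : n.minFac.Prime := Nat.minFac_prime (by omega)
      obtain ⟨m, hm⟩ := Nat.minFac_dvd n
      set p := n.minFac with hpdef
      have hp2 := hp.two_le
      have hm0 : 0 < m := by
        rcases Nat.eq_zero_or_pos m with h | h
        · rw [h, mul_zero] at hm
          omega
        · exact h
      have hmn : m < n := by
        rw [hm]
        nlinarith
      obtain ⟨z, hz, hzb⟩ := ih m hmn
      have ha := abs_traceFrob_le p hp
      have h1 := hf.hecke p hp m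
      rw [← hm, hz] at h1
      have hpz : (2 : ℤ) ≤ p := by exact_mod_cast hp2
      have hmz : (0 : ℤ) < m := by exact_mod_cast hm0
      have hnz : (n : ℤ) = p * m := by exact_mod_cast hm
      have hbase : |traceFrob E136 p * z| ≤ p * (m : ℤ) ^ 2 := by
        rw [abs_mul]
        exact mul_le_mul ha hzb (abs_nonneg _) (by positivity)
      by_cases h136 : p ∣ 136
      · rw [if_pos h136, sub_zero] at h1
        refine ⟨traceFrob E136 p * z, by rw [h1]; push_cast; ring, hbase.trans ?_⟩
        rw [hnz]
        nlinarith [mul_pos hmz hmz]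
      · rw [if_neg h136] at h1
        by_cases hpm : p ∣ m
        · rw [if_pos hpm] at h1
          obtain ⟨m', hm'⟩ := hpm
          have hm'0 : 0 < m' := by
            rcases Nat.eq_zero_or_pos m' with h | h
            · rw [h, mul_zero] at hm'
              omega
            · exact h
          have hdiv : m / p = m' := by
            rw [hm', Nat.mul_div_cancel_left _ (by omega)]
          rw [hdiv] at h1
          have hm'n : m' < n := by
            have : m' ≤ m := by rw [hm']; nlinarith
            omega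
          obtain ⟨z', hz', hzb'⟩ := ih m' hm'n
          rw [hz'] at h1
          refine ⟨traceFrob E136 p * z - p * z', by rw [h1]; push_cast; ring, ?_⟩
          have hm'z : (0 : ℤ) < m' := by exact_mod_cast hm'0
          have hmm : (m : ℤ) = p * m' := by exact_mod_cast hm'
          have h3 : |(p : ℤ) * z'| ≤ p * (m' : ℤ) ^ 2 := by
            rw [abs_mul, abs_of_nonneg (by positivity : (0 : ℤ) ≤ p)]
            exact mul_le_mul_of_nonneg_left hzb' (by positivity)
          have h4 : |traceFrob E136 p * z - p * z'| ≤ p * (m : ℤ) ^ 2 + p * (m' : ℤ) ^ 2 :=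
            (abs_sub _ _).trans (add_le_add hbase h3)
          refine h4.trans ?_
          rw [hnz, hmm]
          have h5 : (0 : ℤ) < (m' : ℤ) ^ 2 := by positivity
          have h6 : (p : ℤ) * (p * m') ^ 2 + p * (m' : ℤ) ^ 2 ≤ (p * (p * m')) ^ 2 := by
            have h7 : (p : ℤ) ^ 3 + p ≤ (p : ℤ) ^ 4 := by nlinarith [pow_pos (by omega : (0 : ℤ) < p) 3, pow_pos (by omega : (0 : ℤ) < p) 2]
            nlinarith [mul_le_mul_of_nonneg_right h7 h5.le]
          exact h6
        · rw [if_neg hpm, sub_zero] at h1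
          refine ⟨traceFrob E136 p * z, by rw [h1]; push_cast; ring, hbase.trans ?_⟩
          rw [hnz]
          nlinarith [mul_pos hmz hmz]

theorem coeff_tbl (n : ℕ) : n < 362 → coeffOf f n = ((tbl.getD n 0 : ℤ) : ℂ) := by
  induction n using Nat.strong_induction_on with
  | _ n ih =>
    intro hn
    rcases Nat.lt_or_ge n 2 with h2 | h2
    · interval_cases n
      · rw [coeff_zero f hf]
        have : tbl.getD 0 0 = 0 := rfl
        rw [this]; simp
      · rw [hf.coeff_one]
        have : tbl.getD 1 0 = 1 := rfl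
        rw [this]; simp
    · have hp : n.minFac.Prime := Nat.minFac_prime (by omega)
      by_cases hpr : n.Prime
      · have h1 := hf.hecke n hpr 1
        rw [mul_one, hf.coeff_one, traceFrob_tbl n hpr hn, mul_one] at h1
        rw [h1, if_neg (by
          intro h
          have := Nat.dvd_one.1 h
          omega : ¬ n ∣ 1)]
        simp
      · obtain ⟨m, hm⟩ := Nat.minFac_dvd n
        have hsq : n.minFac ^ 2 ≤ n := Nat.minFac_sq_le_self (by omega) hpr
        set p := n.minFac with hpdef
        have hp2 := hp.two_le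
        have hp19 : p < 20 := by
          by_contra h
          have : 20 ≤ p := by omega
          nlinarith
        have hmem : p ∈ [2, 3, 5, 7, 11, 13, 17, 19] := by
          clear_value p
          interval_cases p <;> first | decide | (exact absurd hp (by decide))
        have hm0 : 0 < m := by
          rcases Nat.eq_zero_or_pos m with h | h
          · rw [h, mul_zero] at hm
            omega
          · exact h
        have hmn : m < n := by
          rw [hm]
          nlinarith
        have hm181 : m < 181 := by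
          by_contra h
          have : 181 ≤ m := by omega
          nlinarith
        have h1 := hf.hecke p hp m
        have h3 := chk_rec p hmem m hm181 (by omega)
        have h4 := ih m hmn (by omega)
        have hplt : p < 362 := by omega
        rw [← hm, h4, traceFrob_tbl p hp hplt] at h1
        rw [← hm] at h3
        rw [h1, h3]
        have hd1 : (136 % p = 0) ↔ p ∣ 136 := (Nat.dvd_iff_mod_eq_zero).symm
        have hd2 : (m % p = 0) ↔ p ∣ m := (Nat.dvd_iff_mod_eq_zero).symm
        by_cases h136 : p ∣ 136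
        · rw [if_pos h136, if_pos (hd1.2 h136)]
          push_cast
          ring
        · rw [if_neg h136, if_neg (fun h => h136 (hd1.1 h))]
          by_cases hpm : p ∣ m
          · have h5 : m / p < n := lt_of_le_of_lt (Nat.div_le_self _ _) hmn
            rw [if_pos hpm, if_pos (hd2.2 hpm), ih (m / p) h5 (by omega)]
            push_cast
            ring
          · rw [if_neg hpm, if_neg (fun h => hpm (hd2.1 h))]
            push_cast
            ring

end

end Coeff

theorem exists_data (f : CuspForm (Gamma0 136) 2) (hf : IsNewformOf E136 136 f) :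
    ∃ A, Data f A := by
  choose A hA hb using Coeff.exists_int f hf
  refine ⟨A, hA, ?_, hb, fun n hn => ?_⟩
  · have := hb 0
    simpa using this
  · have h1 := hA n
    rw [Coeff.coeff_tbl f hf n hn] at h1
    exact_mod_cast h1.symm

end Pool.Agent.MT136
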