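import Mathlib
import Pool.Agent.MT136.Defs

/-!
# The variant of the Mazur-Tate elements for the group `(ℤ/S)ˣ/{±1}`
-/

set_option autoImplicit false

namespace Pool.Agent.MT136

open CongruenceSubgroup

/-- The group `(ℤ/S)ˣ/{±1}`, the Galois group of the maximal real subfield of the cyclotomic field
of `S`-th roots of unity. -/
def GBar (S : ℕ) : Type := (ZMod S)ˣ ⧸ Subgroup.zpowers (-1 : (ZMod S)ˣ)

noncomputable instance instCommGroupGBar (S : ℕ) : CommGroup (GBar S) :=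
  inferInstanceAs (CommGroup ((ZMod S)ˣ ⧸ Subgroup.zpowers (-1 : (ZMod S)ˣ)))

/-- The projection `(ℤ/S)ˣ → (ℤ/S)ˣ/{±1}`. -/
noncomputable def GBar.mk (S : ℕ) : (ZMod S)ˣ →* GBar S :=
  QuotientGroup.mk' (Subgroup.zpowers (-1 : (ZMod S)ˣ))

/-- The augmentation ideal of the group ring `R[(ℤ/S)ˣ/{±1}]`. -/
noncomputable def augIdealBar (R : Subring ℚ) (S : ℕ) : Ideal (MonoidAlgebra R (GBar S)) :=
  RingHom.ker (MonoidAlgebra.lift R R (GBar S) 1 : MonoidAlgebra R (GBar S) →ₐ[R] R)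

/-- The element `θ` of `R[(ℤ/S)ˣ/{±1}]` is the sum `∑ [a/S]⁺ σ_a` over `a` in `(ℤ/S)ˣ/{±1}`. -/
def IsThetaBar (W : WeierstrassCurve ℤ) {N : ℕ} (f : CuspForm (Gamma0 N) 2) (R : Subring ℚ)
    (S : ℕ) (θ : MonoidAlgebra R (GBar S)) : Prop :=
  ∀ a : (ZMod S)ˣ, (((θ.coeff (GBar.mk S a) : R) : ℚ) : ℂ) = symbol W f ((a.val.val : ℚ) / S)

/-- The rank part of the Mazur-Tate conjecture in its variant for the group `(ℤ/S)ˣ/{±1}`. -/
def RankPartBar (W : WeierstrassCurve ℤ) {N : ℕ} (f : CuspForm (Gamma0 N) 2) : Prop :=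
  ∀ R : Subring ℚ, HasCoeffsIn W f R → ∀ S : ℕ, 0 < S →
    ∀ θ : MonoidAlgebra R (GBar S), IsThetaBar W f R S θ →
      ∀ r : ℕ, (r : Cardinal) ≤ Module.rank ℤ (W.map (Int.castRingHom ℚ)).toAffine.Point →
        θ ∈ augIdealBar R S ^ (r + sp W S)

end Pool.Agent.MT136
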