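import Mathlib
import Pool.Agent.MT136.Defs
import Pool.Agent.MT136.Core

/-!
# The primitive of the newform and the integrals `λ(r)`
-/

set_option autoImplicit false

namespace Pool.Agent.MT136

open CongruenceSubgroup UpperHalfPlane Filter Topology MeasureTheory Set
open scoped Manifold MatrixGroups

theorem pr_one_mem : (1 : ℝ) ∈
    ((Gamma0 136 : Subgroup SL(2, ℤ)) : Subgroup (GL (Fin 2) ℝ)).strictPeriods := by
  have hT : ModularGroup.T ∈ Gamma0 136 := by
    rw [Gamma0_mem]
    simp [ModularGroup.T]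
  rw [Subgroup.strictPeriods_eq_zmultiples_one_of_T_mem hT]
  exact AddSubgroup.mem_zmultiples 1

theorem pr_qParam_pow (z : ℂ) (n : ℕ) :
    Function.Periodic.qParam 1 z ^ n = Complex.exp (2 * Real.pi * Complex.I * n * z) := by
  rw [Function.Periodic.qParam, ← Complex.exp_nat_mul]
  congr 1
  push_cast
  ring

theorem pr_hasSum (f : CuspForm (Gamma0 136) 2) (τ : ℍ) :
    HasSum (fun n : ℕ => coeffOf f n * Complex.exp (2 * Real.pi * Complex.I * n * τ)) (f τ) := by
  have h := ModularForm.hasSum_qExpansion f one_pos pr_one_mem τ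
  simp only [pr_qParam_pow] at h
  exact h

theorem pr_norm_exp (n : ℕ) (z : ℂ) :
    ‖Complex.exp (2 * Real.pi * Complex.I * n * z)‖ = Real.exp (-(2 * Real.pi * z.im)) ^ n := by
  rw [Complex.norm_exp, ← Real.exp_nat_mul]
  congr 1
  have : (2 * Real.pi * Complex.I * n * z).re = -(2 * Real.pi * n * z.im) := by
    have e : 2 * Real.pi * Complex.I * n * z = ((2 * Real.pi * n : ℝ) : ℂ) * (Complex.I * z) := by
      push_cast; ring
    rw [e, Complex.re_ofReal_mul, Complex.I_mul_re]
    ring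
  rw [this]
  ring

section

variable {f : CuspForm (Gamma0 136) 2} {A : ℕ → ℤ} (hA : Data f A)
include hA

theorem pr_coeff_norm (n : ℕ) : ‖coeffOf f n‖ ≤ (n : ℝ) ^ 2 := by
  rw [hA.coeff, Complex.norm_intCast]
  exact_mod_cast hA.bound n

theorem pr_coeff_div_norm (n : ℕ) : ‖coeffOf f n / n‖ ≤ (n : ℝ) := by
  rw [norm_div, Complex.norm_natCast]
  rcases Nat.eq_zero_or_pos n with rfl | hn
  · simp
  · have hn' : (0 : ℝ) < n := by exact_mod_cast hn
    rw [div_le_iff₀ hn']
    calc ‖coeffOf f n‖ ≤ (n : ℝ) ^ 2 := pr_coeff_norm hA n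
      _ = n * n := by ring

omit hA in
theorem pr_exp_lt {y : ℝ} (hy : 0 < y) : Real.exp (-(2 * Real.pi * y)) < 1 := by
  rw [Real.exp_lt_one_iff]
  have := Real.pi_pos
  have : 0 < 2 * Real.pi * y := by positivity
  linarith

omit hA in
theorem pr_summable (k : ℕ) {y : ℝ} (hy : 0 < y) :
    Summable fun n : ℕ => (n : ℝ) ^ k * Real.exp (-(2 * Real.pi * y)) ^ n := by
  refine summable_pow_mul_geometric_of_norm_lt_one k ?_
  rw [Real.norm_eq_abs, abs_of_pos (Real.exp_pos _)]
  exact pr_exp_lt hy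

theorem pr_prim_summable (z : ℂ) (hz : 0 < z.im) :
    Summable fun n : ℕ => coeffOf f n / n * Complex.exp (2 * Real.pi * Complex.I * n * z) := by
  refine Summable.of_norm_bounded (pr_summable 1 hz) fun n => ?_
  rw [norm_mul, pr_norm_exp, pow_one]
  exact mul_le_mul_of_nonneg_right (pr_coeff_div_norm hA n) (by positivity)

end

theorem prim_hasDerivAt (f : CuspForm (Gamma0 136) 2) (A : ℕ → ℤ) (hA : Data f A) (τ : ℍ) :
    HasDerivAt (fun z : ℂ => prim f (ofComplex z)) (2 * Real.pi * Complex.I * f τ) τ := by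
  have hτ := τ.im_pos
  have hπ := Real.pi_pos
  set t : Set ℂ := {z | τ.im / 2 < z.im} with ht
  have hto : IsOpen t := isOpen_lt continuous_const Complex.continuous_im
  have htc : IsPreconnected t := by
    have : t = Complex.im ⁻¹' Ioi (τ.im / 2) := rfl
    exact ((convex_halfSpace_im_gt (τ.im / 2)).isPreconnected)
  have hτt : (τ : ℂ) ∈ t := by
    show τ.im / 2 < (τ : ℂ).im
    rw [coe_im]
    linarith
  have hy2 : 0 < τ.im / 2 := by linarith
  have key := hasDerivAt_tsum_of_isPreconnected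
    (g := fun (n : ℕ) (z : ℂ) => coeffOf f n / n * Complex.exp (2 * Real.pi * Complex.I * n * z))
    (g' := fun (n : ℕ) (z : ℂ) => 2 * Real.pi * Complex.I *
      (coeffOf f n * Complex.exp (2 * Real.pi * Complex.I * n * z)))
    (u := fun n : ℕ => 2 * Real.pi * ((n : ℝ) ^ 2 * Real.exp (-(2 * Real.pi * (τ.im / 2))) ^ n))
    ((pr_summable 2 hy2).mul_left _) hto htc ?_ ?_ hτt
    (pr_prim_summable hA τ (by rw [coe_im]; exact hτ)) hτt
  · have e : ∑' n : ℕ, 2 * Real.pi * Complex.I *
        (coeffOf f n * Complex.exp (2 * Real.pi * Complex.I * n * τ)) =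
        2 * Real.pi * Complex.I * f τ := by
      rw [tsum_mul_left, (pr_hasSum f τ).tsum_eq]
    rw [e] at key
    refine key.congr_of_eventuallyEq ?_
    filter_upwards [hto.mem_nhds hτt] with z hz
    have hz0 : 0 < z.im := lt_trans hy2 hz
    unfold prim
    rw [ofComplex_apply_of_im_pos hz0]
  · intro n z _
    have h1 : HasDerivAt (fun z : ℂ => 2 * Real.pi * Complex.I * n * z)
        (2 * Real.pi * Complex.I * n) z := by
      simpa using (hasDerivAt_id z).const_mul (2 * Real.pi * Complex.I * n : ℂ)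
    have h2 := (h1.cexp).const_mul (coeffOf f n / n)
    refine h2.congr_deriv ?_
    rcases Nat.eq_zero_or_pos n with rfl | hn
    · rw [hA.coeff, hA.zero]; simp
    · have hn' : (n : ℂ) ≠ 0 := by exact_mod_cast hn.ne'
      field_simp
  · intro n z hz
    have hz' : τ.im / 2 < z.im := hz
    rw [norm_mul (2 * Real.pi * Complex.I : ℂ), norm_mul (coeffOf f n), pr_norm_exp]
    have e1 : ‖(2 * Real.pi * Complex.I : ℂ)‖ = 2 * Real.pi := by
      rw [norm_mul, Complex.norm_I, mul_one, norm_mul, Complex.norm_real, Real.norm_eq_abs,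
        abs_of_pos hπ]
      norm_num
    rw [e1]
    refine mul_le_mul_of_nonneg_left ?_ (by positivity)
    refine mul_le_mul (pr_coeff_norm hA n) ?_ (by positivity) (by positivity)
    refine pow_le_pow_left₀ (Real.exp_pos _).le (Real.exp_le_exp.2 ?_) n
    have : 2 * Real.pi * (τ.im / 2) ≤ 2 * Real.pi * z.im :=
      mul_le_mul_of_nonneg_left hz'.le (by positivity)
    linarith

/-- a point of a vertical line -/
noncomputable def ray (x t : ℝ) : ℂ := (x : ℂ) + t * Complex.I

theorem ray_im (x t : ℝ) : (ray x t).im = t := by simp [ray]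
theorem ray_re (x t : ℝ) : (ray x t).re = x := by simp [ray]

theorem pr_tendsto_zero {f : CuspForm (Gamma0 136) 2} {A : ℕ → ℤ} (hA : Data f A) (x : ℝ) :
    Tendsto (fun t : ℝ => prim f (ofComplex (ray x t))) atTop (𝓝 0) := by
  have hπ := Real.pi_pos
  have h0 : (0 : ℂ) = ∑' _ : ℕ, (0 : ℂ) := by simp
  rw [h0]
  have key : Tendsto (fun t : ℝ => ∑' n : ℕ, coeffOf f n / n *
      Complex.exp (2 * Real.pi * Complex.I * n * ray x t)) atTop (𝓝 (∑' _ : ℕ, (0 : ℂ))) := by
    refine tendsto_tsum_of_dominated_convergence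
      (bound := fun n : ℕ => (n : ℝ) ^ 1 * Real.exp (-(2 * Real.pi * 1)) ^ n)
      (pr_summable 1 one_pos) ?_ ?_
    · intro n
      rcases Nat.eq_zero_or_pos n with rfl | hn
      · simp
      · rw [tendsto_zero_iff_norm_tendsto_zero]
        have h1 : ∀ t : ℝ, ‖coeffOf f n / n * Complex.exp (2 * Real.pi * Complex.I * n * ray x t)‖ =
            ‖coeffOf f n / n‖ * Real.exp (-((2 * Real.pi * n) * t)) := by
          intro t
          rw [norm_mul, pr_norm_exp, ray_im, ← Real.exp_nat_mul]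
          ring_nf
        simp only [h1]
        have hn' : (0 : ℝ) < n := by exact_mod_cast hn
        have h2 : Tendsto (fun t : ℝ => Real.exp (-((2 * Real.pi * n) * t))) atTop (𝓝 0) := by
          refine Real.tendsto_exp_neg_atTop_nhds_zero.comp ?_
          exact tendsto_id.const_mul_atTop (by positivity)
        simpa using h2.const_mul ‖coeffOf f n / n‖
    · filter_upwards [eventually_ge_atTop (1 : ℝ)] with t ht n
      rw [norm_mul, pr_norm_exp, ray_im, pow_one]
      refine mul_le_mul (pr_coeff_div_norm hA n) ?_ (by positivity) (by positivity)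
      refine pow_le_pow_left₀ (Real.exp_pos _).le (Real.exp_le_exp.2 ?_) n
      have : 2 * Real.pi * 1 ≤ 2 * Real.pi * t := mul_le_mul_of_nonneg_left ht (by positivity)
      linarith
  refine key.congr' ?_
  filter_upwards [eventually_gt_atTop (0 : ℝ)] with t ht
  unfold prim
  rw [ofComplex_apply_of_im_pos (by rw [ray_im]; exact ht)]

/-! ### decay at the cusps -/

open ConjAct Pointwise in
theorem pr_decay (f : CuspForm (Gamma0 136) 2) (γ : SL(2, ℤ)) :
    ∃ c > 0, (fun τ : ℍ => f (γ • τ) * denom γ τ ^ (-2 : ℤ)) =O[atImInfty]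
      fun τ => Real.exp (-c * τ.im) := by
  have : ((toConjAct (γ : GL (Fin 2) ℝ)⁻¹) •
      ((Gamma0 136 : Subgroup SL(2, ℤ)) : Subgroup (GL (Fin 2) ℝ))).IsArithmetic := by
    simpa [(show Rat.castHom ℝ = algebraMap ℚ ℝ by rfl), map_inv, Matrix.SpecialLinearGroup.map_mapGL]
      using! Subgroup.IsArithmetic.conj
        ((Gamma0 136 : Subgroup SL(2, ℤ)) : Subgroup (GL (Fin 2) ℝ))
        (Matrix.SpecialLinearGroup.mapGL ℚ γ)⁻¹
  obtain ⟨c, hc, h⟩ := CuspFormClass.exp_decay_atImInfty' (CuspForm.translate f (γ : GL (Fin 2) ℝ))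
  refine ⟨c, hc, ?_⟩
  have e : (CuspForm.translate f (γ : GL (Fin 2) ℝ) : ℍ → ℂ) =
      fun τ : ℍ => f (γ • τ) * denom γ τ ^ (-2 : ℤ) := by
    funext τ
    exact ModularForm.SL_slash_apply (k := 2) (⇑f) γ τ
  rw [e] at h
  exact h

/-- `f(x+it)` -/
noncomputable def fr (f : CuspForm (Gamma0 136) 2) (x t : ℝ) : ℂ := f (ofComplex (ray x t))

theorem continuousOn_fr (f : CuspForm (Gamma0 136) 2) (x : ℝ) :
    ContinuousOn (fr f x) (Ioi 0) := by
  obtain ⟨F, hF⟩ : ∃ F : ℂ → ℂ, F = fun z => f (ofComplex z) := ⟨_, rfl⟩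
  have h1 : ContinuousOn F {z : ℂ | 0 < z.im} := by
    intro z hz
    have := (mdifferentiableAt_iff.mp ((CuspFormClass.holo f) ⟨z, hz⟩)).continuousAt
    rw [hF]
    exact this.continuousWithinAt
  have h0 : fr f x = F ∘ ray x := by rw [hF]; rfl
  rw [h0]
  refine h1.comp (t := {z : ℂ | 0 < z.im}) ?_ ?_
  · have h2 : Continuous (fun t : ℝ => ray x t) := by
      unfold ray
      fun_prop
    exact h2.continuousOn
  · intro t ht
    show 0 < (ray x t).im
    rw [ray_im]; exact ht

theorem pr_exists_SL (r : ℚ) : ∃ γ : SL(2, ℤ), γ 0 0 = r.num ∧ γ 1 0 = (r.den : ℤ) := by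
  have h : IsCoprime r.num (r.den : ℤ) := by
    rw [Int.isCoprime_iff_gcd_eq_one]
    exact r.reduced
  obtain ⟨u, v, huv⟩ := h
  refine ⟨⟨!![r.num, -v; (r.den : ℤ), u], ?_⟩, rfl, rfl⟩
  rw [Matrix.det_fin_two_of]
  linarith

/-- the point sent to `r + it` -/
noncomputable def pt (r : ℚ) (γ : SL(2, ℤ)) (t : ℝ) (ht : 0 < t) : ℍ :=
  ⟨ray (-(γ 1 1 : ℝ) / r.den) (1 / ((r.den : ℝ) ^ 2 * t)), by
    rw [ray_im]
    have : (0 : ℝ) < r.den := by exact_mod_cast r.den_pos
    positivity⟩

theorem pt_denom (r : ℚ) (γ : SL(2, ℤ)) (h1 : γ 1 0 = (r.den : ℤ)) (t : ℝ) (ht : 0 < t) :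
    denom γ (pt r γ t ht) = Complex.I / (r.den * t) := by
  have hd : (r.den : ℂ) ≠ 0 := by exact_mod_cast r.den_pos.ne'
  have ht' : (t : ℂ) ≠ 0 := by exact_mod_cast ht.ne'
  rw [ModularGroup.denom_apply, h1]
  show ((r.den : ℤ) : ℂ) * ray (-(γ 1 1 : ℝ) / r.den) (1 / ((r.den : ℝ) ^ 2 * t)) + (γ 1 1 : ℤ) = _
  unfold ray
  push_cast
  field_simp
  ring

theorem pt_smul (r : ℚ) (γ : SL(2, ℤ)) (h0 : γ 0 0 = r.num) (h1 : γ 1 0 = (r.den : ℤ)) (t : ℝ)
    (ht : 0 < t) : ((γ • pt r γ t ht : ℍ) : ℂ) = ray r t := by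
  have hd : (r.den : ℂ) ≠ 0 := by exact_mod_cast r.den_pos.ne'
  have ht' : (t : ℂ) ≠ 0 := by exact_mod_cast ht.ne'
  have hdet := γ.det_coe
  rw [Matrix.det_fin_two] at hdet
  rw [h0, h1] at hdet
  have hdet' : (r.num : ℂ) * (γ 1 1 : ℤ) - (γ 0 1 : ℤ) * (r.den : ℂ) = 1 := by exact_mod_cast hdet
  have hden := pt_denom r γ h1 t ht
  rw [ModularGroup.denom_apply] at hden
  rw [coe_specialLinearGroup_apply]
  have e1 : (((algebraMap ℤ ℝ (γ 1 0)) : ℝ) : ℂ) * (pt r γ t ht : ℂ) +
      (((algebraMap ℤ ℝ (γ 1 1)) : ℝ) : ℂ) = Complex.I / (r.den * t) := by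
    rw [← hden]
    simp
  rw [e1, h0]
  have e2 : (pt r γ t ht : ℂ) = ray (-(γ 1 1 : ℝ) / r.den) (1 / ((r.den : ℝ) ^ 2 * t)) := rfl
  have hr : ((r : ℝ) : ℂ) = (r.num : ℂ) / (r.den : ℂ) := by
    have : (r : ℚ) = r.num / r.den := (Rat.num_div_den r).symm
    have h2 : ((r : ℝ) : ℂ) = ((r : ℚ) : ℂ) := by norm_cast
    rw [h2]
    conv_lhs => rw [this]
    push_cast
    rfl
  rw [e2]
  unfold ray
  rw [hr]
  have hI : Complex.I ≠ 0 := Complex.I_ne_zero
  have hb : (γ 0 1 : ℂ) = ((r.num : ℂ) * (γ 1 1 : ℤ) - 1) / (r.den : ℂ) := by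
    rw [eq_div_iff hd]
    linear_combination -hdet'
  simp only [algebraMap_int_eq, eq_intCast, Complex.ofReal_intCast]
  rw [hb]
  push_cast
  field_simp
  linear_combination (-((r.den : ℂ) * t)) * Complex.I_sq

theorem fr_formula (f : CuspForm (Gamma0 136) 2) (r : ℚ) (γ : SL(2, ℤ)) (h0 : γ 0 0 = r.num)
    (h1 : γ 1 0 = (r.den : ℤ)) (t : ℝ) (ht : 0 < t) :
    fr f r t = -(1 / ((r.den : ℂ) * t) ^ 2) *
      (f (γ • pt r γ t ht) * denom γ (pt r γ t ht) ^ (-2 : ℤ)) := by
  have hd : (r.den : ℂ) ≠ 0 := by exact_mod_cast r.den_pos.ne'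
  have ht' : (t : ℂ) ≠ 0 := by exact_mod_cast ht.ne'
  have e : ofComplex (ray r t) = γ • pt r γ t ht := by
    have := congrArg ofComplex (pt_smul r γ h0 h1 t ht)
    rw [ofComplex_apply] at this
    exact this.symm
  unfold fr
  rw [e, pt_denom r γ h1 t ht]
  rw [zpow_neg]
  have hI : Complex.I ≠ 0 := Complex.I_ne_zero
  have : (Complex.I / (r.den * t)) ^ (2 : ℤ) = -(1 / ((r.den : ℂ) * t) ^ 2) := by
    rw [zpow_ofNat, div_pow, Complex.I_sq]
    ring
  rw [this]
  field_simp

theorem fr_tendsto_zero (f : CuspForm (Gamma0 136) 2) (r : ℚ) :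
    Tendsto (fr f r) (𝓝[>] 0) (𝓝 0) := by
  obtain ⟨γ, h0, h1⟩ := pr_exists_SL r
  obtain ⟨c, hc, h⟩ := pr_decay f γ
  have hd : (0 : ℝ) < r.den := by exact_mod_cast r.den_pos
  obtain ⟨C, hC⟩ := h.bound
  rw [atImInfty, eventually_comap, eventually_atTop] at hC
  obtain ⟨Y, hY⟩ := hC
  set κ : ℝ := c / (r.den : ℝ) ^ 2 with hκ
  have hκ0 : 0 < κ := by positivity
  have hlim : Tendsto (fun t : ℝ => C / (r.den : ℝ) ^ 2 * ((t⁻¹) ^ 2 * Real.exp (-(κ * t⁻¹))))
      (𝓝[>] 0) (𝓝 0) := by
    have h2 : Tendsto (fun u : ℝ => u ^ 2 * Real.exp (-(κ * u))) atTop (𝓝 0) := by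
      have h3 := Real.tendsto_pow_mul_exp_neg_atTop_nhds_zero 2
      have h4 : Tendsto (fun u : ℝ => κ * u) atTop atTop := tendsto_id.const_mul_atTop hκ0
      have h5 := (h3.comp h4).const_mul (1 / κ ^ 2)
      rw [mul_zero] at h5
      refine h5.congr fun u => ?_
      simp only [Function.comp_apply]
      field_simp
    have h3 := (h2.comp tendsto_inv_nhdsGT_zero).const_mul (C / (r.den : ℝ) ^ 2)
    rw [mul_zero] at h3
    exact h3
  refine squeeze_zero_norm' ?_ hlim
  have hsmall : ∀ᶠ t : ℝ in 𝓝[>] 0, Y ≤ 1 / ((r.den : ℝ) ^ 2 * t) := by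
    have h2 : Tendsto (fun t : ℝ => 1 / ((r.den : ℝ) ^ 2 * t)) (𝓝[>] 0) atTop := by
      have h3 := tendsto_inv_nhdsGT_zero (𝕜 := ℝ)
      have h4 := h3.const_mul_atTop (show 0 < 1 / (r.den : ℝ) ^ 2 by positivity)
      refine h4.congr fun t => ?_
      rw [one_div, one_div, mul_inv]
    exact h2.eventually_ge_atTop Y
  filter_upwards [hsmall, self_mem_nhdsWithin] with t ht1 ht2
  have ht : 0 < t := ht2
  have him : (pt r γ t ht).im = 1 / ((r.den : ℝ) ^ 2 * t) := by
    show (ray _ _).im = _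
    rw [ray_im]
  have hb := hY _ ht1 (pt r γ t ht) him
  rw [fr_formula f r γ h0 h1 t ht, norm_mul]
  have e1 : ‖-(1 / ((r.den : ℂ) * t) ^ 2)‖ = 1 / ((r.den : ℝ) * t) ^ 2 := by
    rw [norm_neg, norm_div, norm_one, norm_pow, norm_mul, Complex.norm_natCast, Complex.norm_real,
      Real.norm_eq_abs, abs_of_pos ht]
  rw [e1]
  rw [him, Real.norm_eq_abs, abs_of_pos (Real.exp_pos _)] at hb
  calc 1 / ((r.den : ℝ) * t) ^ 2 * ‖f (γ • pt r γ t ht) * denom γ (pt r γ t ht) ^ (-2 : ℤ)‖
      ≤ 1 / ((r.den : ℝ) * t) ^ 2 * (C * Real.exp (-c * (1 / ((r.den : ℝ) ^ 2 * t)))) :=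
        mul_le_mul_of_nonneg_left hb (by positivity)
    _ = C / (r.den : ℝ) ^ 2 * ((t⁻¹) ^ 2 * Real.exp (-(κ * t⁻¹))) := by
        have : -c * (1 / ((r.den : ℝ) ^ 2 * t)) = -(κ * t⁻¹) := by
          rw [hκ]
          field_simp
        rw [this]
        field_simp

theorem fr_isBigO (f : CuspForm (Gamma0 136) 2) (x : ℝ) :
    (fr f x) =O[atTop] fun t => Real.exp (-(2 * Real.pi) * t) := by
  have h := CuspFormClass.exp_decay_atImInfty (h := 1) f one_pos pr_one_mem
  have h2 : Tendsto (fun t : ℝ => ofComplex (ray x t)) atTop atImInfty := by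
    rw [atImInfty, tendsto_comap_iff]
    refine tendsto_id.congr' ?_
    filter_upwards [eventually_gt_atTop 0] with t ht
    rw [Function.comp_apply, ofComplex_apply_of_im_pos (by rw [ray_im]; exact ht)]
    show t = (ray x t).im
    rw [ray_im]
  have h3 := h.comp_tendsto h2
  refine h3.trans (EventuallyEq.isBigO ?_)
  filter_upwards [eventually_gt_atTop 0] with t ht
  rw [Function.comp_apply, ofComplex_apply_of_im_pos (by rw [ray_im]; exact ht)]
  congr 1
  show -2 * Real.pi * (ray x t).im / 1 = _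
  rw [ray_im]
  ring

theorem fr_integrable (f : CuspForm (Gamma0 136) 2) (r : ℚ) :
    IntegrableOn (fr f r) (Ioi 0) := by
  -- extend by zero
  set g : ℝ → ℂ := fun t => if 0 < t then fr f r t else 0 with hg
  have hgc : ContinuousOn g (Ici 0) := by
    intro t ht
    rcases (show (0 : ℝ) ≤ t from ht).eq_or_lt with h0 | h0
    · subst h0
      have h1 : Tendsto g (𝓝[>] 0) (𝓝 0) := by
        refine (fr_tendsto_zero f r).congr' ?_
        filter_upwards [self_mem_nhdsWithin] with t ht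
        rw [hg]; simp only; rw [if_pos (show 0 < t from ht)]
      have h2 : g 0 = 0 := by rw [hg]; simp
      have h3 : ContinuousWithinAt g (Ioi 0) 0 := by
        unfold ContinuousWithinAt
        rw [h2]; exact h1
      have h4 : Ici (0 : ℝ) = insert 0 (Ioi 0) := by
        ext u
        simp only [mem_Ici, mem_insert_iff, mem_Ioi]
        constructor
        · intro h; rcases h.eq_or_lt with h | h
          · exact Or.inl h.symm
          · exact Or.inr h
        · rintro (h | h)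
          · exact h.ge
          · exact h.le
      rw [h4]
      exact continuousWithinAt_insert_self.2 h3
    · have h1 : ContinuousAt (fr f r) t := (continuousOn_fr f r).continuousAt (Ioi_mem_nhds h0)
      have h2 : g =ᶠ[𝓝 t] fr f r := by
        filter_upwards [Ioi_mem_nhds h0] with u hu
        rw [hg]; simp only; rw [if_pos (show 0 < u from hu)]
      exact (h1.congr h2.symm).continuousWithinAt
  have hgO : (fun t => ‖g t‖) =O[atTop] fun t => Real.exp (-(2 * Real.pi) * t) := by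
    refine (EventuallyEq.isBigO ?_).trans (fr_isBigO f r).norm_left
    filter_upwards [eventually_gt_atTop 0] with t ht
    rw [hg]; simp only; rw [if_pos ht]
  have h1 := integrable_of_isBigO_exp_neg (a := 0) (show (0 : ℝ) < 2 * Real.pi by
    have := Real.pi_pos; positivity) hgc.norm hgO
  have h2 : IntegrableOn g (Ioi 0) := by
    unfold IntegrableOn
    rw [← integrable_norm_iff]
    · exact h1
    · exact (hgc.mono Ioi_subset_Ici_self).aestronglyMeasurable measurableSet_Ioi
  refine h2.congr_fun ?_ measurableSet_Ioi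
  intro t ht
  rw [hg]; simp only; rw [if_pos (show 0 < t from ht)]

theorem fr_eq (f : CuspForm (Gamma0 136) 2) (r : ℚ) (t : ℝ) :
    f (ofComplex ((r : ℂ) + t * Complex.I)) = fr f r t := by
  unfold fr ray
  norm_num

theorem lam_eq (f : CuspForm (Gamma0 136) 2) (r : ℚ) :
    lam f r = 2 * Real.pi * ∫ t in Ioi (0 : ℝ), fr f r t := by
  unfold lam
  simp only [fr_eq]

theorem prim_hasDerivAt_ray {f : CuspForm (Gamma0 136) 2} {A : ℕ → ℤ} (hA : Data f A) (x t : ℝ)
    (ht : 0 < t) : HasDerivAt (fun s : ℝ => prim f (ofComplex (ray x s)))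
      (-(2 * Real.pi * fr f x t)) t := by
  have him : 0 < (ray x t).im := by rw [ray_im]; exact ht
  have h1 := prim_hasDerivAt f A hA (ofComplex (ray x t))
  have e1 : ((ofComplex (ray x t) : ℍ) : ℂ) = ray x t := by
    rw [ofComplex_apply_of_im_pos him]
  rw [e1] at h1
  have h2 : HasDerivAt (fun s : ℝ => ray x s) Complex.I t := by
    unfold ray
    have h3 : HasDerivAt (fun s : ℝ => (s : ℂ)) 1 t := Complex.ofRealCLM.hasDerivAt
    simpa using (h3.mul_const Complex.I).const_add (x : ℂ)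
  have h3 := HasDerivAt.scomp t h1 h2
  refine h3.congr_deriv ?_
  rw [smul_eq_mul]
  unfold fr
  linear_combination (2 * Real.pi * f (ofComplex (ray x t))) * Complex.I_sq

theorem prim_ray_eq {f : CuspForm (Gamma0 136) 2} {A : ℕ → ℤ} (hA : Data f A) (r : ℚ) (t : ℝ)
    (ht : 0 < t) : prim f (ofComplex (ray r t)) = 2 * Real.pi * ∫ s in Ioi t, fr f r s := by
  have hint : IntegrableOn (fr f r) (Ioi t) := (fr_integrable f r).mono_set (Ioi_subset_Ioi ht.le)
  have h1 := integral_Ioi_of_hasDerivAt_of_tendsto'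
    (f := fun s : ℝ => prim f (ofComplex (ray r s))) (f' := fun s => -(2 * Real.pi * fr f r s))
    (a := t) (m := 0) (fun s hs => prim_hasDerivAt_ray hA r s (lt_of_lt_of_le ht hs))
    ((hint.const_mul (2 * Real.pi : ℂ)).neg) (pr_tendsto_zero hA r)
  rw [integral_neg, integral_const_mul] at h1
  have := h1
  rw [zero_sub, neg_inj] at this
  exact this.symm

theorem prim_tendsto_lam' {f : CuspForm (Gamma0 136) 2} {A : ℕ → ℤ} (hA : Data f A) (r : ℚ) :
    Tendsto (fun t : ℝ => prim f (ofComplex (ray r t))) (𝓝[>] 0) (𝓝 (lam f r)) := by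
  have hint := fr_integrable f r
  have h1 : Tendsto (fun t : ℝ => ∫ s in Ioc 0 t, fr f r s) (𝓝[>] 0) (𝓝 0) := by
    obtain ⟨δ, hδ, hb⟩ : ∃ δ > 0, ∀ s, 0 < s → s < δ → ‖fr f r s‖ ≤ 1 := by
      have h2 := (fr_tendsto_zero f r).norm
      rw [norm_zero] at h2
      have h3 : ∀ᶠ s in 𝓝[>] (0 : ℝ), ‖fr f r s‖ < 1 := h2.eventually (gt_mem_nhds one_pos)
      rw [eventually_nhdsWithin_iff, Metric.eventually_nhds_iff] at h3
      obtain ⟨δ, hδ, h4⟩ := h3
      refine ⟨δ, hδ, fun s hs hsδ => (h4 ?_ hs).le⟩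
      rw [Real.dist_eq, sub_zero, abs_of_pos hs]
      exact hsδ
    refine squeeze_zero_norm' (a := fun t => t) ?_ (tendsto_nhdsWithin_of_tendsto_nhds tendsto_id)
    filter_upwards [self_mem_nhdsWithin, Ioo_mem_nhdsGT hδ] with t ht1 ht2
    have h5 := norm_setIntegral_le_of_norm_le_const (μ := volume) (s := Ioc 0 t) (f := fr f r)
      (C := 1) (by simp) (fun s hs => hb s hs.1 (lt_of_le_of_lt hs.2 ht2.2))
    have h6 : volume.real (Ioc 0 t) = t := by
      rw [Measure.real, Real.volume_Ioc, sub_zero, ENNReal.toReal_ofReal (le_of_lt ht1)]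
    rw [h6, one_mul] at h5
    exact h5
  have h2 : Tendsto (fun t : ℝ => 2 * Real.pi * ((∫ s in Ioi 0, fr f r s) -
      ∫ s in Ioc 0 t, fr f r s)) (𝓝[>] 0) (𝓝 (lam f r)) := by
    have h3 := (h1.const_sub (∫ s in Ioi 0, fr f r s)).const_mul (2 * Real.pi : ℂ)
    rw [sub_zero, ← lam_eq] at h3
    exact h3
  refine h2.congr' ?_
  filter_upwards [self_mem_nhdsWithin] with t ht
  have ht' : (0 : ℝ) < t := ht
  rw [prim_ray_eq hA r t ht']
  congr 1
  have h4 : Ioi (0 : ℝ) = Ioc 0 t ∪ Ioi t := (Ioc_union_Ioi_eq_Ioi ht'.le).symm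
  have h5 := setIntegral_union (μ := volume) (f := fr f r) (s := Ioc 0 t) (t := Ioi t)
    (by
      rw [Set.disjoint_left]
      intro s hs hs'
      exact absurd hs.2 (not_le.2 hs')) measurableSet_Ioi
    (hint.mono_set (by rw [h4]; exact subset_union_left))
    (hint.mono_set (by rw [h4]; exact subset_union_right))
  rw [← h4] at h5
  rw [h5]
  ring

theorem prim_tendsto_lam (f : CuspForm (Gamma0 136) 2) (A : ℕ → ℤ) (hA : Data f A) (r : ℚ) :
    Tendsto (fun t : ℝ => prim f (ofComplex ((r : ℂ) + t * Complex.I))) (𝓝[>] 0)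
      (𝓝 (lam f r)) := by
  have h := prim_tendsto_lam' hA r
  refine h.congr fun t => ?_
  unfold ray
  norm_num

/-! ### complex conjugation -/

theorem pr_conj {f : CuspForm (Gamma0 136) 2} {A : ℕ → ℤ} (hA : Data f A) (x t : ℝ)
    (ht : 0 < t) : fr f (-x) t = (starRingEnd ℂ) (fr f x t) := by
  have h1 := pr_hasSum f (ofComplex (ray x t))
  have h2 := pr_hasSum f (ofComplex (ray (-x) t))
  have e1 : ∀ y : ℝ, ((ofComplex (ray y t) : ℍ) : ℂ) = ray y t := by
    intro y
    rw [ofComplex_apply_of_im_pos (by rw [ray_im]; exact ht)]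
  rw [e1] at h1 h2
  have h3 := h1.map (starRingEnd ℂ) Complex.continuous_conj
  have h4 : (fun n : ℕ => coeffOf f n * Complex.exp (2 * Real.pi * Complex.I * n * ray (-x) t)) =
      ((starRingEnd ℂ) ∘ fun n : ℕ => coeffOf f n *
        Complex.exp (2 * Real.pi * Complex.I * n * ray x t)) := by
    funext n
    rw [Function.comp_apply, map_mul, hA.coeff, ← Complex.exp_conj]
    congr 1
    · simp
    · congr 1
      unfold ray
      simp only [map_mul, map_add, Complex.conj_ofReal, Complex.conj_I, map_ofNat, map_natCast]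
      push_cast
      ring
  rw [h4] at h2
  exact h2.unique h3

theorem lam_neg (f : CuspForm (Gamma0 136) 2) (A : ℕ → ℤ) (hA : Data f A) (r : ℚ) :
    lam f (-r) = (starRingEnd ℂ) (lam f r) := by
  rw [lam_eq, lam_eq, map_mul, map_mul, Complex.conj_ofReal, map_ofNat, ← integral_conj]
  congr 1
  refine setIntegral_congr_fun measurableSet_Ioi fun t ht => ?_
  have := pr_conj hA r t ht
  push_cast
  exact this

/-! ### the Atkin-Lehner involution -/

theorem pr_mob_im (a b d : ℤ) (h : 8 * a * d - 17 * b = 1) (z : ℂ) (hz : 0 < z.im) :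
    0 < (mob (8 * a) b 136 (8 * d) z).im ∧ (136 * z + 8 * d : ℂ) ≠ 0 := by
  have hne : (136 * z + 8 * d : ℂ) ≠ 0 := by
    intro h0
    have := congrArg Complex.im h0
    simp at this
    linarith
  refine ⟨?_, hne⟩
  have h2 : mob (8 * a) b 136 (8 * d) z =
      (8 * a * z + b) * (starRingEnd ℂ) (136 * z + 8 * d) / Complex.normSq (136 * z + 8 * d) := by
    unfold mob
    push_cast
    rw [div_eq_div_iff hne (by exact_mod_cast (Complex.normSq_pos.2 hne).ne')]
    rw [Complex.normSq_eq_conj_mul_self]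
    ring
  rw [h2, Complex.div_ofReal_im]
  refine div_pos ?_ (Complex.normSq_pos.2 hne)
  have h3 : ((8 * a * z + b) * (starRingEnd ℂ) (136 * z + 8 * d)).im =
      8 * (8 * a * d - 17 * b : ℝ) * z.im := by
    simp only [Complex.mul_im, Complex.add_re, Complex.mul_re, Complex.add_im, map_add, map_mul,
      Complex.conj_re, Complex.conj_im, Complex.re_ofNat, Complex.im_ofNat, Complex.intCast_re,
      Complex.intCast_im, map_ofNat, map_intCast]
    ring
  rw [h3]
  have h4 : (8 * a * d - 17 * b : ℝ) = 1 := by exact_mod_cast h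
  rw [h4]
  linarith

theorem prim_W (f : CuspForm (Gamma0 136) 2) (A : ℕ → ℤ) (hA : Data f A)
    (a b d : ℤ) (h : 8 * a * d - 17 * b = 1)
    (hW : ∀ τ τ' : ℍ, (τ' : ℂ) = mob (8 * a) b 136 (8 * d) τ →
      f τ' * 8 = -f τ * (136 * τ + 8 * d) ^ 2) (τ τ' : ℍ)
    (hτ : (τ' : ℂ) = mob (8 * a) b 136 (8 * d) τ) :
    prim f τ' + prim f τ = lam f (a / 17) ∧ prim f τ' + prim f τ = lam f (-d / 17) := by
  set W : ℂ → ℂ := mob (8 * a) b 136 (8 * d) with hWdef
  set H : ℂ → ℂ := fun z => prim f (ofComplex (W z)) + prim f (ofComplex z) with hH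
  -- the derivative vanishes
  have hder : ∀ z : ℂ, 0 < z.im → HasDerivAt H 0 z := by
    intro z hz
    obtain ⟨hWim, hne⟩ := pr_mob_im a b d h z hz
    have e1 : ((ofComplex z : ℍ) : ℂ) = z := by rw [ofComplex_apply_of_im_pos hz]
    have e2 : ((ofComplex (W z) : ℍ) : ℂ) = W z := by rw [ofComplex_apply_of_im_pos hWim]
    have h1 := prim_hasDerivAt f A hA (ofComplex z)
    have h2 := prim_hasDerivAt f A hA (ofComplex (W z))
    rw [e1] at h1
    rw [e2] at h2
    have h3 : HasDerivAt W (8 / (136 * z + 8 * d) ^ 2) z := by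
      have h4 : HasDerivAt (fun z : ℂ => ((8 * a : ℤ) * z + b : ℂ)) ((8 * a : ℤ) : ℂ) z := by
        simpa using ((hasDerivAt_id z).const_mul ((8 * a : ℤ) : ℂ)).add_const (b : ℂ)
      have h5 : HasDerivAt (fun z : ℂ => ((136 : ℤ) * z + (8 * d : ℤ) : ℂ)) ((136 : ℤ) : ℂ) z := by
        simpa using ((hasDerivAt_id z).const_mul ((136 : ℤ) : ℂ)).add_const ((8 * d : ℤ) : ℂ)
      have hne' : ((136 : ℤ) * z + (8 * d : ℤ) : ℂ) ≠ 0 := by push_cast; exact hne
      have h6 := h4.div h5 hne'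
      refine h6.congr_deriv ?_
      push_cast
      rw [div_left_inj' (pow_ne_zero 2 hne)]
      have h7 : (8 * a * d - 17 * b : ℂ) = 1 := by exact_mod_cast h
      linear_combination 8 * h7
    have h4 := h2.comp z h3
    have h5 := h4.add h1
    refine h5.congr_deriv ?_
    have h6 := hW (ofComplex z) (ofComplex (W z)) (by rw [e1, e2])
    rw [e1] at h6
    have h7 : f (ofComplex (W z)) * (8 / (136 * z + 8 * d) ^ 2) = -f (ofComplex z) := by
      rw [← mul_div_assoc, h6, mul_div_assoc, div_self (pow_ne_zero 2 hne), mul_one]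
    linear_combination (2 * Real.pi * Complex.I) * h7
  -- so `H` is constant on the upper half plane
  have hconst : ∀ z w : ℂ, 0 < z.im → 0 < w.im → H z = H w := by
    intro z w hz hw
    have hs : Convex ℝ {z : ℂ | 0 < z.im} := convex_halfSpace_im_gt 0
    refine hs.is_const_of_fderivWithin_eq_zero (𝕜 := ℂ) (f := H) ?_ ?_ hz hw
    · intro u hu
      exact (hder u hu).differentiableAt.differentiableWithinAt
    · intro u hu
      have ho : IsOpen {z : ℂ | 0 < z.im} := isOpen_lt continuous_const Complex.continuous_im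
      rw [fderivWithin_of_isOpen ho hu]
      have := (hder u hu).hasFDerivAt.fderiv
      rw [this]
      ext
      simp
  -- values on the ray
  have hray : ∀ t : ℝ, 0 < t → H (ray (-d / 17) t) =
      prim f (ofComplex (ray (a / 17) (1 / (17 * 136 * t)))) + prim f (ofComplex (ray (-d / 17) t)) := by
    intro t ht
    have ht' : (t : ℂ) ≠ 0 := by exact_mod_cast ht.ne'
    rw [hH]
    simp only
    congr 3
    rw [hWdef]
    unfold mob ray
    push_cast
    have hI := Complex.I_ne_zero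
    have h7 : (8 * a * d - 17 * b : ℂ) = 1 := by exact_mod_cast h
    have hden : (136 * (-(d : ℂ) / 17 + t * Complex.I) + 8 * d) = 136 * t * Complex.I := by ring
    rw [hden]
    have hb : (b : ℂ) = (8 * a * d - 1) / 17 := by
      rw [eq_div_iff (by norm_num)]
      linear_combination -h7
    rw [hb]
    field_simp
    linear_combination (-1 : ℂ) * Complex.I_sq
  have hHτ : H τ = prim f τ' + prim f τ := by
    rw [hH]
    simp only
    rw [← hτ, ofComplex_apply, ofComplex_apply]
  have hcast1 : (((a / 17 : ℚ)) : ℝ) = (a : ℝ) / 17 := by push_cast; ring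
  have hcast2 : (((-d / 17 : ℚ)) : ℝ) = -(d : ℝ) / 17 := by push_cast; ring
  have hval : ∀ t : ℝ, 0 < t → H τ = prim f (ofComplex (ray (a / 17) (1 / (17 * 136 * t)))) +
      prim f (ofComplex (ray (-d / 17) t)) := by
    intro t ht
    rw [← hray t ht]
    exact hconst _ _ (by rw [coe_im]; exact τ.im_pos) (by rw [ray_im]; exact ht)
  rw [← hHτ]
  constructor
  · -- `t → ∞`
    have h1 : Tendsto (fun t : ℝ => prim f (ofComplex (ray (a / 17) (1 / (17 * 136 * t)))) +
        prim f (ofComplex (ray (-d / 17) t))) atTop (𝓝 (lam f (a / 17) + 0)) := by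
      refine Tendsto.add ?_ (pr_tendsto_zero hA _)
      have h2 := prim_tendsto_lam' hA (a / 17 : ℚ)
      rw [hcast1] at h2
      refine h2.comp ?_
      have h3 : Tendsto (fun t : ℝ => 17 * 136 * t) atTop atTop :=
        tendsto_id.const_mul_atTop (by norm_num)
      have h4 := tendsto_inv_atTop_nhdsGT_zero.comp h3
      refine h4.congr fun t => ?_
      simp [one_div]
    rw [add_zero] at h1
    refine tendsto_nhds_unique (tendsto_const_nhds.congr' ?_) h1
    filter_upwards [eventually_gt_atTop (0 : ℝ)] with t ht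
    exact hval t ht
  · have h1 : Tendsto (fun t : ℝ => prim f (ofComplex (ray (a / 17) (1 / (17 * 136 * t)))) +
        prim f (ofComplex (ray (-d / 17) t))) (𝓝[>] 0) (𝓝 (0 + lam f (-d / 17))) := by
      refine Tendsto.add ?_ ?_
      · refine (pr_tendsto_zero hA _).comp ?_
        have h3 := (tendsto_inv_nhdsGT_zero (𝕜 := ℝ)).const_mul_atTop
          (show (0 : ℝ) < 1 / (17 * 136) by norm_num)
        refine h3.congr fun t => ?_
        rw [one_div, one_div, mul_inv (17 * 136) t]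
      · have h2 := prim_tendsto_lam' hA (-d / 17 : ℚ)
        rw [hcast2] at h2
        exact h2
    rw [zero_add] at h1
    refine tendsto_nhds_unique (tendsto_const_nhds.congr' ?_) h1
    filter_upwards [self_mem_nhdsWithin] with t ht
    exact hval t ht

end Pool.Agent.MT136
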