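import Mathlib
import Pool.Agent.MT136.Defs
import Pool.Agent.MT136.Core
import Pool.Agent.MT136.Prim

/-!
# The distribution relation for the operator `U₁₇`
-/

set_option autoImplicit false

namespace Pool.Agent.MT136

open CongruenceSubgroup UpperHalfPlane Filter Topology

theorem A_seventeen (f : CuspForm (Gamma0 136) 2) (hf : IsNewformOf E136 136 f) (A : ℕ → ℤ)
    (hA : Data f A) (n : ℕ) : A (17 * n) = A n := by
  have h1 := hf.hecke 17 (by norm_num) 1
  have h2 := hf.hecke 17 (by norm_num) n
  rw [if_pos (by norm_num), sub_zero, hA.coeff, hA.coeff] at h1 h2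
  have hA1 : A 1 = 1 := by rw [hA.table 1 (by norm_num)]; decide
  have hA17 : A 17 = 1 := by rw [hA.table 17 (by norm_num)]; decide
  rw [mul_one, hA1, hA17] at h1
  have ht : (traceFrob E136 17 : ℂ) = 1 := by simpa using h1.symm
  rw [ht, one_mul] at h2
  exact_mod_cast h2

theorem sum_root (n : ℕ) : ∑ j ∈ Finset.range 17,
    Complex.exp (2 * Real.pi * Complex.I * n / 17) ^ j = if 17 ∣ n then 17 else 0 := by
  set w := Complex.exp (2 * Real.pi * Complex.I * n / 17) with hw
  have h17 : w ^ 17 = 1 := by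
    rw [hw, ← Complex.exp_nat_mul]
    rw [Complex.exp_eq_one_iff]
    exact ⟨n, by push_cast; ring⟩
  split_ifs with hn
  · obtain ⟨m, rfl⟩ := hn
    have : w = 1 := by
      rw [hw, Complex.exp_eq_one_iff]
      exact ⟨m, by push_cast; ring⟩
    rw [this]
    simp
  · have hne : w ≠ 1 := by
      intro h
      rw [hw, Complex.exp_eq_one_iff] at h
      obtain ⟨k, hk⟩ := h
      apply hn
      have hpi : (2 * Real.pi * Complex.I : ℂ) ≠ 0 := Complex.two_pi_I_ne_zero
      have h2 : (n : ℂ) = 17 * k := by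
        have h3 : (2 * Real.pi * Complex.I : ℂ) * n = (2 * Real.pi * Complex.I) * (17 * k) := by
          have h4 : (2 * Real.pi * Complex.I : ℂ) * n =
              17 * (2 * Real.pi * Complex.I * n / 17) := by ring
          rw [h4, hk]; ring
        exact mul_left_cancel₀ hpi h3
      have h5 : (n : ℤ) = 17 * k := by exact_mod_cast h2
      have h6 : (17 : ℤ) ∣ n := ⟨k, h5⟩
      exact_mod_cast h6
    rw [geom_sum_eq hne, h17]
    simp

theorem prim_distrib (f : CuspForm (Gamma0 136) 2) (A : ℕ → ℤ) (hA : Data f A)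
    (hU : ∀ n, A (17 * n) = A n) (z : ℂ) (hz : 0 < z.im) :
    ∑ j ∈ Finset.range 17, (∑' n : ℕ, coeffOf f n / n *
      Complex.exp (2 * Real.pi * Complex.I * n * ((z + j) / 17))) =
    ∑' n : ℕ, coeffOf f n / n * Complex.exp (2 * Real.pi * Complex.I * n * z) := by
  have him : ∀ j : ℕ, 0 < ((z + j) / 17).im := by
    intro j
    have h : ((z + j) / 17).im = z.im / 17 := by
      rw [show (z + j) / 17 = (z + j) / ((17 : ℝ) : ℂ) by norm_num, Complex.div_ofReal_im]
      simp
    rw [h]; positivity
  rw [← Summable.tsum_finsetSum (fun j _ => pr_prim_summable hA _ (him j))]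
  have hterm : ∀ n : ℕ, ∑ j ∈ Finset.range 17, coeffOf f n / n *
      Complex.exp (2 * Real.pi * Complex.I * n * ((z + j) / 17)) =
      if 17 ∣ n then 17 * (coeffOf f n / n * Complex.exp (2 * Real.pi * Complex.I * n * (z / 17)))
        else 0 := by
    intro n
    have h1 : ∀ j : ℕ, coeffOf f n / n *
        Complex.exp (2 * Real.pi * Complex.I * n * ((z + j) / 17)) =
        (coeffOf f n / n * Complex.exp (2 * Real.pi * Complex.I * n * (z / 17))) *
        Complex.exp (2 * Real.pi * Complex.I * n / 17) ^ j := by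
      intro j
      rw [← Complex.exp_nat_mul, mul_assoc (coeffOf f n / n), ← Complex.exp_add]
      congr 2
      ring
    rw [Finset.sum_congr rfl (fun j _ => h1 j), ← Finset.mul_sum, sum_root]
    split_ifs <;> ring
  rw [tsum_congr hterm]
  have hinj : Function.Injective (fun m : ℕ => 17 * m) := fun a b h => by
    simpa using h
  rw [← hinj.tsum_eq]
  · refine tsum_congr fun m => ?_
    simp only [dvd_mul_right, if_true]
    rw [hA.coeff, hA.coeff, hU]
    rcases Nat.eq_zero_or_pos m with rfl | hm
    · simp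
    · have hm' : (m : ℂ) ≠ 0 := by exact_mod_cast hm.ne'
      rw [show (2 * Real.pi * Complex.I * ((17 * m : ℕ) : ℂ) * (z / 17) : ℂ) =
        2 * Real.pi * Complex.I * m * z by push_cast; ring]
      push_cast
      field_simp
  · intro n hn
    rw [Function.mem_support] at hn
    have : 17 ∣ n := by
      by_contra h
      exact hn (if_neg h)
    obtain ⟨m, rfl⟩ := this
    exact ⟨m, rfl⟩

theorem lam_distrib (f : CuspForm (Gamma0 136) 2) (A : ℕ → ℤ) (hA : Data f A)
    (hU : ∀ n, A (17 * n) = A n) (r : ℚ) :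
    ∑ j ∈ Finset.range 17, lam f ((r + j) / 17) = lam f r := by
  have h1 : Tendsto (fun t : ℝ => ∑ j ∈ Finset.range 17,
      prim f (ofComplex ((((r + j) / 17 : ℚ) : ℂ) + (t / 17 : ℝ) * Complex.I))) (𝓝[>] 0)
      (𝓝 (∑ j ∈ Finset.range 17, lam f ((r + j) / 17))) := by
    refine tendsto_finsetSum _ fun j _ => ?_
    have h2 : Tendsto (fun t : ℝ => t / 17) (𝓝[>] 0) (𝓝[>] 0) := by
      rw [tendsto_nhdsWithin_iff]
      constructor
      · have : Tendsto (fun t : ℝ => t / 17) (𝓝 0) (𝓝 (0 / 17)) :=
          (continuous_id.div_const 17).tendsto 0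
        rw [zero_div] at this
        exact this.mono_left nhdsWithin_le_nhds
      · filter_upwards [self_mem_nhdsWithin] with t ht
        have : (0 : ℝ) < t := ht
        show (0 : ℝ) < t / 17
        positivity
    exact (prim_tendsto_lam f A hA ((r + j) / 17)).comp h2
  have h3 := prim_tendsto_lam f A hA r
  refine tendsto_nhds_unique h1 (h3.congr' ?_)
  filter_upwards [self_mem_nhdsWithin] with t ht
  have ht' : (0 : ℝ) < t := ht
  have hz : 0 < ((r : ℂ) + t * Complex.I).im := by simpa using ht'
  have hd := prim_distrib f A hA hU ((r : ℂ) + t * Complex.I) hz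
  have hP : ∀ z : ℂ, 0 < z.im → prim f (ofComplex z) = ∑' n : ℕ, coeffOf f n / n *
      Complex.exp (2 * Real.pi * Complex.I * n * z) := by
    intro z hz
    unfold prim
    rw [ofComplex_apply_of_im_pos hz]
  rw [hP _ hz, ← hd]
  refine Finset.sum_congr rfl fun j _ => ?_
  have hz2 : 0 < ((((r + j) / 17 : ℚ) : ℂ) + (t / 17 : ℝ) * Complex.I).im := by
    simp; positivity
  rw [hP _ hz2]
  refine tsum_congr fun n => ?_
  congr 2
  push_cast
  ring_nf

end Pool.Agent.MT136
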