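import Mathlib
import Pool.Agent.MT136.Core

set_option autoImplicit false

namespace Pool.Agent.MT136

open CongruenceSubgroup UpperHalfPlane Filter Topology EisensteinSeries
open scoped Manifold MatrixGroups

/-- The constant in the transformation law of `E₂`. -/
noncomputable def kap : ℂ := (1 / (2 * riemannZeta 2)) * (2 * Real.pi * Complex.I)

theorem E2_smul (γ : SL(2, ℤ)) (z : ℍ) :
    E2 (γ • z) = (denom γ z) ^ 2 * E2 z - kap * (γ 1 0 : ℤ) * denom γ z := by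
  have h := congrFun (E2_slash_action γ) z
  rw [ModularForm.SL_slash_apply] at h
  have hd : denom γ z ≠ 0 := denom_ne_zero _ _
  simp only [Pi.sub_apply, Pi.smul_apply, D2, smul_eq_mul] at h
  have h2 : E2 (γ • z) = (denom γ z) ^ 2 * (E2 (γ • z) * (denom γ z) ^ (-2 : ℤ)) := by
    field_simp
  rw [h2, h, kap]
  field_simp

theorem coe_smul_SL (γ : SL(2, ℤ)) (τ : ℍ) :
    ((γ • τ : ℍ) : ℂ) = ((γ 0 0 : ℤ) * (τ : ℂ) + (γ 0 1 : ℤ)) /
      ((γ 1 0 : ℤ) * (τ : ℂ) + (γ 1 1 : ℤ)) := by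
  rw [coe_specialLinearGroup_apply]
  simp

/-- The transformation of `n E₂(nτ)` under `γ`, given a factorisation
`diag(n, 1) γ = γ' (u, v; 0, w)`. -/
theorem E2d_of_factor (n : ℕ) (γ γ' : SL(2, ℤ)) (u v w : ℤ) (hw : 0 < w)
    (h00 : n * γ 0 0 = γ' 0 0 * u) (h01 : n * γ 0 1 = γ' 0 0 * v + γ' 0 1 * w)
    (h10 : γ 1 0 = γ' 1 0 * u) (h11 : γ 1 1 = γ' 1 0 * v + γ' 1 1 * w)
    (τ z : ℍ) (hz : (z : ℂ) = (u * τ + v) / w) :
    E2d n (γ • τ) = n / (w : ℂ) ^ 2 * denom γ τ ^ 2 * E2 z - kap * (γ 1 0 : ℤ) * denom γ τ := by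
  have hw' : (w : ℂ) ≠ 0 := by exact_mod_cast hw.ne'
  have hd : denom γ τ ≠ 0 := denom_ne_zero _ _
  have hd' : denom γ' z ≠ 0 := denom_ne_zero _ _
  have e00 : (n : ℂ) * (γ 0 0 : ℤ) = (γ' 0 0 : ℤ) * u := by exact_mod_cast h00
  have e01 : (n : ℂ) * (γ 0 1 : ℤ) = (γ' 0 0 : ℤ) * v + (γ' 0 1 : ℤ) * w := by exact_mod_cast h01
  have e10 : ((γ 1 0 : ℤ) : ℂ) = (γ' 1 0 : ℤ) * u := by exact_mod_cast h10
  have e11 : ((γ 1 1 : ℤ) : ℂ) = (γ' 1 0 : ℤ) * v + (γ' 1 1 : ℤ) * w := by exact_mod_cast h11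
  have hden : denom γ τ = w * denom γ' z := by
    rw [ModularGroup.denom_apply, ModularGroup.denom_apply, hz, e10, e11]
    field_simp
    ring
  have hdet : (n : ℤ) = u * w := by
    have h1 := Matrix.det_fin_two γ.1
    have h2 := Matrix.det_fin_two γ'.1
    rw [γ.2] at h1
    rw [γ'.2] at h2
    have : (n : ℤ) * 1 = u * w * 1 := by
      conv_lhs => rw [h1]
      conv_rhs => rw [h2]
      have a1 : (γ.1 1 0) = γ'.1 1 0 * u := h10
      have a2 : (γ.1 1 1) = γ'.1 1 0 * v + γ'.1 1 1 * w := h11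
      have a3 : (n : ℤ) * γ.1 0 0 = γ'.1 0 0 * u := h00
      have a4 : (n : ℤ) * γ.1 0 1 = γ'.1 0 0 * v + γ'.1 0 1 * w := h01
      linear_combination a3 * γ.1 1 1 - a4 * γ.1 1 0 + γ'.1 0 0 * u * a2 -
        (γ'.1 0 0 * v + γ'.1 0 1 * w) * a1
    simpa using this
  have hn' : (n : ℂ) = u * w := by exact_mod_cast hdet
  have hpt : ofComplex ((n : ℂ) * ((γ • τ : ℍ) : ℂ)) = γ' • z := by
    have hc : (n : ℂ) * ((γ • τ : ℍ) : ℂ) = ((γ' • z : ℍ) : ℂ) := by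
      rw [coe_smul_SL, coe_smul_SL]
      have hd1 : ((γ 1 0 : ℤ) : ℂ) * τ + (γ 1 1 : ℤ) ≠ 0 := by
        rw [← ModularGroup.denom_apply]; exact hd
      have hd2 : ((γ' 1 0 : ℤ) : ℂ) * z + (γ' 1 1 : ℤ) ≠ 0 := by
        rw [← ModularGroup.denom_apply]; exact hd'
      have hnum : (n : ℂ) * ((γ 0 0 : ℤ) * (τ : ℂ) + (γ 0 1 : ℤ)) =
          w * ((γ' 0 0 : ℤ) * (z : ℂ) + (γ' 0 1 : ℤ)) := by
        rw [mul_add, ← mul_assoc, e00, e01, hz]
        field_simp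
        ring
      have hden' : ((γ 1 0 : ℤ) : ℂ) * τ + (γ 1 1 : ℤ) =
          w * (((γ' 1 0 : ℤ) : ℂ) * z + (γ' 1 1 : ℤ)) := by
        rw [← ModularGroup.denom_apply, hden, ModularGroup.denom_apply]
      rw [← mul_div_assoc, hnum, hden', mul_div_mul_left _ _ hw']
    rw [hc, ofComplex_apply]
  rw [E2d, hpt, E2_smul, hden, e10, hn']
  field_simp

/-- A factorisation `diag(n, 1) γ = γ' (u, v; 0, w)` exists. -/
theorem exists_factor (n : ℕ) (hn : 0 < n) (γ : SL(2, ℤ)) :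
    ∃ (γ' : SL(2, ℤ)) (u v w : ℤ), 0 < u ∧ 0 < w ∧ u = (Int.gcd n (γ 1 0) : ℤ) ∧
      (n : ℤ) = u * w ∧ n * γ 0 0 = γ' 0 0 * u ∧ n * γ 0 1 = γ' 0 0 * v + γ' 0 1 * w ∧
      γ 1 0 = γ' 1 0 * u ∧ γ 1 1 = γ' 1 0 * v + γ' 1 1 * w := by
  have hdet : γ 0 0 * γ 1 1 - γ 0 1 * γ 1 0 = 1 := by
    have := Matrix.det_fin_two γ.1
    rw [γ.2] at this
    exact this.symm
  set a := γ 0 0
  set b := γ 0 1
  set c := γ 1 0
  set e := γ 1 1
  obtain ⟨u, hu⟩ : ∃ u : ℤ, u = ((Int.gcd n c : ℕ) : ℤ) := ⟨_, rfl⟩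
  have hupos : 0 < u := by
    rw [hu]
    exact_mod_cast Int.gcd_pos_of_ne_zero_left _ (by exact_mod_cast hn.ne')
  obtain ⟨w, hw⟩ : u ∣ (n : ℤ) := by rw [hu]; exact Int.gcd_dvd_left _ _
  obtain ⟨c', hc'⟩ : u ∣ c := by rw [hu]; exact Int.gcd_dvd_right _ _
  have hwpos : 0 < w := by
    have : 0 < u * w := by rw [← hw]; exact_mod_cast hn
    exact (mul_pos_iff_of_pos_left hupos).mp this
  have hcop : IsCoprime (w * a) c' := by
    have h1 : IsCoprime w c' := by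
      have h6 : (Int.gcd w c' : ℤ) = 1 := by
        have h2 : Int.gcd (u * w) (u * c') = Int.gcd n c := by rw [← hw, ← hc']
        rw [Int.gcd_mul_left] at h2
        have h4 : (u.natAbs : ℤ) = u := Int.natAbs_of_nonneg hupos.le
        have h5 : (u.natAbs : ℤ) * Int.gcd w c' = u * 1 := by
          rw [mul_one]; nth_rw 2 [hu]; exact_mod_cast h2
        rw [h4] at h5
        exact mul_left_cancel₀ hupos.ne' h5
      exact Int.isCoprime_iff_gcd_eq_one.mpr (by exact_mod_cast h6)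
    have h2 : IsCoprime a c' := by
      refine ⟨e, -(b * u), ?_⟩
      rw [← hdet, hc']
      ring
    exact h1.mul_left h2
  obtain ⟨x, y, hxy⟩ := hcop
  -- `γ' = (w a, -y; c', x)`
  refine ⟨⟨!![w * a, -y; c', x], ?_⟩, u, x * (n * b) + y * e, w, hupos, hwpos, hu, hw,
    ?_, ?_, ?_, ?_⟩
  · rw [Matrix.det_fin_two_of]
    linear_combination hxy
  · change (n : ℤ) * a = w * a * u
    rw [hw]; ring
  · change (n : ℤ) * b = w * a * (x * (n * b) + y * e) + -y * w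
    rw [hw]
    linear_combination (-u * w * b) * hxy + (-y * w) * hdet + (-y * w * b) * hc'
  · change c = c' * u
    rw [hc']; ring
  · change e = c' * (x * (n * b) + y * e) + x * w
    rw [hw]
    linear_combination (-e) * hxy + (x * w) * hdet + (x * w * b) * hc'

end Pool.Agent.MT136
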