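import Mathlib
import Pool.Agent.MT136.EisBase

/-!
# The Eisenstein series `al`, `be`, `ga` are modular forms for `Γ₀(136)`
-/

set_option autoImplicit false

namespace Pool.Agent.MT136

open CongruenceSubgroup UpperHalfPlane Filter Topology EisensteinSeries
open scoped Manifold MatrixGroups ModularForm

theorem coe_ofComplex_mul (n : ℕ) (hn : 0 < n) (τ : ℍ) :
    ((ofComplex ((n : ℂ) * τ) : ℍ) : ℂ) = n * τ := by
  have : 0 < ((n : ℂ) * τ).im := by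
    simp [τ.im_pos, hn]
  rw [ofComplex_apply_of_im_pos this]

theorem E2d_Gamma0 (n : ℕ) (hn : 0 < n) (hd : n ∣ 136) (γ : SL(2, ℤ)) (hγ : γ ∈ Gamma0 136)
    (τ : ℍ) :
    E2d n (γ • τ) = denom γ τ ^ 2 * E2d n τ - kap * (γ 1 0 : ℤ) * denom γ τ := by
  rw [Gamma0_mem, ZMod.intCast_zmod_eq_zero_iff_dvd] at hγ
  obtain ⟨c', hc'⟩ : (n : ℤ) ∣ γ 1 0 := (by exact_mod_cast hd : (n : ℤ) ∣ (136 : ℤ)).trans
    (by exact_mod_cast hγ)
  have hdet : γ 0 0 * γ 1 1 - γ 0 1 * γ 1 0 = 1 := by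
    have := Matrix.det_fin_two γ.1
    rw [γ.2] at this
    exact this.symm
  have key := E2d_of_factor n γ ⟨!![γ 0 0, n * γ 0 1; c', γ 1 1], by
    rw [Matrix.det_fin_two_of]; linear_combination hdet + γ 0 1 * hc'⟩ n 0 1 one_pos
    (by change (n : ℤ) * γ 0 0 = γ 0 0 * n; ring)
    (by change (n : ℤ) * γ 0 1 = γ 0 0 * 0 + n * γ 0 1 * 1; ring)
    (by change γ 1 0 = c' * n; rw [hc']; ring)
    (by change γ 1 1 = c' * 0 + γ 1 1 * 1; ring) τ (ofComplex ((n : ℂ) * τ))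
    (by rw [coe_ofComplex_mul n hn]; simp)
  rw [key, E2d]
  simp
  ring

/-- A combination of the four Eisenstein series. -/
noncomputable def comb (s₂ s₄ s₃₄ s₆₈ : ℂ) (τ : ℍ) : ℂ :=
  s₂ * E2d 2 τ + s₄ * E2d 4 τ + s₃₄ * E2d 34 τ + s₆₈ * E2d 68 τ

theorem comb_slash (s₂ s₄ s₃₄ s₆₈ : ℂ) (hs : s₂ + s₄ + s₃₄ + s₆₈ = 0) (γ : SL(2, ℤ))
    (hγ : γ ∈ Gamma0 136) : comb s₂ s₄ s₃₄ s₆₈ ∣[(2 : ℤ)] γ = comb s₂ s₄ s₃₄ s₆₈ := by
  ext τ
  rw [ModularForm.SL_slash_apply]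
  have hd : denom γ τ ≠ 0 := denom_ne_zero _ _
  have h : comb s₂ s₄ s₃₄ s₆₈ (γ • τ) = denom γ τ ^ 2 * comb s₂ s₄ s₃₄ s₆₈ τ := by
    rw [comb, comb, E2d_Gamma0 2 (by norm_num) (by norm_num) γ hγ,
      E2d_Gamma0 4 (by norm_num) (by norm_num) γ hγ,
      E2d_Gamma0 34 (by norm_num) (by norm_num) γ hγ,
      E2d_Gamma0 68 (by norm_num) (by norm_num) γ hγ]
    linear_combination (-kap * (γ 1 0 : ℤ) * denom γ τ) * hs
  rw [h]
  field_simp

theorem E2d_mdiff (n : ℕ) (hn : 0 < n) : MDiff (E2d n) := by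
  rw [UpperHalfPlane.mdifferentiable_iff]
  have h := UpperHalfPlane.mdifferentiable_iff.mp E2_mdifferentiable
  have h2 : DifferentiableOn ℂ (fun z : ℂ => (n : ℂ) * (E2 ∘ ofComplex) ((n : ℂ) * z))
      {z : ℂ | 0 < z.im} := by
    refine DifferentiableOn.const_mul (h.comp (by fun_prop) ?_) _
    intro z hz
    simpa [hn] using hz
  refine h2.congr ?_
  intro z hz
  change E2d n (ofComplex z) = _
  rw [E2d, ofComplex_apply_of_im_pos hz]
  rfl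

theorem comb_mdiff (s₂ s₄ s₃₄ s₆₈ : ℂ) : MDiff (comb s₂ s₄ s₃₄ s₆₈) := by
  have h := fun n hn => UpperHalfPlane.mdifferentiable_iff.mp (E2d_mdiff n hn)
  rw [UpperHalfPlane.mdifferentiable_iff]
  exact (((h 2 (by norm_num)).const_mul s₂).add ((h 4 (by norm_num)).const_mul s₄)).add
    ((h 34 (by norm_num)).const_mul s₃₄) |>.add ((h 68 (by norm_num)).const_mul s₆₈)

/-- The factorised form of `(n E₂(nτ))|γ`. -/
theorem exists_bounded (n : ℕ) (hn : 0 < n) (γ : SL(2, ℤ)) : ∃ h : ℍ → ℂ,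
    IsBoundedAtImInfty h ∧ ∀ τ, E2d n (γ • τ) =
      denom γ τ ^ 2 * h τ - kap * (γ 1 0 : ℤ) * denom γ τ := by
  obtain ⟨γ', u, v, w, hu, hw, -, -, h00, h01, h10, h11⟩ := exists_factor n hn γ
  have hwR : (0 : ℝ) < w := by exact_mod_cast hw
  have huR : (0 : ℝ) < u := by exact_mod_cast hu
  have hwC : (w : ℂ) ≠ 0 := by exact_mod_cast hw.ne'
  have him : ∀ τ : ℍ, (((u : ℂ) * τ + v) / w).im = u * τ.im / w := by
    intro τ
    have : ((u : ℂ) * τ + v) / w = (((u : ℝ) / w : ℝ) : ℂ) * τ + (((v : ℝ) / w : ℝ) : ℂ) := by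
      push_cast; field_simp
    rw [this, Complex.add_im, Complex.im_ofReal_mul, Complex.ofReal_im, add_zero, coe_im]
    ring
  have him' : ∀ τ : ℍ, 0 < (((u : ℂ) * τ + v) / w).im := by
    intro τ
    rw [him]
    have := τ.im_pos
    positivity
  refine ⟨fun τ => n / (w : ℂ) ^ 2 * E2 ⟨((u : ℂ) * τ + v) / w, him' τ⟩, ?_, ?_⟩
  · obtain ⟨M, A, hMA⟩ := isBoundedAtImInfty_iff.mp isBoundedAtImInfty_E2
    refine isBoundedAtImInfty_iff.mpr ⟨‖(n / (w : ℂ) ^ 2 : ℂ)‖ * M, A * w / u, fun τ hτ => ?_⟩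
    rw [norm_mul]
    refine mul_le_mul_of_nonneg_left (hMA _ ?_) (norm_nonneg _)
    change A ≤ (((u : ℂ) * τ + v) / w).im
    rw [him, le_div_iff₀ hwR]
    rw [div_le_iff₀ huR] at hτ
    linarith
  · intro τ
    rw [E2d_of_factor n γ γ' u v w hw h00 h01 h10 h11 τ ⟨((u : ℂ) * τ + v) / w, him' τ⟩ rfl]
    ring

theorem comb_bounded (s₂ s₄ s₃₄ s₆₈ : ℂ) (hs : s₂ + s₄ + s₃₄ + s₆₈ = 0) (γ : SL(2, ℤ)) :
    IsBoundedAtImInfty (comb s₂ s₄ s₃₄ s₆₈ ∣[(2 : ℤ)] γ) := by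
  obtain ⟨h₂, hb₂, e₂⟩ := exists_bounded 2 (by norm_num) γ
  obtain ⟨h₄, hb₄, e₄⟩ := exists_bounded 4 (by norm_num) γ
  obtain ⟨h₃, hb₃, e₃⟩ := exists_bounded 34 (by norm_num) γ
  obtain ⟨h₆, hb₆, e₆⟩ := exists_bounded 68 (by norm_num) γ
  have heq : comb s₂ s₄ s₃₄ s₆₈ ∣[(2 : ℤ)] γ =
      ((s₂ • h₂ + s₄ • h₄) + s₃₄ • h₃) + s₆₈ • h₆ := by
    ext τ
    rw [ModularForm.SL_slash_apply]
    have hd : denom γ τ ≠ 0 := denom_ne_zero _ _
    have h : comb s₂ s₄ s₃₄ s₆₈ (γ • τ) = denom γ τ ^ 2 *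
        (((s₂ • h₂ + s₄ • h₄) + s₃₄ • h₃) + s₆₈ • h₆) τ := by
      rw [comb, e₂, e₄, e₃, e₆]
      simp only [Pi.add_apply, Pi.smul_apply, smul_eq_mul]
      linear_combination (-kap * (γ 1 0 : ℤ) * denom γ τ) * hs
    rw [h]
    field_simp
  rw [heq]
  have hsm : ∀ (s : ℂ) (h : ℍ → ℂ), IsBoundedAtImInfty h → IsBoundedAtImInfty (s • h) := by
    intro s h hh
    obtain ⟨M, A, hMA⟩ := isBoundedAtImInfty_iff.mp hh
    refine isBoundedAtImInfty_iff.mpr ⟨‖s‖ * M, A, fun τ hτ => ?_⟩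
    rw [Pi.smul_apply, smul_eq_mul, norm_mul]
    exact mul_le_mul_of_nonneg_left (hMA _ hτ) (norm_nonneg _)
  exact (((hsm _ _ hb₂).add (hsm _ _ hb₄)).add (hsm _ _ hb₃)).add (hsm _ _ hb₆)

/-- The combination as a modular form. -/
theorem comb_modular (s₂ s₄ s₃₄ s₆₈ : ℂ) (hs : s₂ + s₄ + s₃₄ + s₆₈ = 0) :
    ∃ M : ModularForm (Gamma0 136) 2, ⇑M = comb s₂ s₄ s₃₄ s₆₈ := by
  refine ⟨{ toFun := comb s₂ s₄ s₃₄ s₆₈
            slash_action_eq' := ?_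
            holo' := comb_mdiff _ _ _ _
            bdd_at_cusps' := ?_ }, rfl⟩
  · intro γ hγ
    obtain ⟨g, hg, rfl⟩ := hγ
    exact comb_slash _ _ _ _ hs g hg
  · intro c hc
    rw [Subgroup.IsArithmetic.isCusp_iff_isCusp_SL2Z] at hc
    rw [OnePoint.isBoundedAt_iff_forall_SL2Z hc]
    intro γ hγ
    exact comb_bounded _ _ _ _ hs γ

/-- The Fourier coefficients of `n E₂(nτ)`. -/
noncomputable def ec (n m : ℕ) : ℂ :=
  n * (if m = 0 then 1 else -24 * (sg m n : ℂ))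

theorem E2d_hasSum (n : ℕ) (hn : 0 < n) (τ : ℍ) :
    HasSum (fun m : ℕ => ec n m • Function.Periodic.qParam 1 τ ^ m) (E2d n τ) := by
  have h := (hasSum_qExpansion_E2 (z := ofComplex ((n : ℂ) * τ))).mul_left (n : ℂ)
  have hinj : Function.Injective (fun m : ℕ => n * m) := fun a b hab => by
    simpa [hn.ne'] using hab
  have hq : Complex.exp (2 * Real.pi * Complex.I * ((ofComplex ((n : ℂ) * τ) : ℍ) : ℂ)) =
      Function.Periodic.qParam 1 τ ^ n := by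
    rw [coe_ofComplex_mul n hn, Function.Periodic.qParam, ← Complex.exp_nat_mul]
    congr 1
    push_cast
    ring
  have heq : ((fun m : ℕ => ec n m • Function.Periodic.qParam 1 τ ^ m) ∘ fun m : ℕ => n * m) =
      fun m : ℕ => (n : ℂ) * ((if m = 0 then 1 else -24 * (ArithmeticFunction.sigma 1 m : ℂ)) •
        Complex.exp (2 * Real.pi * Complex.I * ((ofComplex ((n : ℂ) * τ) : ℍ) : ℂ)) ^ m) := by
    funext m
    simp only [Function.comp_apply, smul_eq_mul]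
    rw [hq, ec, sg]
    by_cases hm : m = 0
    · simp [hm]
    · have : n * m ≠ 0 := mul_ne_zero hn.ne' hm
      simp [hm, this, hn, pow_mul]
      ring
  rw [E2d, ← hinj.hasSum_iff, heq]
  · exact h
  · intro m hm
    have h1 : ¬ n ∣ m := fun ⟨k, hk⟩ => hm ⟨k, hk.symm⟩
    have h2 : m ≠ 0 := fun h => h1 (h ▸ dvd_zero n)
    simp [ec, sg, h1, h2]

theorem comb_qExpansion (s₂ s₄ s₃₄ s₆₈ : ℂ) (hs : s₂ + s₄ + s₃₄ + s₆₈ = 0) (m : ℕ) :
    (qExpansion 1 (comb s₂ s₄ s₃₄ s₆₈)).coeff m =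
      s₂ * ec 2 m + s₄ * ec 4 m + s₃₄ * ec 34 m + s₆₈ * ec 68 m := by
  obtain ⟨M, hM⟩ := comb_modular s₂ s₄ s₃₄ s₆₈ hs
  have h := ModularFormClass.qExpansion_coeff_unique (f := M) (h := 1)
    (c := fun m => s₂ * ec 2 m + s₄ * ec 4 m + s₃₄ * ec 34 m + s₆₈ * ec 68 m) one_pos
    (by simp) ?_ m
  · rw [hM] at h; exact h.symm
  · intro τ
    rw [hM]
    have := ((((E2d_hasSum 2 (by norm_num) τ).mul_left s₂).add
      ((E2d_hasSum 4 (by norm_num) τ).mul_left s₄)).add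
      ((E2d_hasSum 34 (by norm_num) τ).mul_left s₃₄)).add
      ((E2d_hasSum 68 (by norm_num) τ).mul_left s₆₈)
    have heq : (fun m : ℕ => (s₂ * ec 2 m + s₄ * ec 4 m + s₃₄ * ec 34 m + s₆₈ * ec 68 m) •
        Function.Periodic.qParam 1 τ ^ m) = fun m : ℕ =>
        s₂ * (ec 2 m • Function.Periodic.qParam 1 τ ^ m) +
        s₄ * (ec 4 m • Function.Periodic.qParam 1 τ ^ m) +
        s₃₄ * (ec 34 m • Function.Periodic.qParam 1 τ ^ m) +
        s₆₈ * (ec 68 m • Function.Periodic.qParam 1 τ ^ m) := by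
      funext m
      simp only [smul_eq_mul]
      ring
    rw [heq]
    exact this

theorem al_eq_comb : al = comb (1 / 12) (-1 / 12) (1 / 12) (-1 / 12) := by
  funext τ
  rw [al, comb]
  ring

theorem be_eq_comb : be = comb (1 / 48) (1 / 48) (-1 / 48) (-1 / 48) := by
  funext τ
  rw [be, comb]
  ring

theorem ga_eq_comb : ga = comb (1 / 16) (-1 / 16) (-1 / 16) (1 / 16) := by
  funext τ
  rw [ga, comb]
  ring

theorem al_modular : (∃ M : ModularForm (Gamma0 136) 2, ⇑M = al) ∧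
    ∀ n, (qExpansion 1 al).coeff n = (alc n : ℂ) := by
  rw [al_eq_comb]
  refine ⟨comb_modular _ _ _ _ (by norm_num), fun n => ?_⟩
  rw [comb_qExpansion _ _ _ _ (by norm_num), alc, ec, ec, ec, ec]
  by_cases hn : n = 0
  · simp [hn]; norm_num
  · simp [hn]; ring

theorem be_modular : (∃ M : ModularForm (Gamma0 136) 2, ⇑M = be) ∧
    ∀ n, (qExpansion 1 be).coeff n = (bec n : ℂ) := by
  rw [be_eq_comb]
  refine ⟨comb_modular _ _ _ _ (by norm_num), fun n => ?_⟩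
  rw [comb_qExpansion _ _ _ _ (by norm_num), bec, ec, ec, ec, ec]
  by_cases hn : n = 0
  · simp [hn]; norm_num
  · simp [hn]; ring

theorem ga_modular : (∃ M : ModularForm (Gamma0 136) 2, ⇑M = ga) ∧
    ∀ n, (qExpansion 1 ga).coeff n = (gac n : ℂ) := by
  rw [ga_eq_comb]
  refine ⟨comb_modular _ _ _ _ (by norm_num), fun n => ?_⟩
  rw [comb_qExpansion _ _ _ _ (by norm_num), gac, ec, ec, ec, ec]
  by_cases hn : n = 0
  · simp [hn]; norm_num
  · simp [hn]; ring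

end Pool.Agent.MT136
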