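import Mathlib
import Pool.Agent.MT136.EisBase

/-!
# The Eisenstein series at the cusps
-/

set_option autoImplicit false

namespace Pool.Agent.MT136

open CongruenceSubgroup UpperHalfPlane Filter Topology
open scoped Manifold MatrixGroups

theorem cusp_tendsto_E2 : Tendsto EisensteinSeries.E2 atImInfty (𝓝 1) := by
  set c : ℕ → ℂ := fun m => (if m = 0 then 1 else -24 * ArithmeticFunction.sigma 1 m : ℂ) with hc
  set g : ℍ → ℂ := fun τ => (EisensteinSeries.E2 τ - 1) * (Function.Periodic.qParam 1 τ)⁻¹ with hg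
  have hq : ∀ τ : ℍ, Function.Periodic.qParam 1 (τ : ℂ) =
      Complex.exp (2 * Real.pi * Complex.I * τ) := by
    intro τ; simp [Function.Periodic.qParam]
  have hb : IsBoundedAtImInfty g := by
    refine isBoundedAtImInfty_of_hasSum_qExpansion (h := 1) (c := fun m => c (m + 1)) one_pos ?_
    intro τ
    have h1 : HasSum (fun m => c m * Function.Periodic.qParam 1 (τ : ℂ) ^ m)
        (EisensteinSeries.E2 τ) := by
      have h1 := EisensteinSeries.hasSum_qExpansion_E2 τ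
      rw [← hq] at h1
      exact h1
    have h2 := (hasSum_nat_add_iff' 1).mpr h1
    have h3 := h2.mul_right (Function.Periodic.qParam 1 (τ : ℂ))⁻¹
    have hne : Function.Periodic.qParam 1 (τ : ℂ) ≠ 0 := by rw [hq]; exact Complex.exp_ne_zero _
    have h4 : (fun m => c (m + 1) • Function.Periodic.qParam 1 (τ : ℂ) ^ m) = fun i =>
        c (i + 1) *
          Function.Periodic.qParam 1 (τ : ℂ) ^ (i + 1) * (Function.Periodic.qParam 1 (τ : ℂ))⁻¹ := by
      funext m
      simp only [smul_eq_mul]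
      rw [pow_succ]
      field_simp
    have h5 : g τ = (EisensteinSeries.E2 τ - ∑ i ∈ Finset.range 1,
        c i * Function.Periodic.qParam 1 (τ : ℂ) ^ i) * (Function.Periodic.qParam 1 (τ : ℂ))⁻¹ := by
      simp [hg, hc]
    rw [h4, h5]
    exact h3
  have h0 : Tendsto (fun τ : ℍ => g τ * Function.Periodic.qParam 1 (τ : ℂ)) atImInfty (𝓝 0) := by
    have h1 := qParam_tendsto_atImInfty (h := 1) one_pos
    have h2 : g =O[atImInfty] (1 : ℍ → ℝ) := hb
    have h3 : (fun τ : ℍ => Function.Periodic.qParam 1 (τ : ℂ)) =o[atImInfty] (1 : ℍ → ℝ) :=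
      (Asymptotics.isLittleO_one_iff ℝ).mpr h1
    have h4 := h2.mul_isLittleO h3
    exact (Asymptotics.isLittleO_one_iff ℝ).mp (by simpa using h4)
  have h5 : ∀ τ : ℍ, EisensteinSeries.E2 τ = g τ * Function.Periodic.qParam 1 (τ : ℂ) + 1 := by
    intro τ
    have hne : Function.Periodic.qParam 1 (τ : ℂ) ≠ 0 := by rw [hq]; exact Complex.exp_ne_zero _
    simp only [hg]
    field_simp
    ring
  have h6 := h0.add_const 1
  simp only [zero_add] at h6
  exact h6.congr (fun τ => (h5 τ).symm)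

/-- The value of `E2d n` at a translate, in terms of `gcd(n, c)`. -/
theorem cusp_tendsto_E2d (n : ℕ) (hn : 0 < n) (γ : SL(2, ℤ)) :
    Tendsto (fun τ : ℍ => E2d n (γ • τ) / (denom γ τ) ^ 2 + kap * (γ 1 0 : ℤ) / denom γ τ)
      atImInfty (𝓝 (((Int.gcd n (γ 1 0) : ℕ) : ℂ) ^ 2 / n)) := by
  obtain ⟨γ', u, v, w, hu, hw, hug, hnuw, h00, h01, h10, h11⟩ := exists_factor n hn γ
  have hwC : (w : ℂ) ≠ 0 := by exact_mod_cast hw.ne'
  have huC : (u : ℂ) ≠ 0 := by exact_mod_cast hu.ne'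
  have hwR : (0 : ℝ) < w := by exact_mod_cast hw
  have huR : (0 : ℝ) < u := by exact_mod_cast hu
  have him : ∀ τ : ℍ, (((u : ℂ) * τ + v) / w).im = u / w * τ.im := by
    intro τ
    have : ((u : ℂ) * τ + v) / w = ((u / w : ℝ) : ℂ) * τ + ((v / w : ℝ) : ℂ) := by
      push_cast; field_simp
    rw [this, Complex.add_im, Complex.im_ofReal_mul, Complex.ofReal_im, add_zero]
    rfl
  have hpos : ∀ τ : ℍ, 0 < (((u : ℂ) * τ + v) / w).im := by
    intro τ
    rw [him]
    have := τ.im_pos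
    positivity
  set z : ℍ → ℍ := fun τ => ⟨((u : ℂ) * τ + v) / w, hpos τ⟩ with hz
  have hzt : Tendsto z atImInfty atImInfty := by
    rw [atImInfty, tendsto_comap_iff]
    have h1 : (UpperHalfPlane.im ∘ z) = fun τ : ℍ => (u : ℝ) / w * τ.im := by
      funext τ
      exact him τ
    rw [h1]
    exact (tendsto_comap).const_mul_atTop (by positivity)
  have hE := (cusp_tendsto_E2.comp hzt).const_mul ((n : ℂ) / (w : ℂ) ^ 2)
  have hlim : (n : ℂ) / (w : ℂ) ^ 2 * 1 = ((Int.gcd n (γ 1 0) : ℕ) : ℂ) ^ 2 / n := by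
    have e1 : (((Int.gcd n (γ 1 0) : ℕ) : ℂ)) = u := by rw [hug]; norm_cast
    have e2 : (n : ℂ) = u * w := by exact_mod_cast hnuw
    rw [e1, e2]
    field_simp
  rw [hlim] at hE
  refine hE.congr (fun τ => ?_)
  have hd : denom γ τ ≠ 0 := denom_ne_zero _ _
  rw [E2d_of_factor n γ γ' u v w hw h00 h01 h10 h11 τ (z τ) rfl]
  simp only [Function.comp]
  field_simp
  ring

theorem eis_cusp (γ : SL(2, ℤ)) : ∃ a b c : ℂ, 8 * a ^ 2 - 17 * b ^ 2 - c ^ 2 = 0 ∧
    12 * a ^ 2 + 126 * c ^ 2 ≠ 0 ∧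
    Tendsto (fun τ : ℍ => al (γ • τ) / (denom γ τ) ^ 2) atImInfty (𝓝 a) ∧
    Tendsto (fun τ : ℍ => be (γ • τ) / (denom γ τ) ^ 2) atImInfty (𝓝 b) ∧
    Tendsto (fun τ : ℍ => ga (γ • τ) / (denom γ τ) ^ 2) atImInfty (𝓝 c) := by
  have t2 := cusp_tendsto_E2d 2 (by norm_num) γ
  have t4 := cusp_tendsto_E2d 4 (by norm_num) γ
  have t34 := cusp_tendsto_E2d 34 (by norm_num) γ
  have t68 := cusp_tendsto_E2d 68 (by norm_num) γ
  have hgcd : ∀ n : ℕ, n ∣ 68 → Int.gcd n (γ 1 0) = Nat.gcd n (Nat.gcd 68 (γ 1 0).natAbs) := by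
    intro n hn
    rw [← Nat.gcd_assoc, Nat.gcd_eq_left hn]
    rfl
  rw [hgcd 2 (by norm_num)] at t2
  rw [hgcd 4 (by norm_num)] at t4
  rw [hgcd 34 (by norm_num)] at t34
  rw [hgcd 68 (by norm_num)] at t68
  obtain ⟨G, hG⟩ : ∃ G : ℕ, G = Nat.gcd 68 (γ 1 0).natAbs := ⟨_, rfl⟩
  rw [← hG] at t2 t4 t34 t68
  have hdiv : G ∈ Nat.divisors 68 := by
    rw [Nat.mem_divisors]
    exact ⟨hG ▸ Nat.gcd_dvd_left _ _, by norm_num⟩
  have hdiv2 : Nat.divisors 68 = {1, 2, 4, 17, 34, 68} := by decide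
  rw [hdiv2] at hdiv
  have ta := (((t2.sub t4).add t34).sub t68).div_const 12
  have tb := (((t2.add t4).sub t34).sub t68).div_const 48
  have tc := (((t2.sub t4).sub t34).add t68).div_const 16
  refine ⟨_, _, _, ?_, ?_, ta.congr ?_, tb.congr ?_, tc.congr ?_⟩
  · simp only [Finset.mem_insert, Finset.mem_singleton] at hdiv
    rcases hdiv with h | h | h | h | h | h <;> subst h <;> norm_num
  · simp only [Finset.mem_insert, Finset.mem_singleton] at hdiv
    rcases hdiv with h | h | h | h | h | h <;> subst h <;> norm_num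
  · intro τ
    rw [al]; ring
  · intro τ
    rw [be]; ring
  · intro τ
    rw [ga]; ring

end Pool.Agent.MT136
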