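import Mathlib
import Pool.Agent.MT136.Core

/-!
# The Atkin-Lehner involution `W₈` on the Eisenstein series
-/

set_option autoImplicit false

namespace Pool.Agent.MT136

open CongruenceSubgroup UpperHalfPlane Filter Topology
open scoped Manifold MatrixGroups

/-- the constant of the correction term of `E₂` -/
noncomputable def kapW8 : ℂ := 1 / (2 * riemannZeta 2) * (2 * Real.pi * Complex.I)

theorem w8_E2_smul (γ : SL(2, ℤ)) (τ : ℍ) :
    EisensteinSeries.E2 (γ • τ) = ((γ 1 0 : ℂ) * τ + γ 1 1) ^ 2 * EisensteinSeries.E2 τ -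
      kapW8 * (γ 1 0 : ℂ) * ((γ 1 0 : ℂ) * τ + γ 1 1) := by
  have h := congrFun (EisensteinSeries.E2_slash_action γ) τ
  rw [ModularForm.SL_slash_apply] at h
  simp only [Pi.sub_apply, Pi.smul_apply, EisensteinSeries.D2, ModularGroup.denom_apply,
    smul_eq_mul] at h
  have hne : ((γ 1 0 : ℂ) * τ + γ 1 1) ≠ 0 := by
    rw [← ModularGroup.denom_apply]; exact denom_ne_zero _ _
  rw [kapW8]
  rw [zpow_neg, mul_inv_eq_iff_eq_mul₀ (zpow_ne_zero _ hne)] at h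
  rw [h]
  have h2 : (((γ 1 0 : ℂ) * τ + γ 1 1) ^ (2 : ℤ)) = ((γ 1 0 : ℂ) * τ + γ 1 1) ^ 2 := by norm_cast
  rw [h2]
  field_simp

theorem w8_E2d_eval (δ : ℕ) (γ : SL(2, ℤ)) (τ' σ : ℍ)
    (h : (δ : ℂ) * τ' = ((γ • σ : ℍ) : ℂ)) :
    E2d δ τ' = δ * (((γ 1 0 : ℂ) * σ + γ 1 1) ^ 2 * EisensteinSeries.E2 σ -
      kapW8 * (γ 1 0 : ℂ) * ((γ 1 0 : ℂ) * σ + γ 1 1)) := by
  rw [E2d, h, ofComplex_apply, w8_E2_smul]

theorem w8_coe_smul (γ : SL(2, ℤ)) (σ : ℍ) :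
    ((γ • σ : ℍ) : ℂ) = ((γ 0 0 : ℂ) * σ + γ 0 1) / ((γ 1 0 : ℂ) * σ + γ 1 1) := by
  rw [coe_specialLinearGroup_apply]
  simp

theorem eis_W8_one (m n : ℕ) (hn : 0 < n) (s : ℂ) (p q r t : ℤ)
    (hdet : p * t - q * r = 1) (τ τ' : ℍ) (J : ℂ)
    (hJ : (m : ℂ) * (((r : ℂ) * ((n : ℂ) * τ)) + t) ^ 2 * 8 = n * J ^ 2)
    (hs : (m : ℂ) * r * (((r : ℂ) * ((n : ℂ) * τ)) + t) = s * J)
    (hτ : (m : ℂ) * τ' = (p * ((n : ℂ) * τ) + q) / (r * ((n : ℂ) * τ) + t)) :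
    E2d m τ' * 8 = E2d n τ * J ^ 2 - 8 * kapW8 * s * J := by
  have him : 0 < ((n : ℂ) * τ).im := by
    have : ((n : ℂ) * τ).im = n * τ.im := by
      simp [Complex.mul_im]
    rw [this]
    have := τ.im_pos
    positivity
  set σ : ℍ := ⟨(n : ℂ) * τ, him⟩ with hσ
  have hσc : (σ : ℂ) = n * τ := rfl
  let γ : SL(2, ℤ) := ⟨!![p, q; r, t], by rw [Matrix.det_fin_two_of]; exact hdet⟩
  have e00 : γ 0 0 = p := rfl
  have e01 : γ 0 1 = q := rfl
  have e10 : γ 1 0 = r := rfl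
  have e11 : γ 1 1 = t := rfl
  have h := w8_E2d_eval m γ τ' σ (by rw [w8_coe_smul, e00, e01, e10, e11, hσc, hτ])
  rw [h, e10, e11, hσc]
  have h2 : E2d n τ = n * EisensteinSeries.E2 σ := by
    rw [E2d, ← hσc, ofComplex_apply]
  rw [h2]
  linear_combination (EisensteinSeries.E2 σ) * hJ - 8 * kapW8 * hs

theorem eis_W8 (a b c d : ℤ) (h : 8 * a * d - 17 * b * c = 1) (τ τ' : ℍ)
    (hτ : (τ' : ℂ) = mob (8 * a) b (136 * c) (8 * d) τ) :
    al τ' * 8 = -al τ * (136 * c * τ + 8 * d) ^ 2 ∧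
    be τ' * 8 = be τ * (136 * c * τ + 8 * d) ^ 2 ∧
    ga τ' * 8 = -ga τ * (136 * c * τ + 8 * d) ^ 2 := by
  have h2 := eis_W8_one 2 4 (by norm_num) (17 * c) (2 * a) b (17 * c) (4 * d)
    (by linarith) τ τ' (136 * c * τ + 8 * d) (by push_cast; ring) (by push_cast; ring)
    (by rw [hτ, mob]; push_cast
        rw [show (136 * (c : ℂ) * τ + 8 * d) = 2 * (17 * c * (4 * τ) + 4 * d) by ring]
        rw [← mul_div_assoc, mul_div_mul_left _ _ (by norm_num : (2 : ℂ) ≠ 0)]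
        congr 1; ring)
  have h4 := eis_W8_one 4 2 (by norm_num) (17 * c) (4 * a) b (17 * c) (2 * d)
    (by linarith) τ τ' (136 * c * τ + 8 * d) (by push_cast; ring) (by push_cast; ring)
    (by rw [hτ, mob]; push_cast
        rw [show (136 * (c : ℂ) * τ + 8 * d) = 4 * (17 * c * (2 * τ) + 2 * d) by ring]
        rw [← mul_div_assoc, mul_div_mul_left _ _ (by norm_num : (4 : ℂ) ≠ 0)]
        congr 1; ring)
  have h34 := eis_W8_one 34 68 (by norm_num) (17 * c) (2 * a) (17 * b) c (4 * d)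
    (by linarith) τ τ' (136 * c * τ + 8 * d) (by push_cast; ring) (by push_cast; ring)
    (by rw [hτ, mob]; push_cast
        rw [show (136 * (c : ℂ) * τ + 8 * d) = 2 * (c * (68 * τ) + 4 * d) by ring,
          show (34 : ℂ) * ((8 * (a : ℂ) * τ + b) / (2 * (c * (68 * τ) + 4 * d))) =
            (2 * (17 * (8 * (a : ℂ) * τ + b))) / (2 * (c * (68 * τ) + 4 * d)) by ring,
          mul_div_mul_left _ _ (by norm_num : (2 : ℂ) ≠ 0)]
        congr 1; ring)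
  have h68 := eis_W8_one 68 34 (by norm_num) (17 * c) (4 * a) (17 * b) c (2 * d)
    (by linarith) τ τ' (136 * c * τ + 8 * d) (by push_cast; ring) (by push_cast; ring)
    (by rw [hτ, mob]; push_cast
        rw [show (136 * (c : ℂ) * τ + 8 * d) = 4 * (c * (34 * τ) + 2 * d) by ring,
          show (68 : ℂ) * ((8 * (a : ℂ) * τ + b) / (4 * (c * (34 * τ) + 2 * d))) =
            (4 * (17 * (8 * (a : ℂ) * τ + b))) / (4 * (c * (34 * τ) + 2 * d)) by ring,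
          mul_div_mul_left _ _ (by norm_num : (4 : ℂ) ≠ 0)]
        congr 1; ring)
  refine ⟨?_, ?_, ?_⟩
  · rw [al, al]; linear_combination (h2 - h4 + h34 - h68) / 12
  · rw [be, be]; linear_combination (h2 + h4 - h34 - h68) / 48
  · rw [ga, ga]; linear_combination (h2 - h4 - h34 + h68) / 16

end Pool.Agent.MT136
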