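import Mathlib
import Pool.Agent.MT136.Defs
import Pool.Agent.MT136.Core

set_option autoImplicit false

namespace Pool.Agent.MT136

open CongruenceSubgroup UpperHalfPlane Filter Topology
open scoped Manifold MatrixGroups ModularForm

namespace FW

lemma tendsto_form {k : ℤ} (M : ModularForm (Gamma0 136) k) :
    Tendsto (fun τ : ℍ => M τ) atImInfty (𝓝 ((qExpansion 1 M).coeff 0)) := by
  have hh : (0 : ℝ) < 1 := one_pos
  have hΓ : (1 : ℝ) ∈ ((Gamma0 136 : Subgroup SL(2, ℤ)) : Subgroup (GL (Fin 2) ℝ)).strictPeriods := by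
    simp
  have hper := SlashInvariantFormClass.periodic_comp_ofComplex M hΓ
  have han := ModularFormClass.analyticAt_cuspFunction_zero M hh hΓ
  rw [qExpansion_coeff_zero hh han hper]
  have h1 := exp_decay_sub_atImInfty hh hper (ModularFormClass.holo M) (ModularFormClass.bdd_at_infty M)
  have h2 : Tendsto (fun τ : ℍ => Real.exp (-2 * Real.pi * τ.im / 1)) atImInfty (𝓝 0) := by
    apply Real.tendsto_exp_atBot.comp
    have : Tendsto (fun τ : ℍ => τ.im) atImInfty atTop := tendsto_comap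
    have h3 := this.const_mul_atTop (show (0:ℝ) < 2 * Real.pi by positivity)
    have h4 := tendsto_neg_atTop_atBot.comp h3
    refine h4.congr (fun τ => ?_)
    simp [Function.comp]
  have h3 := h1.trans_tendsto h2
  have h4 := h3.add_const (valueAtInfty M)
  simpa using h4

/-- The matrix `(48, -17; 136, -48)`. -/
noncomputable def W0 : GL (Fin 2) ℝ :=
  .mkOfDetNeZero !![48, -17; 136, -48] (by norm_num [Matrix.det_fin_two])

lemma W0_val : (W0 : Matrix (Fin 2) (Fin 2) ℝ) = !![48, -17; 136, -48] := rfl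

lemma W0_det : W0.det.val = 8 := by
  rw [Matrix.GeneralLinearGroup.val_det_apply, W0_val, Matrix.det_fin_two]
  norm_num

lemma W0_denom (τ : ℂ) : denom W0 τ = 136 * τ - 48 := by
  simp [denom, W0_val, sub_eq_add_neg]

lemma W0_num (τ : ℂ) : num W0 τ = 48 * τ - 17 := by
  simp [num, W0_val, sub_eq_add_neg]

lemma W0_coe (τ : ℍ) : ((W0 • τ : ℍ) : ℂ) = (48 * τ - 17) / (136 * τ - 48) := by
  rw [coe_smul_of_det_pos (by rw [W0_det]; norm_num), W0_num, W0_denom]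

lemma fs_apply (f : ℍ → ℂ) (τ : ℍ) :
    (f ∣[(2 : ℤ)] W0) τ = 8 * f (W0 • τ) / (136 * (τ : ℂ) - 48) ^ 2 := by
  rw [ModularForm.slash_apply, W0_denom, W0_det]
  have : σ W0 = ContinuousAlgEquiv.refl ℝ ℂ := by
    simp only [σ, W0_det]
    norm_num
  rw [this]
  simp only [ContinuousAlgEquiv.coe_refl', id_eq, Int.reduceSub, zpow_one, Int.reduceNeg, abs_of_pos (show (0:ℝ) < 8 by norm_num)]
  rw [zpow_neg, show ((136 * (τ : ℂ) - 48) ^ (2 : ℤ)) = (136 * (τ : ℂ) - 48) ^ (2 : ℕ) by norm_cast]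
  push_cast
  ring

lemma denom0_ne (τ : ℍ) : (136 * (τ : ℂ) - 48) ≠ 0 := by
  rw [← W0_denom]
  exact denom_ne_zero W0 τ

open OnePoint in
lemma fs_zero (f : CuspForm (Gamma0 136) 2) : IsZeroAtImInfty ((f : ℍ → ℂ) ∣[(2 : ℤ)] W0) := by
  apply CuspFormClass.zero_at_cusps f (c := W0 • ∞) _ W0 rfl
  rw [Subgroup.IsArithmetic.isCusp_iff_isCusp_SL2Z, isCusp_SL2Z_iff]
  refine ⟨((6 / 17 : ℚ) : OnePoint ℚ), ?_⟩
  rw [OnePoint.smul_infty_eq_ite]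
  simp [W0_val]
  norm_num

lemma quad_diff (f : CuspForm (Gamma0 136) 2)
    (heis : ∀ (a b c d : ℤ), 8 * a * d - 17 * b * c = 1 → ∀ (τ τ' : ℍ),
      (τ' : ℂ) = mob (8 * a) b (136 * c) (8 * d) τ →
      al τ' * 8 = -al τ * (136 * c * τ + 8 * d) ^ 2 ∧
      be τ' * 8 = be τ * (136 * c * τ + 8 * d) ^ 2 ∧
      ga τ' * 8 = -ga τ * (136 * c * τ + 8 * d) ^ 2)
    (hquad : ∀ τ : ℍ, 15028 * (f τ ^ 2) ^ 2 +
      17 * f τ ^ 2 * (-176 * al τ ^ 2 + 3995 * be τ ^ 2 - 1355 * ga τ ^ 2)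
      + 16 * al τ ^ 4 + 748 * al τ ^ 2 * be τ ^ 2 + 608 * al τ ^ 2 * ga τ ^ 2 - 2312 * be τ ^ 4
      - 3995 * be τ ^ 2 * ga τ ^ 2 + 3175 * ga τ ^ 4 = 0) (τ : ℍ) :
    (((f : ℍ → ℂ) ∣[(2 : ℤ)] W0) τ ^ 2 - f τ ^ 2) *
      (15028 * (((f : ℍ → ℂ) ∣[(2 : ℤ)] W0) τ ^ 2 + f τ ^ 2) +
        17 * (-176 * al τ ^ 2 + 3995 * be τ ^ 2 - 1355 * ga τ ^ 2)) = 0 := by
  have hJ := denom0_ne τ
  set τ' : ℍ := W0 • τ with hτ'
  have hc : (τ' : ℂ) = mob (8 * 6) (-17) (136 * 1) (8 * (-6)) τ := by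
    rw [hτ', W0_coe, mob]
    push_cast
    ring_nf
  obtain ⟨h1, h2, h3⟩ := heis 6 (-17) 1 (-6) (by norm_num) τ τ' hc
  push_cast at h1 h2 h3
  set J : ℂ := 136 * (τ : ℂ) - 48 with hJd
  have hJ' : (136 * 1 * (τ : ℂ) + 8 * -6) = J := by rw [hJd]; ring
  rw [hJ'] at h1 h2 h3
  have e1 : al τ' = -al τ * J ^ 2 / 8 := by rw [← h1]; ring
  have e2 : be τ' = be τ * J ^ 2 / 8 := by rw [← h2]; ring
  have e3 : ga τ' = -ga τ * J ^ 2 / 8 := by rw [← h3]; ring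
  have hfs : ((f : ℍ → ℂ) ∣[(2 : ℤ)] W0) τ = 8 * f τ' / J ^ 2 := fs_apply f τ
  set g : ℂ := ((f : ℍ → ℂ) ∣[(2 : ℤ)] W0) τ with hg
  have e0 : f τ' = g * J ^ 2 / 8 := by rw [hfs]; field_simp
  have q1 := hquad τ
  have q2 := hquad τ'
  rw [e0, e1, e2, e3] at q2
  have q3 : 15028 * (g ^ 2) ^ 2 +
      17 * g ^ 2 * (-176 * al τ ^ 2 + 3995 * be τ ^ 2 - 1355 * ga τ ^ 2)
      + 16 * al τ ^ 4 + 748 * al τ ^ 2 * be τ ^ 2 + 608 * al τ ^ 2 * ga τ ^ 2 - 2312 * be τ ^ 4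
      - 3995 * be τ ^ 2 * ga τ ^ 2 + 3175 * ga τ ^ 4 = 0 := by
    have : (J ^ 2 / 8) ^ 4 * (15028 * (g ^ 2) ^ 2 +
      17 * g ^ 2 * (-176 * al τ ^ 2 + 3995 * be τ ^ 2 - 1355 * ga τ ^ 2)
      + 16 * al τ ^ 4 + 748 * al τ ^ 2 * be τ ^ 2 + 608 * al τ ^ 2 * ga τ ^ 2 - 2312 * be τ ^ 4
      - 3995 * be τ ^ 2 * ga τ ^ 2 + 3175 * ga τ ^ 4) = 0 := by
      rw [← q2]; ring
    rcases mul_eq_zero.mp this with h | h
    · exact absurd h (pow_ne_zero _ (div_ne_zero (pow_ne_zero _ hJ) (by norm_num)))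
    · exact h
  linear_combination q3 - q1

lemma sign_cases (f : CuspForm (Gamma0 136) 2)
    (hal : (∃ M : ModularForm (Gamma0 136) 2, ⇑M = al) ∧ ∀ n, (qExpansion 1 al).coeff n = alc n)
    (hbe : (∃ M : ModularForm (Gamma0 136) 2, ⇑M = be) ∧ ∀ n, (qExpansion 1 be).coeff n = bec n)
    (hga : (∃ M : ModularForm (Gamma0 136) 2, ⇑M = ga) ∧ ∀ n, (qExpansion 1 ga).coeff n = gac n)
    (h : ∀ τ : ℍ, (((f : ℍ → ℂ) ∣[(2 : ℤ)] W0) τ ^ 2 - f τ ^ 2) *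
      (15028 * (((f : ℍ → ℂ) ∣[(2 : ℤ)] W0) τ ^ 2 + f τ ^ 2) +
        17 * (-176 * al τ ^ 2 + 3995 * be τ ^ 2 - 1355 * ga τ ^ 2)) = 0) :
    ((f : ℍ → ℂ) ∣[(2 : ℤ)] W0) = f ∨ ((f : ℍ → ℂ) ∣[(2 : ℤ)] W0) = -(f : ℍ → ℂ) := by
  set g : ℍ → ℂ := ((f : ℍ → ℂ) ∣[(2 : ℤ)] W0) with hg
  have mf : MDiff (f : ℍ → ℂ) := f.holo'
  have mg : MDiff g := mf.slash 2 W0
  obtain ⟨⟨Ma, hMa⟩, ha⟩ := hal
  obtain ⟨⟨Mb, hMb⟩, hb⟩ := hbe
  obtain ⟨⟨Mc, hMc⟩, hc⟩ := hga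
  have mal : MDiff al := hMa ▸ Ma.holo'
  have mbe : MDiff be := hMb ▸ Mb.holo'
  have mga : MDiff ga := hMc ▸ Mc.holo'
  have tal : Tendsto al atImInfty (𝓝 (-3)) := by
    have := tendsto_form Ma
    rw [hMa, ha 0] at this
    simpa [alc, hMa] using this
  have tbe : Tendsto be atImInfty (𝓝 (-2)) := by
    have := tendsto_form Mb
    rw [hMb, hb 0] at this
    simpa [bec, hMb] using this
  have tga : Tendsto ga atImInfty (𝓝 2) := by
    have := tendsto_form Mc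
    rw [hMc, hc 0] at this
    simpa [gac, hMc] using this
  have tf : Tendsto f atImInfty (𝓝 0) := CuspFormClass.zero_at_infty f
  have tg : Tendsto g atImInfty (𝓝 0) := fs_zero f
  set B : ℍ → ℂ := fun τ => 15028 * (g τ ^ 2 + f τ ^ 2) +
        17 * (-176 * al τ ^ 2 + 3995 * be τ ^ 2 - 1355 * ga τ ^ 2) with hB
  have tB : Tendsto B atImInfty (𝓝 (15028 * (0 ^ 2 + 0 ^ 2) +
        17 * (-176 * (-3) ^ 2 + 3995 * (-2) ^ 2 - 1355 * 2 ^ 2))) :=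
    (((tg.pow 2).add (tf.pow 2)).const_mul _).add
      ((((tal.pow 2).const_mul _).add ((tbe.pow 2).const_mul _)).sub
        ((tga.pow 2).const_mul _) |>.const_mul _)
  have nB : B ≠ 0 := by
    intro h0
    rw [h0] at tB
    have := tendsto_nhds_unique tB (tendsto_const_nhds (x := (0 : ℂ)))
    norm_num at this
  rw [mdifferentiable_iff] at mal mbe mga
  have mf' := mf
  have mg' := mg
  rw [mdifferentiable_iff] at mf' mg'
  have mB : MDiff B := by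
    rw [mdifferentiable_iff]
    exact (((mg'.pow 2).add (mf'.pow 2)).const_mul 15028).add
      (((((mal.pow 2).const_mul (-176)).add ((mbe.pow 2).const_mul 3995)).sub
        ((mga.pow 2).const_mul 1355)).const_mul 17)
  have mA : MDiff (fun τ => g τ ^ 2 - f τ ^ 2) := by
    rw [mdifferentiable_iff]
    exact (mg'.pow 2).sub (mf'.pow 2)
  have h1 : (fun τ => g τ ^ 2 - f τ ^ 2) * B = 0 := by
    funext τ
    exact h τ
  rw [UpperHalfPlane.mul_eq_zero_iff mA mB] at h1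
  have h2 : (fun τ => g τ ^ 2 - f τ ^ 2) = 0 := h1.resolve_right nB
  have h3 : (g - f) * (g + f) = 0 := by
    funext τ
    have := congrFun h2 τ
    simp only [Pi.mul_apply, Pi.sub_apply, Pi.add_apply, Pi.zero_apply] at this ⊢
    linear_combination this
  rw [UpperHalfPlane.mul_eq_zero_iff (mg.sub mf) (mg.add mf)] at h3
  rcases h3 with h3 | h3
  · left; exact sub_eq_zero.mp h3
  · right; exact eq_neg_of_add_eq_zero_left h3

lemma W0_tauW : W0 • tauW = tauW := by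
  apply UpperHalfPlane.ext
  rw [W0_coe]
  have h8 : (√8 : ℝ) ^ 2 = 8 := Real.sq_sqrt (by norm_num)
  have h8' : ((√8 : ℝ) : ℂ) ^ 2 = 8 := by exact_mod_cast congrArg (fun x : ℝ => (x : ℂ)) h8
  have hne : ((√8 : ℝ) : ℂ) ≠ 0 := by
    intro h0
    rw [h0] at h8'
    norm_num at h8'
  have ht : (tauW : ℂ) = 6 / 17 + (1 / (17 * √8) : ℝ) * Complex.I := rfl
  rw [div_eq_iff (denom0_ne tauW), ht]
  push_cast
  field_simp
  ring_nf
  rw [Complex.I_sq, h8']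
  ring

lemma eq_neg (f : CuspForm (Gamma0 136) 2) (hne : f tauW ≠ 0)
    (h : ((f : ℍ → ℂ) ∣[(2 : ℤ)] W0) = f ∨ ((f : ℍ → ℂ) ∣[(2 : ℤ)] W0) = -(f : ℍ → ℂ)) (τ : ℍ) :
    f (W0 • τ) * 8 = - f τ * (136 * (τ : ℂ) - 48) ^ 2 := by
  have h1 : ((f : ℍ → ℂ) ∣[(2 : ℤ)] W0) ≠ f := by
    intro h0
    have h2 := congrFun h0 tauW
    rw [fs_apply, W0_tauW] at h2
    have h8 : (√8 : ℝ) ^ 2 = 8 := Real.sq_sqrt (by norm_num)
    have h8' : ((√8 : ℝ) : ℂ) ^ 2 = 8 := by exact_mod_cast congrArg (fun x : ℝ => (x : ℂ)) h8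
    have hne' : ((√8 : ℝ) : ℂ) ≠ 0 := by
      intro h0
      rw [h0] at h8'
      norm_num at h8'
    have ht : (136 * (tauW : ℂ) - 48) ^ 2 = -8 := by
      have ht : (tauW : ℂ) = 6 / 17 + (1 / (17 * √8) : ℝ) * Complex.I := rfl
      rw [ht]
      push_cast
      have : 136 * (6 / 17 + 1 / (17 * ((√8 : ℝ) : ℂ)) * Complex.I) - 48 =
        8 / ((√8 : ℝ) : ℂ) * Complex.I := by field_simp; ring
      rw [this, mul_pow, div_pow, h8', Complex.I_sq]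
      norm_num
    rw [ht] at h2
    apply hne
    linear_combination (-1/2) * h2
  have h2 := h.resolve_left h1
  have h3 := congrFun h2 τ
  rw [fs_apply, Pi.neg_apply, div_eq_iff (pow_ne_zero _ (denom0_ne τ))] at h3
  linear_combination h3

end FW

/-- The newform of level `136` is an eigenform of the Atkin-Lehner involution `W₈` with
eigenvalue `-1`. -/
theorem f_W8 (f : CuspForm (Gamma0 136) 2) (hne : f tauW ≠ 0)
    (hal : (∃ M : ModularForm (Gamma0 136) 2, ⇑M = al) ∧ ∀ n, (qExpansion 1 al).coeff n = alc n)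
    (hbe : (∃ M : ModularForm (Gamma0 136) 2, ⇑M = be) ∧ ∀ n, (qExpansion 1 be).coeff n = bec n)
    (hga : (∃ M : ModularForm (Gamma0 136) 2, ⇑M = ga) ∧ ∀ n, (qExpansion 1 ga).coeff n = gac n)
    (heis : ∀ (a b c d : ℤ), 8 * a * d - 17 * b * c = 1 → ∀ (τ τ' : ℍ),
      (τ' : ℂ) = mob (8 * a) b (136 * c) (8 * d) τ →
      al τ' * 8 = -al τ * (136 * c * τ + 8 * d) ^ 2 ∧
      be τ' * 8 = be τ * (136 * c * τ + 8 * d) ^ 2 ∧
      ga τ' * 8 = -ga τ * (136 * c * τ + 8 * d) ^ 2)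
    (hquad : ∀ τ : ℍ, 15028 * (f τ ^ 2) ^ 2 +
      17 * f τ ^ 2 * (-176 * al τ ^ 2 + 3995 * be τ ^ 2 - 1355 * ga τ ^ 2)
      + 16 * al τ ^ 4 + 748 * al τ ^ 2 * be τ ^ 2 + 608 * al τ ^ 2 * ga τ ^ 2 - 2312 * be τ ^ 4
      - 3995 * be τ ^ 2 * ga τ ^ 2 + 3175 * ga τ ^ 4 = 0)
    (a b d : ℤ) (h : 8 * a * d - 17 * b = 1) (τ τ' : ℍ)
    (hτ : (τ' : ℂ) = mob (8 * a) b 136 (8 * d) τ) :
    f τ' * 8 = -f τ * (136 * τ + 8 * d) ^ 2 := by
  have key := FW.eq_neg f hne (FW.sign_cases f hal hbe hga (FW.quad_diff f heis hquad))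
  let γ : SL(2, ℤ) := ⟨!![289 - 48 * a, 17 * d - 6 * b; 816 - 136 * a, 48 * d - 17 * b], by
    rw [Matrix.det_fin_two_of]; linear_combination h⟩
  have hγ : γ ∈ Gamma0 136 := by
    rw [Gamma0_mem]
    change (((816 - 136 * a : ℤ)) : ZMod 136) = 0
    rw [ZMod.intCast_zmod_eq_zero_iff_dvd]
    exact ⟨6 - a, by push_cast; ring⟩
  have h1 := SlashInvariantForm.slash_action_eqn_SL'' f hγ τ
  have hd : denom γ τ = (816 - 136 * a) * τ + (48 * d - 17 * b) := by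
    rw [ModularGroup.denom_apply]
    simp [γ]
  have hdne : denom γ τ ≠ 0 := denom_ne_zero _ _
  have hn : ((γ • τ : ℍ) : ℂ) = ((289 - 48 * a) * τ + (17 * d - 6 * b)) / denom γ τ := by
    rw [hd, coe_specialLinearGroup_apply]
    simp [γ]
  have hJ : (136 * ((γ • τ : ℍ) : ℂ) - 48) * denom γ τ = 136 * τ + 8 * d := by
    rw [hn, sub_mul, mul_div_assoc', div_mul_cancel₀ _ hdne, hd]
    ring
  have hJ0 := FW.denom0_ne (γ • τ)
  have e : τ' = FW.W0 • (γ • τ) := by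
    apply UpperHalfPlane.ext
    rw [hτ, FW.W0_coe, mob]
    push_cast
    rw [← hJ, ← mul_div_mul_right _ (136 * ((γ • τ : ℍ) : ℂ) - 48) hdne]
    congr 1
    rw [hn, sub_mul, mul_div_assoc', div_mul_cancel₀ _ hdne, hd]
    ring
  rw [e, key (γ • τ), h1, ← hJ]
  rw [show (denom γ τ) ^ (2 : ℤ) = (denom γ τ) ^ (2 : ℕ) by norm_cast]
  ring

end Pool.Agent.MT136
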