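import Mathlib
import Pool.Agent.MT136.Defs

/-!
# The group ring computation for `S = 17`
-/

set_option autoImplicit false

namespace Pool.Agent.MT136

open DualNumber

/-- Discrete logarithms to the base `3` modulo `17`. -/
def dlogTable : List (ZMod 16) := [0, 0, 14, 1, 12, 5, 15, 11, 10, 2, 3, 7, 13, 4, 9, 6, 8]

/-- Discrete logarithm. -/
def dlog (a : (ZMod 17)ˣ) : ZMod 16 := dlogTable.getD a.val.val 0

theorem dlog_one : dlog 1 = 0 := by decide

theorem dlog_mul (a b : (ZMod 17)ˣ) : dlog (a * b) = dlog a + dlog b := by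
  revert a b
  decide

/-- The homomorphism `g ↦ 1 + (log g) ε`. -/
noncomputable def chi : (ZMod 17)ˣ →* DualNumber (ZMod 16) where
  toFun a := TrivSqZeroExt.inl 1 + TrivSqZeroExt.inr (dlog a)
  map_one' := by
    rw [dlog_one]; simp
  map_mul' a b := by
    rw [dlog_mul]
    ext <;> simp [add_comm]

theorem exists_hom (R : Subring ℚ) (hR : ∀ c ∈ R, ∃ n : ℤ, c = n) :
    ∃ ρ : R →+* ℤ, ∀ c : R, ((ρ c : ℤ) : ℚ) = (c : ℚ) := by
  choose! g hg using hR
  refine ⟨{ toFun := fun c => g c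
            map_one' := ?_
            map_mul' := ?_
            map_zero' := ?_
            map_add' := ?_ }, ?_⟩
  · have := hg 1 R.one_mem
    have h : ((g 1 : ℤ) : ℚ) = ((1 : ℤ) : ℚ) := by rw [← this]; simp
    exact_mod_cast h
  · intro x y
    have h : ((g (x * y : R) : ℤ) : ℚ) = ((g x * g y : ℤ) : ℚ) := by
      rw [← hg _ (x * y).2]; push_cast
      rw [← hg _ x.2, ← hg _ y.2]
    exact_mod_cast h
  · have := hg 0 R.zero_mem
    have h : ((g 0 : ℤ) : ℚ) = ((0 : ℤ) : ℚ) := by rw [← this]; simp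
    exact_mod_cast h
  · intro x y
    have h : ((g (x + y : R) : ℤ) : ℚ) = ((g x + g y : ℤ) : ℚ) := by
      rw [← hg _ (x + y).2]; push_cast
      rw [← hg _ x.2, ← hg _ y.2]
    exact_mod_cast h
  · intro c
    exact (hg _ c.2).symm

theorem not_mem_sq (R : Subring ℚ) (hR : ∀ c ∈ R, ∃ n : ℤ, c = n) (θ : MonoidAlgebra R (ZMod 17)ˣ)
    (n : ℕ → ℤ) (hθ : ∀ a : (ZMod 17)ˣ, ((θ.coeff a : R) : ℚ) = n (a.val.val))
    (h : ∀ a < 17, n (17 - a) = n a) (h12 : n 1 = n 2) (h35 : n 3 = n 5) (h48 : n 4 = n 8)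
    (h6 : Odd (n 6)) : θ ∉ augIdeal R 17 ^ 2 := by
  intro hmem
  obtain ⟨ρ, hρ⟩ := exists_hom R hR
  -- the two ring homomorphisms
  let f0 : R →+* DualNumber (ZMod 16) := (Int.castRingHom (DualNumber (ZMod 16))).comp ρ
  let Φ : MonoidAlgebra R (ZMod 17)ˣ →+* DualNumber (ZMod 16) :=
    MonoidAlgebra.liftNCRingHom f0 chi (fun _ _ => Commute.all _ _)
  have hΦ : ∀ x : MonoidAlgebra R (ZMod 17)ˣ,
      Φ x = ∑ a : (ZMod 17)ˣ, f0 (x.coeff a) * chi a := by
    intro x
    change x.coeff.sum (fun a b => f0 b * chi a) = _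
    rw [Finsupp.sum_fintype]
    intro i; simp
  have haug : ∀ x : MonoidAlgebra R (ZMod 17)ˣ, x ∈ augIdeal R 17 →
      ∑ a : (ZMod 17)ˣ, x.coeff a = 0 := by
    intro x hx
    rw [augIdeal, RingHom.mem_ker] at hx
    have h1 : (MonoidAlgebra.lift R R (ZMod 17)ˣ 1 : MonoidAlgebra R (ZMod 17)ˣ →ₐ[R] R) x =
        x.coeff.sum fun a b => b • (1 : (ZMod 17)ˣ →* R) a := MonoidAlgebra.lift_apply _ _
    rw [Finsupp.sum_fintype _ _ (by intro i; simp)] at h1
    simp only [MonoidHom.one_apply, smul_eq_mul, mul_one] at h1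
    rw [← h1]
    exact hx
  -- the homomorphism kills the square of the augmentation ideal
  have hfst : ∀ x ∈ augIdeal R 17, (Φ x).fst = 0 := by
    intro x hx
    rw [hΦ x, TrivSqZeroExt.fst_sum]
    have h2 : ∀ a : (ZMod 17)ˣ, (f0 (x.coeff a) * chi a).fst = ((ρ (x.coeff a) : ℤ) : ZMod 16) := by
      intro a
      simp [f0, chi]
    rw [Finset.sum_congr rfl (fun a _ => h2 a), ← Int.cast_sum, ← map_sum, haug x hx]
    simp
  have hsq : ∀ x ∈ augIdeal R 17 ^ 2, Φ x = 0 := by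
    intro x hx
    rw [pow_two] at hx
    refine Submodule.mul_induction_on hx ?_ ?_
    · intro u hu v hv
      rw [map_mul]
      ext
      · simp [hfst u hu]
      · simp [hfst u hu, hfst v hv]
    · intro u v hu hv
      rw [map_add, hu, hv, add_zero]
  -- integers
  have hρn : ∀ a : (ZMod 17)ˣ, ρ (θ.coeff a) = n (a.val.val) := by
    intro a
    have := hρ (θ.coeff a)
    rw [hθ a] at this
    exact_mod_cast this
  have himg : (Finset.univ.image (fun a : (ZMod 17)ˣ => a.val.val)) = Finset.Icc 1 16 := by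
    decide
  have hinj : Set.InjOn (fun a : (ZMod 17)ˣ => a.val.val)
      ((Finset.univ : Finset (ZMod 17)ˣ) : Set (ZMod 17)ˣ) := by
    intro a _ b _ hab
    exact Units.ext (ZMod.val_injective 17 hab)
  have hsumn : ∑ a ∈ Finset.Icc 1 16, n a = 0 := by
    rw [← himg, Finset.sum_image hinj]
    have h1 := haug θ (Ideal.pow_le_self (by norm_num) hmem)
    have h2 := congrArg ρ h1
    rw [map_sum, map_zero] at h2
    rw [← h2]
    exact Finset.sum_congr rfl (fun a _ => (hρn a).symm)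
  have hsumd : ∑ a ∈ Finset.Icc 1 16, ((n a : ℤ) : ZMod 16) * dlogTable.getD a 0 = 0 := by
    rw [← himg, Finset.sum_image hinj]
    have h1 := hsq θ hmem
    rw [hΦ θ] at h1
    have h2 := congrArg TrivSqZeroExt.snd h1
    rw [TrivSqZeroExt.snd_sum, TrivSqZeroExt.snd_zero] at h2
    refine Eq.trans (Finset.sum_congr rfl (fun a _ => ?_)) h2
    rw [← hρn a]
    simp [f0, chi, dlog]
  have h9 : n 9 = n 8 := h 8 (by norm_num)
  have h10 : n 10 = n 7 := h 7 (by norm_num)
  have h11 : n 11 = n 6 := h 6 (by norm_num)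
  have h12' : n 12 = n 5 := h 5 (by norm_num)
  have h13 : n 13 = n 4 := h 4 (by norm_num)
  have h14 : n 14 = n 3 := h 3 (by norm_num)
  have h15 : n 15 = n 2 := h 2 (by norm_num)
  have h16 : n 16 = n 1 := h 1 (by norm_num)
  have hs : 2 * (2 * n 2 + 2 * n 5 + 2 * n 8 + n 6 + n 7) = 0 := by
    rw [← hsumn]
    simp only [Finset.sum_Icc_succ_top (by norm_num : 1 ≤ _ + 1), Finset.Icc_self,
      Finset.sum_singleton]
    norm_num
    linarith
  have hd : ((12 * n 2 + 12 * n 5 + 12 * n 8 + 6 * n 6 + 14 * n 7 : ℤ) : ZMod 16) = 0 := by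
    simp only [Finset.sum_Icc_succ_top (by norm_num : 1 ≤ _ + 1), Finset.Icc_self,
      Finset.sum_singleton] at hsumd
    norm_num [dlogTable] at hsumd
    rw [h9, h10, h11, h12', h13, h14, h15, h16, h12, h35, h48] at hsumd
    have e16 : (16 : ZMod 16) = 0 := by decide
    rw [← hsumd]
    push_cast
    linear_combination
      (-(n 5 : ZMod 16) - (n 2 : ZMod 16) - (n 8 : ZMod 16) - (n 6 : ZMod 16)) * e16
  rw [ZMod.intCast_zmod_eq_zero_iff_dvd] at hd
  obtain ⟨m, hm⟩ := h6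
  obtain ⟨k, hk⟩ := hd
  push_cast at hk
  omega

end Pool.Agent.MT136
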