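import Mathlib
import Pool.Agent.MT136.Defs
import Pool.Agent.MT136.DefsBar
import Pool.Agent.MT136.GroupRing

/-!
# The group ring computation for `(ℤ/17)ˣ/{±1}`
-/

set_option autoImplicit false

namespace Pool.Agent.MT136

open DualNumber

/-- Discrete logarithms to the base `3` modulo `17`, modulo `8`. -/
def dlogTable8 : List (ZMod 8) := [0, 0, 6, 1, 4, 5, 7, 3, 2, 2, 3, 7, 5, 4, 1, 6, 0]

/-- Discrete logarithm modulo `8`. -/
def dlog8 (a : (ZMod 17)ˣ) : ZMod 8 := dlogTable8.getD a.val.val 0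

theorem dlog8_one : dlog8 1 = 0 := by decide

theorem dlog8_mul (a b : (ZMod 17)ˣ) : dlog8 (a * b) = dlog8 a + dlog8 b := by
  revert a b
  decide

/-- The homomorphism `g ↦ 1 + (log g) ε`. -/
noncomputable def chi8 : (ZMod 17)ˣ →* DualNumber (ZMod 8) where
  toFun a := TrivSqZeroExt.inl 1 + TrivSqZeroExt.inr (dlog8 a)
  map_one' := by
    rw [dlog8_one]; simp
  map_mul' a b := by
    rw [dlog8_mul]
    ext <;> simp [add_comm]

theorem mem_zpowers (x : (ZMod 17)ˣ) (hx : x ∈ Subgroup.zpowers (-1 : (ZMod 17)ˣ)) :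
    x = 1 ∨ x = -1 := by
  obtain ⟨k, rfl⟩ := Subgroup.mem_zpowers_iff.mp hx
  rcases Int.even_or_odd k with h | h
  · left; exact h.neg_one_zpow
  · right; exact h.neg_one_zpow

/-- The homomorphism on the quotient. -/
noncomputable def chiBar : GBar 17 →* DualNumber (ZMod 8) :=
  QuotientGroup.lift (Subgroup.zpowers (-1 : (ZMod 17)ˣ)) chi8 (by
    intro x hx
    rcases mem_zpowers x hx with rfl | rfl
    · simp
    · have : dlog8 (-1) = 0 := by decide
      simp [chi8, this])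

noncomputable instance : Fintype (GBar 17) := by
  classical
  exact inferInstanceAs (Fintype ((ZMod 17)ˣ ⧸ Subgroup.zpowers (-1 : (ZMod 17)ˣ)))

theorem chiBar_mk (a : (ZMod 17)ˣ) : chiBar (GBar.mk 17 a) = chi8 a := rfl

theorem GBar_ind {P : GBar 17 → Prop} (h : ∀ a, P (GBar.mk 17 a)) (q : GBar 17) : P q :=
  QuotientGroup.induction_on q h

theorem GBar_eq (a b : (ZMod 17)ˣ) : GBar.mk 17 a = GBar.mk 17 b ↔
    a⁻¹ * b ∈ Subgroup.zpowers (-1 : (ZMod 17)ˣ) := QuotientGroup.eq

/-- Representatives. -/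
def reps : Finset (ZMod 17)ˣ := Finset.univ.filter (fun a => a.val.val ≤ 8)

theorem sum_bar {M : Type} [AddCommMonoid M] (F : GBar 17 → M) :
    ∑ q : GBar 17, F q = ∑ a ∈ reps, F (GBar.mk 17 a) := by
  classical
  symm
  refine Finset.sum_bij (fun a _ => GBar.mk 17 a) (fun _ _ => Finset.mem_univ _) ?_ ?_
    (fun _ _ => rfl)
  · intro a ha b hb hab
    have h1 := (GBar_eq a b).mp hab
    have h2 : b = a ∨ b = -a := by
      rcases mem_zpowers _ h1 with h | h
      · left; rw [← mul_one a, ← h]; group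
      · right; rw [← mul_one a, ← mul_neg, ← h]; group
    have key : ∀ a b : (ZMod 17)ˣ, a ∈ reps → b ∈ reps → (b = a ∨ b = -a) → a = b := by
      decide
    exact key a b ha hb h2
  · intro q _
    induction q using GBar_ind with
    | h b =>
      have key : ∀ b : (ZMod 17)ˣ, ∃ a ∈ reps, a = b ∨ a = -b := by decide
      obtain ⟨a, ha, h⟩ := key b
      refine ⟨a, ha, ?_⟩
      rcases h with h | h
      · rw [h]
      · rw [h]
        apply (GBar_eq _ _).mpr
        rw [inv_neg, neg_mul, inv_mul_cancel]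
        exact Subgroup.mem_zpowers _

theorem not_mem_sq_bar (R : Subring ℚ) (hR : ∀ c ∈ R, ∃ n : ℤ, c = n)
    (θ : MonoidAlgebra R (GBar 17)) (n : ℕ → ℤ)
    (hθ : ∀ a : (ZMod 17)ˣ, ((θ.coeff (GBar.mk 17 a) : R) : ℚ) = n (a.val.val))
    (h12 : n 1 = n 2) (h35 : n 3 = n 5) (h48 : n 4 = n 8)
    (h6 : Odd (n 6)) : θ ∉ augIdealBar R 17 ^ 2 := by
  intro hmem
  obtain ⟨ρ, hρ⟩ := exists_hom R hR
  let f0 : R →+* DualNumber (ZMod 8) := (Int.castRingHom (DualNumber (ZMod 8))).comp ρ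
  let Φ : MonoidAlgebra R (GBar 17) →+* DualNumber (ZMod 8) :=
    MonoidAlgebra.liftNCRingHom f0 chiBar (fun _ _ => Commute.all _ _)
  have hΦ : ∀ x : MonoidAlgebra R (GBar 17),
      Φ x = ∑ a : GBar 17, f0 (x.coeff a) * chiBar a := by
    intro x
    change x.coeff.sum (fun a b => f0 b * chiBar a) = _
    rw [Finsupp.sum_fintype]
    intro i; simp
  have haug : ∀ x : MonoidAlgebra R (GBar 17), x ∈ augIdealBar R 17 →
      ∑ a : GBar 17, x.coeff a = 0 := by
    intro x hx
    rw [augIdealBar, RingHom.mem_ker] at hx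
    have h1 : (MonoidAlgebra.lift R R (GBar 17) 1 : MonoidAlgebra R (GBar 17) →ₐ[R] R) x =
        x.coeff.sum fun a b => b • (1 : (GBar 17) →* R) a := MonoidAlgebra.lift_apply _ _
    rw [Finsupp.sum_fintype _ _ (by intro i; simp)] at h1
    simp only [MonoidHom.one_apply, smul_eq_mul, mul_one] at h1
    rw [← h1]
    exact hx
  have hfc : ∀ q : GBar 17, (chiBar q).fst = 1 := by
    intro q
    induction q using GBar_ind with
    | h b => simp [chiBar_mk, chi8]
  have hfst : ∀ x ∈ augIdealBar R 17, (Φ x).fst = 0 := by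
    intro x hx
    rw [hΦ x, TrivSqZeroExt.fst_sum]
    have h2 : ∀ a : GBar 17, (f0 (x.coeff a) * chiBar a).fst =
        ((ρ (x.coeff a) : ℤ) : ZMod 8) := by
      intro a
      rw [TrivSqZeroExt.fst_mul, hfc a]
      simp [f0]
    rw [Finset.sum_congr rfl (fun a _ => h2 a), ← Int.cast_sum, ← map_sum, haug x hx]
    simp
  have hsq : ∀ x ∈ augIdealBar R 17 ^ 2, Φ x = 0 := by
    intro x hx
    rw [pow_two] at hx
    refine Submodule.mul_induction_on hx ?_ ?_
    · intro u hu v hv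
      rw [map_mul]
      ext
      · simp [hfst u hu]
      · simp [hfst u hu, hfst v hv]
    · intro u v hu hv
      rw [map_add, hu, hv, add_zero]
  have hρn : ∀ a : (ZMod 17)ˣ, ρ (θ.coeff (GBar.mk 17 a)) = n (a.val.val) := by
    intro a
    have := hρ (θ.coeff (GBar.mk 17 a))
    rw [hθ a] at this
    exact_mod_cast this
  have himg : (reps.image (fun a : (ZMod 17)ˣ => a.val.val)) = Finset.Icc 1 8 := by
    decide
  have hinj : Set.InjOn (fun a : (ZMod 17)ˣ => a.val.val) (reps : Set (ZMod 17)ˣ) := by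
    intro a _ b _ hab
    exact Units.ext (ZMod.val_injective 17 hab)
  have hsumn : ∑ a ∈ Finset.Icc 1 8, n a = 0 := by
    rw [← himg, Finset.sum_image hinj]
    have h1 := haug θ (Ideal.pow_le_self (by norm_num) hmem)
    have h2 := congrArg ρ h1
    rw [map_sum, map_zero, sum_bar] at h2
    rw [← h2]
    exact Finset.sum_congr rfl (fun a _ => (hρn a).symm)
  have hsumd : ∑ a ∈ Finset.Icc 1 8, ((n a : ℤ) : ZMod 8) * dlogTable8.getD a 0 = 0 := by
    rw [← himg, Finset.sum_image hinj]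
    have h1 := hsq θ hmem
    rw [hΦ θ] at h1
    have h2 := congrArg TrivSqZeroExt.snd h1
    rw [TrivSqZeroExt.snd_sum, TrivSqZeroExt.snd_zero, sum_bar] at h2
    refine Eq.trans (Finset.sum_congr rfl (fun a _ => ?_)) h2
    rw [← hρn a]
    simp [f0, chiBar_mk, chi8, dlog8]
  have hs : 2 * n 2 + 2 * n 5 + 2 * n 8 + n 6 + n 7 = 0 := by
    rw [← hsumn]
    simp only [Finset.sum_Icc_succ_top (by norm_num : 1 ≤ _ + 1), Finset.Icc_self,
      Finset.sum_singleton]
    norm_num
    linarith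
  have hd : ((6 * n 2 + 6 * n 5 + 6 * n 8 + 7 * n 6 + 3 * n 7 : ℤ) : ZMod 8) = 0 := by
    simp only [Finset.sum_Icc_succ_top (by norm_num : 1 ≤ _ + 1), Finset.Icc_self,
      Finset.sum_singleton] at hsumd
    norm_num [dlogTable8] at hsumd
    rw [h35, h48] at hsumd
    rw [← hsumd]
    push_cast
    ring
  rw [ZMod.intCast_zmod_eq_zero_iff_dvd] at hd
  obtain ⟨m, hm⟩ := h6
  obtain ⟨k, hk⟩ := hd
  push_cast at hk
  omega

end Pool.Agent.MT136
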