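import Mathlib
import Pool.Agent.MT136.Defs
import Pool.Agent.MT136.Core

/-!
# Identities between modular forms of level 136 (package D2)

The two identities `rel_quad` (weight 8) and `rel_ode` (weight 20) are checked on the truncated
`q`-expansions. All series are evaluated at `q = 2 ^ 256` (Kronecker substitution), the result is
reduced modulo `2 ^ (256 * 361)` by the kernel.
-/

set_option autoImplicit false

namespace Pool.Agent.MT136

open CongruenceSubgroup UpperHalfPlane Filter Topology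
open scoped Manifold MatrixGroups

namespace Ident

/-! ## Modular forms with integral `q`-expansions -/

lemma one_mem_periods : (1 : ℝ) ∈ (Gamma0 136 : Subgroup (GL (Fin 2) ℝ)).strictPeriods := by
  have hT : ModularGroup.T ∈ Gamma0 136 := by
    rw [Gamma0_mem]; simp [ModularGroup.T]
  rw [Subgroup.strictPeriods_eq_zmultiples_one_of_T_mem hT]
  exact AddSubgroup.mem_zmultiples 1

/-- `F` is a modular form of weight `k` with integral q-expansion `P`. -/
def Rep (k : ℤ) (F : ℍ → ℂ) (P : PowerSeries ℤ) : Prop :=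
  (∃ M : ModularForm (Gamma0 136) k, ⇑M = F) ∧ qExpansion 1 F = P.map (Int.castRingHom ℂ)

lemma Rep.mul {a b : ℤ} {F G : ℍ → ℂ} {P Q : PowerSeries ℤ} (hF : Rep a F P) (hG : Rep b G Q) :
    Rep (a + b) (F * G) (P * Q) := by
  obtain ⟨⟨M, rfl⟩, hM⟩ := hF
  obtain ⟨⟨N, rfl⟩, hN⟩ := hG
  refine ⟨⟨M.mul N, by simp⟩, ?_⟩
  rw [ModularForm.qExpansion_mul_coe one_pos one_mem_periods M N, hM, hN, map_mul]

lemma Rep.add {a : ℤ} {F G : ℍ → ℂ} {P Q : PowerSeries ℤ} (hF : Rep a F P) (hG : Rep a G Q) :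
    Rep a (F + G) (P + Q) := by
  obtain ⟨⟨M, rfl⟩, hM⟩ := hF
  obtain ⟨⟨N, rfl⟩, hN⟩ := hG
  refine ⟨⟨M + N, by simp⟩, ?_⟩
  rw [ModularForm.qExpansion_add one_pos one_mem_periods M N, hM, hN, map_add]

lemma Rep.sub {a : ℤ} {F G : ℍ → ℂ} {P Q : PowerSeries ℤ} (hF : Rep a F P) (hG : Rep a G Q) :
    Rep a (F - G) (P - Q) := by
  obtain ⟨⟨M, rfl⟩, hM⟩ := hF
  obtain ⟨⟨N, rfl⟩, hN⟩ := hG
  refine ⟨⟨M - N, by simp⟩, ?_⟩
  rw [ModularForm.qExpansion_sub one_pos one_mem_periods M N, hM, hN, map_sub]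

lemma Rep.smul {a : ℤ} {F : ℍ → ℂ} {P : PowerSeries ℤ} (c : ℤ) (hF : Rep a F P) :
    Rep a ((c : ℂ) • F) (PowerSeries.C c * P) := by
  obtain ⟨⟨M, rfl⟩, hM⟩ := hF
  refine ⟨⟨(c : ℂ) • M, by simp⟩, ?_⟩
  rw [ModularForm.qExpansion_smul one_pos one_mem_periods (c : ℂ) M, hM, map_mul,
    PowerSeries.map_C, PowerSeries.smul_eq_C_mul]
  simp

lemma Rep.congr {a b : ℤ} {F G : ℍ → ℂ} {P Q : PowerSeries ℤ} (hF : Rep a F P) (hab : a = b)
    (hFG : ∀ τ, F τ = G τ) (hPQ : P = Q) : Rep b G Q := by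
  subst hab hPQ
  obtain rfl : F = G := funext hFG
  exact hF

lemma rep_of_coeff {k : ℤ} {F : ℍ → ℂ} (c : ℕ → ℤ)
    (h : (∃ M : ModularForm (Gamma0 136) k, ⇑M = F) ∧ ∀ n, (qExpansion 1 F).coeff n = c n) :
    Rep k F (PowerSeries.mk c) := by
  refine ⟨h.1, ?_⟩
  ext n
  simp [h.2 n]

lemma rep_cusp (f : CuspForm (Gamma0 136) 2) (A : ℕ → ℤ) (hA : Data f A) :
    Rep 2 f (PowerSeries.mk A) := by
  refine rep_of_coeff A ⟨⟨(f : ModularForm (Gamma0 136) 2), rfl⟩, fun n => hA.coeff n⟩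

/-! ## Kronecker substitution -/

section

open PowerSeries


/-- The base `2 ^ 256`. -/
def BB : ℤ := 115792089237316195423570985008687907853269984665640564039457584007913129639936

lemma BB_eq : BB = 2 ^ 256 := by norm_num [BB]

lemma BB_pos : 0 < BB := by norm_num [BB]

/-- Evaluation of a truncated power series at `BB`. -/
noncomputable def ev (P : PowerSeries ℤ) : ℤ := ∑ n ∈ Finset.range 361, coeff n P * BB ^ n

lemma ev_eq_eval (P : PowerSeries ℤ) : ev P = (trunc 361 P).eval BB := by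
  rw [ev, Polynomial.eval_eq_sum_range' (n := 361)]
  · refine Finset.sum_congr rfl fun n hn => ?_
    rw [coeff_trunc, if_pos (Finset.mem_range.1 hn)]
  · exact (natDegree_trunc_lt P 360)

lemma ev_mul (P Q : PowerSeries ℤ) : ev (P * Q) ≡ ev P * ev Q [ZMOD BB ^ 361] := by
  have h : (Polynomial.X ^ 361 : Polynomial ℤ) ∣ trunc 361 P * trunc 361 Q - trunc 361 (P * Q) := by
    rw [Polynomial.X_pow_dvd_iff]
    intro d hd
    rw [Polynomial.coeff_sub, Polynomial.coeff_mul, coeff_trunc, if_pos hd, PowerSeries.coeff_mul,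
      sub_eq_zero]
    refine Finset.sum_congr rfl fun x hx => ?_
    rw [Finset.HasAntidiagonal.mem_antidiagonal] at hx
    rw [coeff_trunc, coeff_trunc, if_pos (by omega), if_pos (by omega)]
  obtain ⟨r, hr⟩ := h
  have := congrArg (Polynomial.eval BB) hr
  simp only [Polynomial.eval_sub, Polynomial.eval_mul, Polynomial.eval_pow, Polynomial.eval_X] at this
  rw [ev_eq_eval, ev_eq_eval, ev_eq_eval]
  exact (Int.modEq_iff_dvd.2 ⟨_, this⟩)

lemma digits_zero (B : ℤ) (hB : 0 < B) (L : ℕ) : ∀ p : ℕ → ℤ, (∀ n < L, |p n| < B) →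
    B ^ L ∣ ∑ n ∈ Finset.range L, p n * B ^ n → ∀ n < L, p n = 0 := by
  induction L with
  | zero => intro p _ _ n hn; omega
  | succ L ih =>
    intro p hp hd
    rw [Finset.sum_range_succ'] at hd
    have e : ∑ n ∈ Finset.range L, p (n + 1) * B ^ (n + 1) =
        B * ∑ n ∈ Finset.range L, p (n + 1) * B ^ n := by
      rw [Finset.mul_sum]
      refine Finset.sum_congr rfl fun n _ => ?_
      ring
    rw [e, pow_zero, mul_one] at hd
    have h0 : p 0 = 0 := by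
      have h1 : B ∣ p 0 := by
        have h2 : B ∣ B * ∑ n ∈ Finset.range L, p (n + 1) * B ^ n + p 0 :=
          (dvd_pow_self B (Nat.succ_ne_zero L)).trans hd
        exact (dvd_add_right (dvd_mul_right _ _)).1 h2
      exact Int.eq_zero_of_abs_lt_dvd h1 (hp 0 (Nat.succ_pos L))
    rw [h0, add_zero, pow_succ'] at hd
    have h3 := ih (fun n => p (n + 1)) (fun n hn => hp (n + 1) (by omega))
      ((mul_dvd_mul_iff_left hB.ne').1 hd)
    intro n hn
    rcases n with _ | n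
    · exact h0
    · exact h3 n (by omega)

/-- The truncation of `P` evaluates to `v` and has coefficients bounded by `M`. -/
structure TT (P : PowerSeries ℤ) (v M : ℤ) : Prop where
  ev : ev P ≡ v [ZMOD BB ^ 361]
  bd : ∀ n < 361, |coeff n P| ≤ M

lemma TT.nonneg {P : PowerSeries ℤ} {v M : ℤ} (h : TT P v M) : 0 ≤ M :=
  (abs_nonneg _).trans (h.bd 0 (by norm_num))

lemma TT.add {P Q : PowerSeries ℤ} {v w M N : ℤ} (h : TT P v M) (h' : TT Q w N) :
    TT (P + Q) (v + w) (M + N) := by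
  refine ⟨?_, fun n hn => ?_⟩
  · have e : Ident.ev (P + Q) = Ident.ev P + Ident.ev Q := by
      simp [Ident.ev, add_mul, Finset.sum_add_distrib]
    rw [e]
    exact h.ev.add h'.ev
  · rw [map_add]
    exact (abs_add_le _ _).trans (add_le_add (h.bd n hn) (h'.bd n hn))

lemma TT.sub {P Q : PowerSeries ℤ} {v w M N : ℤ} (h : TT P v M) (h' : TT Q w N) :
    TT (P - Q) (v - w) (M + N) := by
  refine ⟨?_, fun n hn => ?_⟩
  · have e : Ident.ev (P - Q) = Ident.ev P - Ident.ev Q := by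
      simp [Ident.ev, sub_mul, Finset.sum_sub_distrib]
    rw [e]
    exact h.ev.sub h'.ev
  · rw [map_sub]
    exact (abs_sub _ _).trans (add_le_add (h.bd n hn) (h'.bd n hn))

lemma TT.smul {P : PowerSeries ℤ} {v M : ℤ} (c : ℤ) (h : TT P v M) :
    TT (C c * P) (c * v) (|c| * M) := by
  refine ⟨?_, fun n hn => ?_⟩
  · have e : Ident.ev (C c * P) = c * Ident.ev P := by
      simp only [Ident.ev, Finset.mul_sum, coeff_C_mul, mul_assoc]
    rw [e]
    exact h.ev.mul_left _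
  · rw [coeff_C_mul, abs_mul]
    exact mul_le_mul_of_nonneg_left (h.bd n hn) (abs_nonneg _)

lemma TT.mul {P Q : PowerSeries ℤ} {v w M N : ℤ} (h : TT P v M) (h' : TT Q w N) :
    TT (P * Q) (v * w) (361 * M * N) := by
  refine ⟨(ev_mul P Q).trans (h.ev.mul h'.ev), fun n hn => ?_⟩
  rw [PowerSeries.coeff_mul]
  refine (Finset.abs_sum_le_sum_abs _ _).trans ?_
  have h1 : ∀ x ∈ Finset.HasAntidiagonal.antidiagonal n, |coeff x.1 P * coeff x.2 Q| ≤ M * N := by
    intro x hx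
    rw [Finset.HasAntidiagonal.mem_antidiagonal] at hx
    rw [abs_mul]
    exact mul_le_mul (h.bd _ (by omega)) (h'.bd _ (by omega)) (abs_nonneg _) h.nonneg
  refine (Finset.sum_le_card_nsmul _ _ _ h1).trans ?_
  rw [Finset.Nat.card_antidiagonal, nsmul_eq_mul, mul_assoc]
  have h2 : 0 ≤ M * N := mul_nonneg h.nonneg h'.nonneg
  have h3 : ((n + 1 : ℕ) : ℤ) ≤ 361 := by exact_mod_cast (by omega : n + 1 ≤ 361)
  exact mul_le_mul_of_nonneg_right h3 h2

lemma TT.eq_zero {P : PowerSeries ℤ} {v M : ℤ} (h : TT P v M) (hv : v % BB ^ 361 = 0) (hM : M < BB) :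
    ∀ n < 361, coeff n P = 0 := by
  refine digits_zero BB BB_pos 361 (fun n => coeff n P) (fun n hn => (h.bd n hn).trans_lt hM) ?_
  have h1 : Ident.ev P ≡ 0 [ZMOD BB ^ 361] := h.ev.trans (by
    rw [Int.ModEq, hv, Int.zero_emod])
  exact Int.modEq_zero_iff_dvd.1 h1

/-- Horner evaluation of a list at `BB`. -/
def hor : List ℤ → ℤ
  | [] => 0
  | x :: l => x + BB * hor l

lemma hor_eq (l : List ℤ) : hor l = ∑ n ∈ Finset.range l.length, l.getD n 0 * BB ^ n := by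
  induction l with
  | nil => rfl
  | cons x l ih =>
    rw [hor, ih, List.length_cons, Finset.sum_range_succ', Finset.mul_sum, add_comm]
    congr 1
    · refine Finset.sum_congr rfl fun n _ => ?_
      rw [List.getD_cons_succ]; ring
    · simp

lemma tt_of_list {P : PowerSeries ℤ} (l : List ℤ) (hl : l.length = 361)
    (h : ∀ n < 361, coeff n P = l.getD n 0) (M : ℤ) (hM : ∀ x ∈ l, |x| ≤ M) : TT P (hor l) M := by
  refine ⟨?_, fun n hn => ?_⟩
  · rw [hor_eq, hl, Ident.ev]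
    rw [Finset.sum_congr rfl fun n hn => by rw [h n (Finset.mem_range.1 hn)]]
  · rw [h n hn, List.getD_eq_getElem _ _ (by omega)]
    exact hM _ (List.getElem_mem _)

/-- The operator `q d/dq`. -/
noncomputable def DD (P : PowerSeries ℤ) : PowerSeries ℤ := mk fun n => (n : ℤ) * coeff n P

lemma coeff_DD (P : PowerSeries ℤ) (n : ℕ) : coeff n (DD P) = (n : ℤ) * coeff n P := by
  rw [DD, coeff_mk]

lemma DD_add (P Q : PowerSeries ℤ) : DD (P + Q) = DD P + DD Q := by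
  ext n; simp only [coeff_DD, map_add, mul_add]

lemma DD_sub (P Q : PowerSeries ℤ) : DD (P - Q) = DD P - DD Q := by
  ext n; simp only [coeff_DD, map_sub, mul_sub]

lemma DD_smul (c : ℤ) (P : PowerSeries ℤ) : DD (C c * P) = C c * DD P := by
  ext n; simp only [coeff_DD, coeff_C_mul]; ring

lemma DD_mul (P Q : PowerSeries ℤ) : DD (P * Q) = DD P * Q + P * DD Q := by
  ext n
  rw [coeff_DD, map_add, PowerSeries.coeff_mul, PowerSeries.coeff_mul, PowerSeries.coeff_mul,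
    ← Finset.sum_add_distrib, Finset.mul_sum]
  refine Finset.sum_congr rfl fun x hx => ?_
  rw [Finset.HasAntidiagonal.mem_antidiagonal] at hx
  rw [coeff_DD, coeff_DD, ← hx]
  push_cast
  ring

/-- Multiply the entries of a list by their index (shifted by `k`). -/
def dlist : ℕ → List ℤ → List ℤ
  | _, [] => []
  | k, x :: l => (k : ℤ) * x :: dlist (k + 1) l

lemma length_dlist (l : List ℤ) : ∀ k, (dlist k l).length = l.length := by
  induction l with
  | nil => intro k; rfl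
  | cons x l ih => intro k; rw [dlist, List.length_cons, List.length_cons, ih]

lemma getD_dlist (l : List ℤ) : ∀ k n, (dlist k l).getD n 0 = ((k + n : ℕ) : ℤ) * l.getD n 0 := by
  induction l with
  | nil => intro k n; simp [dlist]
  | cons x l ih =>
    intro k n
    rcases n with _ | n
    · simp [dlist]
    · rw [dlist, List.getD_cons_succ, List.getD_cons_succ, ih]
      congr 2
      omega

lemma tt_DD_of_list {P : PowerSeries ℤ} (l : List ℤ) (hl : l.length = 361)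
    (h : ∀ n < 361, coeff n P = l.getD n 0) (M : ℤ) (hM : ∀ x ∈ dlist 0 l, |x| ≤ M) :
    TT (DD P) (hor (dlist 0 l)) M := by
  refine tt_of_list _ (by rw [length_dlist, hl]) (fun n hn => ?_) M hM
  rw [coeff_DD, h n hn, getD_dlist, zero_add]

end

/-! ## The tables -/

/-- The first coefficients of `al`. -/
def tal : List ℤ :=
  [-3, 0, -4, 0, -4, 0, -16, 0, -4, 0, -24, 0, -16, 0, -32, 0, -4, 0, -52, 0, -24, 0, -48, 0,
    -16, 0, -56, 0, -32, 0, -96, 0, -4, 0, -140, 0, -52, 0, -80, 0, -24, 0, -128, 0, -48, 0,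
    -96, 0, -16, 0, -124, 0, -56, 0, -160, 0, -32, 0, -120, 0, -96, 0, -128, 0, -4, 0, -192, 0,
    -140, 0, -192, 0, -52, 0, -152, 0, -80, 0, -224, 0, -24, 0, -168, 0, -128, 0, -176, 0, -48,
    0, -312, 0, -96, 0, -192, 0, -16, 0, -228, 0, -124, 0, -560, 0, -56, 0, -216, 0, -160, 0,
    -288, 0, -32, 0, -320, 0, -120, 0, -240, 0, -96, 0, -248, 0, -128, 0, -416, 0, -4, 0, -336,
    0, -192, 0, -272, 0, -140, 0, -384, 0, -192, 0, -288, 0, -52, 0, -296, 0, -152, 0, -496, 0,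
    -80, 0, -384, 0, -224, 0, -320, 0, -24, 0, -484, 0, -168, 0, -336, 0, -128, 0, -840, 0,
    -176, 0, -480, 0, -48, 0, -360, 0, -312, 0, -448, 0, -96, 0, -512, 0, -192, 0, -480, 0, -16,
    0, -392, 0, -228, 0, -624, 0, -124, 0, -408, 0, -560, 0, -416, 0, -56, 0, -768, 0, -216, 0,
    -432, 0, -160, 0, -440, 0, -288, 0, -608, 0, -32, 0, -456, 0, -320, 0, -576, 0, -120, 0,
    -728, 0, -240, 0, -1120, 0, -96, 0, -532, 0, -248, 0, -672, 0, -128, 0, -624, 0, -416, 0,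
    -512, 0, -4, 0, -704, 0, -336, 0, -528, 0, -192, 0, -640, 0, -272, 0, -960, 0, -140, 0,
    -552, 0, -384, 0, -560, 0, -192, 0, -768, 0, -288, 0, -672, 0, -52, 0, -720, 0, -296, 0,
    -912, 0, -152, 0, -600, 0, -496, 0, -608, 0, -80, 0, -1820, 0, -384, 0, -768, 0, -224, 0,
    -632, 0, -320, 0, -864, 0, -24, 0, -768, 0, -484, 0, -656, 0, -168, 0, -1152, 0, -336, 0,
    -672, 0, -128, 0, -732, 0, -840, 0, -1040, 0, -176, 0, -696, 0, -480, 0, -992, 0, -48, 0,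
    -960, 0, -360, 0, -720, 0, -312]

/-- The first coefficients of `be`. -/
def tbe : List ℤ :=
  [-2, 0, -1, 0, -5, 0, -4, 0, -13, 0, -6, 0, -20, 0, -8, 0, -29, 0, -13, 0, -30, 0, -12, 0,
    -52, 0, -14, 0, -40, 0, -24, 0, -61, 0, -1, 0, -65, 0, -20, 0, -78, 0, -32, 0, -60, 0, -24,
    0, -116, 0, -31, 0, -70, 0, -40, 0, -104, 0, -30, 0, -120, 0, -32, 0, -125, 0, -48, 0, -5,
    0, -48, 0, -169, 0, -38, 0, -100, 0, -56, 0, -174, 0, -42, 0, -160, 0, -44, 0, -156, 0, -78,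
    0, -120, 0, -48, 0, -244, 0, -57, 0, -155, 0, -4, 0, -182, 0, -54, 0, -200, 0, -72, 0, -232,
    0, -80, 0, -150, 0, -60, 0, -312, 0, -62, 0, -160, 0, -104, 0, -253, 0, -84, 0, -240, 0,
    -68, 0, -13, 0, -96, 0, -240, 0, -72, 0, -377, 0, -74, 0, -190, 0, -124, 0, -260, 0, -96, 0,
    -280, 0, -80, 0, -366, 0, -121, 0, -210, 0, -84, 0, -416, 0, -6, 0, -220, 0, -120, 0, -348,
    0, -90, 0, -390, 0, -112, 0, -312, 0, -128, 0, -240, 0, -120, 0, -500, 0, -98, 0, -285, 0,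
    -156, 0, -403, 0, -102, 0, -20, 0, -104, 0, -406, 0, -192, 0, -270, 0, -108, 0, -520, 0,
    -110, 0, -360, 0, -152, 0, -488, 0, -114, 0, -400, 0, -144, 0, -390, 0, -182, 0, -300, 0,
    -8, 0, -696, 0, -133, 0, -310, 0, -168, 0, -416, 0, -156, 0, -520, 0, -128, 0, -509, 0,
    -176, 0, -420, 0, -132, 0, -624, 0, -160, 0, -340, 0, -240, 0, -29, 0, -138, 0, -480, 0,
    -140, 0, -624, 0, -192, 0, -360, 0, -168, 0, -793, 0, -180, 0, -370, 0, -228, 0, -494, 0,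
    -150, 0, -620, 0, -152, 0, -580, 0, -13, 0, -480, 0, -192, 0, -728, 0, -158, 0, -400, 0,
    -216, 0, -750, 0, -192, 0, -605, 0, -164, 0, -546, 0, -288, 0, -420, 0, -168, 0, -928, 0,
    -183, 0, -30, 0, -260, 0, -572, 0, -174, 0, -600, 0, -248, 0, -732, 0, -240, 0, -450, 0,
    -180, 0, -1014]

/-- The first coefficients of `ga`. -/
def tga : List ℤ :=
  [2, 0, -3, 0, -3, 0, -12, 0, -3, 0, -18, 0, -12, 0, -24, 0, -3, 0, -39, 0, -18, 0, -36, 0,
    -12, 0, -42, 0, -24, 0, -72, 0, -3, 0, -3, 0, -39, 0, -60, 0, -18, 0, -96, 0, -36, 0, -72,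
    0, -12, 0, -93, 0, -42, 0, -120, 0, -24, 0, -90, 0, -72, 0, -96, 0, -3, 0, -144, 0, -3, 0,
    -144, 0, -39, 0, -114, 0, -60, 0, -168, 0, -18, 0, -126, 0, -96, 0, -132, 0, -36, 0, -234,
    0, -72, 0, -144, 0, -12, 0, -171, 0, -93, 0, -12, 0, -42, 0, -162, 0, -120, 0, -216, 0, -24,
    0, -240, 0, -90, 0, -180, 0, -72, 0, -186, 0, -96, 0, -312, 0, -3, 0, -252, 0, -144, 0,
    -204, 0, -3, 0, -288, 0, -144, 0, -216, 0, -39, 0, -222, 0, -114, 0, -372, 0, -60, 0, -288,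
    0, -168, 0, -240, 0, -18, 0, -363, 0, -126, 0, -252, 0, -96, 0, -18, 0, -132, 0, -360, 0,
    -36, 0, -270, 0, -234, 0, -336, 0, -72, 0, -384, 0, -144, 0, -360, 0, -12, 0, -294, 0, -171,
    0, -468, 0, -93, 0, -306, 0, -12, 0, -312, 0, -42, 0, -576, 0, -162, 0, -324, 0, -120, 0,
    -330, 0, -216, 0, -456, 0, -24, 0, -342, 0, -240, 0, -432, 0, -90, 0, -546, 0, -180, 0, -24,
    0, -72, 0, -399, 0, -186, 0, -504, 0, -96, 0, -468, 0, -312, 0, -384, 0, -3, 0, -528, 0,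
    -252, 0, -396, 0, -144, 0, -480, 0, -204, 0, -720, 0, -3, 0, -414, 0, -288, 0, -420, 0,
    -144, 0, -576, 0, -216, 0, -504, 0, -39, 0, -540, 0, -222, 0, -684, 0, -114, 0, -450, 0,
    -372, 0, -456, 0, -60, 0, -39, 0, -288, 0, -576, 0, -168, 0, -474, 0, -240, 0, -648, 0, -18,
    0, -576, 0, -363, 0, -492, 0, -126, 0, -864, 0, -252, 0, -504, 0, -96, 0, -549, 0, -18, 0,
    -780, 0, -132, 0, -522, 0, -360, 0, -744, 0, -36, 0, -720, 0, -270, 0, -540, 0, -234]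

/-- The first coefficients of `f`. -/
def tf : List ℤ :=
  [0, 1, 0, -2, 0, -2, 0, -2, 0, 1, 0, -6, 0, 2, 0, 4, 0, 1, 0, 0, 0, 4, 0, 6, 0, -1, 0, 4, 0,
    -10, 0, 2, 0, 12, 0, 4, 0, 6, 0, -4, 0, -6, 0, -8, 0, -2, 0, 0, 0, -3, 0, -2, 0, -10, 0, 12,
    0, 0, 0, -8, 0, 14, 0, -2, 0, -4, 0, 4, 0, -12, 0, 2, 0, -14, 0, 2, 0, 12, 0, -10, 0, -11,
    0, 8, 0, -2, 0, 20, 0, -10, 0, -4, 0, -4, 0, 0, 0, 2, 0, -6, 0, 10, 0, 8, 0, -8, 0, -18, 0,
    6, 0, -12, 0, 10, 0, -12, 0, 2, 0, -2, 0, 25, 0, 12, 0, 12, 0, 4, 0, 16, 0, 14, 0, 0, 0, -8,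
    0, 6, 0, 14, 0, 0, 0, -12, 0, 20, 0, 6, 0, -10, 0, -12, 0, 1, 0, -4, 0, -2, 0, 20, 0, -12,
    0, -22, 0, -24, 0, -6, 0, -9, 0, 0, 0, 6, 0, 2, 0, 16, 0, 8, 0, -2, 0, -28, 0, -12, 0, -6,
    0, -8, 0, 0, 0, -6, 0, 8, 0, -10, 0, -14, 0, -8, 0, 20, 0, 12, 0, 6, 0, 0, 0, -6, 0, -4, 0,
    16, 0, -4, 0, 28, 0, 2, 0, -12, 0, -1, 0, 2, 0, -14, 0, -24, 0, 10, 0, 0, 0, 20, 0, -8, 0,
    -22, 0, 10, 0, 6, 0, 0, 0, -16, 0, 20, 0, -36, 0, 4, 0, 6, 0, -12, 0, -10, 0, 12, 0, 20, 0,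
    20, 0, 14, 0, -8, 0, 8, 0, 6, 0, 22, 0, 2, 0, 10, 0, -22, 0, 0, 0, 12, 0, 1, 0, -4, 0, 6, 0,
    16, 0, -24, 0, 12, 0, 16, 0, -20, 0, -28, 0, 12, 0, -16, 0, -30, 0, -6, 0, 4, 0, 22, 0, 60,
    0, 36, 0, 0, 0, -2, 0, -12, 0, 0, 0, 8, 0, 6, 0, -8, 0, 2, 0, -20, 0, -12, 0, 20, 0, 24, 0,
    -6, 0, -34, 0, 8, 0, 18, 0, -4, 0, 4, 0, 12, 0]

/-- The values of `σ₁`. -/
def tsig : List ℕ :=
  [0, 1, 3, 4, 7, 6, 12, 8, 15, 13, 18, 12, 28, 14, 24, 24, 31, 18, 39, 20, 42, 32, 36, 24,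
    60, 31, 42, 40, 56, 30, 72, 32, 63, 48, 54, 48, 91, 38, 60, 56, 90, 42, 96, 44, 84, 78, 72,
    48, 124, 57, 93, 72, 98, 54, 120, 72, 120, 80, 90, 60, 168, 62, 96, 104, 127, 84, 144, 68,
    126, 96, 144, 72, 195, 74, 114, 124, 140, 96, 168, 80, 186, 121, 126, 84, 224, 108, 132,
    120, 180, 90, 234, 112, 168, 128, 144, 120, 252, 98, 171, 156, 217, 102, 216, 104, 210, 192,
    162, 108, 280, 110, 216, 152, 248, 114, 240, 144, 210, 182, 180, 144, 360, 133, 186, 168,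
    224, 156, 312, 128, 255, 176, 252, 132, 336, 160, 204, 240, 270, 138, 288, 140, 336, 192,
    216, 168, 403, 180, 222, 228, 266, 150, 372, 152, 300, 234, 288, 192, 392, 158, 240, 216,
    378, 192, 363, 164, 294, 288, 252, 168, 480, 183, 324, 260, 308, 174, 360, 248, 372, 240,
    270, 180, 546]

lemma tal_length : tal.length = 361 := by decide +kernel
lemma tbe_length : tbe.length = 361 := by decide +kernel
lemma tga_length : tga.length = 361 := by decide +kernel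
lemma tf_length : tf.length = 361 := by decide +kernel

lemma tf_eq : ∀ n < 361, tbl.getD n 0 = tf.getD n 0 := by decide +kernel

lemma sigma_eq : ∀ n < 181, ArithmeticFunction.sigma 1 n = tsig.getD n 0 := by decide +kernel

/-- `sg` from the table. -/
def sgt (n d : ℕ) : ℤ := if d ∣ n then (tsig.getD (n / d) 0 : ℤ) else 0

lemma sg_eq (n d : ℕ) (hn : n < 361) (hd : 2 ≤ d) : sg n d = sgt n d := by
  have h : n / d < 181 := by
    refine (Nat.div_lt_iff_lt_mul (by omega)).2 ?_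
    nlinarith
  rw [sg, sgt, sigma_eq _ h]

lemma tal_eq0 : ∀ n < 361, (if n = 0 then -3 else
    -4 * sgt n 2 + 8 * sgt n 4 - 68 * sgt n 34 + 136 * sgt n 68) = tal.getD n 0 := by
  decide +kernel

lemma tbe_eq0 : ∀ n < 361, (if n = 0 then -2 else
    -sgt n 2 - 2 * sgt n 4 + 17 * sgt n 34 + 34 * sgt n 68) = tbe.getD n 0 := by
  decide +kernel

lemma tga_eq0 : ∀ n < 361, (if n = 0 then 2 else
    -3 * sgt n 2 + 6 * sgt n 4 + 51 * sgt n 34 - 102 * sgt n 68) = tga.getD n 0 := by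
  decide +kernel

lemma tal_eq (n : ℕ) (hn : n < 361) : alc n = tal.getD n 0 := by
  rw [← tal_eq0 n hn, alc, sg_eq n 2 hn (by norm_num), sg_eq n 4 hn (by norm_num),
    sg_eq n 34 hn (by norm_num), sg_eq n 68 hn (by norm_num)]

lemma tbe_eq (n : ℕ) (hn : n < 361) : bec n = tbe.getD n 0 := by
  rw [← tbe_eq0 n hn, bec, sg_eq n 2 hn (by norm_num), sg_eq n 4 hn (by norm_num),
    sg_eq n 34 hn (by norm_num), sg_eq n 68 hn (by norm_num)]

lemma tga_eq (n : ℕ) (hn : n < 361) : gac n = tga.getD n 0 := by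
  rw [← tga_eq0 n hn, gac, sg_eq n 2 hn (by norm_num), sg_eq n 4 hn (by norm_num),
    sg_eq n 34 hn (by norm_num), sg_eq n 68 hn (by norm_num)]

lemma tf_bd : ∀ x ∈ tf, |x| ≤ 60 := by decide +kernel
lemma tal_bd : ∀ x ∈ tal, |x| ≤ 1820 := by decide +kernel
lemma tbe_bd : ∀ x ∈ tbe, |x| ≤ 1820 := by decide +kernel
lemma tga_bd : ∀ x ∈ tga, |x| ≤ 1820 := by decide +kernel
lemma dtf_bd : ∀ x ∈ dlist 0 tf, |x| ≤ 657020 := by decide +kernel
lemma dtal_bd : ∀ x ∈ dlist 0 tal, |x| ≤ 657020 := by decide +kernel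
lemma dtbe_bd : ∀ x ∈ dlist 0 tbe, |x| ≤ 657020 := by decide +kernel
lemma dtga_bd : ∀ x ∈ dlist 0 tga, |x| ≤ 657020 := by decide +kernel

/-- Value of `f`. -/
def vf : ℤ := hor tf
/-- Value of `al`. -/
def val : ℤ := hor tal
/-- Value of `be`. -/
def vbe : ℤ := hor tbe
/-- Value of `ga`. -/
def vga : ℤ := hor tga
/-- Value of the derivative of `f`. -/
def dvf : ℤ := hor (dlist 0 tf)
/-- Value of the derivative of `al`. -/
def dval : ℤ := hor (dlist 0 tal)
/-- Value of the derivative of `be`. -/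
def dvbe : ℤ := hor (dlist 0 tbe)
/-- Value of the derivative of `ga`. -/
def dvga : ℤ := hor (dlist 0 tga)

/-- Value of `hh`. -/
def vh : ℤ := -102 * (vf * vf) + 12 * (val * val) + 126 * (vga * vga)
/-- Value of `gg`. -/
def vg : ℤ := 476 * (vf * vf) + 8 * (val * val) - 17 * (vbe * vbe) - vga * vga
/-- Value of the derivative of `hh`. -/
def vdh : ℤ := 2 * (-102 * (vf * dvf) + 12 * (val * dval) + 126 * (vga * dvga))
/-- Value of the derivative of `gg`. -/
def vdg : ℤ := 2 * (476 * (vf * dvf) + 8 * (val * dval) - 17 * (vbe * dvbe) - vga * dvga)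
/-- Value of the bracket. -/
def vbr : ℤ := vdh * vg - vh * vdg
/-- Value of the left-hand side of `rel_ode`. -/
def vode : ℤ := vbr * vbr -
  4 * ((vf * vf) * ((vh * vh * vh) * vg + (vh * vh) * (vg * vg) - 4 * (vh * (vg * vg * vg))))
/-- Value of the left-hand side of `rel_quad`. -/
def vquad : ℤ := 15028 * ((vf * vf) * (vf * vf)) +
  17 * ((vf * vf) * (-176 * (val * val) + 3995 * (vbe * vbe) - 1355 * (vga * vga))) +
  16 * ((val * val) * (val * val)) + 748 * ((val * val) * (vbe * vbe)) +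
  608 * ((val * val) * (vga * vga)) - 2312 * ((vbe * vbe) * (vbe * vbe)) -
  3995 * ((vbe * vbe) * (vga * vga)) + 3175 * ((vga * vga) * (vga * vga))

lemma vode_mod : vode % BB ^ 361 = 0 := by decide +kernel

lemma vquad_mod : vquad % BB ^ 361 = 0 := by decide +kernel

/-! ## The power series -/

/-- Series of `hh`. -/
noncomputable def HS (F A G : PowerSeries ℤ) : PowerSeries ℤ :=
  PowerSeries.C (-102) * (F * F) + PowerSeries.C 12 * (A * A) + PowerSeries.C 126 * (G * G)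

/-- Series of `gg`. -/
noncomputable def GS (F A B G : PowerSeries ℤ) : PowerSeries ℤ :=
  PowerSeries.C 476 * (F * F) + PowerSeries.C 8 * (A * A) - PowerSeries.C 17 * (B * B) - G * G

/-- Series of the derivative of `hh`. -/
noncomputable def DHS (F A G : PowerSeries ℤ) : PowerSeries ℤ :=
  PowerSeries.C 2 * (PowerSeries.C (-102) * (F * DD F) + PowerSeries.C 12 * (A * DD A) +
    PowerSeries.C 126 * (G * DD G))

/-- Series of the derivative of `gg`. -/
noncomputable def DGS (F A B G : PowerSeries ℤ) : PowerSeries ℤ :=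
  PowerSeries.C 2 * (PowerSeries.C 476 * (F * DD F) + PowerSeries.C 8 * (A * DD A) -
    PowerSeries.C 17 * (B * DD B) - G * DD G)

lemma DD_HS (F A G : PowerSeries ℤ) : DD (HS F A G) = DHS F A G := by
  have h2 : (PowerSeries.C 2 : PowerSeries ℤ) = 2 := map_ofNat _ 2
  rw [HS, DHS, DD_add, DD_add, DD_smul, DD_smul, DD_smul, DD_mul, DD_mul, DD_mul, h2]
  ring

lemma DD_GS (F A B G : PowerSeries ℤ) : DD (GS F A B G) = DGS F A B G := by
  have h2 : (PowerSeries.C 2 : PowerSeries ℤ) = 2 := map_ofNat _ 2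
  rw [GS, DGS, DD_sub, DD_sub, DD_add, DD_smul, DD_smul, DD_smul, DD_mul, DD_mul, DD_mul, DD_mul,
    h2]
  ring

/-- Left-hand side of `rel_ode`. -/
noncomputable def RO (F H G DH DG : PowerSeries ℤ) : PowerSeries ℤ :=
  (DH * G - H * DG) * (DH * G - H * DG) -
    PowerSeries.C 4 * ((F * F) * ((H * H * H) * G + (H * H) * (G * G) -
      PowerSeries.C 4 * (H * (G * G * G))))

/-- Left-hand side of `rel_quad`. -/
noncomputable def RQ (F A B G : PowerSeries ℤ) : PowerSeries ℤ :=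
  PowerSeries.C 15028 * ((F * F) * (F * F)) +
  PowerSeries.C 17 * ((F * F) * (PowerSeries.C (-176) * (A * A) + PowerSeries.C 3995 * (B * B) -
    PowerSeries.C 1355 * (G * G))) +
  PowerSeries.C 16 * ((A * A) * (A * A)) + PowerSeries.C 748 * ((A * A) * (B * B)) +
  PowerSeries.C 608 * ((A * A) * (G * G)) - PowerSeries.C 2312 * ((B * B) * (B * B)) -
  PowerSeries.C 3995 * ((B * B) * (G * G)) + PowerSeries.C 3175 * ((G * G) * (G * G))

section

variable {f : CuspForm (Gamma0 136) 2} {A : ℕ → ℤ}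

lemma tt_f (hA : Data f A) : TT (PowerSeries.mk A) vf 60 :=
  tt_of_list tf tf_length (fun n hn => by
    rw [PowerSeries.coeff_mk, hA.table n (by omega), tf_eq n hn]) 60 tf_bd

lemma tt_df (hA : Data f A) : TT (DD (PowerSeries.mk A)) dvf 657020 :=
  tt_DD_of_list tf tf_length (fun n hn => by
    rw [PowerSeries.coeff_mk, hA.table n (by omega), tf_eq n hn]) _ dtf_bd

lemma tt_a : TT (PowerSeries.mk alc) val 1820 :=
  tt_of_list tal tal_length (fun n hn => by rw [PowerSeries.coeff_mk, tal_eq n hn]) _ tal_bd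

lemma tt_da : TT (DD (PowerSeries.mk alc)) dval 657020 :=
  tt_DD_of_list tal tal_length (fun n hn => by rw [PowerSeries.coeff_mk, tal_eq n hn]) _ dtal_bd

lemma tt_b : TT (PowerSeries.mk bec) vbe 1820 :=
  tt_of_list tbe tbe_length (fun n hn => by rw [PowerSeries.coeff_mk, tbe_eq n hn]) _ tbe_bd

lemma tt_db : TT (DD (PowerSeries.mk bec)) dvbe 657020 :=
  tt_DD_of_list tbe tbe_length (fun n hn => by rw [PowerSeries.coeff_mk, tbe_eq n hn]) _ dtbe_bd

lemma tt_g : TT (PowerSeries.mk gac) vga 1820 :=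
  tt_of_list tga tga_length (fun n hn => by rw [PowerSeries.coeff_mk, tga_eq n hn]) _ tga_bd

lemma tt_dg : TT (DD (PowerSeries.mk gac)) dvga 657020 :=
  tt_DD_of_list tga tga_length (fun n hn => by rw [PowerSeries.coeff_mk, tga_eq n hn]) _ dtga_bd

lemma TT.mono {P : PowerSeries ℤ} {v M N : ℤ} (h : TT P v M) (hMN : M ≤ N) : TT P v N :=
  ⟨h.ev, fun n hn => (h.bd n hn).trans hMN⟩

lemma tt_h (hA : Data f A) :
    TT (HS (PowerSeries.mk A) (PowerSeries.mk alc) (PowerSeries.mk gac)) vh (2 * 10 ^ 11) :=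
  TT.mono ((((tt_f hA).mul (tt_f hA)).smul (-102)).add ((tt_a.mul tt_a).smul 12) |>.add
    ((tt_g.mul tt_g).smul 126)) (by norm_num)

lemma tt_gg (hA : Data f A) :
    TT (GS (PowerSeries.mk A) (PowerSeries.mk alc) (PowerSeries.mk bec) (PowerSeries.mk gac))
      vg (4 * 10 ^ 10) :=
  TT.mono (((((tt_f hA).mul (tt_f hA)).smul 476).add ((tt_a.mul tt_a).smul 8)).sub
    ((tt_b.mul tt_b).smul 17) |>.sub (tt_g.mul tt_g)) (by norm_num)

lemma tt_dh (hA : Data f A) :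
    TT (DHS (PowerSeries.mk A) (PowerSeries.mk alc) (PowerSeries.mk gac)) vdh (2 * 10 ^ 14) :=
  TT.mono (((((tt_f hA).mul (tt_df hA)).smul (-102)).add ((tt_a.mul tt_da).smul 12) |>.add
    ((tt_g.mul tt_dg).smul 126)).smul 2) (by norm_num)

lemma tt_dgg (hA : Data f A) :
    TT (DGS (PowerSeries.mk A) (PowerSeries.mk alc) (PowerSeries.mk bec) (PowerSeries.mk gac))
      vdg (4 * 10 ^ 13) :=
  TT.mono ((((((tt_f hA).mul (tt_df hA)).smul 476).add ((tt_a.mul tt_da).smul 8)).sub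
    ((tt_b.mul tt_db).smul 17) |>.sub (tt_g.mul tt_dg)).smul 2) (by norm_num)

lemma ro_zero (hA : Data f A) : ∀ n < 361, PowerSeries.coeff n
    (RO (PowerSeries.mk A) (HS (PowerSeries.mk A) (PowerSeries.mk alc) (PowerSeries.mk gac))
      (GS (PowerSeries.mk A) (PowerSeries.mk alc) (PowerSeries.mk bec) (PowerSeries.mk gac))
      (DHS (PowerSeries.mk A) (PowerSeries.mk alc) (PowerSeries.mk gac))
      (DGS (PowerSeries.mk A) (PowerSeries.mk alc) (PowerSeries.mk bec) (PowerSeries.mk gac)))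
    = 0 := by
  have hf := tt_f hA
  have hh := tt_h hA
  have hg := tt_gg hA
  have hb := ((tt_dh hA).mul hg).sub (hh.mul (tt_dgg hA))
  have hr := (hb.mul hb).sub ((((hf.mul hf).mul ((((hh.mul hh).mul hh).mul hg).add
    ((hh.mul hh).mul (hg.mul hg)) |>.sub ((hh.mul ((hg.mul hg).mul hg)).smul 4)))).smul 4)
  exact TT.eq_zero (v := vode) hr vode_mod (by norm_num [BB])

lemma rq_zero (hA : Data f A) : ∀ n < 361, PowerSeries.coeff n
    (RQ (PowerSeries.mk A) (PowerSeries.mk alc) (PowerSeries.mk bec) (PowerSeries.mk gac)) = 0 := by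
  have hf := tt_f hA
  have ff := hf.mul hf
  have aa := tt_a.mul tt_a
  have bb := tt_b.mul tt_b
  have cc := tt_g.mul tt_g
  have hr := ((((((((ff.mul ff).smul 15028).add
    ((ff.mul (((aa.smul (-176)).add (bb.smul 3995)).sub (cc.smul 1355))).smul 17)).add
    ((aa.mul aa).smul 16)).add ((aa.mul bb).smul 748)).add ((aa.mul cc).smul 608)).sub
    ((bb.mul bb).smul 2312)).sub ((bb.mul cc).smul 3995)).add ((cc.mul cc).smul 3175)
  exact TT.eq_zero (v := vquad) hr vquad_mod (by norm_num [BB])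

end


/-! ## The modular forms -/

lemma Rep.eq_zero (k : ℕ) {F : ℍ → ℂ} {P : PowerSeries ℤ} (hF : Rep (k : ℤ) F P)
    (hk : 18 * k < 361)
    (hsturm : ∀ (k : ℕ) (Z : ModularForm (Gamma0 136) (k : ℤ)),
      (∀ n ≤ 18 * k, (qExpansion 1 Z).coeff n = 0) → Z = 0)
    (hP : ∀ n < 361, PowerSeries.coeff n P = 0) (τ : ℍ) : F τ = 0 := by
  obtain ⟨⟨M, rfl⟩, hM⟩ := hF
  have h : M = 0 := hsturm k M fun n hn => by
    rw [hM, PowerSeries.coeff_map, hP n (by omega), map_zero]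
  rw [h]
  rfl

section

variable {f : CuspForm (Gamma0 136) 2} {A : ℕ → ℤ}

lemma rep_hh (hA : Data f A)
    (hal : (∃ M : ModularForm (Gamma0 136) 2, ⇑M = al) ∧ ∀ n, (qExpansion 1 al).coeff n = alc n)
    (hga : (∃ M : ModularForm (Gamma0 136) 2, ⇑M = ga) ∧ ∀ n, (qExpansion 1 ga).coeff n = gac n) :
    Rep 4 (hh f) (HS (PowerSeries.mk A) (PowerSeries.mk alc) (PowerSeries.mk gac)) := by
  have hf := rep_cusp f A hA
  have ha := rep_of_coeff alc hal
  have hg := rep_of_coeff gac hga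
  refine ((((hf.mul hf).smul (-102)).add ((ha.mul ha).smul 12)).add
    ((hg.mul hg).smul 126)).congr (by norm_num) (fun τ => ?_) rfl
  simp only [Pi.add_apply, Pi.smul_apply, Pi.mul_apply, smul_eq_mul, hh]
  push_cast
  ring

lemma rep_gg (hA : Data f A)
    (hal : (∃ M : ModularForm (Gamma0 136) 2, ⇑M = al) ∧ ∀ n, (qExpansion 1 al).coeff n = alc n)
    (hbe : (∃ M : ModularForm (Gamma0 136) 2, ⇑M = be) ∧ ∀ n, (qExpansion 1 be).coeff n = bec n)
    (hga : (∃ M : ModularForm (Gamma0 136) 2, ⇑M = ga) ∧ ∀ n, (qExpansion 1 ga).coeff n = gac n) :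
    Rep 4 (gg f)
      (GS (PowerSeries.mk A) (PowerSeries.mk alc) (PowerSeries.mk bec) (PowerSeries.mk gac)) := by
  have hf := rep_cusp f A hA
  have ha := rep_of_coeff alc hal
  have hb := rep_of_coeff bec hbe
  have hg := rep_of_coeff gac hga
  refine (((((hf.mul hf).smul 476).add ((ha.mul ha).smul 8)).sub ((hb.mul hb).smul 17)).sub
    (hg.mul hg)).congr (by norm_num) (fun τ => ?_) rfl
  simp only [Pi.add_apply, Pi.sub_apply, Pi.smul_apply, Pi.mul_apply, smul_eq_mul, gg]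
  push_cast
  ring

lemma rep_bracket {F G : ℍ → ℂ} {P Q : PowerSeries ℤ} (hF : Rep 4 F P) (hG : Rep 4 G Q)
    (hbr : ∀ (k : ℤ) (M₁ M₂ : ModularForm (Gamma0 136) k),
      (∃ M : ModularForm (Gamma0 136) (2 * k + 2), ⇑M =
        fun τ => Derivative.normalizedDerivOfComplex M₁ τ * M₂ τ -
          M₁ τ * Derivative.normalizedDerivOfComplex M₂ τ) ∧
      ∀ n, (qExpansion 1 (fun τ => Derivative.normalizedDerivOfComplex M₁ τ * M₂ τ -
          M₁ τ * Derivative.normalizedDerivOfComplex M₂ τ)).coeff n =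
        ∑ i ∈ Finset.range (n + 1), ((i : ℂ) - (n - i : ℕ)) *
          ((qExpansion 1 M₁).coeff i * (qExpansion 1 M₂).coeff (n - i))) :
    Rep 10 (fun τ => Derivative.normalizedDerivOfComplex F τ * G τ -
        F τ * Derivative.normalizedDerivOfComplex G τ) (DD P * Q - P * DD Q) := by
  obtain ⟨⟨M, rfl⟩, hM⟩ := hF
  obtain ⟨⟨N, rfl⟩, hN⟩ := hG
  obtain ⟨⟨W, hW⟩, hc⟩ := hbr 4 M N
  refine Rep.congr (a := 2 * 4 + 2) ⟨⟨W, hW⟩, ?_⟩ (by norm_num) (fun τ => rfl) rfl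
  ext n
  rw [hc n, hM, hN, PowerSeries.coeff_map, map_sub, PowerSeries.coeff_mul, PowerSeries.coeff_mul,
    ← Finset.sum_sub_distrib,
    Finset.Nat.sum_antidiagonal_eq_sum_range_succ
      (fun i j => PowerSeries.coeff i (DD P) * PowerSeries.coeff j Q -
        PowerSeries.coeff i P * PowerSeries.coeff j (DD Q)), map_sum]
  refine Finset.sum_congr rfl fun i _ => ?_
  rw [coeff_DD, coeff_DD, PowerSeries.coeff_map, PowerSeries.coeff_map]
  simp only [eq_intCast]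
  push_cast
  ring

end

end Ident

open Ident

theorem hh_form (f : CuspForm (Gamma0 136) 2) (A : ℕ → ℤ) (hA : Data f A)
    (hal : (∃ M : ModularForm (Gamma0 136) 2, ⇑M = al) ∧ ∀ n, (qExpansion 1 al).coeff n = alc n)
    (hga : (∃ M : ModularForm (Gamma0 136) 2, ⇑M = ga) ∧ ∀ n, (qExpansion 1 ga).coeff n = gac n) :
    (∃ M : ModularForm (Gamma0 136) 4, ⇑M = hh f) ∧ (qExpansion 1 (hh f)).coeff 0 = 612 := by
  have h := rep_hh hA hal hga
  refine ⟨h.1, ?_⟩
  rw [h.2, PowerSeries.coeff_map, HS]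
  simp only [map_add, PowerSeries.coeff_C_mul]
  simp only [PowerSeries.coeff_mul, Finset.Nat.sum_antidiagonal_eq_sum_range_succ_mk, Finset.sum_range_succ,
    Finset.sum_range_zero, PowerSeries.coeff_mk, hA.zero]
  norm_num [alc, gac]

theorem gg_form (f : CuspForm (Gamma0 136) 2) (A : ℕ → ℤ) (hA : Data f A)
    (hal : (∃ M : ModularForm (Gamma0 136) 2, ⇑M = al) ∧ ∀ n, (qExpansion 1 al).coeff n = alc n)
    (hbe : (∃ M : ModularForm (Gamma0 136) 2, ⇑M = be) ∧ ∀ n, (qExpansion 1 be).coeff n = bec n)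
    (hga : (∃ M : ModularForm (Gamma0 136) 2, ⇑M = ga) ∧ ∀ n, (qExpansion 1 ga).coeff n = gac n) :
    (∃ M : ModularForm (Gamma0 136) 4, ⇑M = gg f) ∧ (qExpansion 1 (gg f)).coeff 0 = 0 ∧
      (qExpansion 1 (gg f)).coeff 1 = 0 ∧ (qExpansion 1 (gg f)).coeff 2 = 612 := by
  have h := rep_gg hA hal hbe hga
  have a0 : A 0 = 0 := hA.zero
  have a1 : A 1 = 1 := hA.table 1 (by norm_num)
  have a2 : A 2 = 0 := hA.table 2 (by norm_num)
  have al0 : alc 0 = -3 := by decide +kernel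
  have al1 : alc 1 = 0 := by decide +kernel
  have al2 : alc 2 = -4 := by decide +kernel
  have be0 : bec 0 = -2 := by decide +kernel
  have be1 : bec 1 = 0 := by decide +kernel
  have be2 : bec 2 = -1 := by decide +kernel
  have ga0 : gac 0 = 2 := by decide +kernel
  have ga1 : gac 1 = 0 := by decide +kernel
  have ga2 : gac 2 = -3 := by decide +kernel
  refine ⟨h.1, ?_, ?_, ?_⟩ <;>
  · rw [h.2, PowerSeries.coeff_map, GS]
    simp only [map_add, map_sub, PowerSeries.coeff_C_mul]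
    simp only [PowerSeries.coeff_mul, Finset.Nat.sum_antidiagonal_eq_sum_range_succ_mk, Finset.sum_range_succ,
      Finset.sum_range_zero, PowerSeries.coeff_mk]
    norm_num [a0, a1, a2, al0, al1, al2, be0, be1, be2, ga0, ga1, ga2]

theorem rel_quad (f : CuspForm (Gamma0 136) 2) (A : ℕ → ℤ) (hA : Data f A)
    (hsturm : ∀ (k : ℕ) (Z : ModularForm (Gamma0 136) (k : ℤ)),
      (∀ n ≤ 18 * k, (qExpansion 1 Z).coeff n = 0) → Z = 0)
    (hal : (∃ M : ModularForm (Gamma0 136) 2, ⇑M = al) ∧ ∀ n, (qExpansion 1 al).coeff n = alc n)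
    (hbe : (∃ M : ModularForm (Gamma0 136) 2, ⇑M = be) ∧ ∀ n, (qExpansion 1 be).coeff n = bec n)
    (hga : (∃ M : ModularForm (Gamma0 136) 2, ⇑M = ga) ∧ ∀ n, (qExpansion 1 ga).coeff n = gac n)
    (τ : ℍ) :
    15028 * (f τ ^ 2) ^ 2 + 17 * f τ ^ 2 * (-176 * al τ ^ 2 + 3995 * be τ ^ 2 - 1355 * ga τ ^ 2)
      + 16 * al τ ^ 4 + 748 * al τ ^ 2 * be τ ^ 2 + 608 * al τ ^ 2 * ga τ ^ 2 - 2312 * be τ ^ 4
      - 3995 * be τ ^ 2 * ga τ ^ 2 + 3175 * ga τ ^ 4 = 0 := by
  have hf := rep_cusp f A hA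
  have ff := (hf.mul hf).congr (b := 4) (by norm_num) (fun _ => rfl) rfl
  have ha := rep_of_coeff alc hal
  have aa := (ha.mul ha).congr (b := 4) (by norm_num) (fun _ => rfl) rfl
  have hb := rep_of_coeff bec hbe
  have bb := (hb.mul hb).congr (b := 4) (by norm_num) (fun _ => rfl) rfl
  have hg := rep_of_coeff gac hga
  have cc := (hg.mul hg).congr (b := 4) (by norm_num) (fun _ => rfl) rfl
  have hr := ((((((((ff.mul ff).smul 15028).add
    ((ff.mul (((aa.smul (-176)).add (bb.smul 3995)).sub (cc.smul 1355))).smul 17)).add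
    ((aa.mul aa).smul 16)).add ((aa.mul bb).smul 748)).add ((aa.mul cc).smul 608)).sub
    ((bb.mul bb).smul 2312)).sub ((bb.mul cc).smul 3995)).add ((cc.mul cc).smul 3175)
  have hz := Rep.eq_zero 8 (hr.congr (by norm_num) (fun _ => rfl) rfl) (by norm_num) hsturm
    (rq_zero hA) τ
  rw [← hz]
  simp only [Pi.add_apply, Pi.sub_apply, Pi.smul_apply, Pi.mul_apply, smul_eq_mul]
  push_cast
  ring

theorem rel_ode (f : CuspForm (Gamma0 136) 2) (A : ℕ → ℤ) (hA : Data f A)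
    (hsturm : ∀ (k : ℕ) (Z : ModularForm (Gamma0 136) (k : ℤ)),
      (∀ n ≤ 18 * k, (qExpansion 1 Z).coeff n = 0) → Z = 0)
    (hal : (∃ M : ModularForm (Gamma0 136) 2, ⇑M = al) ∧ ∀ n, (qExpansion 1 al).coeff n = alc n)
    (hbe : (∃ M : ModularForm (Gamma0 136) 2, ⇑M = be) ∧ ∀ n, (qExpansion 1 be).coeff n = bec n)
    (hga : (∃ M : ModularForm (Gamma0 136) 2, ⇑M = ga) ∧ ∀ n, (qExpansion 1 ga).coeff n = gac n)
    (hbr : ∀ (k : ℤ) (M₁ M₂ : ModularForm (Gamma0 136) k),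
      (∃ M : ModularForm (Gamma0 136) (2 * k + 2), ⇑M =
        fun τ => Derivative.normalizedDerivOfComplex M₁ τ * M₂ τ -
          M₁ τ * Derivative.normalizedDerivOfComplex M₂ τ) ∧
      ∀ n, (qExpansion 1 (fun τ => Derivative.normalizedDerivOfComplex M₁ τ * M₂ τ -
          M₁ τ * Derivative.normalizedDerivOfComplex M₂ τ)).coeff n =
        ∑ i ∈ Finset.range (n + 1), ((i : ℂ) - (n - i : ℕ)) *
          ((qExpansion 1 M₁).coeff i * (qExpansion 1 M₂).coeff (n - i)))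
    (τ : ℍ) :
    (Derivative.normalizedDerivOfComplex (hh f) τ * gg f τ -
        hh f τ * Derivative.normalizedDerivOfComplex (gg f) τ) ^ 2 =
      4 * f τ ^ 2 * (hh f τ ^ 3 * gg f τ + hh f τ ^ 2 * gg f τ ^ 2 - 4 * hh f τ * gg f τ ^ 3) := by
  have hf := rep_cusp f A hA
  have h := rep_hh hA hal hga
  have g := rep_gg hA hal hbe hga
  have b := rep_bracket h g hbr
  have t1 := (((h.mul h).mul h).mul g).congr (b := 16) (by norm_num) (fun _ => rfl) rfl
  have t2 := ((h.mul h).mul (g.mul g)).congr (b := 16) (by norm_num) (fun _ => rfl) rfl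
  have t3 := ((h.mul ((g.mul g).mul g)).smul 4).congr (b := 16) (by norm_num) (fun _ => rfl) rfl
  have t4 := (((hf.mul hf).mul ((t1.add t2).sub t3)).smul 4).congr (b := 20) (by norm_num)
    (fun _ => rfl) rfl
  have t5 := (b.mul b).congr (b := 20) (by norm_num) (fun _ => rfl) rfl
  have hr := t5.sub t4
  rw [DD_HS, DD_GS] at hr
  have hz := Rep.eq_zero 20 (hr.congr (by norm_num) (fun _ => rfl) rfl) (by norm_num) hsturm
    (ro_zero hA) τ
  simp only [Pi.add_apply, Pi.sub_apply, Pi.smul_apply, Pi.mul_apply, smul_eq_mul] at hz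
  rw [← sub_eq_zero, ← hz]
  push_cast
  ring

end Pool.Agent.MT136
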