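import Mathlib

/-!
# The period lattice of `y² = x³ + x² - 4x`
-/

set_option autoImplicit false

namespace Pool.Agent.MT136

open UpperHalfPlane Filter Topology EisensteinSeries ModularForm

/-- the sum over a rectangular lattice as a double sum -/
lemma G_eq_tsum (L : PeriodPair) (k : ℕ) :
    L.G k = ∑' x : ℤ × ℤ, (((x.1 : ℂ) * L.ω₁ + x.2 * L.ω₂) ^ k)⁻¹ := by
  unfold PeriodPair.G
  rw [← L.latticeEquivProd.symm.toEquiv.tsum_eq]
  congr 1
  funext x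
  have := L.latticeEquiv_symm_apply x
  change (((L.latticeEquivProd.symm x).1 : ℂ) ^ k)⁻¹ = _
  rw [this]

/-- the double sum as an Eisenstein series -/
lemma tsum_eq_E {k : ℕ} (hk : 3 ≤ k) (z : ℍ) :
    ∑' x : ℤ × ℤ, (((x.1 : ℂ) * z + x.2) ^ k)⁻¹ = 2 * riemannZeta k * E hk z := by
  have h1 := tsum_eisSummand_eq_riemannZeta_mul_eisensteinSeries hk z
  have h2 : E hk z = 1 / 2 * eisensteinSeries (N := 1) 0 k z := rfl
  rw [h2]
  have h3 : 2 * riemannZeta k * (1 / 2 * eisensteinSeries (N := 1) 0 k z) =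
      riemannZeta k * eisensteinSeries (N := 1) 0 k z := by ring
  rw [h3, ← h1, ← (finTwoArrowEquiv ℤ).symm.tsum_eq]
  congr 1
  funext x
  simp [eisSummand]

/-- the point `it` -/
noncomputable def ip (t : ℝ) : ℍ := ofComplex ((t : ℂ) * Complex.I)

lemma coe_ip {t : ℝ} (ht : 0 < t) : ((ip t : ℍ) : ℂ) = (t : ℂ) * Complex.I := by
  unfold ip
  rw [ofComplex_apply_of_im_pos (by simpa using ht)]

lemma E_ip {k : ℕ} (hk : 3 ≤ k) (hk2 : Even k) {t : ℝ} (ht : 0 < t) :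
    E hk (ip t) = ((1 - (2 * k / (bernoulli k : ℝ)) *
      ∑' n : ℕ+, (ArithmeticFunction.sigma (k - 1) n : ℝ) *
        Real.exp (-(2 * Real.pi * t)) ^ (n : ℕ) : ℝ) : ℂ) := by
  rw [EisensteinSeries.q_expansion_bernoulli hk hk2]
  push_cast
  congr 3
  funext n
  rw [coe_ip ht, zpow_natCast]
  congr 3
  linear_combination 2 * (Real.pi : ℂ) * t * Complex.I_sq

lemma E4_ip_pos {t : ℝ} (ht : 0 < t) : 1 ≤ (E₄ (ip t)).re := by
  rw [E_ip _ ⟨2, rfl⟩ ht, Complex.ofReal_re]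
  have h1 : (bernoulli 4 : ℚ) = -1 / 30 := by
    rw [bernoulli_eq_bernoulli'_of_ne_one (by norm_num), bernoulli'_four]
  rw [h1]
  have h2 : 0 ≤ ∑' n : ℕ+, (ArithmeticFunction.sigma (4 - 1) n : ℝ) *
        Real.exp (-(2 * Real.pi * t)) ^ (n : ℕ) := tsum_nonneg fun n => by positivity
  push_cast
  nlinarith

lemma E_ip_ofReal {k : ℕ} (hk : 3 ≤ k) (hk2 : Even k) {t : ℝ} (ht : 0 < t) :
    E hk (ip t) = (((E hk (ip t)).re : ℝ) : ℂ) := by
  rw [E_ip hk hk2 ht, Complex.ofReal_re]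

/-- rotation of `ℤ × ℤ` -/
def rotEquiv : ℤ × ℤ ≃ ℤ × ℤ where
  toFun x := (x.2, -x.1)
  invFun x := (-x.2, x.1)
  left_inv x := by simp
  right_inv x := by simp

/-- reflection of `ℤ × ℤ` -/
def reflEquiv : ℤ × ℤ ≃ ℤ × ℤ where
  toFun x := (x.1, -x.2)
  invFun x := (x.1, -x.2)
  left_inv x := by simp
  right_inv x := by simp

lemma zeta_six : riemannZeta 6 = (Real.pi : ℂ) ^ 6 / 945 := by
  have h := riemannZeta_two_mul_nat (k := 3) (by norm_num)
  have h1 : bernoulli (2 * 3) = 1 / 42 := by decide +kernel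
  rw [h1] at h
  have h2 : (2 : ℂ) * ((3 : ℕ) : ℂ) = 6 := by norm_num
  rw [h2] at h
  rw [h]
  norm_num [Nat.factorial]
  ring

lemma E6_ip_one : E₆ (ip 1) = 0 := by
  have h1 := tsum_eq_E (by norm_num : 3 ≤ 6) (ip 1)
  rw [coe_ip one_pos, Complex.ofReal_one, one_mul] at h1
  have h2 : ∑' x : ℤ × ℤ, (((x.1 : ℂ) * Complex.I + x.2) ^ 6)⁻¹ =
      -∑' x : ℤ × ℤ, (((x.1 : ℂ) * Complex.I + x.2) ^ 6)⁻¹ := by
    conv_lhs => rw [← rotEquiv.tsum_eq]
    rw [← tsum_neg]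
    congr 1
    funext x
    have h3 : ((rotEquiv x).1 : ℂ) * Complex.I + ((rotEquiv x).2 : ℂ) =
        Complex.I * ((x.1 : ℂ) * Complex.I + x.2) := by
      simp only [rotEquiv, Equiv.coe_fn_mk]
      push_cast
      linear_combination -(x.1 : ℂ) * Complex.I_sq
    rw [h3, mul_pow]
    have h4 : Complex.I ^ 6 = -1 := by
      rw [show (6 : ℕ) = 2 * 3 from rfl, pow_mul, Complex.I_sq]
      norm_num
    rw [h4, neg_one_mul, inv_neg]
  rw [CharZero.eq_neg_self_iff] at h2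
  rw [h2] at h1
  have h3 : (2 : ℂ) * riemannZeta ((6 : ℕ) : ℂ) ≠ 0 := by
    have : (((6 : ℕ) : ℂ)) = 6 := by norm_num
    rw [this, zeta_six]
    have h4 : (Real.pi : ℂ) ≠ 0 := Complex.ofReal_ne_zero.mpr Real.pi_ne_zero
    exact mul_ne_zero two_ne_zero (div_ne_zero (pow_ne_zero 6 h4) (by norm_num))
  exact (mul_eq_zero.mp h1.symm).resolve_left h3

lemma continuousOn_E_ip {k : ℕ} (hk : 3 ≤ k) :
    ContinuousOn (fun t : ℝ => (E hk (ip t)).re) (Set.Ici 1) := by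
  intro t ht
  have ht0 : (0 : ℝ) < t := lt_of_lt_of_le one_pos ht
  have h1 : DifferentiableAt ℂ (E hk ∘ ofComplex) ((ip t : ℍ) : ℂ) :=
    UpperHalfPlane.mdifferentiableAt_iff.mp ((E hk).holo' (ip t))
  rw [coe_ip ht0] at h1
  have h2 : ContinuousAt (fun t : ℝ => (t : ℂ) * Complex.I) t := by fun_prop
  have h3 : ContinuousAt (fun t : ℝ => (E hk ∘ ofComplex) ((t : ℂ) * Complex.I)) t :=
    ContinuousAt.comp (f := fun t : ℝ => (t : ℂ) * Complex.I) h1.continuousAt h2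
  exact (Complex.continuous_re.continuousAt.comp h3).continuousWithinAt

lemma tendsto_E_ip {k : ℕ} (hk : 3 ≤ k) (hk2 : Even k) :
    Tendsto (fun t : ℝ => (E hk (ip t)).re) atTop (𝓝 1) := by
  have h1 : AnalyticAt ℂ (cuspFunction 1 (E hk)) 0 :=
    ModularFormClass.analyticAt_cuspFunction_zero (E hk) one_pos one_mem_strictPeriods_SL
  have h2 : cuspFunction 1 (E hk) 0 = 1 := by
    have := EisensteinSeries.E_qExpansion_coeff_zero hk hk2
    rw [qExpansion_coeff, iteratedDeriv_zero] at this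
    simpa using this
  have h3 : Tendsto (fun t : ℝ => (t : ℂ) * Complex.I) atTop (comap Complex.im atTop) := by
    rw [tendsto_comap_iff]
    refine tendsto_id.congr fun t => ?_
    simp
  have h4 := (Function.Periodic.qParam_tendsto (h := 1) one_pos).comp h3
  have h5 : Tendsto (fun t : ℝ => cuspFunction 1 (E hk)
      (Function.Periodic.qParam 1 ((t : ℂ) * Complex.I))) atTop (𝓝 1) := by
    rw [← h2]
    exact h1.continuousAt.tendsto.comp (h4.mono_right nhdsWithin_le_nhds)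
  have h6 : Tendsto (fun t : ℝ => (cuspFunction 1 (E hk)
      (Function.Periodic.qParam 1 ((t : ℂ) * Complex.I))).re) atTop (𝓝 1) :=
    (Complex.continuous_re.tendsto 1).comp h5
  refine h6.congr fun t => ?_
  have h7 := Function.Periodic.eq_cuspFunction (h := 1) one_ne_zero
    (SlashInvariantFormClass.periodic_comp_ofComplex (E hk) one_mem_strictPeriods_SL)
    ((t : ℂ) * Complex.I)
  have h8 : cuspFunction 1 (E hk) (Function.Periodic.qParam 1 ((t : ℂ) * Complex.I)) =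
      E hk (ip t) := h7
  rw [h8]

/-- the value of `t` -/
lemma exists_t : ∃ t : ℝ, 1 ≤ t ∧ 2197 * (E₆ (ip t)).re ^ 2 = 361 * (E₄ (ip t)).re ^ 3 := by
  set φ : ℝ → ℝ := fun t => 2197 * (E₆ (ip t)).re ^ 2 - 361 * (E₄ (ip t)).re ^ 3 with hφ
  have hc : ContinuousOn φ (Set.Ici 1) := by
    have c6 := continuousOn_E_ip (by norm_num : 3 ≤ 6)
    have c4 := continuousOn_E_ip (by norm_num : 3 ≤ 4)
    exact (continuousOn_const.mul (c6.pow 2)).sub (continuousOn_const.mul (c4.pow 3))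
  have h1 : φ 1 ≤ 0 := by
    simp only [hφ]
    rw [E6_ip_one]
    have := E4_ip_pos one_pos
    simp only [Complex.zero_re]
    have h2 : 0 ≤ (E₄ (ip 1)).re ^ 3 := by positivity
    nlinarith
  have h2 : Tendsto φ atTop (𝓝 (2197 * 1 ^ 2 - 361 * 1 ^ 3)) :=
    (((tendsto_E_ip _ ⟨3, rfl⟩).pow 2).const_mul 2197).sub
      (((tendsto_E_ip _ ⟨2, rfl⟩).pow 3).const_mul 361)
  obtain ⟨T, hT1, hT⟩ : ∃ T : ℝ, 1 ≤ T ∧ 0 ≤ φ T := by
    have h3 := h2.eventually (lt_mem_nhds (show (0 : ℝ) < 2197 * 1 ^ 2 - 361 * 1 ^ 3 by norm_num))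
    obtain ⟨T, h4, h5⟩ := (h3.and (eventually_ge_atTop 1)).exists
    exact ⟨T, h5, h4.le⟩
  obtain ⟨t, ht, ht0⟩ := intermediate_value_Icc hT1 (hc.mono fun x hx => hx.1)
    ⟨h1, hT⟩
  refine ⟨t, ht.1, ?_⟩
  simp only [hφ] at ht0
  linarith

/-- the invariants of a lattice `s⟨1, it⟩` -/
lemma G_rect (L : PeriodPair) {s t : ℝ} (ht : 0 < t) (h1 : L.ω₁ = s)
    (h2 : L.ω₂ = ((s * t : ℝ) : ℂ) * Complex.I) {k : ℕ} (hk : 3 ≤ k) :
    L.G k = ((s : ℂ) ^ k)⁻¹ * (2 * riemannZeta k * E hk (ip t)) := by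
  rw [G_eq_tsum, h1, h2, ← tsum_eq_E hk (ip t), ← tsum_mul_left,
    ← (Equiv.prodComm ℤ ℤ).tsum_eq]
  congr 1
  funext x
  rw [coe_ip ht]
  simp only [Equiv.prodComm_apply, Prod.fst_swap, Prod.snd_swap]
  rw [← mul_inv, ← mul_pow]
  congr 2
  push_cast
  ring

/-- the invariants of a lattice `s⟨t, i⟩` -/
lemma G_rect' (L : PeriodPair) {s t : ℝ} (ht : 0 < t) (h1 : L.ω₁ = ((s * t : ℝ) : ℂ))
    (h2 : L.ω₂ = (s : ℂ) * Complex.I) {k : ℕ} (hk : 3 ≤ k) :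
    L.G k = ((s : ℂ) ^ k)⁻¹ * ((-Complex.I) ^ k)⁻¹ * (2 * riemannZeta k * E hk (ip t)) := by
  rw [G_eq_tsum, h1, h2, ← tsum_eq_E hk (ip t), ← tsum_mul_left, ← reflEquiv.tsum_eq]
  congr 1
  funext x
  rw [coe_ip ht]
  simp only [reflEquiv, Equiv.coe_fn_mk]
  rw [← mul_inv, ← mul_inv, ← mul_pow, ← mul_pow]
  congr 2
  push_cast
  linear_combination (s : ℂ) * x.1 * t * Complex.I_sq

lemma indep_rect {a b : ℝ} (ha : 0 < a) (hb : 0 < b) :
    LinearIndependent ℝ ![(a : ℂ), (b : ℂ) * Complex.I] := by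
  rw [LinearIndependent.pair_iff]
  intro x y h
  have h1 := congrArg Complex.re h
  have h2 := congrArg Complex.im h
  simp at h1 h2
  exact ⟨h1.resolve_right ha.ne', h2.resolve_right hb.ne'⟩

/-- The rectangular lattice with invariants `52/3`, `-152/27`. -/
theorem exists_lattice : ∃ (L : PeriodPair) (w w' : ℝ), 0 < w ∧ 0 < w' ∧ L.ω₁ = w ∧
    L.ω₂ = w' * Complex.I ∧ L.g₂ = 52 / 3 ∧ L.g₃ = -152 / 27 := by
  obtain ⟨t, ht1, ht⟩ := exists_t
  have ht0 : 0 < t := lt_of_lt_of_le one_pos ht1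
  set a := (E₄ (ip t)).re with ha
  set b := (E₆ (ip t)).re with hb
  have hE4 : E₄ (ip t) = (a : ℂ) := E_ip_ofReal _ ⟨2, rfl⟩ ht0
  have hE6 : E₆ (ip t) = (b : ℂ) := E_ip_ofReal _ ⟨3, rfl⟩ ht0
  have ha1 : 1 ≤ a := E4_ip_pos ht0
  have ha0 : 0 < a := lt_of_lt_of_le one_pos ha1
  have hpi := Real.pi_pos
  set y := √(a / 13) with hy
  have hy0 : 0 < y := Real.sqrt_pos.mpr (by positivity)
  have hy2 : y ^ 2 = a / 13 := Real.sq_sqrt (by positivity)
  set u := √y with hu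
  have hu0 : 0 < u := Real.sqrt_pos.mpr hy0
  have hu2 : u ^ 2 = y := Real.sq_sqrt hy0.le
  set s := Real.pi * u with hs
  have hs0 : 0 < s := by positivity
  have hs4 : s ^ 4 = Real.pi ^ 4 * (a / 13) := by
    rw [hs, mul_pow, show u ^ 4 = (u ^ 2) ^ 2 by ring, hu2, hy2]
  have hs6 : s ^ 6 = Real.pi ^ 6 * y ^ 3 := by
    rw [hs, mul_pow, show u ^ 6 = (u ^ 2) ^ 3 by ring, hu2]
  have hb2 : b ^ 2 = (19 * y ^ 3) ^ 2 := by
    have h1 : (19 * y ^ 3) ^ 2 = 361 * (y ^ 2) ^ 3 := by ring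
    rw [h1, hy2]
    linear_combination ht / 2197
  have hz4 : riemannZeta ((4 : ℕ) : ℂ) = (Real.pi : ℂ) ^ 4 / 90 := by
    have : (((4 : ℕ) : ℂ)) = 4 := by norm_num
    rw [this, riemannZeta_four]
  have hz6 : riemannZeta ((6 : ℕ) : ℂ) = (Real.pi : ℂ) ^ 6 / 945 := by
    have : (((6 : ℕ) : ℂ)) = 6 := by norm_num
    rw [this, zeta_six]
  have hs4' : (s : ℂ) ^ 4 = (Real.pi : ℂ) ^ 4 * ((a : ℂ) / 13) := by exact_mod_cast hs4
  have hs6' : (s : ℂ) ^ 6 = (Real.pi : ℂ) ^ 6 * (y : ℂ) ^ 3 := by exact_mod_cast hs6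
  have hpic : (Real.pi : ℂ) ≠ 0 := Complex.ofReal_ne_zero.mpr hpi.ne'
  have hac : (a : ℂ) ≠ 0 := Complex.ofReal_ne_zero.mpr ha0.ne'
  have hyc : (y : ℂ) ≠ 0 := Complex.ofReal_ne_zero.mpr hy0.ne'
  rcases sq_eq_sq_iff_eq_or_eq_neg.mp hb2 with h | h
  · -- `b > 0`
    set L : PeriodPair := ⟨((s * t : ℝ) : ℂ), (s : ℂ) * Complex.I,
      indep_rect (by positivity) hs0⟩ with hL
    refine ⟨L, s * t, s, by positivity, hs0, rfl, rfl, ?_, ?_⟩
    · unfold PeriodPair.g₂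
      rw [G_rect' L ht0 rfl rfl (by norm_num : 3 ≤ 4), hE4, hz4, hs4']
      have hI : (-Complex.I) ^ 4 = 1 := by
        rw [show (4 : ℕ) = 2 * 2 from rfl, pow_mul, neg_sq, Complex.I_sq]; norm_num
      rw [hI]
      field_simp
      norm_num
    · unfold PeriodPair.g₃
      rw [G_rect' L ht0 rfl rfl (by norm_num : 3 ≤ 6), hE6, hz6, hs6', h]
      have hI : (-Complex.I) ^ 6 = -1 := by
        rw [show (6 : ℕ) = 2 * 3 from rfl, pow_mul, neg_sq, Complex.I_sq]; norm_num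
      rw [hI]
      push_cast
      field_simp
      norm_num
  · -- `b < 0`
    set L : PeriodPair := ⟨(s : ℂ), ((s * t : ℝ) : ℂ) * Complex.I,
      indep_rect hs0 (by positivity)⟩ with hL
    refine ⟨L, s, s * t, hs0, by positivity, rfl, rfl, ?_, ?_⟩
    · unfold PeriodPair.g₂
      rw [G_rect L ht0 rfl rfl (by norm_num : 3 ≤ 4), hE4, hz4, hs4']
      field_simp
      norm_num
    · unfold PeriodPair.g₃
      rw [G_rect L ht0 rfl rfl (by norm_num : 3 ≤ 6), hE6, hz6, hs6', h]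
      push_cast
      field_simp
      norm_num

end Pool.Agent.MT136
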