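import Mathlib
import Pool.Agent.MT136.Defs
import Pool.Agent.MT136.Core

/-!
# Numerical evaluation at the elliptic point

The values of `f` and of its primitive at `tauW` are approximated by exact integer computations
with Gaussian rational numbers.
-/

set_option autoImplicit false

namespace Pool.Agent.MT136

open CongruenceSubgroup UpperHalfPlane

namespace Num

/-- Scaled Horner evaluation of an integral polynomial at `(x + y i) / N`. -/
def horner (x y : ℤ) (N : ℕ) : List ℤ → ℤ × ℤ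
  | [] => (0, 0)
  | c :: l =>
    match horner x y N l with
    | (u, v) => (c * ((N ^ (l.length + 1) : ℕ) : ℤ) + (x * u - y * v), x * v + y * u)

theorem horner_spec (x y : ℤ) (N : ℕ) (hN : N ≠ 0) (l : List ℤ) :
    (((horner x y N l).1 : ℂ) + ((horner x y N l).2 : ℂ) * Complex.I) =
      (N : ℂ) ^ l.length *
        ∑ i ∈ Finset.range l.length, (l.getD i 0 : ℂ) * (((x : ℂ) + y * Complex.I) / N) ^ i := by
  induction l with
  | nil => simp [horner]
  | cons c l ih =>
    have hN' : (N : ℂ) ≠ 0 := Nat.cast_ne_zero.mpr hN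
    rw [List.length_cons, Finset.sum_range_succ']
    have h1 : ∑ i ∈ Finset.range l.length, ((c :: l).getD (i + 1) 0 : ℂ) *
        (((x : ℂ) + y * Complex.I) / N) ^ (i + 1) =
        (((x : ℂ) + y * Complex.I) / N) * ∑ i ∈ Finset.range l.length, (l.getD i 0 : ℂ) *
        (((x : ℂ) + y * Complex.I) / N) ^ i := by
      rw [Finset.mul_sum]
      refine Finset.sum_congr rfl fun i _ => ?_
      rw [List.getD_cons_succ, pow_succ]
      ring
    rw [h1]
    have h2 : (N : ℂ) ^ (l.length + 1) * ((((x : ℂ) + y * Complex.I) / N) *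
        ∑ i ∈ Finset.range l.length, (l.getD i 0 : ℂ) * (((x : ℂ) + y * Complex.I) / N) ^ i +
        ((c :: l).getD 0 0 : ℂ) * (((x : ℂ) + y * Complex.I) / N) ^ 0) =
        ((x : ℂ) + y * Complex.I) * ((N : ℂ) ^ l.length *
        ∑ i ∈ Finset.range l.length, (l.getD i 0 : ℂ) * (((x : ℂ) + y * Complex.I) / N) ^ i) +
        c * (N : ℂ) ^ (l.length + 1) := by
      rw [List.getD_cons_zero, pow_zero, mul_one, mul_add, pow_succ]
      field_simp
    rw [h2, ← ih]
    simp only [horner]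
    push_cast
    linear_combination (-(y : ℂ) * (horner x y N l).2) * Complex.I_sq

/-- The point `q₀`. -/
noncomputable def q0 : ℂ := (((-528814694044 : ℤ) : ℂ) + ((700263825560 : ℤ) : ℂ) * Complex.I) /
  ((1000000000000 : ℕ) : ℂ)

/-- The point `z₀`. -/
noncomputable def z0 : ℂ :=
  (((-1306730275929 : ℤ) : ℂ) + ((22175948142987 : ℤ) : ℂ) * Complex.I) /
    ((10000000000000 : ℕ) : ℂ)

/-- Scaled coefficients of the exponential series. -/
def expList : List ℤ := (List.range 24).map fun m => ((Nat.factorial 23 / Nat.factorial m : ℕ) : ℤ)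

/-- The first coefficients. -/
def fList : List ℤ := tbl.take 100

/-- `lcm (1, …, 99)`. -/
def lc : ℕ := 69720375229712477164533808935312303556800

/-- Scaled coefficients of the primitive. -/
def pList : List ℤ := (List.range 100).map fun m => tbl.getD m 0 * ((lc / m : ℕ) : ℤ)

theorem lc_dvd : ∀ m < 100, m ≠ 0 → m ∣ lc := by decide +kernel

theorem exp_check :
    (let N : ℤ := ((10000000000000 ^ 24 : ℕ) : ℤ) * ((Nat.factorial 23 : ℕ) : ℤ)
     let p := horner (-1306730275929) 22175948142987 10000000000000 expList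
     (|1000000000000 * p.1 + 528814694044 * N| * 1000000000000 ≤ 1000000000000 * N ∧
      |1000000000000 * p.2 - 700263825560 * N| * 1000000000000 ≤ 1000000000000 * N)) := by
  decide +kernel

theorem f_check :
    (let N : ℤ := ((1000000000000 ^ 100 : ℕ) : ℤ)
     let p := horner (-528814694044) 700263825560 1000000000000 fList
     2 * p.1 ≤ -5 * N) := by
  decide +kernel

theorem p_check :
    (let N : ℤ := ((1000000000000 ^ 100 : ℕ) : ℤ) * ((lc : ℕ) : ℤ)
     let p := horner (-528814694044) 700263825560 1000000000000 pList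
     (10 * p.1 ≤ -9 * N ∧ -11 * N ≤ 10 * p.1)) := by
  decide +kernel

theorem norm_pow_sub_pow_le {p q : ℂ} (hp : ‖p‖ ≤ 1) (hq : ‖q‖ ≤ 1) (n : ℕ) :
    ‖p ^ n - q ^ n‖ ≤ n * ‖p - q‖ := by
  induction n with
  | zero => simp
  | succ n ih =>
    have h1 : p ^ (n + 1) - q ^ (n + 1) = p * (p ^ n - q ^ n) + (p - q) * q ^ n := by ring
    rw [h1]
    have h2 : ‖p * (p ^ n - q ^ n)‖ ≤ n * ‖p - q‖ := by
      rw [norm_mul]
      calc ‖p‖ * ‖p ^ n - q ^ n‖ ≤ 1 * ‖p ^ n - q ^ n‖ := by gcongr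
        _ = ‖p ^ n - q ^ n‖ := one_mul _
        _ ≤ _ := ih
    have h3 : ‖(p - q) * q ^ n‖ ≤ ‖p - q‖ := by
      rw [norm_mul, norm_pow]
      have := pow_le_one₀ (norm_nonneg q) hq (n := n)
      calc ‖p - q‖ * ‖q‖ ^ n ≤ ‖p - q‖ * 1 := by gcongr
        _ = _ := mul_one _
    calc ‖p * (p ^ n - q ^ n) + (p - q) * q ^ n‖ ≤ n * ‖p - q‖ + ‖p - q‖ :=
          (norm_add_le _ _).trans (add_le_add h2 h3)
      _ = _ := by push_cast; ring

theorem tail_bound (c : ℕ → ℂ) (hc : ∀ n, ‖c n‖ ≤ (n : ℝ) ^ 2) (q : ℂ) (hq : ‖q‖ ≤ 0.8776)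
    (S : ℂ) (hS : HasSum (fun n => c n * q ^ n) S) :
    ‖S - ∑ n ∈ Finset.range 100, c n * q ^ n‖ ≤ 0.21 := by
  have h1 := (hasSum_nat_add_iff' 100).mpr hS
  have h2 : HasSum (fun k : ℕ => (10000 * (0.8776 : ℝ) ^ 100) * ((1.01 : ℝ) ^ 2 * 0.8776) ^ k)
      ((10000 * (0.8776 : ℝ) ^ 100) * (1 - (1.01 : ℝ) ^ 2 * 0.8776)⁻¹) :=
    (hasSum_geometric_of_lt_one (by norm_num) (by norm_num)).mul_left _
  refine (h1.norm_le_of_bounded h2 fun k => ?_).trans (by norm_num)
  rw [norm_mul, norm_pow]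
  have hb : (1 : ℝ) + k * 0.01 ≤ (1 + 0.01) ^ k :=
    one_add_mul_le_pow (by norm_num) k
  have hb2 : ((k + 100 : ℕ) : ℝ) ≤ 100 * (1.01 : ℝ) ^ k := by
    push_cast
    norm_num at hb ⊢
    linarith
  calc ‖c (k + 100)‖ * ‖q‖ ^ (k + 100) ≤ (100 * (1.01 : ℝ) ^ k) ^ 2 * 0.8776 ^ (k + 100) := by
        gcongr
        exact (hc _).trans (by gcongr)
    _ = _ := by
        rw [pow_add, mul_pow ((1.01 : ℝ) ^ 2), mul_pow (100 : ℝ), ← pow_mul, ← pow_mul,
          mul_comm k 2]
        ring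

theorem q0_norm : ‖q0‖ ≤ 0.87751 := by
  have h : ‖q0‖ ^ 2 ≤ 0.87751 ^ 2 := by
    rw [Complex.sq_norm, Complex.normSq_apply]
    have hre : q0.re = -528814694044 / 1000000000000 := by
      simp [q0]
    have him : q0.im = 700263825560 / 1000000000000 := by
      simp [q0]
    rw [hre, him]
    norm_num
  exact le_of_sq_le_sq h (by norm_num)

theorem approx (c : ℕ → ℂ) (hc : ∀ n, ‖c n‖ ≤ (n : ℝ) ^ 2) (q : ℂ)
    (hq : ‖q - q0‖ ≤ 1 / 10 ^ 10)
    (S : ℂ) (hS : HasSum (fun n => c n * q ^ n) S) :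
    ‖S - ∑ n ∈ Finset.range 100, c n * q0 ^ n‖ ≤ 0.22 := by
  have hq0 := q0_norm
  have hqn : ‖q‖ ≤ 0.8776 := by
    have : ‖q‖ ≤ ‖q - q0‖ + ‖q0‖ := by simpa using norm_add_le (q - q0) q0
    norm_num at hq hq0 ⊢
    linarith
  have h1 := tail_bound c hc q hqn S hS
  have h2 : ‖∑ n ∈ Finset.range 100, c n * q ^ n - ∑ n ∈ Finset.range 100, c n * q0 ^ n‖ ≤
      0.01 := by
    rw [← Finset.sum_sub_distrib]
    calc ‖∑ n ∈ Finset.range 100, (c n * q ^ n - c n * q0 ^ n)‖
        ≤ ∑ n ∈ Finset.range 100, ‖c n * q ^ n - c n * q0 ^ n‖ := norm_sum_le _ _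
      _ ≤ ∑ n ∈ Finset.range 100, (n : ℝ) ^ 3 * (1 / 10 ^ 10) := by
          refine Finset.sum_le_sum fun n _ => ?_
          rw [← mul_sub, norm_mul]
          calc ‖c n‖ * ‖q ^ n - q0 ^ n‖ ≤ (n : ℝ) ^ 2 * (n * ‖q - q0‖) := by
                gcongr
                · exact hc n
                · exact norm_pow_sub_pow_le (hqn.trans (by norm_num)) (hq0.trans (by norm_num)) n
            _ ≤ (n : ℝ) ^ 2 * (n * (1 / 10 ^ 10)) := by gcongr
            _ = _ := by ring
      _ ≤ 0.01 := by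
          rw [← Finset.sum_mul]
          have : ∑ n ∈ Finset.range 100, (n : ℝ) ^ 3 = ((∑ n ∈ Finset.range 100, n ^ 3 : ℕ) : ℝ) := by
            push_cast
            rfl
          rw [this, show (∑ n ∈ Finset.range 100, n ^ 3 : ℕ) = 24502500 by decide +kernel]
          norm_num
  calc ‖S - ∑ n ∈ Finset.range 100, c n * q0 ^ n‖ =
      ‖(S - ∑ n ∈ Finset.range 100, c n * q ^ n) +
        (∑ n ∈ Finset.range 100, c n * q ^ n - ∑ n ∈ Finset.range 100, c n * q0 ^ n)‖ := by
        congr 1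
        ring
    _ ≤ 0.21 + 0.01 := (norm_add_le _ _).trans (add_le_add h1 h2)
    _ = 0.22 := by norm_num

/-- `2πi tauW`. -/
noncomputable def zW : ℂ := 2 * Real.pi * Complex.I * (tauW : ℂ)

theorem sqrt8_bounds : (2.82842712474619 : ℝ) < √8 ∧ √8 < 2.8284271247462 := by
  constructor
  · rw [Real.lt_sqrt (by norm_num)]
    norm_num
  · rw [Real.sqrt_lt' (by norm_num)]
    norm_num

theorem zW_re : zW.re = -(2 * Real.pi) / (17 * √8) := by
  have key : ∀ s : ℝ, (2 * Real.pi * Complex.I *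
      (6 / 17 + (1 / (17 * s) : ℝ) * Complex.I)).re = -(2 * Real.pi) / (17 * s) := by
    intro s
    simp
    ring
  exact key √8

theorem zW_im : zW.im = 12 * Real.pi / 17 := by
  have : zW = 2 * Real.pi * Complex.I * (6 / 17 + (1 / (17 * √8) : ℝ) * Complex.I) := rfl
  rw [this]
  have h6 : (6 / 17 : ℂ) = ((6 / 17 : ℝ) : ℂ) := by push_cast; rfl
  rw [h6]
  simp
  ring

theorem zW_sub : ‖zW - z0‖ ≤ 1 / 10 ^ 12 := by
  have hre0 : z0.re = -1306730275929 / 10000000000000 := by simp [z0]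
  have him0 : z0.im = 22175948142987 / 10000000000000 := by simp [z0]
  have hp1 := Real.pi_gt_d20
  have hp2 := Real.pi_lt_d20
  obtain ⟨hs1, hs2⟩ := sqrt8_bounds
  have hs0 : (0 : ℝ) < √8 := by positivity
  refine (Complex.norm_le_abs_re_add_abs_im _).trans ?_
  rw [Complex.sub_re, Complex.sub_im, hre0, him0, zW_re, zW_im]
  have h1 : |-(2 * Real.pi) / (17 * √8) - -1306730275929 / 10000000000000| ≤ 5 / 10 ^ 13 := by
    rw [abs_le]
    constructor
    · rw [le_sub_iff_add_le, le_div_iff₀ (by positivity)]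
      norm_num at hp1 hp2 hs1 hs2 ⊢
      nlinarith
    · rw [sub_le_iff_le_add, div_le_iff₀ (by positivity)]
      norm_num at hp1 hp2 hs1 hs2 ⊢
      nlinarith
  have h2 : |12 * Real.pi / 17 - 22175948142987 / 10000000000000| ≤ 5 / 10 ^ 13 := by
    rw [abs_le]
    constructor
    · norm_num at hp1 hp2 ⊢
      linarith
    · norm_num at hp1 hp2 ⊢
      linarith
  calc _ ≤ (5 / 10 ^ 13 : ℝ) + 5 / 10 ^ 13 := add_le_add h1 h2
    _ = _ := by norm_num

theorem horner_eval (x y : ℤ) (N : ℕ) (hN : N ≠ 0) (l : List ℤ) (L : ℕ) (hL : L ≠ 0) (c : ℕ → ℂ)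
    (hc : ∀ i < l.length, ((l.getD i 0 : ℤ) : ℂ) = c i * L) :
    (∑ i ∈ Finset.range l.length, c i * (((x : ℂ) + y * Complex.I) / N) ^ i).re =
      ((horner x y N l).1 : ℝ) / ((((N ^ l.length : ℕ) : ℤ) * (L : ℤ) : ℤ) : ℝ) ∧
    (∑ i ∈ Finset.range l.length, c i * (((x : ℂ) + y * Complex.I) / N) ^ i).im =
      ((horner x y N l).2 : ℝ) / ((((N ^ l.length : ℕ) : ℤ) * (L : ℤ) : ℤ) : ℝ) := by
  have hN' : (N : ℂ) ≠ 0 := Nat.cast_ne_zero.mpr hN
  have hL' : (L : ℂ) ≠ 0 := Nat.cast_ne_zero.mpr hL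
  have h1 : ∑ i ∈ Finset.range l.length, c i * (((x : ℂ) + y * Complex.I) / N) ^ i =
      (((horner x y N l).1 : ℂ) + ((horner x y N l).2 : ℂ) * Complex.I) /
        (((((N ^ l.length : ℕ) : ℤ) * (L : ℤ) : ℤ) : ℝ) : ℂ) := by
    rw [horner_spec x y N hN l, eq_div_iff (by push_cast; positivity)]
    have h2 : ∑ i ∈ Finset.range l.length, ((l.getD i 0 : ℤ) : ℂ) *
        (((x : ℂ) + y * Complex.I) / N) ^ i =
        (∑ i ∈ Finset.range l.length, c i * (((x : ℂ) + y * Complex.I) / N) ^ i) * L := by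
      rw [Finset.sum_mul]
      refine Finset.sum_congr rfl fun i hi => ?_
      rw [hc i (Finset.mem_range.mp hi)]
      ring
    rw [h2]
    push_cast
    ring
  rw [h1, Complex.div_ofReal_re, Complex.div_ofReal_im]
  constructor <;> simp

theorem exp_z0 : ‖Complex.exp z0 - q0‖ ≤ 3 / 10 ^ 12 := by
  have hz0 : ‖z0‖ ≤ 5 / 2 := by
    have h : ‖z0‖ ^ 2 ≤ (5 / 2) ^ 2 := by
      rw [Complex.sq_norm, Complex.normSq_apply]
      have hre : z0.re = -1306730275929 / 10000000000000 := by simp [z0]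
      have him : z0.im = 22175948142987 / 10000000000000 := by simp [z0]
      rw [hre, him]
      norm_num
    exact le_of_sq_le_sq h (by norm_num)
  have h1 : ‖Complex.exp z0 - ∑ m ∈ Finset.range 24, z0 ^ m / m.factorial‖ ≤ 1 / 10 ^ 12 := by
    refine (Complex.exp_bound' ?_).trans ?_
    · rw [div_le_iff₀ (by positivity)]
      norm_num
      linarith
    · calc ‖z0‖ ^ 24 / (Nat.factorial 24) * 2 ≤ (5 / 2) ^ 24 / (Nat.factorial 24) * 2 := by gcongr
        _ ≤ _ := by
          rw [show Nat.factorial 24 = 620448401733239439360000 by decide +kernel]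
          norm_num
  have hlen : expList.length = 24 := by decide +kernel
  have h2 := horner_eval (-1306730275929) 22175948142987 10000000000000 (by norm_num) expList
    (Nat.factorial 23) (Nat.factorial_ne_zero _) (fun m => 1 / (Nat.factorial m : ℂ)) (by
      intro i hi
      rw [hlen] at hi
      have hd : Nat.factorial i ∣ Nat.factorial 23 := Nat.factorial_dvd_factorial (by omega)
      have hi0 : (Nat.factorial i : ℂ) ≠ 0 := Nat.cast_ne_zero.mpr (Nat.factorial_ne_zero _)
      have : expList.getD i 0 = ((Nat.factorial 23 / Nat.factorial i : ℕ) : ℤ) := by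
        unfold expList
        rw [List.getD_eq_getElem?_getD, List.getElem?_map, List.getElem?_range hi]
        rfl
      rw [this, Int.cast_natCast, Nat.cast_div hd hi0]
      ring)
  rw [hlen] at h2
  have h3 : ∑ i ∈ Finset.range 24, 1 / (Nat.factorial i : ℂ) *
      ((((-1306730275929 : ℤ) : ℂ) + ((22175948142987 : ℤ) : ℂ) * Complex.I) /
        ((10000000000000 : ℕ) : ℂ)) ^ i = ∑ m ∈ Finset.range 24, z0 ^ m / m.factorial := by
    refine Finset.sum_congr rfl fun i _ => ?_
    unfold z0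
    ring
  rw [h3] at h2
  obtain ⟨h2re, h2im⟩ := h2
  have hchk := exp_check
  simp only at hchk
  obtain ⟨hc1, hc2⟩ := hchk
  have hNpos : (0 : ℤ) < ((10000000000000 ^ 24 : ℕ) : ℤ) * ((Nat.factorial 23 : ℕ) : ℤ) := by
    positivity
  have hNpos' : (0 : ℝ) < ((((10000000000000 ^ 24 : ℕ) : ℤ) *
      ((Nat.factorial 23 : ℕ) : ℤ) : ℤ) : ℝ) := by exact_mod_cast hNpos
  have hre0 : q0.re = -528814694044 / 1000000000000 := by simp [q0]
  have him0 : q0.im = 700263825560 / 1000000000000 := by simp [q0]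
  generalize ((10000000000000 ^ 24 : ℕ) : ℤ) * ((Nat.factorial 23 : ℕ) : ℤ) = NN at *
  generalize (horner (-1306730275929) 22175948142987 10000000000000 expList).1 = U at *
  generalize (horner (-1306730275929) 22175948142987 10000000000000 expList).2 = V at *
  have hc1' : (|1000000000000 * (U : ℝ) + 528814694044 * NN| * 1000000000000 : ℝ) ≤
      1000000000000 * NN := by exact_mod_cast hc1
  have hc2' : (|1000000000000 * (V : ℝ) - 700263825560 * NN| * 1000000000000 : ℝ) ≤
      1000000000000 * NN := by exact_mod_cast hc2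
  have h4 : ‖∑ m ∈ Finset.range 24, z0 ^ m / m.factorial - q0‖ ≤ 2 / 10 ^ 12 := by
    refine (Complex.norm_le_abs_re_add_abs_im _).trans ?_
    rw [Complex.sub_re, Complex.sub_im, h2re, h2im, hre0, him0]
    have e1 : |(U : ℝ) / NN - -528814694044 / 1000000000000| ≤ 1 / 10 ^ 12 := by
      rw [show (U : ℝ) / NN - -528814694044 / 1000000000000 =
        (1000000000000 * (U : ℝ) + 528814694044 * NN) / (1000000000000 * NN) by field_simp; ring,
        abs_div, abs_of_pos (show (0 : ℝ) < 1000000000000 * NN by positivity),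
        div_le_iff₀ (by positivity)]
      linarith
    have e2 : |(V : ℝ) / NN - 700263825560 / 1000000000000| ≤ 1 / 10 ^ 12 := by
      rw [show (V : ℝ) / NN - 700263825560 / 1000000000000 =
        (1000000000000 * (V : ℝ) - 700263825560 * NN) / (1000000000000 * NN) by field_simp,
        abs_div, abs_of_pos (show (0 : ℝ) < 1000000000000 * NN by positivity),
        div_le_iff₀ (by positivity)]
      linarith
    linarith
  calc ‖Complex.exp z0 - q0‖ = ‖(Complex.exp z0 - ∑ m ∈ Finset.range 24, z0 ^ m / m.factorial) +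
      (∑ m ∈ Finset.range 24, z0 ^ m / m.factorial - q0)‖ := by congr 1; ring
    _ ≤ 1 / 10 ^ 12 + 2 / 10 ^ 12 := (norm_add_le _ _).trans (add_le_add h1 h4)
    _ = _ := by norm_num

theorem exp_zW : ‖Complex.exp zW - q0‖ ≤ 1 / 10 ^ 10 := by
  have h1 := exp_z0
  have h2 := zW_sub
  have h3 : ‖Complex.exp zW - Complex.exp z0‖ ≤ 2 / 10 ^ 12 := by
    have e1 : Complex.exp zW - Complex.exp z0 =
        Complex.exp z0 * (Complex.exp (zW - z0) - 1) := by
      rw [mul_sub, ← Complex.exp_add, mul_one]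
      congr 2
      ring
    have e2 : ‖Complex.exp z0‖ ≤ 1 := by
      rw [Complex.norm_exp]
      have hre : z0.re = -1306730275929 / 10000000000000 := by simp [z0]
      rw [hre, Real.exp_le_one_iff]
      norm_num
    rw [e1, norm_mul]
    calc ‖Complex.exp z0‖ * ‖Complex.exp (zW - z0) - 1‖ ≤ 1 * (2 * ‖zW - z0‖) := by
          gcongr
          exact Complex.norm_exp_sub_one_le (h2.trans (by norm_num))
      _ ≤ _ := by linarith
  calc ‖Complex.exp zW - q0‖ = ‖(Complex.exp zW - Complex.exp z0) + (Complex.exp z0 - q0)‖ := by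
        congr 1; ring
    _ ≤ 2 / 10 ^ 12 + 3 / 10 ^ 12 := (norm_add_le _ _).trans (add_le_add h3 h1)
    _ ≤ _ := by norm_num

theorem bound' (f : CuspForm (Gamma0 136) 2) (A : ℕ → ℤ) (hA : Data f A) (n : ℕ) :
    ‖((A n : ℤ) : ℂ)‖ ≤ (n : ℝ) ^ 2 := by
  rw [Complex.norm_intCast]
  exact_mod_cast hA.bound n

theorem hasSum_f (f : CuspForm (Gamma0 136) 2) (A : ℕ → ℤ) (hA : Data f A) :
    HasSum (fun n => ((A n : ℤ) : ℂ) * Complex.exp zW ^ n) (f tauW) := by
  have h := ModularForm.hasSum_qExpansion (f := f) (h := 1) one_pos (by simp) tauW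
  have hfun : (fun n => ((A n : ℤ) : ℂ) * Complex.exp zW ^ n) =
      fun m => (qExpansion 1 f).coeff m * Function.Periodic.qParam 1 (tauW : ℂ) ^ m := by
    funext n
    have h1 : (qExpansion 1 f).coeff n = ((A n : ℤ) : ℂ) := hA.coeff n
    have h2 : Function.Periodic.qParam 1 (tauW : ℂ) = Complex.exp zW := by
      unfold Function.Periodic.qParam zW
      congr 1
      push_cast
      ring
    rw [h1, h2]
  rw [hfun]
  exact h

theorem sum_f (A : ℕ → ℤ) (ht : ∀ n < 362, A n = tbl.getD n 0) :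
    (∑ n ∈ Finset.range 100, ((A n : ℤ) : ℂ) * q0 ^ n).re ≤ -(5 / 2) := by
  have hlen : fList.length = 100 := by decide +kernel
  have h2 := horner_eval (-528814694044) 700263825560 1000000000000 (by norm_num) fList
    1 one_ne_zero (fun m => ((A m : ℤ) : ℂ)) (by
      intro i hi
      rw [hlen] at hi
      have : fList.getD i 0 = A i := by
        rw [ht i (by omega)]
        unfold fList
        rw [List.getD_eq_getElem?_getD, List.getD_eq_getElem?_getD, List.getElem?_take, if_pos hi]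
      rw [this, Nat.cast_one, mul_one])
  rw [hlen] at h2
  obtain ⟨h2re, -⟩ := h2
  have hchk := f_check
  simp only at hchk
  have hq : q0 = (((-528814694044 : ℤ) : ℂ) + ((700263825560 : ℤ) : ℂ) * Complex.I) /
      ((1000000000000 : ℕ) : ℂ) := rfl
  rw [hq, h2re]
  have hNpos : (0 : ℤ) < ((1000000000000 ^ 100 : ℕ) : ℤ) := by positivity
  have hNpos' : (0 : ℝ) < (((1000000000000 ^ 100 : ℕ) : ℤ) : ℝ) := by exact_mod_cast hNpos
  rw [Nat.cast_one, mul_one]
  generalize ((1000000000000 ^ 100 : ℕ) : ℤ) = NN at *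
  generalize (horner (-528814694044) 700263825560 1000000000000 fList).1 = U at *
  have hc1' : 2 * (U : ℝ) ≤ -5 * NN := by exact_mod_cast hchk
  rw [div_le_iff₀ hNpos']
  linarith

theorem sum_p (A : ℕ → ℤ) (ht : ∀ n < 362, A n = tbl.getD n 0) :
    -(11 / 10) ≤ (∑ n ∈ Finset.range 100, ((A n : ℤ) : ℂ) / n * q0 ^ n).re ∧
    (∑ n ∈ Finset.range 100, ((A n : ℤ) : ℂ) / n * q0 ^ n).re ≤ -(9 / 10) := by
  have hlen : pList.length = 100 := by decide +kernel
  have h2 := horner_eval (-528814694044) 700263825560 1000000000000 (by norm_num) pList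
    lc (by decide +kernel) (fun m => ((A m : ℤ) : ℂ) / m) (by
      intro i hi
      rw [hlen] at hi
      have : pList.getD i 0 = A i * ((lc / i : ℕ) : ℤ) := by
        rw [ht i (by omega)]
        unfold pList
        rw [List.getD_eq_getElem?_getD, List.getElem?_map, List.getElem?_range hi]
        rfl
      rw [this, Int.cast_mul, Int.cast_natCast]
      rcases eq_or_ne i 0 with rfl | hi0
      · simp
      · have hi0' : (i : ℂ) ≠ 0 := Nat.cast_ne_zero.mpr hi0
        rw [Nat.cast_div (lc_dvd i hi hi0) hi0']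
        ring)
  rw [hlen] at h2
  obtain ⟨h2re, -⟩ := h2
  have hchk := p_check
  simp only at hchk
  have hq : q0 = (((-528814694044 : ℤ) : ℂ) + ((700263825560 : ℤ) : ℂ) * Complex.I) /
      ((1000000000000 : ℕ) : ℂ) := rfl
  rw [hq, h2re]
  have hNpos : (0 : ℤ) < ((1000000000000 ^ 100 : ℕ) : ℤ) * ((lc : ℕ) : ℤ) := by
    have : 0 < lc := by decide +kernel
    positivity
  have hNpos' : (0 : ℝ) < ((((1000000000000 ^ 100 : ℕ) : ℤ) * ((lc : ℕ) : ℤ) : ℤ) : ℝ) := by
    exact_mod_cast hNpos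
  generalize ((1000000000000 ^ 100 : ℕ) : ℤ) * ((lc : ℕ) : ℤ) = NN at *
  generalize (horner (-528814694044) 700263825560 1000000000000 pList).1 = U at *
  obtain ⟨hc1, hc2⟩ := hchk
  have hc1' : 10 * (U : ℝ) ≤ -9 * NN := by exact_mod_cast hc1
  have hc2' : -11 * (NN : ℝ) ≤ 10 * U := by exact_mod_cast hc2
  rw [div_le_iff₀ hNpos', le_div_iff₀ hNpos']
  constructor <;> linarith

end Num

theorem f_tauW_ne_zero (f : CuspForm (Gamma0 136) 2) (A : ℕ → ℤ) (hA : Data f A) :
    f tauW ≠ 0 := by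
  intro h0
  have h1 := Num.approx (fun n => ((A n : ℤ) : ℂ)) (Num.bound' f A hA) _ Num.exp_zW _
    (Num.hasSum_f f A hA)
  have h2 := Num.sum_f A hA.table
  have h3 := (Complex.abs_re_le_norm _).trans h1
  rw [Complex.sub_re, h0, Complex.zero_re, abs_le] at h3
  norm_num at h3 h2
  linarith [h3.2]

theorem prim_tauW (f : CuspForm (Gamma0 136) 2) (A : ℕ → ℤ) (hA : Data f A) :
    0 < |(prim f tauW).re| ∧ |(prim f tauW).re| < 3 / 2 := by
  have hb : ∀ n : ℕ, ‖((A n : ℤ) : ℂ) / n‖ ≤ (n : ℝ) ^ 2 := by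
    intro n
    rcases Nat.eq_zero_or_pos n with rfl | hn
    · simp
    · rw [norm_div, Complex.norm_natCast]
      have h1 : (1 : ℝ) ≤ n := by exact_mod_cast hn
      exact (div_le_self (norm_nonneg _) h1).trans (Num.bound' f A hA n)
  have hs : Summable (fun n : ℕ => ((A n : ℤ) : ℂ) / n * Complex.exp Num.zW ^ n) := by
    have hq : ‖Complex.exp Num.zW‖ < 1 := by
      rw [Complex.norm_exp, Num.zW_re, Real.exp_lt_one_iff]
      apply div_neg_of_neg_of_pos
      · linarith [Real.pi_pos]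
      · positivity
    have hq' : ‖(‖Complex.exp Num.zW‖ : ℝ)‖ < 1 := by rwa [norm_norm]
    refine Summable.of_norm_bounded (summable_pow_mul_geometric_of_norm_lt_one 2 hq') fun n => ?_
    rw [norm_mul, norm_pow]
    gcongr
    exact hb n
  have hS : HasSum (fun n : ℕ => ((A n : ℤ) : ℂ) / n * Complex.exp Num.zW ^ n) (prim f tauW) := by
    have : prim f tauW = ∑' n : ℕ, ((A n : ℤ) : ℂ) / n * Complex.exp Num.zW ^ n := by
      unfold prim
      congr 1
      funext n
      rw [hA.coeff n, ← Complex.exp_nat_mul]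
      congr 2
      unfold Num.zW
      ring
    rw [this]
    exact hs.hasSum
  have h1 := Num.approx (fun n => ((A n : ℤ) : ℂ) / n) hb _ Num.exp_zW _ hS
  obtain ⟨h2, h3⟩ := Num.sum_p A hA.table
  have h4 := (Complex.abs_re_le_norm _).trans h1
  rw [Complex.sub_re, abs_le] at h4
  obtain ⟨h5, h6⟩ := h4
  norm_num at h2 h3 h5 h6
  have h7 : (prim f tauW).re < 0 := by linarith
  rw [abs_of_neg h7]
  constructor <;> linarith

end Pool.Agent.MT136
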