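import Pool.Agent.MT136.Core

/-!
# The real period of the curve of conductor 136
-/

set_option autoImplicit false

namespace Pool.Agent.MT136

open Filter Topology MeasureTheory

/-! ### The `℘` function of a rectangular lattice on the real line -/

section rect

variable {L : PeriodPair} {w w' : ℝ}

theorem per_conj_mem (h1 : L.ω₁ = w) (h2 : L.ω₂ = w' * Complex.I) {l : ℂ} (hl : l ∈ L.lattice) :
    (starRingEnd ℂ) l ∈ L.lattice := by
  obtain ⟨m, n, rfl⟩ := PeriodPair.mem_lattice.1 hl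
  refine PeriodPair.mem_lattice.2 ⟨m, -n, ?_⟩
  rw [h1, h2]
  simp

/-- complex conjugation on the lattice -/
noncomputable def perConj (h1 : L.ω₁ = w) (h2 : L.ω₂ = w' * Complex.I) :
    L.lattice ≃ L.lattice where
  toFun l := ⟨(starRingEnd ℂ) l, per_conj_mem h1 h2 l.2⟩
  invFun l := ⟨(starRingEnd ℂ) l, per_conj_mem h1 h2 l.2⟩
  left_inv l := by simp
  right_inv l := by simp

theorem per_wp_conj (h1 : L.ω₁ = w) (h2 : L.ω₂ = w' * Complex.I) (z : ℂ) :
    L.weierstrassP ((starRingEnd ℂ) z) = (starRingEnd ℂ) (L.weierstrassP z) := by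
  unfold PeriodPair.weierstrassP
  rw [Complex.conj_tsum, ← (perConj h1 h2).tsum_eq]
  refine tsum_congr fun l => ?_
  show 1 / ((starRingEnd ℂ) z - (starRingEnd ℂ) (l : ℂ)) ^ 2 - 1 / ((starRingEnd ℂ) (l : ℂ)) ^ 2 = _
  simp

theorem per_dwp_conj (h1 : L.ω₁ = w) (h2 : L.ω₂ = w' * Complex.I) (z : ℂ) :
    L.derivWeierstrassP ((starRingEnd ℂ) z) = (starRingEnd ℂ) (L.derivWeierstrassP z) := by
  unfold PeriodPair.derivWeierstrassP
  rw [map_neg, Complex.conj_tsum, ← (perConj h1 h2).tsum_eq]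
  congr 1
  refine tsum_congr fun l => ?_
  show 2 / ((starRingEnd ℂ) z - (starRingEnd ℂ) (l : ℂ)) ^ 3 = _
  simp [map_ofNat]

theorem per_wp_real (h1 : L.ω₁ = w) (h2 : L.ω₂ = w' * Complex.I) (t : ℝ) :
    L.weierstrassP t = ((L.weierstrassP t).re : ℂ) := by
  have h := per_wp_conj h1 h2 (t : ℂ)
  rw [Complex.conj_ofReal] at h
  exact (Complex.conj_eq_iff_re.1 h.symm).symm

theorem per_dwp_real (h1 : L.ω₁ = w) (h2 : L.ω₂ = w' * Complex.I) (t : ℝ) :
    L.derivWeierstrassP t = ((L.derivWeierstrassP t).re : ℂ) := by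
  have h := per_dwp_conj h1 h2 (t : ℂ)
  rw [Complex.conj_ofReal] at h
  exact (Complex.conj_eq_iff_re.1 h.symm).symm

theorem per_notMem (hw : 0 < w) (hw' : 0 < w') (h1 : L.ω₁ = w) (h2 : L.ω₂ = w' * Complex.I)
    {t : ℝ} (ht : t ∈ Set.Ioo 0 w) : (t : ℂ) ∉ L.lattice := by
  intro hmem
  obtain ⟨m, n, hmn⟩ := PeriodPair.mem_lattice.1 hmem
  rw [h1, h2] at hmn
  have him := congrArg Complex.im hmn
  have hre := congrArg Complex.re hmn
  simp at him hre
  have hn : n = 0 := by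
    rcases him with h | h
    · exact h
    · exact absurd h hw'.ne'
  have h3 : (0 : ℝ) < m := by
    by_contra hneg
    push Not at hneg
    have := ht.1
    nlinarith
  have h4 : (m : ℝ) < 1 := by
    by_contra hneg
    push Not at hneg
    have := ht.2
    nlinarith
  have h5 : (0 : ℤ) < m := by exact_mod_cast h3
  have h6 : m < (1 : ℤ) := by exact_mod_cast h4
  omega

/-- the real function `℘ - 1/3` -/
noncomputable def perP (L : PeriodPair) (t : ℝ) : ℝ := (L.weierstrassP t).re - 1 / 3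

/-- the real function `℘'` -/
noncomputable def perD (L : PeriodPair) (t : ℝ) : ℝ := (L.derivWeierstrassP t).re

theorem per_hasDerivAt {t : ℝ} (ht : (t : ℂ) ∉ L.lattice) : HasDerivAt (perP L) (perD L t) t := by
  have h := (L.analyticOnNhd_weierstrassP (t : ℂ) ht).differentiableAt.hasDerivAt
  rw [L.deriv_weierstrassP] at h
  exact (h.real_of_complex).sub_const _

theorem per_rel (h1 : L.ω₁ = w) (h2 : L.ω₂ = w' * Complex.I) (hg2 : L.g₂ = 52 / 3)
    (hg3 : L.g₃ = -152 / 27) {t : ℝ} (ht : (t : ℂ) ∉ L.lattice) :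
    perD L t ^ 2 = 4 * perP L t * (perP L t ^ 2 + perP L t - 4) := by
  have h := L.derivWeierstrassP_sq t ht
  rw [per_wp_real h1 h2, per_dwp_real h1 h2, hg2, hg3] at h
  have h3 : (perD L t) ^ 2 = 4 * (L.weierstrassP t).re ^ 3 - 52 / 3 * (L.weierstrassP t).re -
      (-152 / 27) := by
    unfold perD
    apply Complex.ofReal_injective
    push_cast
    linear_combination h
  rw [h3]
  unfold perP
  ring

theorem per_symm (h1 : L.ω₁ = w) (t : ℝ) : perP L (w - t) = perP L t := by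
  unfold perP
  have h3 : ((w - t : ℝ) : ℂ) = -(t : ℂ) + (⟨L.ω₁, L.ω₁_mem_lattice⟩ : L.lattice) := by
    push_cast
    rw [h1]
    ring
  rw [h3, L.weierstrassP_add_coe, L.weierstrassP_neg]

theorem per_half (h1 : L.ω₁ = w) : perD L (w / 2) = 0 := by
  have h3 : ((w / 2 : ℝ) : ℂ) = -((w / 2 : ℝ) : ℂ) + (⟨L.ω₁, L.ω₁_mem_lattice⟩ : L.lattice) := by
    push_cast
    rw [h1]
    ring
  have h4 : L.derivWeierstrassP ((w / 2 : ℝ) : ℂ) = -L.derivWeierstrassP ((w / 2 : ℝ) : ℂ) := by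
    conv_lhs => rw [h3]
    rw [L.derivWeierstrassP_add_coe, L.derivWeierstrassP_neg]
  have h5 : L.derivWeierstrassP ((w / 2 : ℝ) : ℂ) = 0 := by
    linear_combination h4 / 2
  unfold perD
  rw [h5, Complex.zero_re]

/-- the largest root of `x² + x - 4` -/
noncomputable def perE1 : ℝ := (√17 - 1) / 2

theorem perE1_sq : perE1 ^ 2 + perE1 - 4 = 0 := by
  unfold perE1
  have h := Real.sq_sqrt (show (0 : ℝ) ≤ 17 by norm_num)
  nlinarith

theorem perE1_pos : 1 < perE1 := by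
  unfold perE1
  have : (3 : ℝ) < √17 := by
    rw [Real.lt_sqrt (by norm_num)]
    norm_num
  linarith

theorem perE1_lt : perE1 < 2 := by
  unfold perE1
  have : √17 < (5 : ℝ) := by
    rw [Real.sqrt_lt' (by norm_num)]
    norm_num
  linarith

/-- all the facts on the real function `℘ - 1/3` -/
structure PerFacts (w : ℝ) (P D : ℝ → ℝ) : Prop where
  pos : 0 < w
  der : ∀ t ∈ Set.Ioo 0 w, HasDerivAt P (D t) t
  rel : ∀ t ∈ Set.Ioo 0 w, D t ^ 2 = 4 * P t * (P t ^ 2 + P t - 4)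
  sym : ∀ t, P (w - t) = P t
  half : D (w / 2) = 0
  top : Tendsto P (𝓝[>] 0) atTop
  ana : ∀ t₀ ∈ Set.Ioo 0 w, D =ᶠ[𝓝 t₀] 0 → ∀ t ∈ Set.Ioo 0 w, D t = 0
  cont : ContinuousOn D (Set.Ioo 0 w)

theorem perFacts (hw : 0 < w) (hw' : 0 < w') (h1 : L.ω₁ = w) (h2 : L.ω₂ = w' * Complex.I)
    (hg2 : L.g₂ = 52 / 3) (hg3 : L.g₃ = -152 / 27) : PerFacts w (perP L) (perD L) := by
  have hrel : ∀ t ∈ Set.Ioo 0 w, perD L t ^ 2 = 4 * perP L t * (perP L t ^ 2 + perP L t - 4) :=
    fun t ht => per_rel h1 h2 hg2 hg3 (per_notMem hw hw' h1 h2 ht)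
  have hanaD : AnalyticOnNhd ℝ (fun t : ℝ => L.derivWeierstrassP t) (Set.Ioo 0 w) := by
    intro t ht
    have h3 := (L.analyticOnNhd_derivWeierstrassP (t : ℂ)
      (per_notMem hw hw' h1 h2 ht)).restrictScalars (𝕜 := ℝ)
    exact h3.comp_of_eq (Complex.ofRealCLM.analyticAt t) rfl
  refine ⟨hw, fun t ht => per_hasDerivAt (per_notMem hw hw' h1 h2 ht), hrel, per_symm h1,
    per_half h1, ?_, ?_, ?_⟩
  · -- the pole
    have h3 : Tendsto L.weierstrassP (𝓝[≠] 0) (Bornology.cobounded ℂ) := by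
      apply tendsto_cobounded_of_meromorphicOrderAt_neg
      rw [L.order_weierstrassP 0 (zero_mem _)]
      decide
    have h4 : Tendsto (fun t : ℝ => (t : ℂ)) (𝓝[>] 0) (𝓝[≠] 0) := by
      refine tendsto_nhdsWithin_iff.2 ⟨?_, ?_⟩
      · exact (Complex.continuous_ofReal.tendsto' 0 0 Complex.ofReal_zero).mono_left
          nhdsWithin_le_nhds
      · filter_upwards [self_mem_nhdsWithin] with t ht
        simpa using (ne_of_gt ht)
    have h5 := tendsto_norm_cobounded_atTop.comp (h3.comp h4)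
    have h6 : Tendsto (fun t : ℝ => |(L.weierstrassP t).re|) (𝓝[>] 0) atTop := by
      refine h5.congr fun t => ?_
      simp only [Function.comp]
      rw [per_wp_real h1 h2, Complex.norm_real, Complex.ofReal_re, Real.norm_eq_abs]
    have h7 : ∀ᶠ t in 𝓝[>] (0 : ℝ), t ∈ Set.Ioo 0 w := Ioo_mem_nhdsGT hw
    refine (tendsto_atTop_add_const_right _ (-(1 / 3 : ℝ)) h6).congr' ?_
    filter_upwards [h7, h6.eventually_ge_atTop 4] with t ht hge
    have hr := hrel t ht
    have h8 : -3 ≤ perP L t := by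
      by_contra hneg
      push Not at hneg
      have h9 := sq_nonneg (perD L t)
      rw [hr] at h9
      have h10 : 0 < perP L t ^ 2 + perP L t - 4 := by nlinarith
      have h11 : 4 * perP L t < 0 := by linarith
      nlinarith [mul_neg_of_neg_of_pos h11 h10]
    have h12 : (L.weierstrassP t).re = perP L t + 1 / 3 := by unfold perP; ring
    rw [h12] at hge ⊢
    have h13 : 0 ≤ perP L t + 1 / 3 := by
      by_contra hneg
      push Not at hneg
      rw [abs_of_neg hneg] at hge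
      linarith
    rw [abs_of_nonneg h13]
    ring
  · intro t₀ ht₀ hz t ht
    have h3 : (fun t : ℝ => L.derivWeierstrassP t) =ᶠ[𝓝 t₀] 0 := by
      filter_upwards [hz] with s hs
      rw [per_dwp_real h1 h2]
      show ((perD L s : ℝ) : ℂ) = 0
      rw [hs]; simp
    have h4 := hanaD.eqOn_zero_of_preconnected_of_eventuallyEq_zero isPreconnected_Ioo ht₀ h3 ht
    unfold perD
    rw [show L.derivWeierstrassP (t : ℂ) = 0 from h4, Complex.zero_re]
  · intro t ht
    exact (Complex.continuous_re.continuousAt.comp (hanaD t ht).continuousAt).continuousWithinAt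

end rect

/-! ### Real analysis -/

namespace PerFacts

variable {w : ℝ} {P D : ℝ → ℝ} (F : PerFacts w P D)

include F

theorem contP : ContinuousOn P (Set.Ioo 0 w) := fun t ht =>
  (F.der t ht).continuousAt.continuousWithinAt

theorem exists_gt (y : ℝ) {t : ℝ} (ht : 0 < t) : ∃ s, 0 < s ∧ s < t ∧ y < P s := by
  have h1 := F.top.eventually_gt_atTop y
  have h2 : ∀ᶠ s in 𝓝[>] (0 : ℝ), s ∈ Set.Ioo 0 t := Ioo_mem_nhdsGT ht
  obtain ⟨s, h3, h4⟩ := (h1.and h2).exists
  exact ⟨s, h4.1, h4.2, h3⟩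

theorem ge_E1 {t : ℝ} (ht : t ∈ Set.Ioo 0 w) : perE1 ≤ P t := by
  by_contra hneg
  push Not at hneg
  obtain ⟨s, hs0, hst, hs⟩ := F.exists_gt perE1 ht.1
  set v := (max 0 (P t) + perE1) / 2 with hv
  have he := perE1_pos
  have h1 : max 0 (P t) < perE1 := max_lt (by linarith) hneg
  have h2 : P t ≤ v := by
    have := le_max_right 0 (P t)
    rw [hv]; linarith
  have h3 : 0 < v := by
    have := le_max_left 0 (P t)
    rw [hv]; linarith
  have h4 : v < perE1 := by rw [hv]; linarith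
  have hsub : Set.Icc s t ⊆ Set.Ioo 0 w := fun x hx => ⟨by linarith [hx.1], by linarith [hx.2, ht.2]⟩
  obtain ⟨r, hr, hrv⟩ := intermediate_value_Icc' hst.le (F.contP.mono hsub)
    (show v ∈ Set.Icc (P t) (P s) from ⟨h2, by linarith⟩)
  have h5 := F.rel r (hsub hr)
  rw [hrv] at h5
  have h6 := sq_nonneg (D r)
  have h7 : v ^ 2 + v - 4 < 0 := by nlinarith [perE1_sq]
  nlinarith [mul_neg_of_pos_of_neg h3 h7]

theorem eq_E1 {t : ℝ} (ht : t ∈ Set.Ioo 0 w) (hD : D t = 0) : P t = perE1 := by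
  have h1 := F.rel t ht
  have h2 := F.ge_E1 ht
  have h3 := perE1_pos
  rw [hD] at h1
  have h4 : P t ^ 2 + P t - 4 = 0 := by
    have : 4 * P t * (P t ^ 2 + P t - 4) = 0 := by rw [← h1]; ring
    rcases mul_eq_zero.1 this with h | h
    · exfalso; linarith
    · exact h
  nlinarith [perE1_sq]

theorem half_mem : w / 2 ∈ Set.Ioo 0 w := ⟨by linarith [F.pos], by linarith [F.pos]⟩

theorem P_half : P (w / 2) = perE1 := F.eq_E1 F.half_mem F.half

theorem D_ne {t : ℝ} (ht : t ∈ Set.Ioo 0 (w / 2)) : D t ≠ 0 := by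
  intro hD
  have hw := F.pos
  have ht' : t ∈ Set.Ioo 0 w := ⟨ht.1, by linarith [ht.2]⟩
  have hPt := F.eq_E1 ht' hD
  have hPt' : P (w - t) = perE1 := by rw [F.sym, hPt]
  have hlt : t < w - t := by linarith [ht.2]
  have hsub : Set.Icc t (w - t) ⊆ Set.Ioo 0 w := fun x hx =>
    ⟨by linarith [hx.1, ht.1], by linarith [hx.2, ht.1]⟩
  obtain ⟨t₁, ht₁, hmax⟩ := isCompact_Icc.exists_isMaxOn ⟨t, ⟨le_rfl, hlt.le⟩⟩ (F.contP.mono hsub)
  have hPt₁ : P t₁ = perE1 := by
    by_contra hne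
    have hgt : perE1 < P t₁ := lt_of_le_of_ne (F.ge_E1 (hsub ht₁)) (Ne.symm hne)
    have h1 : t₁ ∈ Set.Ioo t (w - t) := by
      refine ⟨lt_of_le_of_ne ht₁.1 ?_, lt_of_le_of_ne ht₁.2 ?_⟩
      · intro h; rw [← h, hPt] at hgt; exact lt_irrefl _ hgt
      · intro h; rw [h, hPt'] at hgt; exact lt_irrefl _ hgt
    have h2 : IsLocalMax P t₁ := hmax.isLocalMax (Icc_mem_nhds h1.1 h1.2)
    have h3 := h2.hasDerivAt_eq_zero (F.der t₁ (hsub ht₁))
    exact hne (F.eq_E1 (hsub ht₁) h3)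
  have hconst : ∀ x ∈ Set.Icc t (w - t), P x = perE1 := fun x hx =>
    le_antisymm (hPt₁ ▸ hmax hx) (F.ge_E1 (hsub hx))
  have hzero : D =ᶠ[𝓝 (w / 2)] 0 := by
    filter_upwards [Ioo_mem_nhds (show t < w / 2 from ht.2) (show w / 2 < w - t by linarith [ht.2])]
      with x hx
    have h1 := F.der x (hsub ⟨hx.1.le, hx.2.le⟩)
    have h2 : P =ᶠ[𝓝 x] fun _ => perE1 := by
      filter_upwards [Icc_mem_nhds hx.1 hx.2] with y hy
      exact hconst y hy
    have h3 : HasDerivAt P 0 x := (hasDerivAt_const x perE1).congr_of_eventuallyEq h2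
    exact h1.unique h3
  have hall := F.ana _ F.half_mem hzero
  obtain ⟨s, hs0, hst, hs⟩ := F.exists_gt (P t) ht.1
  obtain ⟨c, hc, hc'⟩ := exists_hasDerivAt_eq_slope P D hst
    (F.contP.mono fun x hx => ⟨by linarith [hx.1], by linarith [hx.2, ht'.2]⟩)
    (fun x hx => F.der x ⟨by linarith [hx.1], by linarith [hx.2, ht'.2]⟩)
  rw [hall c ⟨by linarith [hc.1], by linarith [hc.2, ht'.2]⟩] at hc'
  rw [eq_comm, div_eq_zero_iff] at hc'
  rcases hc' with h | h <;> linarith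

theorem D_neg {t : ℝ} (ht : t ∈ Set.Ioo 0 (w / 2)) : D t < 0 := by
  have hw := F.pos
  by_contra hneg
  push Not at hneg
  have hpos : 0 < D t := lt_of_le_of_ne hneg (Ne.symm (F.D_ne ht))
  obtain ⟨s, hs0, hst, hs⟩ := F.exists_gt (P t) ht.1
  have hsub : Set.Icc s t ⊆ Set.Ioo 0 w := fun x hx =>
    ⟨by linarith [hx.1], by linarith [hx.2, ht.2]⟩
  obtain ⟨c, hc, hc'⟩ := exists_hasDerivAt_eq_slope P D hst (F.contP.mono hsub)
    (fun x hx => F.der x (hsub ⟨hx.1.le, hx.2.le⟩))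
  have hcneg : D c < 0 := by
    rw [hc']
    exact div_neg_of_neg_of_pos (by linarith) (by linarith)
  have hsub2 : Set.Icc c t ⊆ Set.Ioo 0 w := fun x hx => hsub ⟨by linarith [hx.1, hc.1], hx.2⟩
  obtain ⟨r, hr, hr0⟩ := intermediate_value_Icc hc.2.le (F.cont.mono hsub2)
    (show (0 : ℝ) ∈ Set.Icc (D c) (D t) from ⟨hcneg.le, hpos.le⟩)
  exact F.D_ne (t := r) ⟨by linarith [hr.1, hc.1], by linarith [hr.2, ht.2]⟩ hr0

/-- the function `P - 4/P` maps `(0, w/2)` onto `(-1, ∞)` -/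
theorem hasDerivAt_X {t : ℝ} (ht : t ∈ Set.Ioo 0 w) :
    HasDerivAt (fun t => P t - 4 / P t) (D t * (1 + 4 / P t ^ 2)) t := by
  have h1 := F.der t ht
  have h2 : P t ≠ 0 := by
    have := F.ge_E1 ht
    have := perE1_pos
    linarith
  have h3 := h1.sub ((hasDerivAt_const t (4 : ℝ)).div h1 h2)
  refine h3.congr_deriv ?_
  field_simp
  ring

theorem anti_X : StrictAntiOn (fun t => P t - 4 / P t) (Set.Ioc 0 (w / 2)) := by
  have hw := F.pos
  refine strictAntiOn_of_deriv_neg (convex_Ioc _ _) ?_ ?_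
  · intro t ht
    exact (F.hasDerivAt_X ⟨ht.1, by linarith [ht.2]⟩).continuousAt.continuousWithinAt
  · intro t ht
    rw [interior_Ioc] at ht
    rw [(F.hasDerivAt_X ⟨ht.1, by linarith [ht.2]⟩).deriv]
    have h1 := F.D_neg ht
    have h2 : 0 < 1 + 4 / P t ^ 2 := by positivity
    exact mul_neg_of_neg_of_pos h1 h2

theorem X_half : P (w / 2) - 4 / P (w / 2) = -1 := by
  rw [F.P_half]
  have h1 := perE1_pos
  have h2 : perE1 ≠ 0 := by linarith
  field_simp
  linarith [perE1_sq]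

theorem image_X : (fun t => P t - 4 / P t) '' Set.Ioo 0 (w / 2) = Set.Ioi (-1) := by
  have hw := F.pos
  ext y
  constructor
  · rintro ⟨t, ht, rfl⟩
    have h1 : P (w / 2) - 4 / P (w / 2) < P t - 4 / P t :=
      F.anti_X ⟨ht.1, ht.2.le⟩ ⟨by linarith, le_rfl⟩ ht.2
    rw [F.X_half] at h1
    exact h1
  · intro hy
    obtain ⟨s, hs0, hst, hs⟩ := F.exists_gt (y + 4) (show 0 < w / 2 by linarith)
    have hs' : s ∈ Set.Ioo 0 w := ⟨hs0, by linarith⟩
    have h1 : y ≤ P s - 4 / P s := by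
      have h2 := F.ge_E1 hs'
      have h3 := perE1_pos
      have h4 : 4 / P s ≤ 4 := by
        rw [div_le_iff₀ (by linarith)]
        linarith
      linarith
    have hcont : ContinuousOn (fun t => P t - 4 / P t) (Set.Icc s (w / 2)) := fun t ht =>
      (F.hasDerivAt_X ⟨by linarith [ht.1], by linarith [ht.2]⟩).continuousAt.continuousWithinAt
    obtain ⟨r, hr, hr0⟩ := intermediate_value_Icc' hst.le hcont
      (show y ∈ Set.Icc _ _ from ⟨by rw [F.X_half]; exact (show -1 < y from hy).le, h1⟩)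
    refine ⟨r, ⟨by linarith [hr.1], lt_of_le_of_ne hr.2 ?_⟩, hr0⟩
    intro h
    rw [h] at hr0
    simp only at hr0
    rw [F.X_half] at hr0
    exact absurd hr0 (show -1 < y from hy).ne

end PerFacts

theorem per_psi (x : ℝ) : psi E136 x = 4 * (x + 1) * (x ^ 2 + 16) := by
  unfold psi E136 WeierstrassCurve.b₂ WeierstrassCurve.b₄ WeierstrassCurve.b₆
  push_cast
  ring

theorem per_psi_pos_iff (x : ℝ) : 0 < psi E136 x ↔ -1 < x := by
  rw [per_psi]
  have h : 0 < x ^ 2 + 16 := by positivity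
  constructor
  · intro h1
    by_contra hneg
    push Not at hneg
    nlinarith [mul_nonneg (show (0 : ℝ) ≤ -(x + 1) by linarith) h.le]
  · intro h1
    have : 0 < x + 1 := by linarith
    positivity

theorem realPeriod_eq (L : PeriodPair) (w w' : ℝ) (hw : 0 < w) (hw' : 0 < w') (h1 : L.ω₁ = w)
    (h2 : L.ω₂ = w' * Complex.I) (hg2 : L.g₂ = 52 / 3) (hg3 : L.g₃ = -152 / 27) :
    realPeriod E136 = w := by
  have F := perFacts hw hw' h1 h2 hg2 hg3
  unfold realPeriod
  have hset : {x : ℝ | 0 < psi E136 x} = (fun t => perP L t - 4 / perP L t) '' Set.Ioo 0 (w / 2) := by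
    rw [F.image_X]
    ext x
    exact per_psi_pos_iff x
  have hch := integral_image_eq_integral_abs_deriv_smul (s := Set.Ioo 0 (w / 2))
    (f := fun t => perP L t - 4 / perP L t)
    (f' := fun t => perD L t * (1 + 4 / perP L t ^ 2)) measurableSet_Ioo
    (fun t ht => (F.hasDerivAt_X ⟨ht.1, by linarith [ht.2]⟩).hasDerivWithinAt)
    (F.anti_X.injOn.mono Set.Ioo_subset_Ioc_self) (fun x => 2 / √(psi E136 x))
  rw [hset, hch]
  have h3 : ∀ t ∈ Set.Ioo 0 (w / 2), |perD L t * (1 + 4 / perP L t ^ 2)| •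
      (2 / √(psi E136 (perP L t - 4 / perP L t))) = 2 := by
    intro t ht
    have ht' : t ∈ Set.Ioo 0 w := ⟨ht.1, by linarith [ht.2]⟩
    have h4 := F.ge_E1 ht'
    have h5 := perE1_pos
    have h6 : perP L t ≠ 0 := by linarith
    have h7 : psi E136 (perP L t - 4 / perP L t) = (perD L t * (1 + 4 / perP L t ^ 2)) ^ 2 := by
      rw [per_psi, mul_pow, F.rel t ht']
      field_simp
      ring
    rw [h7, Real.sqrt_sq_eq_abs, smul_eq_mul]
    have h8 : |perD L t * (1 + 4 / perP L t ^ 2)| ≠ 0 := by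
      rw [abs_ne_zero]
      have : 0 < 1 + 4 / perP L t ^ 2 := by positivity
      exact mul_ne_zero (F.D_ne ht) this.ne'
    rw [mul_div_assoc', mul_comm, mul_div_assoc, div_self h8, mul_one]
  rw [setIntegral_congr_fun measurableSet_Ioo h3]
  simp
  rw [max_eq_left (by linarith)]
  linarith

/-! ### A lower bound for the real period -/

theorem realPeriod_shift :
    realPeriod E136 = ∫ u in Set.Ioi (0 : ℝ), 1 / √(u * ((u - 1) ^ 2 + 16)) := by
  unfold realPeriod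
  have hset : {x : ℝ | 0 < psi E136 x} = Set.Ioi (-1) := by
    ext x; exact per_psi_pos_iff x
  rw [hset, ← integral_indicator measurableSet_Ioi, ← integral_sub_right_eq_self _ (1 : ℝ),
    ← integral_indicator measurableSet_Ioi]
  refine integral_congr_ae (Eventually.of_forall fun u => ?_)
  by_cases hu : 0 < u
  · show (Set.Ioi (-1 : ℝ)).indicator _ (u - 1) = (Set.Ioi (0 : ℝ)).indicator _ u
    rw [Set.indicator_of_mem (show u - 1 ∈ Set.Ioi (-1 : ℝ) by simpa using hu),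
      Set.indicator_of_mem (show u ∈ Set.Ioi (0 : ℝ) from hu), per_psi]
    have h1 : 4 * (u - 1 + 1) * ((u - 1) ^ 2 + 16) = 2 ^ 2 * (u * ((u - 1) ^ 2 + 16)) := by ring
    rw [h1, Real.sqrt_mul (by norm_num), Real.sqrt_sq (by norm_num)]
    have h2 : 0 < √(u * ((u - 1) ^ 2 + 16)) := Real.sqrt_pos.2 (by positivity)
    field_simp
  · show (Set.Ioi (-1 : ℝ)).indicator _ (u - 1) = (Set.Ioi (0 : ℝ)).indicator _ u
    rw [Set.indicator_of_notMem (show u - 1 ∉ Set.Ioi (-1 : ℝ) by simpa using hu),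
      Set.indicator_of_notMem (show u ∉ Set.Ioi (0 : ℝ) from hu)]

/-- comparison with a power -/
theorem per_inv_sqrt_le {u c : ℝ} (hu : 0 < u) (hc : 0 < c) {q : ℝ} (hq : c ^ 2 ≤ q) :
    1 / √(u * q) ≤ c⁻¹ * u ^ (-(1 / 2) : ℝ) := by
  rw [Real.rpow_neg hu.le, ← Real.sqrt_eq_rpow, one_div, ← mul_inv]
  have h1 : 0 < √u := Real.sqrt_pos.2 hu
  refine inv_anti₀ (by positivity) ?_
  rw [Real.le_sqrt (by positivity) (by nlinarith [sq_nonneg c]), mul_pow, Real.sq_sqrt hu.le]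
  nlinarith

theorem per_le_inv_sqrt {u c : ℝ} (hu : 0 < u) (hc : 0 < c) {q : ℝ} (hq0 : 0 < q) (hq : q ≤ c ^ 2) :
    c⁻¹ * u ^ (-(1 / 2) : ℝ) ≤ 1 / √(u * q) := by
  rw [Real.rpow_neg hu.le, ← Real.sqrt_eq_rpow, one_div, ← mul_inv]
  have h1 : 0 < √u := Real.sqrt_pos.2 hu
  refine inv_anti₀ (Real.sqrt_pos.2 (by positivity)) ?_
  rw [Real.sqrt_le_left (by positivity), mul_pow, Real.sq_sqrt hu.le]
  nlinarith

theorem per_rpow_three_half {u : ℝ} (hu : 0 < u) :
    u ^ (-(3 / 2) : ℝ) = u⁻¹ * u ^ (-(1 / 2) : ℝ) := by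
  rw [← Real.rpow_neg_one, ← Real.rpow_add hu]
  norm_num

theorem realPeriod_ge : 8 / 5 ≤ realPeriod E136 := by
  rw [realPeriod_shift]
  set G : ℝ → ℝ := fun u => 1 / √(u * ((u - 1) ^ 2 + 16)) with hG
  have hGm : Measurable G := by
    rw [hG]; fun_prop
  have hG0 : ∀ u, 0 ≤ G u := fun u => by rw [hG]; positivity
  -- near zero
  have i1 : IntegrableOn (fun u : ℝ => u ^ (-(1 / 2) : ℝ)) (Set.Ioc 0 4) := by
    have := intervalIntegral.intervalIntegrable_rpow' (a := 0) (b := 4)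
      (show (-1 : ℝ) < -(1 / 2) by norm_num)
    rwa [intervalIntegrable_iff_integrableOn_Ioc_of_le (by norm_num)] at this
  have v1 : ∫ u in Set.Ioc (0 : ℝ) 4, u ^ (-(1 / 2) : ℝ) = 4 := by
    rw [← intervalIntegral.integral_of_le (by norm_num), integral_rpow (Or.inl (by norm_num))]
    have h1 : (-(1 / 2) : ℝ) + 1 = 1 / 2 := by norm_num
    rw [h1, ← Real.sqrt_eq_rpow, Real.zero_rpow (by norm_num)]
    have h2 : √(4 : ℝ) = 2 := by
      rw [show (4 : ℝ) = 2 ^ 2 by norm_num, Real.sqrt_sq (by norm_num)]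
    rw [h2]; norm_num
  have g1 : IntegrableOn G (Set.Ioc 0 4) := by
    refine Integrable.mono' (i1.const_mul (4 : ℝ)⁻¹) hGm.aestronglyMeasurable ?_
    refine (ae_restrict_iff' measurableSet_Ioc).2 (Eventually.of_forall fun u hu => ?_)
    rw [Real.norm_eq_abs, abs_of_nonneg (hG0 u)]
    exact per_inv_sqrt_le hu.1 (by norm_num) (by nlinarith [sq_nonneg (u - 1)])
  have l1 : (4 / 5 : ℝ) ≤ ∫ u in Set.Ioc (0 : ℝ) 4, G u := by
    have : (4 / 5 : ℝ) = ∫ u in Set.Ioc (0 : ℝ) 4, (5 : ℝ)⁻¹ * u ^ (-(1 / 2) : ℝ) := by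
      rw [integral_const_mul, v1]; norm_num
    rw [this]
    refine setIntegral_mono_on (i1.const_mul _) g1 measurableSet_Ioc fun u hu => ?_
    refine per_le_inv_sqrt hu.1 (by norm_num) (by positivity) ?_
    have := hu.1
    have := hu.2
    nlinarith
  -- near infinity
  have i2 : IntegrableOn (fun u : ℝ => u ^ (-(3 / 2) : ℝ)) (Set.Ioi 4) :=
    integrableOn_Ioi_rpow_of_lt (by norm_num) (by norm_num)
  have v2 : ∫ u in Set.Ioi (4 : ℝ), u ^ (-(3 / 2) : ℝ) = 1 := by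
    rw [integral_Ioi_rpow_of_lt (by norm_num) (by norm_num)]
    have h1 : (-(3 / 2) : ℝ) + 1 = -(1 / 2) := by norm_num
    rw [h1, Real.rpow_neg (by norm_num), ← Real.sqrt_eq_rpow]
    have h2 : √(4 : ℝ) = 2 := by
      rw [show (4 : ℝ) = 2 ^ 2 by norm_num, Real.sqrt_sq (by norm_num)]
    rw [h2]; norm_num
  have g2 : IntegrableOn G (Set.Ioi 4) := by
    refine Integrable.mono' (i2.const_mul 2) hGm.aestronglyMeasurable ?_
    refine (ae_restrict_iff' measurableSet_Ioi).2 (Eventually.of_forall fun u hu => ?_)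
    have hu' : 0 < u := lt_trans (by norm_num) (show (4 : ℝ) < u from hu)
    rw [Real.norm_eq_abs, abs_of_nonneg (hG0 u), per_rpow_three_half hu', ← mul_assoc]
    have h1 : (2 : ℝ) * u⁻¹ = (u / 2)⁻¹ := by field_simp
    rw [h1]
    exact per_inv_sqrt_le hu' (by positivity) (by nlinarith [sq_nonneg (u - 2)])
  have l2 : (4 / 5 : ℝ) ≤ ∫ u in Set.Ioi (4 : ℝ), G u := by
    have : (4 / 5 : ℝ) = ∫ u in Set.Ioi (4 : ℝ), (4 / 5 : ℝ) * u ^ (-(3 / 2) : ℝ) := by
      rw [integral_const_mul, v2]; norm_num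
    rw [this]
    refine setIntegral_mono_on (i2.const_mul _) g2 measurableSet_Ioi fun u hu => ?_
    have hu4 : (4 : ℝ) < u := hu
    have hu' : 0 < u := by linarith
    rw [per_rpow_three_half hu', ← mul_assoc]
    have h1 : (4 / 5 : ℝ) * u⁻¹ = (5 * u / 4)⁻¹ := by field_simp
    rw [h1]
    refine per_le_inv_sqrt hu' (by positivity) (by positivity) ?_
    nlinarith
  have hunion : ∫ u in Set.Ioi (0 : ℝ), G u =
      (∫ u in Set.Ioc (0 : ℝ) 4, G u) + ∫ u in Set.Ioi (4 : ℝ), G u := by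
    rw [← setIntegral_union (Set.Ioc_disjoint_Ioi le_rfl) measurableSet_Ioi g1 g2,
      Set.Ioc_union_Ioi_eq_Ioi (by norm_num)]
  rw [hunion]
  linarith

end Pool.Agent.MT136
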