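import Mathlib
import Pool.Agent.MT136.Defs
import Pool.Agent.MT136.GroupRing

/-!
# The group ring computation for the powers of `17`
-/

set_option autoImplicit false

namespace Pool.Agent.MT136

/-- Iterated distribution relation. -/
theorem iter_distrib (N : ℚ → ℤ) (hN : ∀ r : ℚ, ∑ j ∈ Finset.range 17, N ((r + j) / 17) = N r)
    (k : ℕ) (r : ℚ) : ∑ j ∈ Finset.range (17 ^ k), N ((r + j) / 17 ^ k) = N r := by
  induction k with
  | zero => simp
  | succ k ih =>
    have h1 : ∑ j ∈ Finset.range (17 ^ (k + 1)), N ((r + j) / 17 ^ (k + 1)) =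
        ∑ i ∈ Finset.range (17 ^ k), ∑ l ∈ Finset.range 17,
          N (((r + i) / 17 ^ k + l) / 17) := by
      rw [Finset.sum_range, pow_succ', ← finProdFinEquiv.sum_comp, Fintype.sum_prod_type,
        Finset.sum_comm, Finset.sum_range]
      refine Finset.sum_congr rfl fun i _ => ?_
      rw [Finset.sum_range]
      refine Finset.sum_congr rfl fun l _ => ?_
      congr 1
      have : ((finProdFinEquiv (l, i) : Fin (17 * 17 ^ k)) : ℕ) = i + 17 ^ k * l := rfl
      rw [this]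
      push_cast
      field_simp
      ring
    rw [h1, ← ih]
    exact Finset.sum_congr rfl fun i _ => hN _

/-- The reduction `(ℤ/17^(k+1))ˣ → (ℤ/17)ˣ`. -/
noncomputable def redu (k : ℕ) : (ZMod (17 ^ (k + 1)))ˣ →* (ZMod 17)ˣ :=
  ZMod.unitsMap (Dvd.intro_left (17 ^ k) rfl)

theorem redu_val (k : ℕ) (b : (ZMod (17 ^ (k + 1)))ˣ) :
    (redu k b).val.val = b.val.val % 17 := by
  have h : ((redu k b : (ZMod 17)ˣ) : ZMod 17) = ((b.val.val : ℕ) : ZMod 17) := by
    unfold redu
    rw [ZMod.unitsMap_val, ZMod.cast_eq_val]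
  rw [h, ZMod.val_natCast]

theorem fibre_sum (N : ℚ → ℤ) (hN : ∀ r : ℚ, ∑ j ∈ Finset.range 17, N ((r + j) / 17) = N r)
    (k : ℕ) (a : (ZMod 17)ˣ) :
    ∑ b ∈ (Finset.univ : Finset (ZMod (17 ^ (k + 1)))ˣ) with redu k b = a,
      N ((b.val.val : ℚ) / (17 ^ (k + 1) : ℕ)) = N ((a.val.val : ℚ) / 17) := by
  have hpow : (17 : ℕ) ^ (k + 1) = 17 ^ k * 17 := pow_succ _ _
  have : NeZero (17 ^ (k + 1)) := ⟨by positivity⟩
  rw [← iter_distrib N hN k]
  refine Finset.sum_bij (fun b _ => b.val.val / 17) ?_ ?_ ?_ ?_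
  · intro b hb
    rw [Finset.mem_range]
    have h1 : b.val.val < 17 * 17 ^ k := by
      have h2 := ZMod.val_lt b.val
      omega
    exact Nat.div_lt_of_lt_mul h1
  · intro b hb c hc hbc
    rw [Finset.mem_filter] at hb hc
    have h1 : b.val.val % 17 = c.val.val % 17 := by
      rw [← redu_val, ← redu_val, hb.2, hc.2]
    have h2 : b.val.val = c.val.val := by
      have h3 : b.val.val / 17 = c.val.val / 17 := hbc
      omega
    exact Units.ext (ZMod.val_injective _ h2)
  · intro j hj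
    rw [Finset.mem_range] at hj
    have ha : a.val.val < 17 := ZMod.val_lt _
    have hcop : Nat.Coprime (a.val.val + 17 * j) (17 ^ (k + 1)) := by
      apply Nat.Coprime.pow_right
      have h1 : Nat.Coprime a.val.val 17 := ZMod.val_coe_unit_coprime a
      simpa using h1
    have hlt : a.val.val + 17 * j < 17 ^ (k + 1) := by
      rw [hpow]; omega
    have hval : (ZMod.unitOfCoprime _ hcop).val.val = a.val.val + 17 * j := by
      rw [ZMod.coe_unitOfCoprime, ZMod.val_natCast, Nat.mod_eq_of_lt hlt]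
    refine ⟨ZMod.unitOfCoprime _ hcop, ?_, ?_⟩
    · rw [Finset.mem_filter]
      refine ⟨Finset.mem_univ _, ?_⟩
      apply Units.ext
      apply ZMod.val_injective
      rw [redu_val, hval]
      omega
    · rw [hval]
      omega
  · intro b hb
    rw [Finset.mem_filter] at hb
    have h1 : b.val.val % 17 = a.val.val := by rw [← redu_val, hb.2]
    have h2 : (b.val.val : ℚ) = a.val.val + 17 * (b.val.val / 17 : ℕ) := by
      have : b.val.val = a.val.val + 17 * (b.val.val / 17) := by omega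
      exact_mod_cast this
    congr 1
    rw [h2]
    generalize (b.val.val / 17 : ℕ) = m
    push_cast
    rw [pow_succ]
    field_simp

theorem not_mem_sq_pow (R : Subring ℚ) (hR : ∀ c ∈ R, ∃ n : ℤ, c = n) (k : ℕ)
    (θ : MonoidAlgebra R (ZMod (17 ^ (k + 1)))ˣ) (N : ℚ → ℤ)
    (hN : ∀ r : ℚ, ∑ j ∈ Finset.range 17, N ((r + j) / 17) = N r)
    (hθ : ∀ b : (ZMod (17 ^ (k + 1)))ˣ,
      ((θ.coeff b : R) : ℚ) = N ((b.val.val : ℚ) / (17 ^ (k + 1) : ℕ)))
    (h : ∀ a < 17, N (((17 - a : ℕ) : ℚ) / 17) = N ((a : ℚ) / 17))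
    (h12 : N (1 / 17) = N (2 / 17)) (h35 : N (3 / 17) = N (5 / 17))
    (h48 : N (4 / 17) = N (8 / 17)) (h6 : Odd (N (6 / 17))) :
    θ ∉ augIdeal R (17 ^ (k + 1)) ^ 2 := by
  intro hmem
  have : NeZero (17 ^ (k + 1)) := ⟨by positivity⟩
  let φ : MonoidAlgebra R (ZMod (17 ^ (k + 1)))ˣ →+* MonoidAlgebra R (ZMod 17)ˣ :=
    MonoidAlgebra.mapDomainRingHom R (redu k)
  have hle : augIdeal R (17 ^ (k + 1)) ≤ (augIdeal R 17).comap φ := by
    have hcomp : (MonoidAlgebra.lift R R (ZMod 17)ˣ 1 :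
        MonoidAlgebra R (ZMod 17)ˣ →ₐ[R] R).toRingHom.comp φ =
        (MonoidAlgebra.lift R R (ZMod (17 ^ (k + 1)))ˣ 1 :
        MonoidAlgebra R (ZMod (17 ^ (k + 1)))ˣ →ₐ[R] R).toRingHom := by
      apply MonoidAlgebra.ringHom_ext <;> intro x <;> simp [φ]
    intro x hx
    rw [Ideal.mem_comap]
    rw [augIdeal, RingHom.mem_ker] at hx ⊢
    have := congrArg (fun g => g x) hcomp
    exact this.trans hx
  have hmem' : φ θ ∈ augIdeal R 17 ^ 2 := by
    have h1 := Ideal.pow_right_mono hle 2 hmem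
    exact Ideal.le_comap_pow φ 2 h1
  refine not_mem_sq R hR (φ θ) (fun a => N ((a : ℚ) / 17)) ?_ h (by exact_mod_cast h12)
    (by exact_mod_cast h35) (by exact_mod_cast h48) (by exact_mod_cast h6) hmem'
  intro a
  have hc : (φ θ).coeff a = ∑ b ∈ (Finset.univ : Finset (ZMod (17 ^ (k + 1)))ˣ) with redu k b = a,
      θ.coeff b := by
    change (Finsupp.mapDomain (redu k) θ.coeff) a = _
    rw [Finsupp.mapDomain, Finsupp.sum_fintype _ _ (by simp), Finsupp.finsetSum_apply,
      Finset.sum_filter]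
    refine Finset.sum_congr rfl fun b _ => ?_
    rw [Finsupp.single_apply]
  rw [hc, ← fibre_sum N hN k a]
  push_cast
  exact Finset.sum_congr rfl fun b _ => by rw [hθ b]; push_cast; rfl

end Pool.Agent.MT136
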