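import Mathlib
import Pool.Agent.MT136.Defs
import Pool.Agent.MT136.Core

/-!
# Sturm bound for `Γ₀(136)`
-/

set_option autoImplicit false

namespace Pool.Agent.MT136

open CongruenceSubgroup UpperHalfPlane Filter Topology Asymptotics
open scoped Manifold MatrixGroups

namespace SturmAux

/-- Order of vanishing and domination. -/
theorem order_of_bigO {F G : ℂ → ℂ} (hF : AnalyticAt ℂ F 0) (hG : AnalyticAt ℂ G 0) {n : ℕ}
    (hn : (n : ℕ∞) ≤ analyticOrderAt G 0) (h : F =O[𝓝[≠] 0] G) :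
    (n : ℕ∞) ≤ analyticOrderAt F 0 := by
  by_contra hlt
  rw [not_le] at hlt
  obtain ⟨m, hm⟩ : ∃ m : ℕ, analyticOrderAt F 0 = m :=
    ENat.ne_top_iff_exists.mp (ne_top_of_lt hlt) |>.imp fun a ha => ha.symm
  rw [hm] at hlt
  have hmn : m < n := by exact_mod_cast hlt
  obtain ⟨g, hg, hg0, hgF⟩ := hF.analyticOrderAt_eq_natCast.mp hm
  obtain ⟨g₂, hg₂, hgG⟩ := (natCast_le_analyticOrderAt hG).mp hn
  -- `g = O(z^(n-m) g₂)` on the punctured neighbourhood
  obtain ⟨C, hC⟩ := h.bound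
  have hb : ∀ᶠ z in 𝓝[≠] (0 : ℂ), ‖g z‖ ≤ C * (‖z‖ ^ (n - m) * ‖g₂ z‖) := by
    filter_upwards [hC, hgF.filter_mono nhdsWithin_le_nhds, hgG.filter_mono nhdsWithin_le_nhds,
      self_mem_nhdsWithin] with z h1 h2 h3 h4
    have hz : 0 < ‖z‖ := norm_pos_iff.mpr h4
    rw [h2, h3] at h1
    simp only [sub_zero, norm_smul, norm_pow] at h1
    have h5 : ‖z‖ ^ n = ‖z‖ ^ m * ‖z‖ ^ (n - m) := by rw [← pow_add]; congr 1; omega
    rw [h5] at h1
    have h6 : 0 < ‖z‖ ^ m := pow_pos hz m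
    refine le_of_mul_le_mul_left ?_ h6
    calc ‖z‖ ^ m * ‖g z‖ ≤ C * (‖z‖ ^ m * ‖z‖ ^ (n - m) * ‖g₂ z‖) := h1
      _ = _ := by ring
  have ht : Tendsto (fun z : ℂ => C * (‖z‖ ^ (n - m) * ‖g₂ z‖)) (𝓝[≠] 0) (𝓝 0) := by
    have h1 : ContinuousAt (fun z : ℂ => C * (‖z‖ ^ (n - m) * ‖g₂ z‖)) 0 := by
      have := hg₂.continuousAt
      fun_prop
    have h2 : C * (‖(0 : ℂ)‖ ^ (n - m) * ‖g₂ 0‖) = 0 := by
      rw [norm_zero, zero_pow (by omega)]; ring
    have h3 := h1.tendsto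
    rw [h2] at h3
    exact h3.mono_left nhdsWithin_le_nhds
  have ht2 : Tendsto (fun z : ℂ => ‖g z‖) (𝓝[≠] 0) (𝓝 ‖g 0‖) :=
    (hg.continuousAt.norm.tendsto).mono_left nhdsWithin_le_nhds
  have := le_of_tendsto_of_tendsto ht2 ht hb
  exact hg0 (norm_le_zero_iff.mp this)

/-! ### The index -/

/-- Primitive rows modulo `136`. -/
def rows : Finset (ZMod 136 × ZMod 136) :=
  Finset.univ.filter (fun p : ZMod 136 × ZMod 136 => Nat.gcd (Nat.gcd p.1.val p.2.val) 136 = 1)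

set_option maxRecDepth 10000 in
theorem mem_rows (p : ZMod 136 × ZMod 136) (h : Nat.gcd (Nat.gcd p.1.val p.2.val) 136 = 1) :
    p ∈ rows := Finset.mem_filter.mpr ⟨Finset.mem_univ _, h⟩

/-- Number of primitive rows modulo `136`. -/
theorem card_rows : rows.card = 13824 := by
  decide +kernel

/-- A coset and a unit determine a primitive row. -/
noncomputable def rowMap (x : (SL(2, ℤ) ⧸ Gamma0 136) × (ZMod 136)ˣ) : ZMod 136 × ZMod 136 :=
  ((x.2 : ZMod 136) * ((x.1.out 1 0 : ℤ) : ZMod 136), (x.2 : ZMod 136) *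
    ((x.1.out 0 0 : ℤ) : ZMod 136))

theorem rowMap_injective : Function.Injective rowMap := by
  rintro ⟨q, u⟩ ⟨q', u'⟩ h
  simp only [rowMap, Prod.mk.injEq] at h
  obtain ⟨h1, h2⟩ := h
  set g := q.out with hg
  set g' := q'.out with hg'
  have hq : q = q' := by
    rw [← q.out_eq, ← q'.out_eq]
    change QuotientGroup.mk (s := Gamma0 136) q.out = QuotientGroup.mk (s := Gamma0 136) q'.out
    rw [QuotientGroup.eq, Gamma0_mem]
    have h3 : (q.out⁻¹ * q'.out) 1 0 = -(g 1 0) * g' 0 0 + g 0 0 * g' 1 0 := by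
      rw [← hg, ← hg']
      simp [Matrix.SpecialLinearGroup.coe_mul, Matrix.mul_apply, Fin.sum_univ_two,
        Matrix.adjugate_fin_two]
    rw [h3]
    push_cast
    have h4 : (u : ZMod 136) * (-((g 1 0 : ℤ) : ZMod 136) * ((g' 0 0 : ℤ) : ZMod 136) +
        ((g 0 0 : ℤ) : ZMod 136) * ((g' 1 0 : ℤ) : ZMod 136)) = 0 := by
      linear_combination -((g' 0 0 : ℤ) : ZMod 136) * h1 + ((g' 1 0 : ℤ) : ZMod 136) * h2
    exact (Units.isUnit u).mul_right_eq_zero.mp h4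
  subst hq
  have hdet : g 0 0 * g 1 1 - g 0 1 * g 1 0 = 1 := by
    have := Matrix.det_fin_two (g : Matrix (Fin 2) (Fin 2) ℤ)
    rw [g.det_coe] at this
    linarith
  have hdet' : ((g 0 0 : ℤ) : ZMod 136) * ((g 1 1 : ℤ) : ZMod 136) -
      ((g 0 1 : ℤ) : ZMod 136) * ((g 1 0 : ℤ) : ZMod 136) = 1 := by
    exact_mod_cast congrArg (Int.cast : ℤ → ZMod 136) hdet
  have hu : (u : ZMod 136) = u' := by
    linear_combination ((g 1 1 : ℤ) : ZMod 136) * h2 - ((g 0 1 : ℤ) : ZMod 136) * h1 +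
      ((u' : ZMod 136) - u) * hdet'
  rw [Prod.mk.injEq]
  exact ⟨rfl, Units.ext hu⟩

set_option maxRecDepth 10000 in
theorem rowMap_mem (x : (SL(2, ℤ) ⧸ Gamma0 136) × (ZMod 136)ˣ) :
    rowMap x ∈ rows := by
  obtain ⟨q, u⟩ := x
  apply mem_rows
  simp only [rowMap]
  set g := q.out with hg
  have hdet : g 0 0 * g 1 1 - g 0 1 * g 1 0 = 1 := by
    have := Matrix.det_fin_two (g : Matrix (Fin 2) (Fin 2) ℤ)
    rw [g.det_coe] at this
    linarith
  have hdet' : ((g 0 0 : ℤ) : ZMod 136) * ((g 1 1 : ℤ) : ZMod 136) -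
      ((g 0 1 : ℤ) : ZMod 136) * ((g 1 0 : ℤ) : ZMod 136) = 1 := by
    exact_mod_cast congrArg (Int.cast : ℤ → ZMod 136) hdet
  set x : ZMod 136 := (u : ZMod 136) * ((g 1 0 : ℤ) : ZMod 136) with hx
  set y : ZMod 136 := (u : ZMod 136) * ((g 0 0 : ℤ) : ZMod 136) with hy
  have h1 : (↑u⁻¹ : ZMod 136) * ((g 1 1 : ℤ) : ZMod 136) * y -
      (↑u⁻¹ : ZMod 136) * ((g 0 1 : ℤ) : ZMod 136) * x = 1 := by
    have hu : (↑u⁻¹ : ZMod 136) * (u : ZMod 136) = 1 := Units.inv_mul u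
    rw [hx, hy]
    linear_combination (((g 0 0 : ℤ) : ZMod 136) * ((g 1 1 : ℤ) : ZMod 136) -
      ((g 0 1 : ℤ) : ZMod 136) * ((g 1 0 : ℤ) : ZMod 136)) * hu + hdet'
  set d := Nat.gcd (Nat.gcd x.val y.val) 136 with hd
  have hd136 : d ∣ 136 := Nat.gcd_dvd_right _ _
  have hdx : d ∣ x.val := (Nat.gcd_dvd_left _ _).trans (Nat.gcd_dvd_left _ _)
  have hdy : d ∣ y.val := (Nat.gcd_dvd_left _ _).trans (Nat.gcd_dvd_right _ _)
  have : NeZero d := ⟨fun h0 => by rw [h0] at hd136; omega⟩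
  let φ : ZMod 136 →+* ZMod d := ZMod.castHom hd136 (ZMod d)
  have hφ : ∀ z : ZMod 136, d ∣ z.val → φ z = 0 := by
    intro z hz
    have h2 : z = ((z.val : ℕ) : ZMod 136) := (ZMod.natCast_zmod_val z).symm
    rw [h2, map_natCast]
    exact (ZMod.natCast_eq_zero_iff _ _).mpr hz
  have h3 : (1 : ZMod d) = 0 := by
    have := congrArg φ h1
    rw [map_sub, map_mul, map_mul φ _ x, hφ x hdx, hφ y hdy, map_one, mul_zero, mul_zero,
      sub_zero] at this
    exact this.symm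
  by_contra hne
  have : Fact (1 < d) := ⟨by have := NeZero.pos d; omega⟩
  exact one_ne_zero h3

set_option maxRecDepth 10000 in
theorem index_le : (Gamma0 136).index ≤ 216 := by
  have : (Gamma0 136).FiniteIndex := inferInstance
  have : Finite (SL(2, ℤ) ⧸ Gamma0 136) := Subgroup.finite_quotient_of_finiteIndex
  have := Fintype.ofFinite (SL(2, ℤ) ⧸ Gamma0 136)
  have h1 : Fintype.card ((SL(2, ℤ) ⧸ Gamma0 136) × (ZMod 136)ˣ) ≤ 13824 := by
    refine le_trans ?_ card_rows.le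
    rw [← Finset.card_univ, ← Finset.card_image_of_injective _ rowMap_injective]
    apply Finset.card_le_card
    intro y hy
    obtain ⟨x, _, rfl⟩ := Finset.mem_image.mp hy
    exact rowMap_mem x
  rw [Fintype.card_prod, ZMod.card_units_eq_totient, show Nat.totient 136 = 64 by decide +kernel]
    at h1
  rw [Subgroup.index, Nat.card_eq_fintype_card]
  omega

theorem card_quot_le : Nat.card (𝒮ℒ ⧸ ((Gamma0 136 : Subgroup (GL (Fin 2) ℝ))).subgroupOf 𝒮ℒ) ≤
    216 := by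
  have h : Nat.card (𝒮ℒ ⧸ ((Gamma0 136 : Subgroup (GL (Fin 2) ℝ))).subgroupOf 𝒮ℒ) =
      (Gamma0 136).index := by
    change ((Gamma0 136 : Subgroup (GL (Fin 2) ℝ))).relIndex 𝒮ℒ = _
    rw [MonoidHom.range_eq_map, ← Subgroup.relIndex_comap,
      Subgroup.comap_map_eq_self_of_injective Matrix.SpecialLinearGroup.mapGL_injective,
      Subgroup.relIndex_top_right]
  rw [h]
  exact index_le

/-- All factors of the norm are bounded at `i∞`. -/
theorem quotientFunc_bdd {k : ℤ} (Z : ModularForm (Gamma0 136) k)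
    (q : 𝒮ℒ ⧸ ((Gamma0 136 : Subgroup (GL (Fin 2) ℝ))).subgroupOf 𝒮ℒ) :
    IsBoundedAtImInfty (SlashInvariantForm.quotientFunc Z q) := by
  induction q using Quotient.inductionOn with
  | h r =>
    obtain ⟨r, γ, rfl⟩ := r
    rw [SlashInvariantForm.quotientFunc_mk]
    have := ModularFormClass.bdd_at_infty_slash Z γ⁻¹
    rw [ModularForm.SL_slash, map_inv] at this
    exact this

theorem prod_isBigO {ι : Type*} [Fintype ι] (F : ι → ℍ → ℂ)
    (hF : ∀ i, IsBoundedAtImInfty (F i)) (i₀ : ι) : (∏ q, F q) =O[atImInfty] F i₀ := by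
  classical
  rw [← Finset.mul_prod_erase Finset.univ _ (Finset.mem_univ i₀)]
  have h2 : (∏ q ∈ Finset.univ.erase i₀, F q) =O[atImInfty] (1 : ℍ → ℝ) := by
    rw [show (1 : ℍ → ℝ) = (fun x ↦ ∏ i ∈ Finset.univ.erase i₀, 1) by ext; simp, Finset.prod_fn]
    exact .finsetProd fun q _ => hF q
  have h3 := (isBigO_refl (F i₀) atImInfty).norm_left.norm_right
  have h4 : (fun τ => ‖F i₀ τ‖ * ‖(∏ q ∈ Finset.univ.erase i₀, F q) τ‖) =O[atImInfty]
      (fun τ => ‖F i₀ τ‖ * (1 : ℍ → ℝ) τ) := h3.mul h2.norm_left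
  simp only [Pi.one_apply, mul_one, ← norm_mul] at h4
  exact h4.of_norm_norm

theorem norm_isBigO {k : ℤ} (Z : ModularForm (Gamma0 136) k) :
    (ModularForm.norm 𝒮ℒ Z : ℍ → ℂ) =O[atImInfty] (Z : ℍ → ℂ) := by
  rw [ModularForm.coe_norm]
  have h1 : SlashInvariantForm.quotientFunc Z
      (⟦1⟧ : 𝒮ℒ ⧸ ((Gamma0 136 : Subgroup (GL (Fin 2) ℝ))).subgroupOf 𝒮ℒ) = (Z : ℍ → ℂ) := by
    rw [SlashInvariantForm.quotientFunc_mk]
    simp
  have h2 := @prod_isBigO (𝒮ℒ ⧸ ((Gamma0 136 : Subgroup (GL (Fin 2) ℝ))).subgroupOf 𝒮ℒ)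
    (Fintype.ofFinite _) (fun q => SlashInvariantForm.quotientFunc Z q)
    (fun q => quotientFunc_bdd Z q) ⟦1⟧
  rw [h1] at h2
  exact h2

theorem cuspFunction_isBigO {f g : ℍ → ℂ} (h : f =O[atImInfty] g) :
    cuspFunction 1 f =O[𝓝[≠] 0] cuspFunction 1 g := by
  have h1 : Tendsto (fun q => ofComplex (Function.Periodic.invQParam 1 q)) (𝓝[≠] 0) atImInfty :=
    tendsto_comap_im_ofComplex.comp (Function.Periodic.invQParam_tendsto one_pos)
  have h2 := h.comp_tendsto h1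
  refine h2.congr' ?_ ?_
  · filter_upwards [self_mem_nhdsWithin] with q hq
    exact (Function.Periodic.cuspFunction_eq_of_nonzero 1 (f ∘ ofComplex) hq).symm
  · filter_upwards [self_mem_nhdsWithin] with q hq
    exact (Function.Periodic.cuspFunction_eq_of_nonzero 1 (g ∘ ofComplex) hq).symm

end SturmAux

open SturmAux in
theorem sturm136 (k : ℕ) (Z : ModularForm (Gamma0 136) (k : ℤ))
    (hZ : ∀ n ≤ 18 * k, (qExpansion 1 Z).coeff n = 0) : Z = 0 := by
  have hper : (1 : ℝ) ∈ ((Gamma0 136 : Subgroup (GL (Fin 2) ℝ))).strictPeriods := by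
    rw [strictPeriods_Gamma0]; exact AddSubgroup.mem_zmultiples 1
  have hperS : (1 : ℝ) ∈ (𝒮ℒ : Subgroup (GL (Fin 2) ℝ)).strictPeriods := by
    rw [Subgroup.strictPeriods_SL2Z]; exact AddSubgroup.mem_zmultiples 1
  have hG := ModularFormClass.analyticAt_cuspFunction_zero Z one_pos hper
  have hF := ModularFormClass.analyticAt_cuspFunction_zero (ModularForm.norm 𝒮ℒ Z) one_pos hperS
  have hGn : ((18 * k + 1 : ℕ) : ℕ∞) ≤ analyticOrderAt (cuspFunction 1 Z) 0 := by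
    rw [natCast_le_analyticOrderAt_iff_iteratedDeriv_eq_zero hG]
    intro i hi
    have := hZ i (by omega)
    rw [qExpansion_coeff] at this
    exact (mul_eq_zero.mp this).resolve_left
      (inv_ne_zero (Nat.cast_ne_zero.mpr (Nat.factorial_ne_zero i)))
  have hFn := order_of_bigO hF hG hGn (cuspFunction_isBigO (norm_isBigO Z))
  rw [natCast_le_analyticOrderAt_iff_iteratedDeriv_eq_zero hF] at hFn
  have hord : ((18 * k + 1 : ℕ) : ℕ∞) ≤ (qExpansion 1 (ModularForm.norm 𝒮ℒ Z)).order := by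
    apply PowerSeries.nat_le_order
    intro i hi
    rw [qExpansion_coeff, hFn i hi, mul_zero]
  have hN : ModularForm.norm 𝒮ℒ Z = 0 := by
    apply ModularForm.sturm_bound_levelOne
    refine lt_of_lt_of_le ?_ hord
    have hc := card_quot_le
    norm_cast
    have h2 : k * Nat.card (𝒮ℒ ⧸ ((Gamma0 136 : Subgroup (GL (Fin 2) ℝ))).subgroupOf 𝒮ℒ) ≤
      k * 216 := Nat.mul_le_mul_left k hc
    omega
  rw [ModularForm.norm_eq_zero_iff] at hN
  ext τ
  exact congrFun hN τ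

end Pool.Agent.MT136
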