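import Mathlib
import Pool.Agent.MT136.Defs
import Pool.Agent.MT136.Core

/-!
# The modular function `x` has a pole at every cusp
-/

set_option autoImplicit false

namespace Pool.Agent.MT136

open CongruenceSubgroup UpperHalfPlane Filter Topology
open scoped Manifold MatrixGroups ModularForm

private theorem f_div_denom (f : CuspForm (Gamma0 136) 2) (γ : SL(2, ℤ)) :
    Tendsto (fun τ : ℍ => f (γ • τ) / (denom γ τ) ^ 2) atImInfty (𝓝 0) := by
  have h := CuspFormClass.zero_at_infty_slash (k := 2) f γ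
  rw [IsZeroAtImInfty, ZeroAtFilter] at h
  refine h.congr fun τ => ?_
  rw [ModularForm.SL_slash_apply]
  rw [zpow_neg, div_eq_mul_inv]
  norm_cast

private theorem exists_sl (r : ℚ) : ∃ (γ : SL(2, ℤ)), (0 : ℤ) < γ 1 0 ∧
    (r : ℂ) = (γ 0 0 : ℂ) / (γ 1 0 : ℂ) := by
  have hco : IsCoprime r.num (r.den : ℤ) := by
    rw [Int.isCoprime_iff_gcd_eq_one]
    exact r.reduced
  obtain ⟨u, v, huv⟩ := hco
  refine ⟨⟨!![r.num, -v; (r.den : ℤ), u], by rw [Matrix.det_fin_two_of]; linarith⟩, ?_, ?_⟩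
  · simpa using r.den_pos
  · simp only [Matrix.of_apply, Matrix.cons_val', Matrix.cons_val_zero, Matrix.cons_val_one,
      Matrix.cons_val_fin_one]
    have := Rat.num_div_den r
    have h2 : ((r.num : ℚ) / (r.den : ℚ) : ℚ) = r := this
    rw [← h2]
    push_cast
    simp [h2]

theorem x_cusp (f : CuspForm (Gamma0 136) 2)
    (hcusp : ∀ γ : SL(2, ℤ), ∃ a b c : ℂ, 8 * a ^ 2 - 17 * b ^ 2 - c ^ 2 = 0 ∧
      12 * a ^ 2 + 126 * c ^ 2 ≠ 0 ∧
      Tendsto (fun τ : ℍ => al (γ • τ) / (denom γ τ) ^ 2) atImInfty (𝓝 a) ∧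
      Tendsto (fun τ : ℍ => be (γ • τ) / (denom γ τ) ^ 2) atImInfty (𝓝 b) ∧
      Tendsto (fun τ : ℍ => ga (γ • τ) / (denom γ τ) ^ 2) atImInfty (𝓝 c)) (r : ℚ) :
    Tendsto (fun t : ℝ => gg f (ofComplex ((r : ℂ) + t * Complex.I)) /
      hh f (ofComplex ((r : ℂ) + t * Complex.I))) (𝓝[>] 0) (𝓝 0) := by
  obtain ⟨γ, hc, hr⟩ := exists_sl r
  obtain ⟨a, b, c, h1, h2, ha, hb, hg⟩ := hcusp γ
  have hf := f_div_denom f γ
  -- the ratio along `atImInfty`
  have key : Tendsto (fun τ : ℍ => gg f (γ • τ) / hh f (γ • τ)) atImInfty (𝓝 0) := by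
    have hG : Tendsto (fun τ : ℍ => gg f (γ • τ) / (denom γ τ) ^ 4) atImInfty (𝓝 0) := by
      have := (((hf.pow 2).const_mul 476).add ((ha.pow 2).const_mul 8)).sub
        ((hb.pow 2).const_mul 17) |>.sub (hg.pow 2)
      have e : 476 * (0 : ℂ) ^ 2 + 8 * a ^ 2 - 17 * b ^ 2 - c ^ 2 = 0 := by
        linear_combination h1
      rw [e] at this
      refine this.congr fun τ => ?_
      have := denom_ne_zero γ τ
      simp only [gg]
      field_simp
    have hH : Tendsto (fun τ : ℍ => hh f (γ • τ) / (denom γ τ) ^ 4) atImInfty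
        (𝓝 (12 * a ^ 2 + 126 * c ^ 2)) := by
      have := (((hf.pow 2).const_mul (-102)).add ((ha.pow 2).const_mul 12)).add
        ((hg.pow 2).const_mul 126)
      have e : -102 * (0 : ℂ) ^ 2 + 12 * a ^ 2 + 126 * c ^ 2 = 12 * a ^ 2 + 126 * c ^ 2 := by ring
      rw [e] at this
      refine this.congr fun τ => ?_
      have := denom_ne_zero γ τ
      simp only [hh]
      field_simp
    have := hG.div hH h2
    rw [zero_div] at this
    refine this.congr fun τ => ?_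
    have h0 := denom_ne_zero γ τ
    simp only [Pi.div_apply]
    rw [div_div_div_cancel_right₀ (pow_ne_zero 4 h0)]
  -- the path
  have hc' : (0 : ℝ) < (γ 1 0 : ℝ) := by exact_mod_cast hc
  have hcC : (γ 1 0 : ℂ) ≠ 0 := by exact_mod_cast hc.ne'
  set p : ℝ → ℂ := fun t => -(γ 1 1 : ℂ) / (γ 1 0 : ℂ) +
    ((1 / ((γ 1 0 : ℝ) ^ 2 * t) : ℝ) : ℂ) * Complex.I with hp
  have him : ∀ t, (p t).im = 1 / ((γ 1 0 : ℝ) ^ 2 * t) := by
    intro t
    have : (-(γ 1 1 : ℂ) / (γ 1 0 : ℂ)).im = 0 := by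
      have : (-(γ 1 1 : ℂ) / (γ 1 0 : ℂ)) = ((-(γ 1 1 : ℝ) / (γ 1 0 : ℝ) : ℝ) : ℂ) := by
        push_cast; rfl
      rw [this, Complex.ofReal_im]
    simp only [hp, Complex.add_im, this, Complex.im_ofReal_mul, Complex.I_im, mul_one, zero_add]
  have hpath : Tendsto (fun t : ℝ => ofComplex (p t)) (𝓝[>] 0) atImInfty := by
    refine tendsto_comap_im_ofComplex.comp ?_
    rw [tendsto_comap_iff]
    have : (Complex.im ∘ p) = fun t => 1 / ((γ 1 0 : ℝ) ^ 2) * t⁻¹ := by
      funext t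
      simp only [Function.comp, him]
      rw [one_div, mul_inv, one_div]
    rw [this]
    exact tendsto_inv_nhdsGT_zero.const_mul_atTop (by positivity)
  refine (key.comp hpath).congr' ?_
  filter_upwards [self_mem_nhdsWithin] with t ht
  have ht : 0 < t := ht
  have hpt : 0 < (p t).im := by rw [him]; positivity
  have hmain : γ • ofComplex (p t) = ofComplex ((r : ℂ) + t * Complex.I) := by
    have h3 : 0 < ((r : ℂ) + t * Complex.I).im := by simp [ht]
    rw [ofComplex_apply_of_im_pos hpt, ofComplex_apply_of_im_pos h3]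
    ext1
    rw [UpperHalfPlane.coe_specialLinearGroup_apply]
    simp only [algebraMap_int_eq, eq_intCast, Complex.ofReal_intCast]
    show ((γ 0 0 : ℂ) * p t + (γ 0 1 : ℂ)) / ((γ 1 0 : ℂ) * p t + (γ 1 1 : ℂ)) = _
    have htC : (t : ℂ) ≠ 0 := by exact_mod_cast ht.ne'
    have hden : (γ 1 0 : ℂ) * p t + (γ 1 1 : ℂ) = Complex.I / ((γ 1 0 : ℂ) * t) := by
      simp only [hp]; push_cast; field_simp; ring
    have hdet : (γ 0 0 : ℂ) * (γ 1 1 : ℂ) - (γ 0 1 : ℂ) * (γ 1 0 : ℂ) = 1 := by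
      have := Matrix.det_fin_two (γ : Matrix (Fin 2) (Fin 2) ℤ)
      rw [γ.det_coe] at this
      exact_mod_cast this.symm
    rw [hden, hr]
    have hI : Complex.I ≠ 0 := Complex.I_ne_zero
    rw [div_eq_iff (by positivity)]
    simp only [hp]; push_cast; field_simp
    have hI2 : Complex.I ^ 2 = -1 := Complex.I_sq
    linear_combination (-(γ 1 0 : ℂ) * t) * hdet - (γ 1 0 : ℂ) * t * hI2
  simp only [Function.comp]
  rw [hmain]

end Pool.Agent.MT136
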