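import Mathlib
import Pool.Agent.MT136.Defs
import Pool.Agent.MT136.Core
import Pool.Agent.MT136.Arith
import Pool.Agent.MT136.Bracket
import Pool.Agent.MT136.Coeff
import Pool.Agent.MT136.Eis
import Pool.Agent.MT136.EisW
import Pool.Agent.MT136.EisCusp
import Pool.Agent.MT136.FW
import Pool.Agent.MT136.Ident
import Pool.Agent.MT136.Lattice
import Pool.Agent.MT136.Num
import Pool.Agent.MT136.Period
import Pool.Agent.MT136.Prim
import Pool.Agent.MT136.Sturm
import Pool.Agent.MT136.Unif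
import Pool.Agent.MT136.XCusp
import Pool.Agent.MT136.DefsBar
import Pool.Agent.MT136.GroupRingBar
import Pool.Agent.MT136.Distrib
import Pool.Agent.MT136.PowSeventeen

set_option autoImplicit false

namespace Pool.Agent.MT136

open CongruenceSubgroup UpperHalfPlane Filter Topology
open scoped Manifold MatrixGroups

/-- Translation by one. -/
theorem f_add_one (f : CuspForm (Gamma0 136) 2) (z : ℂ) :
    f (ofComplex (z + 1)) = f (ofComplex z) := by
  have h : (1 : ℝ) ∈ ((Gamma0 136 : Subgroup SL(2, ℤ)) : Subgroup (GL (Fin 2) ℝ)).strictPeriods := by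
    rw [Subgroup.strictPeriods_eq_zmultiples_one_of_T_mem]
    · exact AddSubgroup.mem_zmultiples 1
    · rw [Gamma0_mem]
      simp [ModularGroup.T]
  exact_mod_cast SlashInvariantFormClass.periodic_comp_ofComplex f h z

theorem lam_add_one (f : CuspForm (Gamma0 136) 2) (r : ℚ) : lam f (r + 1) = lam f r := by
  unfold lam
  congr 1
  refine MeasureTheory.integral_congr_ae (Filter.Eventually.of_forall fun t => ?_)
  have := f_add_one f ((r : ℂ) + t * Complex.I)
  simp only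
  rw [← this]
  push_cast
  ring_nf

theorem mob_im_pos (a b d : ℤ) (h : 8 * a * d - 17 * b = 1) (τ : ℍ) :
    0 < (mob (8 * a) b 136 (8 * d) τ).im := by
  have hτ := τ.im_pos
  have hden : (136 * (τ : ℂ) + 8 * d) ≠ 0 := by
    intro h0
    have := congrArg Complex.im h0
    simp at this
    exact absurd this hτ.ne'
  have hn : 0 < Complex.normSq (136 * (τ : ℂ) + 8 * d) := Complex.normSq_pos.mpr hden
  have key : (mob (8 * a) b 136 (8 * d) τ).im = 8 * τ.im / Complex.normSq (136 * (τ : ℂ) + 8 * d) := by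
    unfold mob
    push_cast
    rw [Complex.div_im]
    have h' : (8 * a * d - 17 * b : ℝ) = 1 := by exact_mod_cast h
    simp
    field_simp
    linear_combination 8 * h'
  rw [key]
  positivity

theorem lam_atkin (f : CuspForm (Gamma0 136) 2) (A : ℕ → ℤ) (hA : Data f A) (hne : f tauW ≠ 0)
    (a b d : ℤ) (h : 8 * a * d - 17 * b = 1) : lam f (a / 17) = lam f (-d / 17) := by
  have hW := f_W8 f hne al_modular be_modular ga_modular eis_W8
    (rel_quad f A hA sturm136 al_modular be_modular ga_modular) a b d h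
  have := prim_W f A hA a b d h hW UpperHalfPlane.I ⟨_, mob_im_pos a b d h UpperHalfPlane.I⟩ rfl
  rw [← this.1, ← this.2]

theorem mob_tauW : mob (8 * 6) (-17) 136 (8 * (-6)) tauW = tauW := by
  have h8 : (√8 : ℝ) ≠ 0 := by positivity
  have h8' : ((√8 : ℝ) : ℂ) ≠ 0 := by exact_mod_cast h8
  have hsq : ((√8 : ℝ) : ℂ) ^ 2 = 8 := by
    rw [← Complex.ofReal_pow, Real.sq_sqrt (by norm_num)]; norm_num
  have ht : (tauW : ℂ) = 6 / 17 + 1 / (17 * ((√8 : ℝ) : ℂ)) * Complex.I := by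
    show (6 / 17 + (1 / (17 * √8) : ℝ) * Complex.I : ℂ) = _
    push_cast
    ring
  have hI := Complex.I_sq
  unfold mob
  rw [ht]
  have hden : (((136 : ℤ) : ℂ) * (6 / 17 + 1 / (17 * ((√8 : ℝ) : ℂ)) * Complex.I) +
      ((8 * (-6) : ℤ) : ℂ)) ≠ 0 := by
    have : (((136 : ℤ) : ℂ) * (6 / 17 + 1 / (17 * ((√8 : ℝ) : ℂ)) * Complex.I) +
        ((8 * (-6) : ℤ) : ℂ)) = 8 / ((√8 : ℝ) : ℂ) * Complex.I := by
      push_cast
      field_simp
      ring
    rw [this]
    exact mul_ne_zero (div_ne_zero (by norm_num) h8') Complex.I_ne_zero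
  rw [div_eq_iff hden]
  push_cast
  field_simp
  ring_nf
  rw [hI, hsq]
  ring

theorem lam_six (f : CuspForm (Gamma0 136) 2) (A : ℕ → ℤ) (hA : Data f A) (hne : f tauW ≠ 0) :
    lam f (6 / 17) = 2 * prim f tauW := by
  have h : (8 * 6 * (-6) - 17 * (-17) : ℤ) = 1 := by norm_num
  have hW := f_W8 f hne al_modular be_modular ga_modular eis_W8
    (rel_quad f A hA sturm136 al_modular be_modular ga_modular) 6 (-17) (-6) h
  have := prim_W f A hA 6 (-17) (-6) h hW tauW tauW mob_tauW.symm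
  rw [two_mul, this.1]
  norm_num

/-- The real part of `λ(r)` is an integral multiple of the real period. -/
theorem exists_re (f : CuspForm (Gamma0 136) 2) (A : ℕ → ℤ) (hA : Data f A) :
    ∃ w : ℝ, 8 / 5 ≤ w ∧ realPeriod E136 = w ∧
      ∀ r : ℚ, ∃ n : ℤ, (lam f r).re = n * w := by
  obtain ⟨L, w, w', hw, hw', h1, h2, hg2, hg3⟩ := exists_lattice
  have hwe := realPeriod_eq L w w' hw hw' h1 h2 hg2 hg3
  refine ⟨w, hwe ▸ realPeriod_ge, hwe, fun r => ?_⟩
  have hmem : lam f r ∈ L.lattice :=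
    mem_lattice_of_tendsto L hg2 hg3 f A hA (prim_hasDerivAt f A hA)
      (hh_form f A hA al_modular ga_modular) (gg_form f A hA al_modular be_modular ga_modular)
      (rel_ode f A hA sturm136 al_modular be_modular ga_modular bracket_modular) r (lam f r)
      (prim_tendsto_lam f A hA r) (x_cusp f eis_cusp r)
  rw [PeriodPair.mem_lattice] at hmem
  obtain ⟨m, n, hmn⟩ := hmem
  refine ⟨m, ?_⟩
  rw [← hmn, h1, h2]
  simp

theorem symbol_eq (f : CuspForm (Gamma0 136) 2) (A : ℕ → ℤ) (hA : Data f A) (r : ℚ) (n : ℤ)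
    (hw : 0 < realPeriod E136) (hn : (lam f r).re = n * realPeriod E136) :
    symbol E136 f r = (n : ℂ) := by
  unfold symbol
  rw [lam_neg f A hA, Complex.add_conj, hn]
  have : (realPeriod E136 : ℂ) ≠ 0 := by exact_mod_cast hw.ne'
  push_cast
  field_simp

theorem sp17 : sp E136 17 = 1 := by
  unfold sp
  rw [Nat.Prime.primeFactors (by norm_num)]
  rw [Finset.filter_singleton, if_pos split17]
  rfl

/-- The values of the symbol. -/
theorem exists_N (f : CuspForm (Gamma0 136) 2) (hf : IsNewformOf E136 136 f) :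
    ∃ N : ℚ → ℤ, (∀ r : ℚ, symbol E136 f r = (N r : ℂ)) ∧ (∀ r, N (-r) = N r) ∧
      (∀ r, N (r + 1) = N r) ∧ N (1 / 17) = N (2 / 17) ∧ N (3 / 17) = N (5 / 17) ∧
      N (4 / 17) = N (8 / 17) ∧ Odd (N (6 / 17)) ∧
      ∀ r : ℚ, ∑ j ∈ Finset.range 17, N ((r + j) / 17) = N r := by
  obtain ⟨A, hA⟩ := exists_data f hf
  have hne : f tauW ≠ 0 := f_tauW_ne_zero f A hA
  obtain ⟨w, hw85, hwe, hre⟩ := exists_re f A hA
  have hwpos : 0 < realPeriod E136 := by rw [hwe]; linarith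
  choose N hN using hre
  rw [← hwe] at hN
  have hNeq : ∀ r s : ℚ, (lam f r).re = (lam f s).re → N r = N s := by
    intro r s hrs
    rw [hN, hN] at hrs
    have := mul_right_cancel₀ hwpos.ne' hrs
    exact_mod_cast this
  have hNneg : ∀ r : ℚ, N (-r) = N r := by
    intro r
    apply hNeq
    rw [lam_neg f A hA]
    simp
  refine ⟨N, fun r => symbol_eq f A hA r (N r) hwpos (hN r), hNneg,
    fun r => hNeq _ _ (by rw [lam_add_one]), ?_, ?_, ?_, ?_, ?_⟩
  · apply hNeq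
    have := lam_atkin f A hA hne 1 (-1) (-2) (by norm_num)
    norm_num at this ⊢
    rw [this]
  · have h := hNeq _ _ (congrArg Complex.re (lam_atkin f A hA hne 3 7 5 (by norm_num)))
    have h2 := hNneg (5 / 17)
    norm_num at h h2 ⊢
    rw [h, ← h2]
  · have h := hNeq _ _ (congrArg Complex.re (lam_atkin f A hA hne 4 15 8 (by norm_num)))
    have h2 := hNneg (8 / 17)
    norm_num at h h2 ⊢
    rw [h, ← h2]
  · have h6 : (lam f (6 / 17)).re = 2 * (prim f tauW).re := by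
      rw [lam_six f A hA hne]; simp
    rw [hN] at h6
    obtain ⟨h0, h1⟩ := prim_tauW f A hA
    have habs : |(N (6 / 17) : ℝ)| * w = 2 * |(prim f tauW).re| := by
      have h7 := congrArg abs h6
      rw [abs_mul, abs_mul, abs_of_pos hwpos, hwe] at h7
      rw [h7]
      norm_num
    have hlt : |(N (6 / 17) : ℝ)| < 2 := by
      by_contra hcon
      push Not at hcon
      nlinarith
    have hgt : 0 < |(N (6 / 17) : ℝ)| := by
      by_contra hcon
      push Not at hcon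
      have : |(N (6 / 17) : ℝ)| = 0 := le_antisymm hcon (abs_nonneg _)
      rw [this] at habs
      linarith
    have hlt' : |N (6 / 17)| < 2 := by exact_mod_cast hlt
    have hgt' : 0 < |N (6 / 17)| := by exact_mod_cast hgt
    have h1' : |N (6 / 17)| = 1 := by omega
    rcases abs_eq (by norm_num : (0 : ℤ) ≤ 1) |>.mp h1' with h | h
    · rw [h]; exact odd_one
    · rw [h]; decide
  · intro r
    have h := congrArg Complex.re (lam_distrib f A hA (A_seventeen f hf A hA) r)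
    rw [Complex.re_sum, hN, Finset.sum_congr rfl (fun j _ => hN _), ← Finset.sum_mul] at h
    have h2 := mul_right_cancel₀ hwpos.ne' h
    exact_mod_cast h2

theorem bot_int : ∀ c ∈ (⊥ : Subring ℚ), ∃ n : ℤ, c = n := by
  intro c hc
  obtain ⟨n, hn⟩ := Subring.mem_bot.mp hc
  exact ⟨n, hn.symm⟩

theorem hasCoeffs_bot (f : CuspForm (Gamma0 136) 2) (N : ℚ → ℤ)
    (hsym : ∀ r : ℚ, symbol E136 f r = (N r : ℂ)) : HasCoeffsIn E136 f ⊥ := by
  intro S hS a
  refine ⟨(N ((a.val.val : ℚ) / S) : ℚ), ?_, ?_⟩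
  · exact Subring.mem_bot.mpr ⟨_, rfl⟩
  · rw [hsym]; push_cast; rfl

theorem not_rankPart (f : CuspForm (Gamma0 136) 2) (hf : IsNewformOf E136 136 f) :
    ¬ RankPart E136 f := by
  obtain ⟨N, hsym, hNneg, hNone, h12, h35, h48, h6, -⟩ := exists_N f hf
  intro hrank
  let n : ℕ → ℤ := fun a => N ((a : ℚ) / 17)
  let θ : MonoidAlgebra (⊥ : Subring ℚ) (ZMod 17)ˣ :=
    MonoidAlgebra.ofCoeff (Finsupp.equivFunOnFinite.symm
      (fun a : (ZMod 17)ˣ => ⟨(n a.val.val : ℚ), Subring.mem_bot.mpr ⟨_, rfl⟩⟩))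
  have hθ : ∀ a : (ZMod 17)ˣ, ((θ.coeff a : (⊥ : Subring ℚ)) : ℚ) = n (a.val.val) := by
    intro a
    rfl
  have hth : IsTheta E136 f ⊥ 17 θ := by
    intro a
    rw [hθ a, hsym]
    simp [n]
  have hmem := hrank ⊥ (hasCoeffs_bot f N hsym) 17 (by norm_num) θ hth 1
    (by exact_mod_cast rank_pos)
  rw [sp17] at hmem
  refine not_mem_sq ⊥ bot_int θ n hθ ?_ ?_ ?_ ?_ ?_ hmem
  · intro a ha
    show N (((17 - a : ℕ) : ℚ) / 17) = N ((a : ℚ) / 17)
    rw [← hNneg ((a : ℚ) / 17), ← hNone (-((a : ℚ) / 17))]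
    congr 1
    rw [Nat.cast_sub ha.le]
    push_cast
    ring
  · show N (((1 : ℕ) : ℚ) / 17) = N (((2 : ℕ) : ℚ) / 17)
    exact_mod_cast h12
  · show N (((3 : ℕ) : ℚ) / 17) = N (((5 : ℕ) : ℚ) / 17)
    exact_mod_cast h35
  · show N (((4 : ℕ) : ℚ) / 17) = N (((8 : ℕ) : ℚ) / 17)
    exact_mod_cast h48
  · show Odd (N (((6 : ℕ) : ℚ) / 17))
    exact_mod_cast h6

theorem not_rankPartBar (f : CuspForm (Gamma0 136) 2) (hf : IsNewformOf E136 136 f) :
    ¬ RankPartBar E136 f := by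
  obtain ⟨N, hsym, hNneg, hNone, h12, h35, h48, h6, -⟩ := exists_N f hf
  intro hrank
  let n : ℕ → ℤ := fun a => N ((a : ℚ) / 17)
  have hn17 : ∀ a < 17, n (17 - a) = n a := by
    intro a ha
    show N (((17 - a : ℕ) : ℚ) / 17) = N ((a : ℚ) / 17)
    rw [← hNneg ((a : ℚ) / 17), ← hNone (-((a : ℚ) / 17))]
    congr 1
    rw [Nat.cast_sub ha.le]
    push_cast
    ring
  have hsurj : ∀ q : GBar 17, ∃ a : (ZMod 17)ˣ, GBar.mk 17 a = q := by
    intro q
    induction q using GBar_ind with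
    | h b => exact ⟨b, rfl⟩
  choose rep hrep using hsurj
  let θ : MonoidAlgebra (⊥ : Subring ℚ) (GBar 17) :=
    MonoidAlgebra.ofCoeff (Finsupp.equivFunOnFinite.symm
      (fun q : GBar 17 => ⟨(n (rep q).val.val : ℚ), Subring.mem_bot.mpr ⟨_, rfl⟩⟩))
  have hθ : ∀ a : (ZMod 17)ˣ,
      ((θ.coeff (GBar.mk 17 a) : (⊥ : Subring ℚ)) : ℚ) = n (a.val.val) := by
    intro a
    show ((n (rep (GBar.mk 17 a)).val.val : ℤ) : ℚ) = n a.val.val
    have h1 := (GBar_eq _ _).mp (hrep (GBar.mk 17 a))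
    congr 1
    rcases mem_zpowers _ h1 with h | h
    · have h2 : a = rep (GBar.mk 17 a) := by
        rw [← mul_one (rep (GBar.mk 17 a)), ← h]; group
      rw [← h2]
    · have h2 : a = - rep (GBar.mk 17 a) := by
        rw [← mul_one (rep (GBar.mk 17 a)), ← mul_neg, ← h]; group
      have key : ∀ x : (ZMod 17)ˣ, (-x).val.val = 17 - x.val.val := by decide
      have hlt : (rep (GBar.mk 17 a)).val.val < 17 := ZMod.val_lt _
      conv_rhs => rw [h2]
      rw [key, hn17 _ hlt]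
  have hth : IsThetaBar E136 f ⊥ 17 θ := by
    intro a
    rw [hθ a, hsym]
    simp [n]
  have hmem := hrank ⊥ (hasCoeffs_bot f N hsym) 17 (by norm_num) θ hth 1
    (by exact_mod_cast rank_pos)
  rw [sp17] at hmem
  refine not_mem_sq_bar ⊥ bot_int θ n hθ ?_ ?_ ?_ ?_ hmem
  · show N (((1 : ℕ) : ℚ) / 17) = N (((2 : ℕ) : ℚ) / 17)
    exact_mod_cast h12
  · show N (((3 : ℕ) : ℚ) / 17) = N (((5 : ℕ) : ℚ) / 17)
    exact_mod_cast h35
  · show N (((4 : ℕ) : ℚ) / 17) = N (((8 : ℕ) : ℚ) / 17)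
    exact_mod_cast h48
  · show Odd (N (((6 : ℕ) : ℚ) / 17))
    exact_mod_cast h6

theorem sp17pow (k : ℕ) (hk : 0 < k) : sp E136 (17 ^ k) = 1 := by
  rw [← sp17]
  unfold sp
  rw [Nat.primeFactors_pow _ hk.ne']

/-- The elements `θ_S`, `S = 17, 17², 17³, …`, are not in the square of the augmentation ideal of
`ℤ[G_S]`. -/
theorem not_mem_all (f : CuspForm (Gamma0 136) 2) (hf : IsNewformOf E136 136 f) :
    HasCoeffsIn E136 f ⊥ ∧ ∀ k : ℕ, 0 < k →
      ∃ θ : MonoidAlgebra (⊥ : Subring ℚ) (ZMod (17 ^ k))ˣ, IsTheta E136 f ⊥ (17 ^ k) θ ∧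
        θ ∉ augIdeal ⊥ (17 ^ k) ^ 2 := by
  obtain ⟨N, hsym, hNneg, hNone, h12, h35, h48, h6, hN⟩ := exists_N f hf
  refine ⟨hasCoeffs_bot f N hsym, ?_⟩
  intro k hk
  obtain ⟨k, rfl⟩ : ∃ l, k = l + 1 := ⟨k - 1, by omega⟩
  have : NeZero (17 ^ (k + 1)) := ⟨by positivity⟩
  let θ : MonoidAlgebra (⊥ : Subring ℚ) (ZMod (17 ^ (k + 1)))ˣ :=
    MonoidAlgebra.ofCoeff (Finsupp.equivFunOnFinite.symm
      (fun b : (ZMod (17 ^ (k + 1)))ˣ => ⟨(N ((b.val.val : ℚ) / (17 ^ (k + 1) : ℕ)) : ℚ),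
        Subring.mem_bot.mpr ⟨_, rfl⟩⟩))
  have hθ : ∀ b : (ZMod (17 ^ (k + 1)))ˣ, ((θ.coeff b : (⊥ : Subring ℚ)) : ℚ) =
      N ((b.val.val : ℚ) / (17 ^ (k + 1) : ℕ)) := fun b => rfl
  refine ⟨θ, ?_, ?_⟩
  · intro b
    rw [hθ b, hsym]
    push_cast
    rfl
  · refine not_mem_sq_pow ⊥ bot_int k θ N hN hθ ?_ h12 h35 h48 h6
    intro a ha
    rw [← hNneg ((a : ℚ) / 17), ← hNone (-((a : ℚ) / 17))]
    congr 1
    rw [Nat.cast_sub ha.le]
    push_cast
    ring

end Pool.Agent.MT136
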