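import Mathlib
import Pool.Agent.MT136.Defs
import Pool.Agent.MT136.Core

/-!
# Uniformisation of the curve `y² = x³ + x² - 4x` by modular forms of level 136
-/

set_option autoImplicit false

namespace Pool.Agent.MT136

open Filter Topology CongruenceSubgroup UpperHalfPlane Function

/-- equality at the centre of functions which agree on a punctured neighbourhood -/
lemma eq_of_punctured {F G : ℂ → ℂ} (hF : ContinuousAt F 0) (hG : ContinuousAt G 0)
    (h : ∀ᶠ q in 𝓝[≠] (0 : ℂ), F q = G q) : F 0 = G 0 := by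
  have h1 : Tendsto F (𝓝[≠] (0 : ℂ)) (𝓝 (F 0)) := hF.mono_left nhdsWithin_le_nhds
  have h2 : Tendsto G (𝓝[≠] (0 : ℂ)) (𝓝 (G 0)) := hG.mono_left nhdsWithin_le_nhds
  exact tendsto_nhds_unique (h1.congr' h) h2

/-- uniqueness for the differential equation of the curve at its point at infinity -/
lemma ode_unique {U V w a b : ℂ → ℂ} (hU : AnalyticAt ℂ U 0) (hV : AnalyticAt ℂ V 0)
    (hw : AnalyticAt ℂ w 0) (hw0 : w 0 = 1) (ha : AnalyticAt ℂ a 0) (ha0 : a 0 = 1)
    (hb : AnalyticAt ℂ b 0) (hb0 : b 0 = 1) (hUa : ∀ᶠ q in 𝓝 (0 : ℂ), U q = q ^ 2 * a q)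
    (hVb : ∀ᶠ q in 𝓝 (0 : ℂ), V q = q ^ 2 * b q)
    (oU : ∀ᶠ q in 𝓝[≠] (0 : ℂ), deriv U q ^ 2 = 4 * w q ^ 2 * (U q + U q ^ 2 - 4 * U q ^ 3))
    (oV : ∀ᶠ q in 𝓝[≠] (0 : ℂ), deriv V q ^ 2 = 4 * w q ^ 2 * (V q + V q ^ 2 - 4 * V q ^ 3)) :
    ∀ᶠ q in 𝓝 (0 : ℂ), U q = V q := by
  by_contra hcon
  have hΔ : AnalyticAt ℂ (fun q => U q - V q) 0 := hU.sub hV
  have hcon' : ¬ ∀ᶠ q in 𝓝 (0 : ℂ), U q - V q = 0 := by
    intro h
    exact hcon (h.mono fun q hq => sub_eq_zero.mp hq)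
  obtain ⟨n, u, hu, hu0, hΔu⟩ := hΔ.exists_eventuallyEq_pow_smul_nonzero_iff.mpr hcon'
  simp only [sub_zero, smul_eq_mul] at hΔu
  have e0 : ∀ {P : ℂ → Prop}, (∀ᶠ q in 𝓝 (0 : ℂ), P q) → ∀ᶠ q in 𝓝[≠] (0 : ℂ), P q :=
    fun h => h.filter_mono nhdsWithin_le_nhds
  have hne : ∀ᶠ q in 𝓝[≠] (0 : ℂ), q ≠ 0 := self_mem_nhdsWithin
  -- derivative of the difference
  have hd1 : ∀ᶠ q in 𝓝 (0 : ℂ), q * (deriv U q - deriv V q) =
      q ^ n * (n * u q + q * deriv u q) := by
    have h1 : (fun q => U q - V q) =ᶠ[𝓝 0] fun q => q ^ n * u q := hΔu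
    filter_upwards [h1.deriv, hU.eventually_analyticAt, hV.eventually_analyticAt,
      hu.eventually_analyticAt] with q h2 h3 h4 h5
    have h6 : deriv (fun q => U q - V q) q = deriv U q - deriv V q :=
      deriv_sub h3.differentiableAt h4.differentiableAt
    have h7 : deriv (fun q => q ^ n * u q) q = (n * q ^ (n - 1)) * u q + q ^ n * deriv u q := by
      have h8 := (hasDerivAt_pow n q).mul h5.differentiableAt.hasDerivAt
      exact h8.deriv
    rw [h6, h7] at h2
    rw [h2]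
    rcases Nat.eq_zero_or_pos n with rfl | hn
    · simp
    · have h9 : q * q ^ (n - 1) = q ^ n := by
        rw [← pow_succ', Nat.sub_add_cancel hn]
      linear_combination (n : ℂ) * u q * h9
  have hd2 : ∀ᶠ q in 𝓝[≠] (0 : ℂ), deriv U q + deriv V q =
      q * (2 * (a q + b q) + q * (deriv a q + deriv b q)) := by
    have h1 : U =ᶠ[𝓝 0] fun q => q ^ 2 * a q := hUa
    have h2 : V =ᶠ[𝓝 0] fun q => q ^ 2 * b q := hVb
    filter_upwards [e0 h1.deriv, e0 h2.deriv, e0 ha.eventually_analyticAt,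
      e0 hb.eventually_analyticAt] with q h3 h4 h5 h6
    have h7 : deriv (fun q => q ^ 2 * a q) q = (((2 : ℕ) : ℂ) * q ^ (2 - 1)) * a q +
        q ^ 2 * deriv a q := ((hasDerivAt_pow 2 q).mul h5.differentiableAt.hasDerivAt).deriv
    have h8 : deriv (fun q => q ^ 2 * b q) q = (((2 : ℕ) : ℂ) * q ^ (2 - 1)) * b q +
        q ^ 2 * deriv b q := ((hasDerivAt_pow 2 q).mul h6.differentiableAt.hasDerivAt).deriv
    rw [h3, h4, h7, h8]
    push_cast
    ring
  have hkey : ∀ᶠ q in 𝓝[≠] (0 : ℂ), (n * u q + q * deriv u q) *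
      (2 * (a q + b q) + q * (deriv a q + deriv b q)) = 4 * w q ^ 2 * u q *
        (1 + (U q + V q) - 4 * (U q ^ 2 + U q * V q + V q ^ 2)) := by
    filter_upwards [oU, oV, e0 hd1, hd2, hne, e0 hΔu] with q h1 h2 h3 h4 h5 h6
    have h7 : q ^ n ≠ 0 := pow_ne_zero n h5
    apply mul_left_cancel₀ (mul_ne_zero h7 h5)
    calc q ^ n * q * ((n * u q + q * deriv u q) *
        (2 * (a q + b q) + q * (deriv a q + deriv b q)))
        = (q ^ n * (n * u q + q * deriv u q)) *
          (q * (2 * (a q + b q) + q * (deriv a q + deriv b q))) := by ring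
      _ = q * (deriv U q ^ 2 - deriv V q ^ 2) := by rw [← h3, ← h4]; ring
      _ = q * (4 * w q ^ 2 * (U q - V q) *
          (1 + (U q + V q) - 4 * (U q ^ 2 + U q * V q + V q ^ 2))) := by rw [h1, h2]; ring
      _ = _ := by rw [h6]; ring
  have hU0 : U 0 = 0 := by rw [hUa.self_of_nhds]; simp
  have hV0 : V 0 = 0 := by rw [hVb.self_of_nhds]; simp
  have hn1 : (n : ℂ) = 1 := by
    have c1 := hu.continuousAt
    have c2 := hu.deriv.continuousAt
    have c3 := ha.continuousAt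
    have c4 := ha.deriv.continuousAt
    have c5 := hb.continuousAt
    have c6 := hb.deriv.continuousAt
    have c7 := hw.continuousAt
    have c8 := hU.continuousAt
    have c9 := hV.continuousAt
    have h1 := eq_of_punctured (by fun_prop) (by fun_prop) hkey
    simp only [zero_mul, add_zero, ha0, hb0, hw0, hU0, hV0] at h1
    have h2 : (4 * u 0) * ((n : ℂ) - 1) = 0 := by linear_combination h1
    rcases mul_eq_zero.mp h2 with h3 | h3
    · exact absurd (by simpa using h3) hu0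
    · exact sub_eq_zero.mp h3
  have hn1' : n = 1 := by exact_mod_cast hn1
  subst hn1'
  have h1 : ∀ᶠ q in 𝓝[≠] (0 : ℂ), u q = q * (a q - b q) := by
    filter_upwards [e0 hΔu, e0 hUa, e0 hVb, hne] with q h2 h3 h4 h5
    rw [pow_one, h3, h4] at h2
    apply mul_left_cancel₀ h5
    rw [← h2]
    ring
  have c1 := hu.continuousAt
  have c3 := ha.continuousAt
  have c5 := hb.continuousAt
  have h2 := eq_of_punctured c1 (by fun_prop) h1
  rw [zero_mul] at h2
  exact hu0 h2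

/-- local uniformisation at the cusp `∞` -/
lemma unif_local (L : PeriodPair) (hg2 : L.g₂ = 52 / 3) (hg3 : L.g₃ = -152 / 27)
    {h g k z : ℂ → ℂ} {c : ℂ} (hc : c ≠ 0) (hh : AnalyticAt ℂ h 0) (hh0 : h 0 = c)
    (hk : AnalyticAt ℂ k 0) (hk0 : k 0 = c) (hg : AnalyticAt ℂ g 0)
    (hgk : ∀ᶠ q in 𝓝 (0 : ℂ), g q = q ^ 2 * k q) (hz : AnalyticAt ℂ z 0) (hz0 : z 0 = 0)
    (hz1 : deriv z 0 = 1)
    (ode : ∀ᶠ q in 𝓝[≠] (0 : ℂ), (deriv h q * g q - h q * deriv g q) ^ 2 =
      4 * deriv z q ^ 2 * (h q ^ 3 * g q + h q ^ 2 * g q ^ 2 - 4 * h q * g q ^ 3)) :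
    ∀ᶠ q in 𝓝[≠] (0 : ℂ), z q ∉ L.lattice ∧ h q = g q * (L.weierstrassP (z q) - 1 / 3) := by
  have e0 : ∀ {P : ℂ → Prop}, (∀ᶠ q in 𝓝 (0 : ℂ), P q) → ∀ᶠ q in 𝓝[≠] (0 : ℂ), P q :=
    fun h => h.filter_mono nhdsWithin_le_nhds
  have hne : ∀ᶠ q in 𝓝[≠] (0 : ℂ), q ≠ 0 := self_mem_nhdsWithin
  set z₁ : ℂ → ℂ := dslope z 0 with hz₁
  have hzz₁ : ∀ q, z q = q * z₁ q := by
    intro q
    have := sub_smul_dslope z 0 q
    rw [hz0, sub_zero, sub_zero, smul_eq_mul] at this
    exact this.symm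
  have hz₁a : AnalyticAt ℂ z₁ 0 := by
    obtain ⟨p, hp⟩ := hz
    exact hp.has_fpower_series_dslope_fslope.analyticAt
  have hz₁0 : z₁ 0 = 1 := by rw [hz₁, dslope_same, hz1]
  set E : ℂ → ℂ := fun w => L.weierstrassPExcept 0 w - 1 / 3 with hE
  have hEa : AnalyticAt ℂ E (z 0) := by
    rw [hz0]
    exact (L.analyticAt_weierstrassPExcept 0).sub analyticAt_const
  have hEz : AnalyticAt ℂ (fun q => E (z q)) 0 := hEa.comp hz
  set D : ℂ → ℂ := fun q => 1 + z q ^ 2 * E (z q) with hD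
  have hDa : AnalyticAt ℂ D 0 := analyticAt_const.add ((hz.pow 2).mul hEz)
  have hD0 : D 0 = 1 := by simp [hD, hz0]
  set U : ℂ → ℂ := fun q => g q / h q with hU
  set V : ℂ → ℂ := fun q => z q ^ 2 / D q with hV
  have hh0' : h 0 ≠ 0 := by rw [hh0]; exact hc
  have hD0' : D 0 ≠ 0 := by rw [hD0]; exact one_ne_zero
  have hUa : AnalyticAt ℂ U 0 := hg.div hh hh0'
  have hVa : AnalyticAt ℂ V 0 := (hz.pow 2).div hDa hD0'
  have hhne : ∀ᶠ q in 𝓝 (0 : ℂ), h q ≠ 0 := hh.continuousAt.eventually_ne hh0'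
  have hDne : ∀ᶠ q in 𝓝 (0 : ℂ), D q ≠ 0 := hDa.continuousAt.eventually_ne hD0'
  have hz₁ne : ∀ᶠ q in 𝓝 (0 : ℂ), z₁ q ≠ 0 :=
    hz₁a.continuousAt.eventually_ne (by rw [hz₁0]; exact one_ne_zero)
  have hlat : ∀ᶠ q in 𝓝[≠] (0 : ℂ), z q ∉ L.lattice := by
    have h1 : ∀ᶠ q in 𝓝 (0 : ℂ), z q ∈ ((L.lattice : Set ℂ) \ {0})ᶜ := by
      have h2 := L.compl_lattice_sdiff_singleton_mem_nhds 0
      have h3 : Tendsto z (𝓝 0) (𝓝 0) := by
        have := hz.continuousAt.tendsto
        rwa [hz0] at this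
      exact h3.eventually h2
    filter_upwards [e0 h1, hne, e0 hz₁ne] with q h2 h3 h4 h5
    refine h2 ⟨h5, ?_⟩
    rw [Set.mem_singleton_iff, hzz₁]
    exact mul_ne_zero h3 h4
  have hP : ∀ᶠ q in 𝓝[≠] (0 : ℂ), z q ∉ L.lattice ∧
      L.weierstrassP (z q) - 1 / 3 ≠ 0 ∧ V q = (L.weierstrassP (z q) - 1 / 3)⁻¹ := by
    filter_upwards [hlat, e0 hDne] with q h1 h2
    have hzq : z q ≠ 0 := fun h => h1 (h ▸ zero_mem _)
    have h3 := L.weierstrassPExcept_add 0 (z q)
    simp only [ZeroMemClass.coe_zero, sub_zero] at h3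
    have h4 : z q ^ 2 * (L.weierstrassP (z q) - 1 / 3) = D q := by
      rw [← h3]
      simp only [hD, hE]
      field_simp
      ring
    have h5 : L.weierstrassP (z q) - 1 / 3 ≠ 0 := by
      intro h6
      rw [h6, mul_zero] at h4
      exact h2 h4.symm
    refine ⟨h1, h5, ?_⟩
    simp only [hV]
    rw [← h4]
    field_simp
  have oU : ∀ᶠ q in 𝓝[≠] (0 : ℂ), deriv U q ^ 2 =
      4 * deriv z q ^ 2 * (U q + U q ^ 2 - 4 * U q ^ 3) := by
    filter_upwards [ode, e0 hhne, e0 hh.eventually_analyticAt, e0 hg.eventually_analyticAt]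
      with q h1 h2 h3 h4
    have h5 : deriv U q = (deriv g q * h q - g q * deriv h q) / h q ^ 2 :=
      (h4.differentiableAt.hasDerivAt.div h3.differentiableAt.hasDerivAt h2).deriv
    rw [h5]
    simp only [hU]
    have h6 : (deriv g q * h q - g q * deriv h q) ^ 2 =
        4 * deriv z q ^ 2 * (h q ^ 3 * g q + h q ^ 2 * g q ^ 2 - 4 * h q * g q ^ 3) := by
      rw [← h1]; ring
    rw [div_pow, h6]
    field_simp
  have oV : ∀ᶠ q in 𝓝[≠] (0 : ℂ), deriv V q ^ 2 =
      4 * deriv z q ^ 2 * (V q + V q ^ 2 - 4 * V q ^ 3) := by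
    have h1 := eventually_eventually_nhdsWithin.mpr hP
    filter_upwards [h1, hP, hne, e0 hz.eventually_analyticAt] with q h2 h3 h4 h5
    have h6 : 𝓝[≠] (0 : ℂ) = 𝓝[≠] (0 : ℂ) := rfl
    have h7 : ∀ᶠ y in 𝓝 q, V y = (L.weierstrassP (z y) - 1 / 3)⁻¹ := by
      rw [isOpen_compl_singleton.nhdsWithin_eq h4] at h2
      exact h2.mono fun y hy => hy.2.2
    have h8 : deriv V q = deriv (fun y => (L.weierstrassP (z y) - 1 / 3)⁻¹) q :=
      (show V =ᶠ[𝓝 q] fun y => (L.weierstrassP (z y) - 1 / 3)⁻¹ from h7).deriv_eq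
    have h9 : HasDerivAt L.weierstrassP (L.derivWeierstrassP (z q)) (z q) := by
      have h10 := (L.differentiableOn_weierstrassP.differentiableAt
        (L.isClosed_lattice.isOpen_compl.mem_nhds h3.1)).hasDerivAt
      rwa [L.deriv_weierstrassP] at h10
    have h10 : HasDerivAt (fun y => (L.weierstrassP (z y) - 1 / 3)⁻¹)
        (-(L.derivWeierstrassP (z q) * deriv z q) / (L.weierstrassP (z q) - 1 / 3) ^ 2) q :=
      ((h9.comp q h5.differentiableAt.hasDerivAt).sub_const (1 / 3)).inv h3.2.1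
    rw [h8, h10.deriv, h3.2.2]
    have h11 := L.derivWeierstrassP_sq (z q) h3.1
    rw [hg2, hg3] at h11
    set P := L.weierstrassP (z q) - 1 / 3 with hPdef
    have h12 : L.weierstrassP (z q) = P + 1 / 3 := by rw [hPdef]; ring
    rw [h12] at h11
    have h13 : L.derivWeierstrassP (z q) ^ 2 = 4 * P ^ 3 + 4 * P ^ 2 - 16 * P := by
      rw [h11]; ring
    have hP0 : P ≠ 0 := h3.2.1
    rw [div_pow, neg_sq, mul_pow, h13]
    field_simp
    ring
  have hfin := ode_unique hUa hVa hz.deriv hz1 (hk.div hh hh0')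
    (by rw [Pi.div_apply, hk0, hh0, div_self hc]) ((hz₁a.pow 2).div hDa hD0')
    (by rw [Pi.div_apply, Pi.pow_apply, hz₁0, hD0]; norm_num)
    (hgk.mono fun q hq => by simp only [hU, Pi.div_apply]; rw [hq, mul_div_assoc])
    (Eventually.of_forall fun q => by
      simp only [hV, Pi.div_apply, Pi.pow_apply]; rw [hzz₁ q]; ring)
    oU oV
  filter_upwards [e0 hfin, hP, e0 hhne] with q h1 h2 h3
  refine ⟨h2.1, ?_⟩
  rw [h2.2.2] at h1
  simp only [hU] at h1
  have hP0 := h2.2.1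
  rw [div_eq_iff h3] at h1
  rw [h1, mul_comm _ (h q), mul_assoc, inv_mul_cancel₀ hP0, mul_one]

lemma summable_prim (f : CuspForm (Gamma0 136) 2) (A : ℕ → ℤ) (hA : Data f A) {r : ℝ}
    (hr0 : 0 ≤ r) (hr : r < 1) : Summable fun n : ℕ => ‖coeffOf f n / n‖ * r ^ n := by
  have h1 : Summable fun n : ℕ => ((n : ℝ) ^ 1 * r ^ n : ℝ) :=
    summable_pow_mul_geometric_of_norm_lt_one 1 (by rwa [Real.norm_eq_abs, abs_of_nonneg hr0])
  refine Summable.of_nonneg_of_le (fun n => by positivity) (fun n => ?_) h1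
  gcongr
  rw [hA.coeff, norm_div, Complex.norm_natCast, pow_one]
  rcases Nat.eq_zero_or_pos n with rfl | hn
  · simp
  rw [div_le_iff₀ (by exact_mod_cast hn)]
  have h2 : ‖(A n : ℂ)‖ = |(A n : ℝ)| := by
    rw [← Complex.ofReal_intCast, Complex.norm_real, Real.norm_eq_abs]
  rw [h2]
  have h3 := hA.bound n
  have h4 : |(A n : ℝ)| ≤ (n : ℝ) ^ 2 := by exact_mod_cast h3
  rwa [sq] at h4

/-- the power series of `prim`, divided by `q` -/
noncomputable def zser (f : CuspForm (Gamma0 136) 2) (q : ℂ) : ℂ :=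
  ∑' n : ℕ, coeffOf f (n + 1) / ((n + 1 : ℕ) : ℂ) * q ^ n

lemma zser_zero (f : CuspForm (Gamma0 136) 2) (A : ℕ → ℤ) (hA : Data f A) : zser f 0 = 1 := by
  unfold zser
  rw [tsum_eq_single 0 (fun n hn => by rw [zero_pow hn, mul_zero])]
  have h1 : tbl.getD 1 0 = 1 := rfl
  rw [hA.coeff, zero_add, hA.table 1 (by norm_num), h1]
  simp

lemma analyticAt_zser (f : CuspForm (Gamma0 136) 2) (A : ℕ → ℤ) (hA : Data f A) :
    AnalyticAt ℂ (zser f) 0 := by
  have h1 : DifferentiableOn ℂ (zser f) (Metric.ball 0 (1 / 2)) := by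
    have h2 := ((summable_prim f A hA (r := 1 / 2) (by norm_num) (by norm_num)).comp_injective
      (add_left_injective 1)).mul_left 2
    refine Complex.differentiableOn_tsum_of_summable_norm h2 (fun n => by fun_prop) Metric.isOpen_ball ?_
    intro n w hw
    rw [norm_mul, norm_pow]
    have hw' : ‖w‖ ≤ 1 / 2 := by
      rw [Metric.mem_ball, dist_zero_right] at hw
      exact hw.le
    simp only [Function.comp_apply]
    calc ‖coeffOf f (n + 1) / ((n + 1 : ℕ) : ℂ)‖ * ‖w‖ ^ n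
        ≤ ‖coeffOf f (n + 1) / ((n + 1 : ℕ) : ℂ)‖ * (1 / 2) ^ n := by gcongr
      _ = 2 * (‖coeffOf f (n + 1) / ((n + 1 : ℕ) : ℂ)‖ * (1 / 2) ^ (n + 1)) := by
          rw [pow_succ]; ring
  exact h1.analyticAt (Metric.isOpen_ball.mem_nhds (by simp))

lemma prim_eq (f : CuspForm (Gamma0 136) 2) (A : ℕ → ℤ) (hA : Data f A) (τ : ℍ) :
    prim f τ = Periodic.qParam 1 τ * zser f (Periodic.qParam 1 τ) := by
  have hq : ‖Periodic.qParam 1 (τ : ℂ)‖ < 1 := Periodic.norm_qParam_lt_one one_pos τ.im_pos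
  have h1 : prim f τ = ∑' n : ℕ, coeffOf f n / n * Periodic.qParam 1 (τ : ℂ) ^ n := by
    unfold prim
    congr 1
    funext n
    congr 1
    rw [Periodic.qParam, ← Complex.exp_nat_mul]
    congr 1
    push_cast
    ring
  have h2 : Summable fun n : ℕ => coeffOf f n / n * Periodic.qParam 1 (τ : ℂ) ^ n := by
    refine Summable.of_norm_bounded (summable_prim f A hA (norm_nonneg _) hq) (fun n => ?_)
    rw [norm_mul, norm_pow]
  rw [h1, h2.tsum_eq_zero_add, zser, ← tsum_mul_left]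
  simp only [Nat.cast_zero, div_zero, zero_mul, zero_add]
  congr 1
  funext n
  rw [pow_succ]
  ring

lemma comp_ofComplex_eq {k : ℤ} (M : ModularForm (Gamma0 136) k) (w : ℂ) :
    (M ∘ ofComplex) w = cuspFunction 1 M (Periodic.qParam 1 w) :=
  (Periodic.eq_cuspFunction one_ne_zero
    (SlashInvariantFormClass.periodic_comp_ofComplex M (by simp)) w).symm

lemma hasDerivAt_qParam (w : ℂ) : HasDerivAt (Periodic.qParam 1)
    (2 * Real.pi * Complex.I * Periodic.qParam 1 w) w := by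
  have h1 : HasDerivAt (fun z : ℂ => 2 * Real.pi * Complex.I * z / ((1 : ℝ) : ℂ))
      (2 * Real.pi * Complex.I) w := by
    have := ((hasDerivAt_id w).const_mul (2 * Real.pi * Complex.I)).div_const ((1 : ℝ) : ℂ)
    simpa using this
  have h2 := h1.cexp
  rw [mul_comm (Complex.exp _)] at h2
  exact h2

lemma normalizedDeriv_eq {k : ℤ} (M : ModularForm (Gamma0 136) k) (τ : ℍ) :
    Derivative.normalizedDerivOfComplex M τ =
      Periodic.qParam 1 τ * deriv (cuspFunction 1 M) (Periodic.qParam 1 τ) := by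
  have hq : ‖Periodic.qParam 1 (τ : ℂ)‖ < 1 := Periodic.norm_qParam_lt_one one_pos τ.im_pos
  have h1 : DifferentiableAt ℂ (cuspFunction 1 M) (Periodic.qParam 1 τ) :=
    ModularFormClass.differentiableAt_cuspFunction M one_pos (by simp) hq
  have h2 : (M ∘ ofComplex) = fun w => cuspFunction 1 M (Periodic.qParam 1 w) :=
    funext (comp_ofComplex_eq M)
  have h3 := h1.hasDerivAt.comp (τ : ℂ) (hasDerivAt_qParam τ)
  unfold Derivative.normalizedDerivOfComplex
  rw [h2]
  have h4 : deriv (fun w => cuspFunction 1 M (Periodic.qParam 1 w)) (τ : ℂ) = _ := h3.deriv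
  rw [h4]
  have h5 : (2 * (Real.pi : ℂ) * Complex.I) ≠ 0 := Complex.two_pi_I_ne_zero
  field_simp

lemma eq_qParam_mul_deriv (f : CuspForm (Gamma0 136) 2) (A : ℕ → ℤ) (hA : Data f A)
    (hder : ∀ τ : ℍ, HasDerivAt (fun z : ℂ => prim f (ofComplex z))
      (2 * Real.pi * Complex.I * f τ) τ) :
    ∀ᶠ q in 𝓝[≠] (0 : ℂ), ∀ τ : ℍ, Periodic.qParam 1 τ = q →
      f τ = q * deriv (fun q => q * zser f q) q := by
  have h1 : AnalyticAt ℂ (fun q => q * zser f q) 0 := analyticAt_id.mul (analyticAt_zser f A hA)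
  filter_upwards [h1.eventually_analyticAt.filter_mono nhdsWithin_le_nhds] with q h2 τ hτ
  subst hτ
  have h3 : HasDerivAt (fun w => Periodic.qParam 1 w * zser f (Periodic.qParam 1 w))
      (deriv (fun q => q * zser f q) (Periodic.qParam 1 τ) *
        (2 * Real.pi * Complex.I * Periodic.qParam 1 τ)) (τ : ℂ) :=
    h2.differentiableAt.hasDerivAt.comp (τ : ℂ) (hasDerivAt_qParam τ)
  have h4 : (fun z : ℂ => prim f (ofComplex z)) =ᶠ[𝓝 (τ : ℂ)]
      fun w => Periodic.qParam 1 w * zser f (Periodic.qParam 1 w) := by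
    filter_upwards [isOpen_upperHalfPlaneSet.mem_nhds τ.im_pos] with w hw
    rw [prim_eq f A hA, ofComplex_apply_of_im_pos hw]
  have h5 := (h3.congr_of_eventuallyEq h4).unique (hder τ)
  have h6 : (2 * (Real.pi : ℂ) * Complex.I) ≠ 0 := Complex.two_pi_I_ne_zero
  apply mul_left_cancel₀ h6
  rw [← h5]
  ring

/-- the identity near the cusp `∞`, in terms of `q` -/
lemma unif_near_zero (L : PeriodPair) (hg2 : L.g₂ = 52 / 3) (hg3 : L.g₃ = -152 / 27)
    (f : CuspForm (Gamma0 136) 2) (A : ℕ → ℤ) (hA : Data f A)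
    (hder : ∀ τ : ℍ, HasDerivAt (fun z : ℂ => prim f (ofComplex z))
      (2 * Real.pi * Complex.I * f τ) τ)
    (H G : ModularForm (Gamma0 136) 4) (hH0 : (qExpansion 1 H).coeff 0 = 612)
    (hG0 : (qExpansion 1 G).coeff 0 = 0) (hG1 : (qExpansion 1 G).coeff 1 = 0)
    (hG2 : (qExpansion 1 G).coeff 2 = 612)
    (hode : ∀ τ : ℍ, (Derivative.normalizedDerivOfComplex H τ * G τ -
        H τ * Derivative.normalizedDerivOfComplex G τ) ^ 2 =
      4 * f τ ^ 2 * (H τ ^ 3 * G τ + H τ ^ 2 * G τ ^ 2 - 4 * H τ * G τ ^ 3)) :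
    ∀ᶠ q in 𝓝[≠] (0 : ℂ), q * zser f q ∉ L.lattice ∧
      cuspFunction 1 H q = cuspFunction 1 G q * (L.weierstrassP (q * zser f q) - 1 / 3) := by
  have hHa : AnalyticAt ℂ (cuspFunction 1 H) 0 :=
    ModularFormClass.analyticAt_cuspFunction_zero H one_pos (by simp)
  have hGa : AnalyticAt ℂ (cuspFunction 1 G) 0 :=
    ModularFormClass.analyticAt_cuspFunction_zero G one_pos (by simp)
  rw [qExpansion_coeff] at hH0 hG0 hG1 hG2
  have i0 : iteratedDeriv 0 (cuspFunction 1 G) 0 = 0 := by simpa using hG0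
  have i1 : iteratedDeriv 1 (cuspFunction 1 G) 0 = 0 := by simpa using hG1
  have i2 : iteratedDeriv 2 (cuspFunction 1 G) 0 = 2 * 612 := by
    have : ((2 : ℕ).factorial : ℂ) = 2 := by norm_num [Nat.factorial]
    rw [this] at hG2
    linear_combination 2 * hG2
  have hord : ((2 : ℕ) : ℕ∞) ≤ analyticOrderAt (cuspFunction 1 G) 0 := by
    rw [natCast_le_analyticOrderAt_iff_iteratedDeriv_eq_zero hGa]
    intro i hi
    interval_cases i
    · exact i0
    · exact i1
  rw [natCast_le_analyticOrderAt hGa] at hord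
  obtain ⟨k, hk, hGk⟩ := hord
  simp only [sub_zero, smul_eq_mul] at hGk
  have hk0 : k 0 = 612 := by
    have h1 : iteratedDeriv 2 (cuspFunction 1 G) 0 = iteratedDeriv 2 (fun q => q ^ 2 * k q) 0 :=
      Filter.EventuallyEq.iteratedDeriv_eq 2 hGk
    rw [i2, iteratedDeriv_fun_mul (by fun_prop) hk.contDiffAt] at h1
    simp [Finset.sum_range_succ] at h1
    exact h1.symm
  have hza : AnalyticAt ℂ (fun q => q * zser f q) 0 :=
    analyticAt_id.mul (analyticAt_zser f A hA)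
  refine unif_local L hg2 hg3 (c := 612) (by norm_num) hHa (by simpa using hH0) hk hk0 hGa hGk
    hza (by simp) ?_ ?_
  · have h1 : HasDerivAt (fun q => q * zser f q) (1 * zser f 0 + 0 * deriv (zser f) 0) 0 :=
      (hasDerivAt_id (0 : ℂ)).mul (analyticAt_zser f A hA).differentiableAt.hasDerivAt
    rw [h1.deriv, zser_zero f A hA]
    ring
  · have hball : ∀ᶠ q in 𝓝[≠] (0 : ℂ), ‖q‖ < 1 := by
      have : Metric.ball (0 : ℂ) 1 ∈ 𝓝[≠] (0 : ℂ) :=
        mem_nhdsWithin_of_mem_nhds (Metric.ball_mem_nhds _ one_pos)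
      filter_upwards [this] with q hq
      simpa using hq
    have hne : ∀ᶠ q in 𝓝[≠] (0 : ℂ), q ≠ 0 := self_mem_nhdsWithin
    filter_upwards [eq_qParam_mul_deriv f A hA hder, hball, hne] with q h1 h2 h3
    have him := Periodic.im_invQParam_pos_of_norm_lt_one one_pos h2 h3
    set τ : ℍ := ⟨Periodic.invQParam 1 q, him⟩ with hτ
    have hqτ : Periodic.qParam 1 (τ : ℂ) = q := Periodic.qParam_right_inv one_ne_zero h3
    have h4 := hode τ
    rw [normalizedDeriv_eq, normalizedDeriv_eq, h1 τ hqτ, hqτ] at h4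
    have h5 : H τ = cuspFunction 1 H q := by
      rw [← hqτ]
      exact (SlashInvariantFormClass.eq_cuspFunction H τ (by simp) one_ne_zero).symm
    have h6 : G τ = cuspFunction 1 G q := by
      rw [← hqτ]
      exact (SlashInvariantFormClass.eq_cuspFunction G τ (by simp) one_ne_zero).symm
    rw [h5, h6] at h4
    apply mul_left_cancel₀ (pow_ne_zero 2 h3)
    linear_combination h4

/-- The limit of the primitive of `f` at a cusp lies in the lattice, since `hh / gg` has a pole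
there. -/
theorem mem_lattice_of_tendsto (L : PeriodPair) (hg2 : L.g₂ = 52 / 3) (hg3 : L.g₃ = -152 / 27)
    (f : CuspForm (Gamma0 136) 2) (A : ℕ → ℤ) (hA : Data f A)
    (hder : ∀ τ : ℍ, HasDerivAt (fun z : ℂ => prim f (ofComplex z))
      (2 * Real.pi * Complex.I * f τ) τ)
    (hH : (∃ M : ModularForm (Gamma0 136) 4, ⇑M = hh f) ∧ (qExpansion 1 (hh f)).coeff 0 = 612)
    (hG : (∃ M : ModularForm (Gamma0 136) 4, ⇑M = gg f) ∧ (qExpansion 1 (gg f)).coeff 0 = 0 ∧
      (qExpansion 1 (gg f)).coeff 1 = 0 ∧ (qExpansion 1 (gg f)).coeff 2 = 612)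
    (hode : ∀ τ : ℍ, (Derivative.normalizedDerivOfComplex (hh f) τ * gg f τ -
        hh f τ * Derivative.normalizedDerivOfComplex (gg f) τ) ^ 2 =
      4 * f τ ^ 2 * (hh f τ ^ 3 * gg f τ + hh f τ ^ 2 * gg f τ ^ 2 - 4 * hh f τ * gg f τ ^ 3))
    (r : ℚ) (l : ℂ)
    (hl : Tendsto (fun t : ℝ => prim f (ofComplex ((r : ℂ) + t * Complex.I))) (𝓝[>] 0) (𝓝 l))
    (hx : Tendsto (fun t : ℝ => gg f (ofComplex ((r : ℂ) + t * Complex.I)) /
      hh f (ofComplex ((r : ℂ) + t * Complex.I))) (𝓝[>] 0) (𝓝 0)) :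
    l ∈ L.lattice := by
  obtain ⟨⟨H, hHM⟩, hH0⟩ := hH
  obtain ⟨⟨G, hGM⟩, hG0, hG1, hG2⟩ := hG
  rw [← hHM] at hH0 hode hx
  rw [← hGM] at hG0 hG1 hG2 hode hx
  by_contra hlat
  have hnear := unif_near_zero L hg2 hg3 f A hA hder H G hH0 hG0 hG1 hG2 hode
  set U : Set ℂ := {w : ℂ | 0 < w.im} with hU
  have hUo : IsOpen U := isOpen_lt continuous_const Complex.continuous_im
  have hUc : IsPreconnected U := (convex_halfSpace_im_gt 0).isPreconnected
  have hMd : ∀ M : ModularForm (Gamma0 136) 4, DifferentiableOn ℂ (fun w => M (ofComplex w)) U := by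
    intro M w hw
    have hq : ‖Periodic.qParam 1 w‖ < 1 := Periodic.norm_qParam_lt_one one_pos hw
    have h1 : DifferentiableAt ℂ (cuspFunction 1 M) (Periodic.qParam 1 w) :=
      ModularFormClass.differentiableAt_cuspFunction M one_pos (by simp) hq
    have h2 : (fun w => M (ofComplex w)) = fun w => cuspFunction 1 M (Periodic.qParam 1 w) :=
      funext (comp_ofComplex_eq M)
    rw [h2]
    exact (h1.comp w (hasDerivAt_qParam w).differentiableAt).differentiableWithinAt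
  have hPd : DifferentiableOn ℂ (fun w => prim f (ofComplex w)) U := fun w hw =>
    (hder ⟨w, hw⟩).differentiableAt.differentiableWithinAt
  have hMa : ∀ M : ModularForm (Gamma0 136) 4, ∀ w ∈ U,
      AnalyticAt ℂ (fun w => M (ofComplex w)) w := fun M w hw =>
    (hMd M).analyticAt (hUo.mem_nhds hw)
  have hPa : ∀ w ∈ U, AnalyticAt ℂ (fun w => prim f (ofComplex w)) w := fun w hw =>
    hPd.analyticAt (hUo.mem_nhds hw)
  set Φ : ℂ → ℂ := fun w => H (ofComplex w) -
    G (ofComplex w) * (L.weierstrassP (prim f (ofComplex w)) - 1 / 3) with hΦ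
  have hmero : MeromorphicOn Φ U := by
    intro w hw
    have h1 : MeromorphicAt (fun w => L.weierstrassP (prim f (ofComplex w))) w :=
      (L.meromorphic_weierstrassP _).comp_analyticAt (hPa w hw)
    exact (hMa H w hw).meromorphicAt.sub ((hMa G w hw).meromorphicAt.mul
      (h1.sub (MeromorphicAt.const _ _)))
  -- `Φ` vanishes near `i∞`
  obtain ⟨T, hT0, hT⟩ : ∃ T : ℝ, 0 < T ∧ ∀ w : ℂ, T ≤ w.im → Φ w = 0 := by
    have h1 := (Periodic.qParam_tendsto one_pos).eventually hnear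
    rw [eventually_comap] at h1
    obtain ⟨T, hT⟩ := (h1.and (eventually_gt_atTop (0 : ℝ))).exists_forall_of_atTop
    refine ⟨T, (hT T le_rfl).2, fun w hw => ?_⟩
    have h2 := ((hT _ hw).1 w rfl).2
    have hw0 : 0 < w.im := (hT _ hw).2
    simp only [hΦ]
    have h3 : H (ofComplex w) = cuspFunction 1 H (Periodic.qParam 1 w) := comp_ofComplex_eq H w
    have h4 : G (ofComplex w) = cuspFunction 1 G (Periodic.qParam 1 w) := comp_ofComplex_eq G w
    have h5 : prim f (ofComplex w) = Periodic.qParam 1 w * zser f (Periodic.qParam 1 w) := by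
      rw [prim_eq f A hA, ofComplex_apply_of_im_pos hw0]
    rw [h3, h4, h5, h2, sub_self]
  have hall : ∀ w ∈ U, meromorphicOrderAt Φ w = ⊤ := by
    intro w hw
    by_contra hne
    have hTU : (((T + 1 : ℝ) : ℂ) * Complex.I) ∈ U := by
      have : (((T + 1 : ℝ) : ℂ) * Complex.I).im = T + 1 := by simp
      rw [hU, Set.mem_ofPred_eq, this]
      linarith
    have h1 := hmero.meromorphicOrderAt_ne_top_of_isPreconnected hUc hw hTU hne
    apply h1
    rw [meromorphicOrderAt_eq_top_iff]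
    apply Eventually.filter_mono nhdsWithin_le_nhds
    have h2 : ∀ᶠ z in 𝓝 (((T + 1 : ℝ) : ℂ) * Complex.I), T < z.im := by
      apply Complex.continuous_im.continuousAt.eventually
      have : (((T + 1 : ℝ) : ℂ) * Complex.I).im = T + 1 := by simp
      rw [this]
      exact lt_mem_nhds (by linarith)
    exact h2.mono fun z hz => hT z hz.le
  have hid : ∀ w ∈ U, prim f (ofComplex w) ∉ L.lattice → Φ w = 0 := by
    intro w hw hnl
    have h1 := meromorphicOrderAt_eq_top_iff.mp (hall w hw)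
    have h2 : ContinuousAt L.weierstrassP (prim f (ofComplex w)) :=
      (L.differentiableOn_weierstrassP.differentiableAt
        (L.isClosed_lattice.isOpen_compl.mem_nhds hnl)).continuousAt
    have h3 : ContinuousAt (fun w => L.weierstrassP (prim f (ofComplex w))) w :=
      ContinuousAt.comp (f := fun w => prim f (ofComplex w)) h2 (hPa w hw).continuousAt
    have h4 : ContinuousAt Φ w := (hMa H w hw).continuousAt.sub
      ((hMa G w hw).continuousAt.mul (h3.sub continuousAt_const))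
    exact tendsto_nhds_unique ((h4.tendsto.mono_left nhdsWithin_le_nhds))
      (tendsto_const_nhds.congr' (h1.mono fun z hz => hz.symm))
  -- along the vertical line
  have hpath : ∀ t : ℝ, 0 < t → ((r : ℂ) + t * Complex.I) ∈ U := by
    intro t ht
    rw [hU, Set.mem_ofPred_eq]
    simpa using ht
  have hcl : ContinuousAt L.weierstrassP l :=
    (L.differentiableOn_weierstrassP.differentiableAt
      (L.isClosed_lattice.isOpen_compl.mem_nhds hlat)).continuousAt
  have hy : Tendsto (fun t : ℝ => L.weierstrassP (prim f (ofComplex ((r : ℂ) + t * Complex.I))) -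
      1 / 3) (𝓝[>] 0) (𝓝 (L.weierstrassP l - 1 / 3)) := (hcl.tendsto.comp hl).sub_const _
  set C : ℝ := ‖L.weierstrassP l - 1 / 3‖ + 1 with hC
  have hC0 : 0 < C := by positivity
  have e1 : ∀ᶠ t : ℝ in 𝓝[>] 0,
      ‖L.weierstrassP (prim f (ofComplex ((r : ℂ) + t * Complex.I))) - 1 / 3‖ < C :=
    hy.norm.eventually_lt_const (by rw [hC]; linarith)
  have e2 : ∀ᶠ t : ℝ in 𝓝[>] 0, prim f (ofComplex ((r : ℂ) + t * Complex.I)) ∉ L.lattice :=
    hl.eventually (L.isClosed_lattice.isOpen_compl.mem_nhds hlat)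
  have e3 : ∀ᶠ t : ℝ in 𝓝[>] 0, ‖G (ofComplex ((r : ℂ) + t * Complex.I)) /
      H (ofComplex ((r : ℂ) + t * Complex.I))‖ < C⁻¹ := by
    have := hx.norm
    rw [norm_zero] at this
    exact this.eventually_lt_const (by positivity)
  have e4 : ∀ᶠ t : ℝ in 𝓝[>] 0, 0 < t := self_mem_nhdsWithin
  have e5 : ∀ᶠ t : ℝ in 𝓝[>] 0, H (ofComplex ((r : ℂ) + t * Complex.I)) = 0 := by
    filter_upwards [e1, e2, e3, e4] with t h1 h2 h3 h4
    have h5 := hid _ (hpath t h4) h2
    simp only [hΦ] at h5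
    rw [sub_eq_zero] at h5
    by_contra hne
    set y := L.weierstrassP (prim f (ofComplex ((r : ℂ) + t * Complex.I))) - 1 / 3 with hydef
    set gv := G (ofComplex ((r : ℂ) + t * Complex.I)) with hgv
    set hv := H (ofComplex ((r : ℂ) + t * Complex.I)) with hhv
    have hg0 : gv ≠ 0 := by
      intro h
      rw [h, zero_mul] at h5
      exact hne h5
    have hy0 : y ≠ 0 := by
      intro h
      rw [h, mul_zero] at h5
      exact hne h5
    have h6 : gv / hv = y⁻¹ := by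
      rw [h5]
      field_simp
    rw [h6, norm_inv] at h3
    exact absurd ((inv_lt_inv₀ (norm_pos_iff.mpr hy0) hC0).mp h3) (not_lt.mpr h1.le)
  obtain ⟨ε, hε0, hε⟩ : ∃ ε : ℝ, 0 < ε ∧ ∀ t : ℝ, 0 < t → t < ε →
      H (ofComplex ((r : ℂ) + t * Complex.I)) = 0 := by
    obtain ⟨ε, hε0, hε⟩ := mem_nhdsGT_iff_exists_Ioo_subset.mp e5
    exact ⟨ε, hε0, fun t h1 h2 => hε ⟨h1, h2⟩⟩
  -- `H` vanishes identically
  have hHzero : Set.EqOn (fun w => H (ofComplex w)) 0 U := by
    have h1 : AnalyticOnNhd ℂ (fun w => H (ofComplex w)) U := fun w hw => hMa H w hw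
    refine h1.eqOn_zero_of_preconnected_of_frequently_eq_zero hUc
      (hpath (ε / 2) (by positivity)) ?_
    have h2 : Tendsto (fun t : ℝ => (r : ℂ) + t * Complex.I) (𝓝[≠] (ε / 2))
        (𝓝[≠] ((r : ℂ) + (ε / 2 : ℝ) * Complex.I)) := by
      apply tendsto_nhdsWithin_of_tendsto_nhds_of_eventually_within
      · have : Continuous fun t : ℝ => (r : ℂ) + t * Complex.I := by fun_prop
        exact this.continuousAt.tendsto.mono_left nhdsWithin_le_nhds
      · filter_upwards [self_mem_nhdsWithin] with t ht h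
        apply ht
        have h3 := congrArg Complex.im h
        simpa using h3
    have h3 : ∀ᶠ t : ℝ in 𝓝[≠] (ε / 2), H (ofComplex ((r : ℂ) + t * Complex.I)) = 0 := by
      have : Set.Ioo 0 ε ∈ 𝓝[≠] (ε / 2) :=
        mem_nhdsWithin_of_mem_nhds (Ioo_mem_nhds (by positivity) (by linarith))
      filter_upwards [this] with t ht
      exact hε t ht.1 ht.2
    exact h2.frequently h3.frequently
  have hHa : AnalyticAt ℂ (cuspFunction 1 H) 0 :=
    ModularFormClass.analyticAt_cuspFunction_zero H one_pos (by simp)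
  have h0 : cuspFunction 1 H 0 = 0 := by
    have h1 : ∀ᶠ q in 𝓝[≠] (0 : ℂ), cuspFunction 1 H q = 0 := by
      have hball : ∀ᶠ q in 𝓝[≠] (0 : ℂ), ‖q‖ < 1 := by
        have : Metric.ball (0 : ℂ) 1 ∈ 𝓝[≠] (0 : ℂ) :=
          mem_nhdsWithin_of_mem_nhds (Metric.ball_mem_nhds _ one_pos)
        filter_upwards [this] with q hq
        simpa using hq
      have hne : ∀ᶠ q in 𝓝[≠] (0 : ℂ), q ≠ 0 := self_mem_nhdsWithin
      filter_upwards [hball, hne] with q h2 h3
      have him := Periodic.im_invQParam_pos_of_norm_lt_one one_pos h2 h3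
      have h4 : H (ofComplex (Periodic.invQParam 1 q)) = 0 := hHzero him
      have h5 := comp_ofComplex_eq H (Periodic.invQParam 1 q)
      rw [Periodic.qParam_right_inv one_ne_zero h3] at h5
      rw [← h5]
      exact h4
    exact eq_of_punctured (G := fun _ => 0) hHa.continuousAt continuousAt_const h1
  rw [qExpansion_coeff, iteratedDeriv_zero, h0, mul_zero] at hH0
  norm_num at hH0

end Pool.Agent.MT136
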